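import Pool.Agent.Work.MP_f6e909_al.SlConj

/-! # The affine group -/

namespace ProfArtin

private def lin : SL2 →* Aff where
  toFun x := ⟨0, x⟩
  map_one' := rfl
  map_mul' x y := by
    refine Aff.ext ?_ ?_
    · simp
    · simp

private def pr : Aff →* SL2 where
  toFun x := x.m
  map_one' := rfl
  map_mul' _ _ := rfl

private theorem tr_add (u v : Fin 2 → ℤ) : (⟨u + v, 1⟩ : Aff) = ⟨u, 1⟩ * ⟨v, 1⟩ := by
  refine Aff.ext ?_ ?_
  · simp
  · simp

private theorem tr_neg (u : Fin 2 → ℤ) : (⟨-u, 1⟩ : Aff) = (⟨u, 1⟩ : Aff)⁻¹ := by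
  refine Aff.ext ?_ ?_
  · simp
  · simp

private theorem tr_zsmul_mem (H : Subgroup Aff) (u : Fin 2 → ℤ) (h : (⟨u, 1⟩ : Aff) ∈ H) (k : ℤ) :
    (⟨k • u, 1⟩ : Aff) ∈ H := by
  have hn : ∀ n : ℕ, (⟨(n : ℤ) • u, 1⟩ : Aff) ∈ H := by
    intro n
    induction n with
    | zero =>
      have : (⟨((0 : ℕ) : ℤ) • u, 1⟩ : Aff) = 1 := by
        refine Aff.ext ?_ ?_ <;> simp
      rw [this]
      exact H.one_mem
    | succ n ih =>
      have : (⟨((n + 1 : ℕ) : ℤ) • u, 1⟩ : Aff) = ⟨(n : ℤ) • u, 1⟩ * ⟨u, 1⟩ := by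
        rw [← tr_add]
        push_cast
        rw [add_smul, one_smul]
      rw [this]
      exact H.mul_mem ih h
  obtain ⟨n, rfl | rfl⟩ := k.eq_nat_or_neg
  · exact hn n
  · rw [neg_smul, tr_neg]
    exact H.inv_mem (hn n)

/-- generators of the affine group -/
theorem aff_closure :
    Subgroup.closure ({⟨0, matT⟩, ⟨![1, 0], matT⟩, ⟨0, matU⟩} : Set Aff) = ⊤ := by
  set H := Subgroup.closure ({⟨0, matT⟩, ⟨![1, 0], matT⟩, ⟨0, matU⟩} : Set Aff) with hH
  have g1 : (⟨0, matT⟩ : Aff) ∈ H := Subgroup.subset_closure (by simp)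
  have g2 : (⟨![1, 0], matT⟩ : Aff) ∈ H := Subgroup.subset_closure (by simp)
  have g3 : (⟨0, matU⟩ : Aff) ∈ H := Subgroup.subset_closure (by simp)
  have hlin : ∀ x : SL2, (⟨0, x⟩ : Aff) ∈ H := by
    intro x
    have h : (⊤ : Subgroup SL2) ≤ H.comap lin := by
      rw [← sl_closure, Subgroup.closure_le]
      rintro y (rfl | rfl)
      · exact g1
      · exact g3
    exact h (Subgroup.mem_top x)
  have t1 : (⟨![1, 0], 1⟩ : Aff) ∈ H := by
    have : (⟨![1, 0], 1⟩ : Aff) = ⟨![1, 0], matT⟩ * ⟨0, matT⟩⁻¹ := by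
      rw [eq_mul_inv_iff_mul_eq]
      refine Aff.ext ?_ ?_ <;> simp
    rw [this]
    exact H.mul_mem g2 (H.inv_mem g1)
  have t2 : (⟨![0, 1], 1⟩ : Aff) ∈ H := by
    have h : (⟨![1, -1], 1⟩ : Aff) = ⟨0, matU⟩ * ⟨![1, 0], 1⟩ * ⟨0, matU⟩⁻¹ := by
      rw [eq_mul_inv_iff_mul_eq]
      refine Aff.ext ?_ ?_
      · ext i
        fin_cases i <;> simp [matU, Matrix.mulVec, dotProduct, Fin.sum_univ_two]
      · simp
    have h2 : (⟨![1, -1], 1⟩ : Aff) ∈ H := by
      rw [h]
      exact H.mul_mem (H.mul_mem g3 t1) (H.inv_mem g3)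
    have h3 : (⟨![0, 1], 1⟩ : Aff) = ⟨![1, 0], 1⟩ * ⟨![1, -1], 1⟩⁻¹ := by
      rw [← tr_neg, ← tr_add]
      refine Aff.ext ?_ rfl
      ext i
      fin_cases i <;> simp
    rw [h3]
    exact H.mul_mem t1 (H.inv_mem h2)
  rw [eq_top_iff]
  intro x _
  have hx : x = ⟨x.u 0 • ![1, 0], 1⟩ * ⟨x.u 1 • ![0, 1], 1⟩ * ⟨0, x.m⟩ := by
    rw [← tr_add]
    refine Aff.ext ?_ ?_
    · ext i
      fin_cases i <;> simp
    · simp
  rw [hx]
  exact H.mul_mem (H.mul_mem (tr_zsmul_mem H _ t1 _) (tr_zsmul_mem H _ t2 _)) (hlin _)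

theorem aff_braid (u : Fin 2 → ℤ) (hu : u = 0 ∨ u = ![1, 0]) :
    (⟨u, matT⟩ : Aff) * ⟨0, matU⟩ * ⟨u, matT⟩ = ⟨0, matU⟩ * ⟨u, matT⟩ * ⟨0, matU⟩ := by
  refine Aff.ext ?_ sl_braid
  rcases hu with rfl | rfl
  · simp
  · ext i
    fin_cases i <;>
      simp [matT, matU, Matrix.mulVec, dotProduct, Fin.sum_univ_two, Matrix.mul_apply]

theorem aff_comm : (⟨0, matT⟩ : Aff) * ⟨![1, 0], matT⟩ = ⟨![1, 0], matT⟩ * ⟨0, matT⟩ := by
  refine Aff.ext ?_ rfl
  ext i
  fin_cases i <;>
    simp [matT, Matrix.mulVec, dotProduct, Fin.sum_univ_two]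

/-- the affine group has trivial center -/
theorem aff_center (x : Aff) (h : ∀ y : Aff, x * y = y * x) : x = 1 := by
  have h1 : ∀ v : Fin 2 → ℤ, x.m.1.mulVec v = v := by
    intro v
    have := congrArg Aff.u (h ⟨v, 1⟩)
    simp only [Aff.mul_u, Matrix.SpecialLinearGroup.coe_one, Matrix.one_mulVec] at this
    rw [add_comm] at this
    exact add_right_cancel this
  have h2 : x.u = 0 := by
    apply sl_fix_all
    intro y
    left
    have := congrArg Aff.u (h ⟨0, y⟩)
    simp only [Aff.mul_u, Matrix.mulVec_zero, add_zero, zero_add] at this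
    exact this.symm
  refine Aff.ext h2 ?_
  apply Subtype.ext
  apply Matrix.ext_of_mulVec_single
  intro i
  rw [h1]
  ext j
  simp [Matrix.col_apply, Matrix.one_apply, Pi.single_apply]

/-- The affine group is not generated by two elements `p`, `q` with `p q p = q p q`.
(`(p q p)² = (p q)³` is central, hence trivial; the linear part of `p q p` is `± 1`, and
the group would have commutative linear part.) -/
theorem aff_not_braid (p q : Aff) (h : p * q * p = q * p * q) :
    Subgroup.closure ({p, q} : Set Aff) ≠ ⊤ := by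
  intro htop
  set c := p * q * p with hc
  have e1 : c * p = q * c := by
    calc c * p = q * p * q * p := by rw [h]
      _ = q * c := by rw [hc]; group
  have e2 : c * q = p * c := by
    calc c * q = p * (q * p * q) := by rw [hc]; group
      _ = p * c := by rw [h]
  have cp : Commute (c * c) p := by
    show c * c * p = p * (c * c)
    rw [mul_assoc, e1, ← mul_assoc, e2, mul_assoc]
  have cq : Commute (c * c) q := by
    show c * c * q = q * (c * c)
    rw [mul_assoc, e2, ← mul_assoc, e1, mul_assoc]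
  have cen : ∀ y : Aff, (c * c) * y = y * (c * c) := by
    intro y
    have hy : y ∈ Subgroup.closure ({p, q} : Set Aff) := by
      rw [htop]
      trivial
    have : Commute (c * c) y := by
      induction hy using Subgroup.closure_induction with
      | mem y hy =>
        rcases hy with rfl | rfl
        · exact cp
        · exact cq
      | one => exact Commute.one_right _
      | mul y z _ _ hy hz => exact hy.mul_right hz
      | inv y _ hy => exact hy.inv_right
    exact this.eq
  have hcc := aff_center _ cen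
  have hcm : c.m * c.m = 1 := by
    have := congrArg Aff.m hcc
    simpa using this
  have hz : ∀ x : SL2, c.m * x = x * c.m := by
    intro x
    rcases sl_involution _ hcm with h | h
    · rw [h, one_mul, mul_one]
    · rw [h]
      simp
  have hpq : p.m = q.m := by
    have := congrArg Aff.m e1
    simp only [Aff.mul_m] at this
    rw [hz] at this
    exact mul_right_cancel this
  have hsub : ∀ y : Aff, y.m ∈ Subgroup.zpowers p.m := by
    intro y
    have hy : y ∈ Subgroup.closure ({p, q} : Set Aff) := by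
      rw [htop]
      trivial
    induction hy using Subgroup.closure_induction with
    | mem y hy =>
      rcases hy with rfl | rfl
      · exact Subgroup.mem_zpowers _
      · rw [hpq]
        exact Subgroup.mem_zpowers _
    | one => exact Subgroup.one_mem _
    | mul y z _ _ hy hz => exact Subgroup.mul_mem _ hy hz
    | inv y _ hy => exact Subgroup.inv_mem _ hy
  apply sl_not_comm
  intro x y
  obtain ⟨i, hi⟩ := Subgroup.mem_zpowers_iff.mp (hsub ⟨0, x⟩)
  obtain ⟨j, hj⟩ := Subgroup.mem_zpowers_iff.mp (hsub ⟨0, y⟩)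
  simp only at hi hj
  rw [← hi, ← hj]
  exact ((Commute.refl p.m).zpow_zpow i j).eq

private theorem core (X Y : Subgroup Aff) (hXY : ∀ x ∈ X, ∀ y ∈ Y, x * y = y * x)
    (hgen : X ⊔ Y = ⊤) (hY : ∀ y ∈ Y, y.m = 1 ∨ y.m = -1) : Y = ⊥ := by
  have hcl : ∀ g : Aff, g ∈ Subgroup.closure ((X : Set Aff) ∪ (Y : Set Aff)) := by
    intro g
    rw [← Subgroup.sup_eq_closure, hgen]
    trivial
  -- every matrix is up to sign a linear part of `X`
  have hK : ∀ g : Aff, ∃ a ∈ X, a.m = g.m ∨ a.m = -g.m := by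
    intro g
    induction hcl g using Subgroup.closure_induction with
    | mem y hy =>
      rcases hy with hy | hy
      · exact ⟨y, hy, Or.inl rfl⟩
      · refine ⟨1, X.one_mem, ?_⟩
        rcases hY y hy with h | h
        · left
          rw [h]
          rfl
        · right
          rw [h, neg_neg]
          rfl
    | one => exact ⟨1, X.one_mem, Or.inl rfl⟩
    | mul y z _ _ hy hz =>
      obtain ⟨a, ha, ha'⟩ := hy
      obtain ⟨b, hb, hb'⟩ := hz
      refine ⟨a * b, X.mul_mem ha hb, ?_⟩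
      simp only [Aff.mul_m]
      rcases ha' with ha' | ha' <;> rcases hb' with hb' | hb' <;> rw [ha', hb']
      · left; rfl
      · right; rw [mul_neg]
      · right; rw [neg_mul]
      · left; rw [neg_mul_neg]
    | inv y _ hy =>
      obtain ⟨a, ha, ha'⟩ := hy
      refine ⟨a⁻¹, X.inv_mem ha, ?_⟩
      simp only [Aff.inv_m]
      rcases ha' with ha' | ha' <;> rw [ha']
      · left; rfl
      · right
        rw [inv_eq_iff_mul_eq_one, neg_mul_neg, mul_inv_cancel]
  have hN : ∀ g : Aff, ∀ y ∈ Y, g * y * g⁻¹ ∈ Y ∧ g⁻¹ * y * g ∈ Y := by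
    intro g
    induction hcl g using Subgroup.closure_induction with
    | mem g hg =>
      intro y hy
      rcases hg with hg | hg
      · have h1 := hXY g hg y hy
        have h2 := hXY g⁻¹ (X.inv_mem hg) y hy
        rw [h1, h2, mul_inv_cancel_right, inv_mul_cancel_right]
        exact ⟨hy, hy⟩
      · exact ⟨Y.mul_mem (Y.mul_mem hg hy) (Y.inv_mem hg),
          Y.mul_mem (Y.mul_mem (Y.inv_mem hg) hy) hg⟩
    | one =>
      intro y hy
      simpa using hy
    | mul g h _ _ hg hh =>
      intro y hy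
      refine ⟨?_, ?_⟩
      · have := (hg _ (hh y hy).1).1
        rw [mul_inv_rev]
        simpa only [mul_assoc] using this
      · have := (hh _ (hg y hy).2).2
        rw [mul_inv_rev]
        simpa only [mul_assoc] using this
    | inv g _ hg =>
      intro y hy
      rw [inv_inv]
      exact ⟨(hg y hy).2, (hg y hy).1⟩
  have h1 : ∀ u : Fin 2 → ℤ, (⟨u, 1⟩ : Aff) ∈ Y → u = 0 := by
    intro u hu
    apply sl_fix_all
    intro x
    obtain ⟨a, ha, ha'⟩ := hK ⟨0, x⟩
    have := congrArg Aff.u (hXY a ha _ hu)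
    simp only [Aff.mul_u, Matrix.SpecialLinearGroup.coe_one, Matrix.one_mulVec] at this
    have h2 : a.m.1.mulVec u = u := by
      rw [add_comm] at this
      exact add_right_cancel this
    simp only at ha'
    rcases ha' with ha' | ha'
    · left
      rw [ha'] at h2
      exact h2
    · right
      rw [ha', Matrix.SpecialLinearGroup.coe_neg, Matrix.neg_mulVec] at h2
      exact neg_eq_iff_eq_neg.mp h2
  rw [eq_bot_iff]
  intro y hy
  rw [Subgroup.mem_bot]
  rcases hY y hy with h | h
  · have hy' : y = ⟨y.u, 1⟩ := Aff.ext rfl h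
    rw [hy'] at hy
    rw [hy', h1 _ hy]
    rfl
  · exfalso
    have hy' : y = ⟨y.u, -1⟩ := Aff.ext rfl h
    rw [hy'] at hy
    have h3 := (hN ⟨![1, 0], 1⟩ _ hy).1
    have h4 := Y.mul_mem h3 hy
    have h5 : (⟨![1, 0], 1⟩ : Aff) * ⟨y.u, -1⟩ * (⟨![1, 0], 1⟩ : Aff)⁻¹ * ⟨y.u, -1⟩ =
        ⟨![2, 0], 1⟩ := by
      refine Aff.ext ?_ ?_
      · have : ∀ w v : Fin 2 → ℤ, ((⟨w, 1⟩ : Aff) * ⟨v, -1⟩ * (⟨w, 1⟩ : Aff)⁻¹ * ⟨v, -1⟩).u =
            w + w := by
          intro w v
          simp only [Aff.mul_u, Aff.mul_m, Aff.inv_u, Aff.inv_m, inv_one,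
            Matrix.SpecialLinearGroup.coe_one, Matrix.one_mulVec,
            one_mul, mul_one, Matrix.SpecialLinearGroup.coe_neg, Matrix.neg_mulVec]
          abel
        rw [this]
        ext i
        fin_cases i <;> simp
      · simp
    rw [h5] at h4
    have h6 := congrFun (h1 _ h4) 0
    simp at h6

/-- Two commuting subgroups which generate the affine group: one of them is trivial.
(Linear parts: one of the two consists of `± 1` by `sl_centralizer`; then see the blueprint.) -/
theorem aff_commuting (X Y : Subgroup Aff) (hXY : ∀ x ∈ X, ∀ y ∈ Y, x * y = y * x)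
    (hgen : X ⊔ Y = ⊤) : X = ⊥ ∨ Y = ⊥ := by
  by_cases hX : ∀ x ∈ X, x.m = 1 ∨ x.m = -1
  · left
    exact core Y X (fun y hy x hx => (hXY x hx y hy).symm) (by rw [sup_comm, hgen]) hX
  right
  push Not at hX
  obtain ⟨x, hx, hx1, hx2⟩ := hX
  apply core X Y hXY hgen
  intro y hy
  by_contra hcon
  push Not at hcon
  apply sl_not_comm
  -- `y.m` is central
  have hcl : ∀ g : Aff, g ∈ Subgroup.closure ((X : Set Aff) ∪ (Y : Set Aff)) := by
    intro g
    rw [← Subgroup.sup_eq_closure, hgen]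
    trivial
  have hc : ∀ g : Aff, Commute y.m g.m := by
    intro g
    induction hcl g using Subgroup.closure_induction with
    | mem g hg =>
      rcases hg with hg | hg
      · exact (congrArg Aff.m (hXY g hg y hy)).symm
      · exact sl_centralizer x.m _ _ hx1 hx2 (congrArg Aff.m (hXY x hx y hy))
          (congrArg Aff.m (hXY x hx g hg))
    | one => exact Commute.one_right _
    | mul g h _ _ hg hh => exact hg.mul_right hh
    | inv g _ hg => exact hg.inv_right
  intro a b
  exact sl_centralizer y.m a b hcon.1 hcon.2 (hc ⟨0, a⟩).eq (hc ⟨0, b⟩).eq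

end ProfArtin
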