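import Pool.Agent.Work.MP_f6e909_al.Defs

/-! # Basic API of Artin groups -/

namespace ProfArtin

variable {S : Type}

theorem alt_two {X : Type} [Monoid X] (a b : X) : alt a b 2 = a * b := by
  simp [alt]

theorem alt_three {X : Type} [Monoid X] (a b : X) : alt a b 3 = a * b * a := by
  simp [alt, mul_assoc]

private theorem map_alt {X Y : Type} [Monoid X] [Monoid Y] (F : X →* Y) (a b : X) (m : ℕ) :
    F (alt a b m) = alt (F a) (F b) m := by
  induction m generalizing a b with
  | zero => simp [alt]
  | succ k ih => simp only [alt, map_mul, ih]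

/-- universal property -/
theorem art_lift {X : Type} [Group X] (M : CoxeterMatrix S) (f : S → X)
    (h : ∀ s t, s ≠ t → M s t ≠ 0 → alt (f s) (f t) (M s t) = alt (f t) (f s) (M s t)) :
    ∃ F : ArtinGroup M →* X, ∀ s, F (gen M s) = f s := by
  refine ⟨PresentedGroup.toGroup (f := f) ?_, fun s => PresentedGroup.toGroup.of _⟩
  rintro r ⟨s, t, hst, h0, rfl⟩
  rw [map_mul, map_inv, map_alt, map_alt, FreeGroup.lift_apply_of, FreeGroup.lift_apply_of,
    h s t hst h0, mul_inv_cancel]

theorem art_rel (M : CoxeterMatrix S) {s t : S} (hst : s ≠ t) (h0 : M s t ≠ 0) :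
    alt (gen M s) (gen M t) (M s t) = alt (gen M t) (gen M s) (M s t) := by
  have h1 : alt (FreeGroup.of s) (FreeGroup.of t) (M s t) *
      (alt (FreeGroup.of t) (FreeGroup.of s) (M s t))⁻¹ ∈ artinRels M :=
    ⟨s, t, hst, h0, rfl⟩
  have h2 := PresentedGroup.one_of_mem h1
  rw [map_mul, map_inv, map_alt, map_alt] at h2
  exact mul_inv_eq_one.1 h2

theorem art_closure (M : CoxeterMatrix S) : Subgroup.closure (Set.range (gen M)) = ⊤ :=
  PresentedGroup.closure_range_of _

theorem art_ext {X : Type} [Group X] (M : CoxeterMatrix S) (F F' : ArtinGroup M →* X)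
    (h : ∀ s, F (gen M s) = F' (gen M s)) : F = F' :=
  PresentedGroup.ext h

theorem art_fg [Finite S] (M : CoxeterMatrix S) : Group.FG (ArtinGroup M) := by
  refine Group.fg_iff.2 ⟨Set.range (gen M), art_closure M, Set.finite_range _⟩

end ProfArtin
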