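import Pool.Agent.Work.MP_f6e909_al.Defs

/-! # Central elements in type `A` and `D` -/

namespace ProfArtin

variable {G : Type} [Group G]

/-- partial products -/
private def pr (x : ℕ → G) : ℕ → G
  | 0 => 1
  | k + 1 => pr x k * x k

private theorem pr_mem {x : ℕ → G} (S : Subgroup G) (k : ℕ) (h : ∀ i, i < k → x i ∈ S) :
    pr x k ∈ S := by
  induction k with
  | zero => exact S.one_mem
  | succ k ih => exact S.mul_mem (ih fun i hi => h i (by omega)) (h k (by omega))

private theorem pr_comm {m : ℕ} {x : ℕ → G} (hx : Chain m x) {j : ℕ} (hj : j < m) (k : ℕ)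
    (hk : k + 1 ≤ j) : x j * pr x k = pr x k * x j := by
  induction k with
  | zero => simp [pr]
  | succ k ih =>
    show x j * (pr x k * x k) = pr x k * x k * x j
    rw [← mul_assoc, ih (by omega), mul_assoc, ← hx.comm k j (by omega) hj, mul_assoc]

private theorem pr_shift {m : ℕ} {x : ℕ → G} (hx : Chain m x) (i : ℕ) (d : ℕ)
    (h : i + 2 + d ≤ m) : pr x (i + 2 + d) * x i = x (i + 1) * pr x (i + 2 + d) := by
  induction d with
  | zero =>
    show pr x i * x i * x (i + 1) * x i = x (i + 1) * (pr x i * x i * x (i + 1))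
    calc pr x i * x i * x (i + 1) * x i = pr x i * (x i * x (i + 1) * x i) := by
          simp only [mul_assoc]
      _ = pr x i * (x (i + 1) * x i * x (i + 1)) := by rw [hx.braid i (by omega)]
      _ = pr x i * x (i + 1) * x i * x (i + 1) := by simp only [mul_assoc]
      _ = x (i + 1) * pr x i * x i * x (i + 1) := by
          rw [pr_comm hx (by omega : i + 1 < m) i le_rfl]
      _ = x (i + 1) * (pr x i * x i * x (i + 1)) := by simp only [mul_assoc]
  | succ d ih =>
    show pr x (i + 2 + d) * x (i + 2 + d) * x i = x (i + 1) * (pr x (i + 2 + d) * x (i + 2 + d))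
    rw [mul_assoc, ← hx.comm i (i + 2 + d) (by omega) (by omega), ← mul_assoc, ih (by omega),
      mul_assoc]

/-- type `A`: with `δ = x 0 * x 1 * ⋯ * x (m - 1)` the element `δ ^ (m + 1)` commutes with
all `x k`. Proof: `δ * x i = x (i + 1) * δ`, hence `δ ^ 2 * x (m - 1) = x 0 * δ ^ 2`. -/
theorem cen_chain {m : ℕ} (hm : 1 ≤ m) {x : ℕ → G} (hx : Chain m x) :
    ∃ h ∈ Subgroup.closure (x '' {k | k < m}), (∀ k, k < m → h * x k = x k * h) ∧
      ∀ χ : G →* Multiplicative ℤ, (∀ k, k < m → χ (x k) = Multiplicative.ofAdd 1) →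
        χ h = Multiplicative.ofAdd ((m : ℤ) * (m + 1)) := by
  have hs : ∀ i, i + 1 < m → pr x m * x i = x (i + 1) * pr x m := by
    intro i hi
    have := pr_shift hx i (m - (i + 2)) (by omega)
    rwa [show i + 2 + (m - (i + 2)) = m by omega] at this
  have h0 : ∀ k, k < m → x 0 * (pr x m * pr x k) = pr x (k + 1) * pr x m := by
    intro k
    induction k with
    | zero => intro _; simp [pr]
    | succ k ih =>
      intro hk
      calc x 0 * (pr x m * pr x (k + 1)) = x 0 * (pr x m * pr x k) * x k := by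
            simp only [pr, mul_assoc]
        _ = pr x (k + 1) * (pr x m * x k) := by rw [ih (by omega)]; simp only [mul_assoc]
        _ = pr x (k + 1) * (x (k + 1) * pr x m) := by rw [hs k hk]
        _ = pr x (k + 1 + 1) * pr x m := by simp only [pr, mul_assoc]
  obtain ⟨m', rfl⟩ : ∃ m', m = m' + 1 := ⟨m - 1, by omega⟩
  set δ := pr x (m' + 1) with hδ
  have h1 : δ ^ 2 * x m' = x 0 * δ ^ 2 := by
    have e := h0 m' (by omega)
    calc δ ^ 2 * x m' = pr x (m' + 1) * δ * x m' := by rw [sq]
      _ = x 0 * (δ * pr x m') * x m' := by rw [← e]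
      _ = x 0 * (δ * (pr x m' * x m')) := by simp only [mul_assoc]
      _ = x 0 * δ ^ 2 := by
          rw [show pr x m' * x m' = δ from rfl, sq]
  have h2 : ∀ j k, k + j < m' + 1 → δ ^ j * x k = x (k + j) * δ ^ j := by
    intro j
    induction j with
    | zero => intro k _; simp
    | succ j ih =>
      intro k hk
      calc δ ^ (j + 1) * x k = δ * (δ ^ j * x k) := by rw [pow_succ']; simp only [mul_assoc]
        _ = δ * x (k + j) * δ ^ j := by rw [ih k (by omega)]; simp only [mul_assoc]
        _ = x (k + j + 1) * δ * δ ^ j := by rw [hs (k + j) (by omega)]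
        _ = x (k + (j + 1)) * δ ^ (j + 1) := by
            rw [pow_succ' δ j]; simp only [mul_assoc, add_assoc]
  refine ⟨δ ^ (m' + 1 + 1), ?_, ?_, ?_⟩
  · have hmem : ∀ i, i < m' + 1 → x i ∈ Subgroup.closure (x '' {k | k < m' + 1}) :=
      fun i hi => Subgroup.subset_closure ⟨i, hi, rfl⟩
    exact Subgroup.pow_mem _ (pr_mem _ _ hmem) _
  · intro k hk
    have e1 := h2 (m' - k) k (by omega)
    rw [show k + (m' - k) = m' by omega] at e1
    have e2 := h2 k 0 (by omega)
    rw [zero_add] at e2
    have e3 : δ ^ (m' + 1 + 1) = δ ^ k * (δ ^ 2 * δ ^ (m' - k)) := by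
      rw [← pow_add, ← pow_add]; congr 1; omega
    calc δ ^ (m' + 1 + 1) * x k = δ ^ k * (δ ^ 2 * (δ ^ (m' - k) * x k)) := by
          rw [e3]; simp only [mul_assoc]
      _ = δ ^ k * (δ ^ 2 * x m' * δ ^ (m' - k)) := by rw [e1]; simp only [mul_assoc]
      _ = δ ^ k * x 0 * (δ ^ 2 * δ ^ (m' - k)) := by rw [h1]; simp only [mul_assoc]
      _ = x k * δ ^ (m' + 1 + 1) := by rw [e2, e3]; simp only [mul_assoc]
  · intro χ hχ
    have hk : ∀ k, k ≤ m' + 1 → χ (pr x k) = Multiplicative.ofAdd (k : ℤ) := by
      intro k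
      induction k with
      | zero => intro _; simp [pr]
      | succ k ih =>
        intro hk
        rw [show pr x (k + 1) = pr x k * x k from rfl, map_mul, ih (by omega), hχ k (by omega),
          ← ofAdd_add]
        push_cast
        rfl
    rw [map_pow, hk _ le_rfl, ← ofAdd_nsmul]
    congr 1
    push_cast
    simp only [nsmul_eq_mul]
    push_cast
    ring

/-! ### type D -/

private theorem word_one {a b c : G} (h1 : a * c * a = c * a * c) (h2 : b * a = a * b)
    (hb' : b * c * b = c * b * c) :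
    c * (a * b) * c * (a * b) = a * b * c * (a * b) * c := by
  calc c * (a * b) * c * (a * b) = c * (a * b) * c * (b * a) := by rw [h2]
    _ = c * a * (b * c * b) * a := by simp only [mul_assoc]
    _ = (c * a * c) * b * c * a := by rw [hb']; simp only [mul_assoc]
    _ = a * c * (a * b) * c * a := by rw [← h1]; simp only [mul_assoc]
    _ = a * c * b * (a * c * a) := by rw [← h2]; simp only [mul_assoc]
    _ = a * (c * b * c) * a * c := by rw [h1]; simp only [mul_assoc]
    _ = a * b * c * (b * a) * c := by rw [← hb']; simp only [mul_assoc]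
    _ = a * b * c * (a * b) * c := by rw [h2]

private theorem word_step {t c d : G} (h1 : c * t * c * t = t * c * t * c) (h2 : d * t = t * d)
    (h3 : c * d * c = d * c * d) :
    d * (c * t * c) * d * (c * t * c) = (c * t * c) * d * (c * t * c) * d := by
  calc d * (c * t * c) * d * (c * t * c) = d * c * t * (c * d * c) * t * c := by
        simp only [mul_assoc]
    _ = d * c * t * (d * c * d) * t * c := by rw [h3]
    _ = d * c * (t * d) * c * (d * t) * c := by simp only [mul_assoc]
    _ = d * c * (d * t) * c * (t * d) * c := by rw [h2]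
    _ = (d * c * d) * t * c * t * d * c := by simp only [mul_assoc]
    _ = (c * d * c) * t * c * t * d * c := by rw [h3]
    _ = c * d * (c * t * c * t) * d * c := by simp only [mul_assoc]
    _ = c * d * (t * c * t * c) * d * c := by rw [h1]
    _ = c * (d * t) * c * t * (c * d * c) := by simp only [mul_assoc]
    _ = c * (t * d) * c * t * (d * c * d) := by rw [h2, h3]
    _ = c * t * d * c * (t * d) * c * d := by simp only [mul_assoc]
    _ = c * t * d * c * (d * t) * c * d := by rw [h2]
    _ = c * t * (d * c * d) * t * c * d := by simp only [mul_assoc]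
    _ = c * t * (c * d * c) * t * c * d := by rw [h3]
    _ = (c * t * c) * d * (c * t * c) * d := by simp only [mul_assoc]

private theorem word_swap {a b c : G} (h1 : a * c * a = c * a * c) (h2 : b * a = a * b)
    (hb' : b * c * b = c * b * c) :
    (c * (a * b) * c) * a = b * (c * (a * b) * c) ∧
      (c * (a * b) * c) * b = a * (c * (a * b) * c) := by
  constructor
  · calc c * (a * b) * c * a = c * b * (a * c * a) := by rw [← h2]; simp only [mul_assoc]
      _ = (c * b * c) * a * c := by rw [h1]; simp only [mul_assoc]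
      _ = b * (c * (b * a) * c) := by rw [← hb']; simp only [mul_assoc]
      _ = b * (c * (a * b) * c) := by rw [h2]
  · calc c * (a * b) * c * b = c * a * (b * c * b) := by simp only [mul_assoc]
      _ = (c * a * c) * b * c := by rw [hb']; simp only [mul_assoc]
      _ = a * (c * (a * b) * c) := by rw [← h1]; simp only [mul_assoc]

private theorem word_far {t p q : G} (h1 : q * t = t * q) (h2 : p * q * p = q * p * q) :
    p * (q * (p * t * p) * q) = q * (p * t * p) * q * p := by
  calc p * (q * (p * t * p) * q) = (p * q * p) * t * p * q := by simp only [mul_assoc]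
    _ = q * p * (q * t) * p * q := by rw [h2]; simp only [mul_assoc]
    _ = q * p * t * (q * p * q) := by rw [h1]; simp only [mul_assoc]
    _ = q * (p * t * p) * q * p := by rw [← h2]; simp only [mul_assoc]

private def tt (c : ℕ → G) (b : G) : ℕ → G
  | 0 => c 0 * b
  | k + 1 => c (k + 1) * tt c b k * c (k + 1)

section D

variable {m : ℕ} {c : ℕ → G} {b : G}

private theorem tt_comm_hi (hc : Chain m c)
    (hb : ∀ k, k < m → k ≠ 1 → b * c k = c k * b) {j : ℕ} (hj : j < m) (k : ℕ)
    (hk : k + 2 ≤ j) : Commute (c j) (tt c b k) := by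
  induction k with
  | zero =>
    have h1 : Commute (c j) (c 0) := (hc.comm 0 j (by omega) hj).symm
    have h2 : Commute (c j) b := (hb j hj (by omega)).symm
    exact h1.mul_right h2
  | succ k ih =>
    have h1 : Commute (c j) (c (k + 1)) := (hc.comm (k + 1) j (by omega) hj).symm
    exact (h1.mul_right (ih (by omega))).mul_right h1

private theorem tt_comm_lo (hc : Chain m c)
    (hb : ∀ k, k < m → k ≠ 1 → b * c k = c k * b) {j : ℕ} (hj : 1 ≤ j) (d : ℕ)
    (hd : j + 1 + d < m) : Commute (c j) (tt c b (j + 1 + d)) := by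
  induction d with
  | zero =>
    obtain ⟨i, rfl⟩ : ∃ i, j = i + 1 := ⟨j - 1, by omega⟩
    have h1 : Commute (c (i + 2)) (tt c b i) := tt_comm_hi hc hb (by omega) i le_rfl
    have h2 := hc.braid (i + 1) (by omega)
    show c (i + 1) * (c (i + 2) * (c (i + 1) * tt c b i * c (i + 1)) * c (i + 2)) =
      c (i + 2) * (c (i + 1) * tt c b i * c (i + 1)) * c (i + 2) * c (i + 1)
    change c (i + 1) * c (i + 2) * c (i + 1) = c (i + 2) * c (i + 1) * c (i + 2) at h2
    generalize tt c b i = t at *
    generalize c (i + 1) = p at *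
    generalize c (i + 2) = q at *
    calc p * (q * (p * t * p) * q) = (p * q * p) * t * p * q := by simp only [mul_assoc]
      _ = q * p * (q * t) * p * q := by rw [h2]; simp only [mul_assoc]
      _ = q * p * t * (q * p * q) := by rw [h1.eq]; simp only [mul_assoc]
      _ = q * (p * t * p) * q * p := by rw [← h2]; simp only [mul_assoc]
  | succ d ih =>
    have h1 : Commute (c j) (c (j + 1 + d + 1)) := hc.comm j (j + 1 + d + 1) (by omega) hd
    exact (h1.mul_right (ih (by omega))).mul_right h1

private theorem tt_R (hc : Chain m c)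
    (hb : ∀ k, k < m → k ≠ 1 → b * c k = c k * b) (hm : 2 ≤ m)
    (hb' : b * c 1 * b = c 1 * b * c 1) (k : ℕ) (hk : k + 1 < m) :
    c (k + 1) * tt c b k * c (k + 1) * tt c b k = tt c b k * c (k + 1) * tt c b k * c (k + 1) := by
  induction k with
  | zero =>
    have h1 := hc.braid 0 (by omega)
    have h2 := hb 0 (by omega) (by omega)
    exact word_one h1 h2 hb'
  | succ k ih =>
    have h1 := ih (by omega)
    have h2 : Commute (c (k + 2)) (tt c b k) := tt_comm_hi hc hb hk k le_rfl
    have h3 := hc.braid (k + 1) hk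
    exact word_step h1 h2.eq h3

private theorem tt_swap (hc : Chain m c)
    (hb : ∀ k, k < m → k ≠ 1 → b * c k = c k * b) (hm : 2 ≤ m)
    (hb' : b * c 1 * b = c 1 * b * c 1) (k : ℕ) (hk : k + 1 < m) :
    SemiconjBy (tt c b (k + 1)) (c 0) b ∧ SemiconjBy (tt c b (k + 1)) b (c 0) := by
  induction k with
  | zero =>
    have h1 := hc.braid 0 (by omega)
    have h2 := hb 0 (by omega) (by omega)
    exact word_swap h1 h2 hb'
  | succ k ih =>
    obtain ⟨i1, i2⟩ := ih (by omega)
    have h1 : SemiconjBy (c (k + 2)) (c 0) (c 0) := (hc.comm 0 (k + 2) (by omega) hk).symm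
    have h2 : SemiconjBy (c (k + 2)) b b := (hb (k + 2) hk (by omega)).symm
    exact ⟨(h2.mul_left i1).mul_left h1, (h1.mul_left i2).mul_left h2⟩

private theorem pr_tt_comm (hc : Chain m c)
    (hb : ∀ k, k < m → k ≠ 1 → b * c k = c k * b) (hm : 2 ≤ m)
    (hb' : b * c 1 * b = c 1 * b * c 1) (j : ℕ) (hj : j + 1 < m) (d : ℕ) (hd : j + 2 + d ≤ m) :
    Commute (c (j + 1)) (pr (tt c b) (j + 2 + d)) := by
  induction d with
  | zero =>
    have h1 : ∀ l, l ≤ j → Commute (c (j + 1)) (pr (tt c b) l) := by
      intro l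
      induction l with
      | zero => intro _; exact Commute.one_right _
      | succ l ih =>
        intro hl
        exact (ih (by omega)).mul_right (tt_comm_hi hc hb hj l (by omega))
    have h2 : Commute (c (j + 1)) (tt c b j * tt c b (j + 1)) := by
      have h3 := tt_R hc hb hm hb' j hj
      calc c (j + 1) * (tt c b j * (c (j + 1) * tt c b j * c (j + 1))) =
          (c (j + 1) * tt c b j * c (j + 1) * tt c b j) * c (j + 1) := by simp only [mul_assoc]
        _ = tt c b j * (c (j + 1) * tt c b j * c (j + 1)) * c (j + 1) := by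
          rw [h3]; simp only [mul_assoc]
    have h3 := (h1 j le_rfl).mul_right h2
    show Commute (c (j + 1)) (pr (tt c b) j * tt c b j * tt c b (j + 1))
    rw [mul_assoc]
    exact h3
  | succ d ih =>
    refine (ih (by omega)).mul_right ?_
    have := tt_comm_lo hc hb (j := j + 1) (by omega) d (by omega)
    rwa [show j + 1 + 1 + d = j + 2 + d by omega] at this

private theorem pr_tt_swap (hc : Chain m c)
    (hb : ∀ k, k < m → k ≠ 1 → b * c k = c k * b) (hm : 2 ≤ m)
    (hb' : b * c 1 * b = c 1 * b * c 1) (d : ℕ) (hd : d < m) :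
    (SemiconjBy (pr (tt c b) (d + 1)) (c 0) (c 0) ∧ SemiconjBy (pr (tt c b) (d + 1)) b b) ∨
    (SemiconjBy (pr (tt c b) (d + 1)) (c 0) b ∧ SemiconjBy (pr (tt c b) (d + 1)) b (c 0)) := by
  induction d with
  | zero =>
    left
    have h2 : Commute b (c 0) := hb 0 (by omega) (by omega)
    have e : pr (tt c b) (0 + 1) = c 0 * b := by simp [pr, tt]
    rw [e]
    exact ⟨(Commute.refl (c 0)).mul_left h2, h2.symm.mul_left (Commute.refl b)⟩
  | succ d ih =>
    obtain ⟨s1, s2⟩ := tt_swap hc hb hm hb' d hd
    rcases ih (by omega) with ⟨i1, i2⟩ | ⟨i1, i2⟩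
    · right
      exact ⟨i2.mul_left s1, i1.mul_left s2⟩
    · left
      exact ⟨i2.mul_left s1, i1.mul_left s2⟩

end D

private theorem cen_D' {m : ℕ} (hm : 2 ≤ m) {c : ℕ → G} (hc : Chain m c) {b : G}
    (hb : ∀ k, k < m → k ≠ 1 → b * c k = c k * b) (hb' : b * c 1 * b = c 1 * b * c 1) :
    ∃ h ∈ Subgroup.closure (c '' {k | k < m} ∪ {b}), (∀ k, k < m → h * c k = c k * h) ∧
      h * b = b * h ∧
      ∀ χ : G →* Multiplicative ℤ, (∀ k, k < m → χ (c k) = Multiplicative.ofAdd 1) →
        χ b = Multiplicative.ofAdd 1 →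
        χ h = Multiplicative.ofAdd (2 * (m : ℤ) * (m + 1)) := by
  obtain ⟨m', rfl⟩ : ∃ m', m = m' + 1 := ⟨m - 1, by omega⟩
  have hsw := pr_tt_swap hc hb hm hb' m' (by omega)
  have hmem : ∀ k, k < m' + 1 → tt c b k ∈ Subgroup.closure (c '' {k | k < m' + 1} ∪ {b}) := by
    intro k
    induction k with
    | zero =>
      intro hk
      exact Subgroup.mul_mem _ (Subgroup.subset_closure (Or.inl ⟨0, hk, rfl⟩))
        (Subgroup.subset_closure (Or.inr rfl))
    | succ k ih =>
      intro hk
      have h1 : c (k + 1) ∈ Subgroup.closure (c '' {k | k < m' + 1} ∪ {b}) :=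
        Subgroup.subset_closure (Or.inl ⟨k + 1, hk, rfl⟩)
      exact Subgroup.mul_mem _ (Subgroup.mul_mem _ h1 (ih (by omega))) h1
  refine ⟨pr (tt c b) (m' + 1) * pr (tt c b) (m' + 1), ?_, ?_, ?_, ?_⟩
  · exact Subgroup.mul_mem _ (pr_mem _ _ hmem) (pr_mem _ _ hmem)
  · intro k hk
    rcases Nat.eq_zero_or_pos k with rfl | hk0
    · rcases hsw with ⟨i1, i2⟩ | ⟨i1, i2⟩
      · exact (i1.mul_left i1).eq
      · exact (i2.mul_left i1).eq
    · obtain ⟨j, rfl⟩ : ∃ j, k = j + 1 := ⟨k - 1, by omega⟩
      have := pr_tt_comm hc hb hm hb' j hk (m' - (j + 1)) (by omega)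
      rw [show j + 2 + (m' - (j + 1)) = m' + 1 by omega] at this
      exact (this.mul_right this).eq.symm
  · rcases hsw with ⟨i1, i2⟩ | ⟨i1, i2⟩
    · exact (i2.mul_left i2).eq
    · exact (i1.mul_left i2).eq
  · intro χ hχ hχb
    have h1 : ∀ k, k < m' + 1 → χ (tt c b k) = Multiplicative.ofAdd (2 * ((k : ℤ) + 1)) := by
      intro k
      induction k with
      | zero =>
        intro hk
        rw [show tt c b 0 = c 0 * b from rfl, map_mul, hχ 0 hk, hχb, ← ofAdd_add]
        norm_num
      | succ k ih =>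
        intro hk
        rw [show tt c b (k + 1) = c (k + 1) * tt c b k * c (k + 1) from rfl, map_mul, map_mul,
          hχ (k + 1) hk, ih (by omega), ← ofAdd_add, ← ofAdd_add]
        congr 1
        push_cast
        ring
    have h2 : ∀ k, k ≤ m' + 1 → χ (pr (tt c b) k) = Multiplicative.ofAdd ((k : ℤ) * (k + 1)) := by
      intro k
      induction k with
      | zero => intro _; simp [pr]
      | succ k ih =>
        intro hk
        rw [show pr (tt c b) (k + 1) = pr (tt c b) k * tt c b k from rfl, map_mul,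
          ih (by omega), h1 k (by omega), ← ofAdd_add]
        congr 1
        push_cast
        ring
    rw [map_mul, h2 _ le_rfl, ← ofAdd_add]
    congr 1
    push_cast
    ring

/-- type `D`: the chain is `x 0, …, x (m - 1)` with `m ≥ 2`, the extra node `b` commutes with all
`x k` except `x (m - 2)`, with which it braids. (So the type is `D (m + 1)`.)
Put `τ 1 = x (m - 1) * b`, `τ (k + 1) = c k * τ k * c k` with `c k = x (m - 1 - k)`,
`k = 1, …, m - 1`, and `h = (τ 1 * τ 2 * ⋯ * τ m) ^ 2`. -/
theorem cen_D {m : ℕ} (hm : 2 ≤ m) {x : ℕ → G} (hx : Chain m x) {b : G}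
    (hb : ∀ k, k < m → k ≠ m - 2 → b * x k = x k * b)
    (hb' : b * x (m - 2) * b = x (m - 2) * b * x (m - 2)) :
    ∃ h ∈ Subgroup.closure (x '' {k | k < m} ∪ {b}), (∀ k, k < m → h * x k = x k * h) ∧
      h * b = b * h ∧
      ∀ χ : G →* Multiplicative ℤ, (∀ k, k < m → χ (x k) = Multiplicative.ofAdd 1) →
        χ b = Multiplicative.ofAdd 1 →
        χ h = Multiplicative.ofAdd (2 * (m : ℤ) * (m + 1)) := by
  have hc : Chain m (fun k => x (m - 1 - k)) :=
    { comm := fun i j hij hj => (hx.comm (m - 1 - j) (m - 1 - i) (by omega) (by omega)).symm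
      braid := fun i hi => by
        have := hx.braid (m - 1 - (i + 1)) (by omega)
        rw [show m - 1 - (i + 1) + 1 = m - 1 - i by omega] at this
        exact this.symm }
  obtain ⟨h, h1, h2, h3, h4⟩ := cen_D' hm hc (b := b)
    (fun k hk hk1 => hb (m - 1 - k) (by omega) (by omega))
    (by
      show b * x (m - 1 - 1) * b = x (m - 1 - 1) * b * x (m - 1 - 1)
      rw [show m - 1 - 1 = m - 2 by omega]
      exact hb')
  refine ⟨h, ?_, ?_, h3, ?_⟩
  · refine Subgroup.closure_mono ?_ h1
    refine Set.union_subset_union_left _ ?_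
    rintro _ ⟨k, hk, rfl⟩
    exact ⟨m - 1 - k, (by show m - 1 - k < m; omega), rfl⟩
  · intro k hk
    have := h2 (m - 1 - k) (by omega)
    change h * x (m - 1 - (m - 1 - k)) = x (m - 1 - (m - 1 - k)) * h at this
    rwa [show m - 1 - (m - 1 - k) = k by omega] at this
  · intro χ hχ hχb
    exact h4 χ (fun k hk => hχ (m - 1 - k) (by omega)) hχb

end ProfArtin
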