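import Pool.Agent.Work.MP_f6e909_al.Defs

/-! # Elementary consequences of the braid relations -/

namespace ProfArtin

variable {G : Type} [Group G] {m : ℕ} {x : ℕ → G}

private theorem eq_of_braid_comm {a b : G} (hb : a * b * a = b * a * b) (hc : a * b = b * a) :
    a = b := by
  have h1 : b * a * a = b * a * b := by rw [← hb, hc]
  exact mul_left_cancel h1

/-- if two neighbours are equal, all are equal -/
theorem chain_adj (hx : Chain m x) {i : ℕ} (hi : i + 1 < m) (h : x i = x (i + 1)) :
    ∀ k, k < m → x k = x 0 := by
  have up : ∀ k, k + 2 < m → x k = x (k + 1) → x (k + 1) = x (k + 2) := by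
    intro k hk hk'
    refine eq_of_braid_comm (hx.braid (k + 1) (by omega)) ?_
    rw [← hk']
    exact hx.comm k (k + 2) (by omega) (by omega)
  have down : ∀ k, k + 2 < m → x (k + 1) = x (k + 2) → x k = x (k + 1) := by
    intro k hk hk'
    refine eq_of_braid_comm (hx.braid k (by omega)) ?_
    rw [hk']
    exact hx.comm k (k + 2) (by omega) (by omega)
  have hup : ∀ d, i + d + 1 < m → x (i + d) = x (i + d + 1) := by
    intro d
    induction d with
    | zero => intro _; exact h
    | succ d ih =>
      intro hd
      exact up (i + d) (by omega) (ih (by omega))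
  have hdown : ∀ d, d ≤ i → x (i - d) = x (i - d + 1) := by
    intro d
    induction d with
    | zero => intro _; exact h
    | succ d ih =>
      intro hd
      have h1 := ih (by omega)
      have e1 : i - d = (i - (d + 1)) + 1 := by omega
      rw [e1] at h1
      exact down (i - (d + 1)) (by omega) h1
  have hall : ∀ k, k + 1 < m → x k = x (k + 1) := by
    intro k hk
    rcases le_total i k with hik | hik
    · have := hup (k - i) (by omega)
      rwa [show i + (k - i) = k by omega] at this
    · have := hdown (i - k) (by omega)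
      rwa [show i - (i - k) = k by omega] at this
  intro k
  induction k with
  | zero => intro _; rfl
  | succ k ih =>
    intro hk
    rw [← hall k hk]
    exact ih (by omega)

/-- adjacent elements of a chain commute only if they are equal -/
theorem chain_eq_of_comm (hx : Chain m x) {i : ℕ} (hi : i + 1 < m)
    (h : x i * x (i + 1) = x (i + 1) * x i) : x i = x (i + 1) :=
  eq_of_braid_comm (hx.braid i hi) h

/-- for `m ≥ 4`: if two are equal, all are equal -/
theorem chain_collapse (hm : 4 ≤ m) (hx : Chain m x) {i j : ℕ} (hij : i < j) (hj : j < m)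
    (h : x i = x j) : ∀ k, k < m → x k = x 0 := by
  rcases Nat.lt_or_ge (i + 1) j with h2 | h2
  · by_cases hj' : j + 1 < m
    · refine chain_adj hx hj' ?_
      refine eq_of_braid_comm (hx.braid j hj') ?_
      rw [← h]
      exact hx.comm i (j + 1) (by omega) hj'
    · by_cases hi' : i = 0
      · subst hi'
        refine chain_adj (i := 0) hx (by omega) ?_
        refine eq_of_braid_comm (hx.braid 0 (by omega)) ?_
        rw [h]
        exact (hx.comm (0 + 1) j (by omega) hj).symm
      · obtain ⟨i', rfl⟩ : ∃ i', i = i' + 1 := ⟨i - 1, by omega⟩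
        refine chain_adj (i := i') hx (by omega) ?_
        refine eq_of_braid_comm (hx.braid i' (by omega)) ?_
        rw [h]
        exact hx.comm i' j (by omega) hj
  · obtain rfl : j = i + 1 := by omega
    exact chain_adj hx hj h

/-- all generators are conjugate inside the group they generate -/
theorem chain_conj (hx : Chain m x) {i : ℕ} (hi : i < m) :
    ∃ g ∈ Subgroup.closure (x '' {k | k < m}), x i = g * x 0 * g⁻¹ := by
  induction i with
  | zero => exact ⟨1, Subgroup.one_mem _, by simp⟩
  | succ i ih =>
    obtain ⟨g, hg, hgx⟩ := ih (by omega)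
    have m1 : x i ∈ Subgroup.closure (x '' {k | k < m}) :=
      Subgroup.subset_closure ⟨i, (by show i < m; omega), rfl⟩
    have m2 : x (i + 1) ∈ Subgroup.closure (x '' {k | k < m}) :=
      Subgroup.subset_closure ⟨i + 1, hi, rfl⟩
    refine ⟨x i * x (i + 1) * g, Subgroup.mul_mem _ (Subgroup.mul_mem _ m1 m2) hg, ?_⟩
    have h1 : x i * x (i + 1) * g * x 0 * (x i * x (i + 1) * g)⁻¹ =
        (x i * x (i + 1) * x i) * (x i * x (i + 1))⁻¹ := by
      conv_rhs => rw [show x i * x (i + 1) * x i = x i * x (i + 1) * (g * x 0 * g⁻¹) by rw [← hgx]]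
      group
    rw [h1, hx.braid i hi]
    group

/-- `m ≥ 4`: if all quotients `x i * (x j)⁻¹` lie in an abelian subgroup, all `x k` are equal.
(Conjugation by `x 0` fixes `u = x 3 * (x 2)⁻¹`, hence so does conjugation by
`x 2 = (x 2 * (x 0)⁻¹) * x 0`; so `x 2` and `x 3` commute, and they are equal.) -/
theorem chain_metab (hm : 4 ≤ m) (hx : Chain m x) (A : Subgroup G)
    (hA : ∀ u ∈ A, ∀ v ∈ A, u * v = v * u) (h : ∀ i j, i < m → j < m → x i * (x j)⁻¹ ∈ A) :
    ∀ k, k < m → x k = x 0 := by
  refine chain_adj (i := 2) hx (by omega) ?_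
  refine eq_of_braid_comm (hx.braid 2 (by omega)) ?_
  have hu := h 3 2 (by omega) (by omega)
  have hv := h 2 0 (by omega) (by omega)
  have huv := hA _ hu _ hv
  have c02 : Commute (x 0) (x 2) := hx.comm 0 2 (by omega) (by omega)
  have c03 : Commute (x 0) (x 3) := hx.comm 0 3 (by omega) (by omega)
  have c0 : Commute (x 0) (x 3 * (x 2)⁻¹) := c03.mul_right c02.inv_right
  have c1 : Commute (x 2 * (x 0)⁻¹) (x 3 * (x 2)⁻¹) := huv.symm
  have c2 : Commute (x 2) (x 3 * (x 2)⁻¹) := by
    have := c1.mul_left c0
    simpa using this
  have c3 : Commute (x 2) (x 3) := by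
    have := c2.mul_right (Commute.refl (x 2))
    simpa using this
  exact c3

/-- image of a chain -/
theorem chain_map {H : Type} [Group H] (hx : Chain m x) (f : G →* H) :
    Chain m (fun k => f (x k)) where
  comm i j hij hj := by
    simp only [← map_mul, hx.comm i j hij hj]
  braid i hi := by
    simp only [← map_mul, hx.braid i hi]

/-- tail of a chain -/
theorem chain_shift (hx : Chain m x) (d : ℕ) : Chain (m - d) (fun k => x (k + d)) where
  comm i j hij hj := hx.comm (i + d) (j + d) (by omega) (by omega)
  braid i hi := by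
    have := hx.braid (i + d) (by omega)
    show x (i + d) * x (i + 1 + d) * x (i + d) = x (i + 1 + d) * x (i + d) * x (i + 1 + d)
    rw [show i + 1 + d = i + d + 1 by omega]
    exact this

end ProfArtin
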