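import Pool.Agent.Work.MP_f6e909_al.Art

/-! # Decomposition of an Artin group along a union of components -/

namespace ProfArtin

variable {S : Type}

private theorem comp_gens (M : CoxeterMatrix S) (T : Set S)
    (hcomm : ∀ s ∈ T, ∀ t ∉ T, M s t = 2) {s t : S} (hs : s ∈ T) (ht : t ∉ T) :
    gen M t * gen M s = gen M s * gen M t := by
  have hst : s ≠ t := by
    rintro rfl
    exact ht hs
  have h := art_rel M hst (by rw [hcomm s hs t ht]; norm_num)
  rw [hcomm s hs t ht, alt_two, alt_two] at h
  exact h.symm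

theorem comp_comm (M : CoxeterMatrix S) (T : Set S) (hcomm : ∀ s ∈ T, ∀ t ∉ T, M s t = 2) :
    ∀ b ∈ Subgroup.closure (gen M '' Tᶜ), ∀ s ∈ T, b * gen M s = gen M s * b := by
  intro b hb s hs
  have h1 : Subgroup.closure (gen M '' Tᶜ) ≤ Subgroup.centralizer {gen M s} := by
    rw [Subgroup.closure_le]
    rintro _ ⟨t, ht, rfl⟩
    rw [SetLike.mem_coe, Subgroup.mem_centralizer_iff]
    intro k hk
    rw [Set.mem_singleton_iff.1 hk]
    exact (comp_gens M T hcomm hs ht).symm
  exact (Subgroup.mem_centralizer_iff.1 (h1 hb) _ (Set.mem_singleton _)).symm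

theorem comp_gen (M : CoxeterMatrix S) (T : Set S) :
    Subgroup.closure (gen M '' T) ⊔ Subgroup.closure (gen M '' Tᶜ) = ⊤ := by
  rw [← Subgroup.closure_union, ← Set.image_union, Set.union_compl_self, Set.image_univ,
    art_closure]

/-- every element is a product of an element of the first and one of the second group -/
private theorem comp_prod (M : CoxeterMatrix S) (T : Set S)
    (hcomm : ∀ s ∈ T, ∀ t ∉ T, M s t = 2) (g : ArtinGroup M) :
    ∃ x ∈ Subgroup.closure (gen M '' T), ∃ y ∈ Subgroup.closure (gen M '' Tᶜ), g = x * y := by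
  have hxy : ∀ x ∈ Subgroup.closure (gen M '' T), ∀ y ∈ Subgroup.closure (gen M '' Tᶜ),
      y * x = x * y := by
    intro x hx y hy
    have h1 : Subgroup.closure (gen M '' T) ≤ Subgroup.centralizer {y} := by
      rw [Subgroup.closure_le]
      rintro _ ⟨s, hs, rfl⟩
      rw [SetLike.mem_coe, Subgroup.mem_centralizer_iff]
      intro k hk
      rw [Set.mem_singleton_iff.1 hk]
      exact comp_comm M T hcomm y hy s hs
    exact Subgroup.mem_centralizer_iff.1 (h1 hx) _ (Set.mem_singleton _)
  have hg : g ∈ Subgroup.closure (Set.range (gen M)) := by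
    rw [art_closure]
    exact Subgroup.mem_top g
  induction hg using Subgroup.closure_induction with
  | mem z hz =>
    obtain ⟨s, rfl⟩ := hz
    by_cases hs : s ∈ T
    · exact ⟨gen M s, Subgroup.subset_closure ⟨s, hs, rfl⟩, 1, one_mem _, (mul_one _).symm⟩
    · exact ⟨1, one_mem _, gen M s, Subgroup.subset_closure ⟨s, hs, rfl⟩, (one_mul _).symm⟩
  | one => exact ⟨1, one_mem _, 1, one_mem _, (one_mul _).symm⟩
  | mul u v _ _ hu hv =>
    obtain ⟨x, hx, y, hy, rfl⟩ := hu
    obtain ⟨x', hx', y', hy', rfl⟩ := hv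
    refine ⟨x * x', mul_mem hx hx', y * y', mul_mem hy hy', ?_⟩
    rw [mul_assoc x y, ← mul_assoc y x', hxy x' hx' y hy]
    simp only [mul_assoc]
  | inv u _ hu =>
    obtain ⟨x, hx, y, hy, rfl⟩ := hu
    refine ⟨x⁻¹, inv_mem hx, y⁻¹, inv_mem hy, ?_⟩
    rw [mul_inv_rev, hxy _ (inv_mem hx) _ (inv_mem hy)]

/-- If the Artin group on the complement of `T` has trivial center, the center of the whole
Artin group lies in the subgroup generated by `T`.
(Retraction `ArtinGroup M → ArtinGroup (restrict M Tᶜ)` killing `T`, and the natural map back.) -/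
theorem comp_center (M : CoxeterMatrix S) (T : Set S) (hcomm : ∀ s ∈ T, ∀ t ∉ T, M s t = 2)
    (hcen : Subgroup.center (ArtinGroup (restrict M Tᶜ)) = ⊥) (y : ArtinGroup M)
    (hy : y ∈ Subgroup.center (ArtinGroup M)) : y ∈ Subgroup.closure (gen M '' T) := by
  classical
  set M' := restrict M Tᶜ with hM'
  have haltone : ∀ (X : Type) [Group X] (m : ℕ), alt (1 : X) 1 m = 1 := by
    intro X _ m
    induction m with
    | zero => rfl
    | succ k ih => rw [alt, ih, one_mul]
  obtain ⟨r, hr⟩ := art_lift (X := ArtinGroup M') M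
    (fun s => if hs : s ∈ Tᶜ then gen M' ⟨s, hs⟩ else 1) (by
      intro s t hst h0
      by_cases hs : s ∈ Tᶜ
      · by_cases ht : t ∈ Tᶜ
        · simp only [hs, ht, dif_pos]
          have h1 : (⟨s, hs⟩ : {x // x ∈ Tᶜ}) ≠ ⟨t, ht⟩ := fun h => hst (congrArg Subtype.val h)
          exact art_rel M' (s := ⟨s, hs⟩) (t := ⟨t, ht⟩) h1 h0
        · have ht' : t ∈ T := by simpa using ht
          rw [M.symmetric, hcomm t ht' s hs, alt_two, alt_two]
          simp only [ht, dif_neg, not_false_eq_true, mul_one, one_mul]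
      · by_cases ht : t ∈ Tᶜ
        · have hs' : s ∈ T := by simpa using hs
          rw [hcomm s hs' t ht, alt_two, alt_two]
          simp only [hs, dif_neg, not_false_eq_true, mul_one, one_mul]
        · simp only [hs, ht, dif_neg, not_false_eq_true])
  obtain ⟨i, hi⟩ := art_lift (X := ArtinGroup M) M' (fun s => gen M s.1) (by
    intro s t hst h0
    exact art_rel M (fun h => hst (Subtype.ext h)) h0)
  have hri : ∀ b, r (i b) = b := by
    have h1 : r.comp i = MonoidHom.id _ := by
      refine art_ext M' _ _ fun s => ?_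
      rw [MonoidHom.comp_apply, hi, hr, MonoidHom.id_apply]
      simp only [s.2, dif_pos]
    intro b
    have := congrArg (fun F : ArtinGroup M' →* ArtinGroup M' => F b) h1
    exact this
  have hsurj : Function.Surjective r := fun b => ⟨i b, hri b⟩
  have hry : r y = 1 := by
    have h1 : r y ∈ Subgroup.center (ArtinGroup M') := by
      rw [Subgroup.mem_center_iff]
      intro b
      obtain ⟨g, rfl⟩ := hsurj b
      rw [← map_mul, ← map_mul, Subgroup.mem_center_iff.1 hy g]
    rw [hcen] at h1
    exact Subgroup.mem_bot.1 h1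
  obtain ⟨a, ha, b, hb, hab⟩ := comp_prod M T hcomm y
  have hra : r a = 1 := by
    have h1 : Subgroup.closure (gen M '' T) ≤ r.ker := by
      rw [Subgroup.closure_le]
      rintro _ ⟨s, hs, rfl⟩
      have hs' : s ∉ Tᶜ := by simpa using hs
      change r (gen M s) = 1
      rw [hr]
      simp only [hs', dif_neg, not_false_eq_true]
    exact h1 ha
  have hrb : r b = 1 := by
    rw [hab, map_mul, hra, one_mul] at hry
    exact hry
  have hbi : ∃ b', i b' = b := by
    have h1 : Subgroup.closure (gen M '' Tᶜ) ≤ i.range := by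
      rw [Subgroup.closure_le]
      rintro _ ⟨s, hs, rfl⟩
      exact ⟨gen M' ⟨s, hs⟩, hi _⟩
    exact h1 hb
  obtain ⟨b', hb'⟩ := hbi
  have hb1 : b = 1 := by
    rw [← hb', hri] at hrb
    rw [← hb', hrb, map_one]
  rw [hab, hb1, mul_one]
  exact ha

end ProfArtin
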