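import Pool.Agent.Work.MP_f6e909_al.Defs

/-! # A criterion for isomorphic profinite completions -/

namespace ProfArtin

open ProfiniteGrp ProfiniteCompletion

/-- the kernel of `θ K` as a finite index normal subgroup -/
private noncomputable def kerFI {G H : Type} [Group G] [Group H]
    (K : FiniteIndexNormalSubgroup H) (θ : G →* H ⧸ K.toSubgroup) :
    FiniteIndexNormalSubgroup G :=
  haveI : Finite (H ⧸ K.toSubgroup) := inferInstance
  haveI : θ.ker.FiniteIndex := inferInstance
  FiniteIndexNormalSubgroup.ofSubgroup θ.ker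

private theorem kerFI_toSubgroup {G H : Type} [Group G] [Group H]
    (K : FiniteIndexNormalSubgroup H) (θ : G →* H ⧸ K.toSubgroup) :
    (kerFI K θ).toSubgroup = θ.ker := rfl

/-- the homomorphism `G ⧸ ker → H ⧸ K` -/
private noncomputable def thBar {G H : Type} [Group G] [Group H]
    (K : FiniteIndexNormalSubgroup H) (θ : G →* H ⧸ K.toSubgroup) :
    (G ⧸ (kerFI K θ).toSubgroup) →* H ⧸ K.toSubgroup :=
  QuotientGroup.lift _ θ (fun _ h => h)

private theorem thBar_mk {G H : Type} [Group G] [Group H]
    (K : FiniteIndexNormalSubgroup H) (θ : G →* H ⧸ K.toSubgroup) (g : G) :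
    thBar K θ (QuotientGroup.mk g) = θ g := rfl

private theorem thBar_injective {G H : Type} [Group G] [Group H]
    (K : FiniteIndexNormalSubgroup H) (θ : G →* H ⧸ K.toSubgroup) :
    Function.Injective (thBar K θ) := by
  rw [injective_iff_map_eq_one]
  intro x hx
  obtain ⟨g, rfl⟩ := QuotientGroup.mk_surjective x
  rw [thBar_mk] at hx
  exact (QuotientGroup.eq_one_iff g).2 hx

/-- the underlying type of the completion -/
private theorem compl_compat {G : Type} [Group G] (x : completion (GrpCat.of G))
    {V V' : FiniteIndexNormalSubgroup G} (h : V ≤ V') :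
    QuotientGroup.map V.toSubgroup V'.toSubgroup (MonoidHom.id G) h (x.1 V) = x.1 V' :=
  x.2 (CategoryTheory.homOfLE h)

theorem completion_iso {G H : Type} [Group G] [Group H]
    (θ : ∀ K : FiniteIndexNormalSubgroup H, G →* H ⧸ K.toSubgroup)
    (hsurj : ∀ K, Function.Surjective (θ K))
    (hcomp : ∀ (K K' : FiniteIndexNormalSubgroup H) (hK : K ≤ K') (g : G),
      QuotientGroup.map K.toSubgroup K'.toSubgroup (MonoidHom.id H) hK (θ K g) = θ K' g)
    (hcof : ∀ V : FiniteIndexNormalSubgroup G, ∃ K, (θ K).ker ≤ V.toSubgroup) :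
    Nonempty (completion (GrpCat.of H) ≃ₜ* completion (GrpCat.of G)) := by
  classical
  -- kernels are monotone
  have hker : ∀ K K' : FiniteIndexNormalSubgroup H, K ≤ K' → kerFI K (θ K) ≤ kerFI K' (θ K') := by
    intro K K' hK g hg
    change θ K' g = 1
    rw [← hcomp K K' hK g]
    have : θ K g = 1 := hg
    rw [this, map_one]
  -- the map
  let F : completion (GrpCat.of G) → completion (GrpCat.of H) := fun x =>
    ⟨fun K => thBar K (θ K) (x.1 (kerFI K (θ K))), by
      intro K K' f
      have hK : K ≤ K' := f.le
      have h1 := compl_compat x (hker K K' hK)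
      change QuotientGroup.map K.toSubgroup K'.toSubgroup (MonoidHom.id H) hK
        (thBar K (θ K) (x.1 (kerFI K (θ K)))) = thBar K' (θ K') (x.1 (kerFI K' (θ K')))
      rw [← h1]
      obtain ⟨g, hg⟩ := QuotientGroup.mk_surjective (x.1 (kerFI K (θ K)))
      rw [← hg]
      exact hcomp K K' hK g⟩
  have hFval : ∀ x K, (F x).1 K = thBar K (θ K) (x.1 (kerFI K (θ K))) := fun _ _ => rfl
  have hFmul : ∀ x y, F (x * y) = F x * F y := by
    intro x y
    apply Subtype.ext
    funext K
    change thBar K (θ K) (x.1 (kerFI K (θ K)) * y.1 (kerFI K (θ K))) =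
      thBar K (θ K) (x.1 (kerFI K (θ K))) * thBar K (θ K) (y.1 (kerFI K (θ K)))
    exact map_mul _ _ _
  have hFcont : Continuous F := by
    refine Continuous.subtype_mk
      (continuous_pi (A := fun K => (diagram (GrpCat.of H)).obj K) ?_) _
    intro K
    have h1 : Continuous (fun x : completion (GrpCat.of G) => x.1 (kerFI K (θ K))) :=
      (continuous_apply (A := fun V => (diagram (GrpCat.of G)).obj V)
        (kerFI K (θ K))).comp continuous_subtype_val
    have : DiscreteTopology ((diagram (GrpCat.of G)).obj (kerFI K (θ K))) := ⟨rfl⟩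
    have h2 : @Continuous ((diagram (GrpCat.of G)).obj (kerFI K (θ K)))
        ((diagram (GrpCat.of H)).obj K) _ _ (thBar K (θ K)) := continuous_of_discreteTopology
    exact h2.comp h1
  have hFinj : Function.Injective F := by
    intro x y hxy
    apply Subtype.ext
    funext V
    obtain ⟨K, hK⟩ := hcof V
    have hKV : kerFI K (θ K) ≤ V := hK
    have h1 : thBar K (θ K) (x.1 (kerFI K (θ K))) = thBar K (θ K) (y.1 (kerFI K (θ K))) := by
      rw [← hFval, ← hFval, hxy]
    have h2 := thBar_injective K (θ K) h1
    have h3 := compl_compat x hKV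
    have h4 := compl_compat y hKV
    rw [← h3, ← h4, h2]
  have hFsurj : Function.Surjective F := by
    intro y
    let C : FiniteIndexNormalSubgroup H → Set (completion (GrpCat.of G)) := fun K =>
      {x | (F x).1 K = y.1 K}
    have hCclosed : ∀ K, IsClosed (C K) := by
      intro K
      have h1 : Continuous (fun x : completion (GrpCat.of G) => (F x).1 K) :=
        (continuous_apply K).comp (continuous_subtype_val.comp hFcont)
      exact isClosed_eq h1 continuous_const
    have hCne : ∀ K, (C K).Nonempty := by
      intro K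
      obtain ⟨g, hg⟩ := hsurj K (y.1 K)
      refine ⟨etaFn (GrpCat.of G) g, ?_⟩
      change thBar K (θ K) (QuotientGroup.mk g) = y.1 K
      rw [thBar_mk]
      exact hg
    have hCdir : Directed (fun s t : Set (completion (GrpCat.of G)) => s ⊇ t) C := by
      intro K K'
      refine ⟨K ⊓ K', ?_, ?_⟩
      · intro x hx
        have hx' : (F x).1 (K ⊓ K') = y.1 (K ⊓ K') := hx
        change (F x).1 K = y.1 K
        have h1 := compl_compat (F x) (inf_le_left : K ⊓ K' ≤ K)
        have h2 := compl_compat y (inf_le_left : K ⊓ K' ≤ K)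
        rw [← h1, ← h2, hx']
      · intro x hx
        have hx' : (F x).1 (K ⊓ K') = y.1 (K ⊓ K') := hx
        change (F x).1 K' = y.1 K'
        have h1 := compl_compat (F x) (inf_le_right : K ⊓ K' ≤ K')
        have h2 := compl_compat y (inf_le_right : K ⊓ K' ≤ K')
        rw [← h1, ← h2, hx']
    have : Nonempty (FiniteIndexNormalSubgroup H) :=
      ⟨FiniteIndexNormalSubgroup.ofSubgroup (⊤ : Subgroup H)⟩
    obtain ⟨x, hx⟩ := IsCompact.nonempty_iInter_of_directed_nonempty_isCompact_isClosed C hCdir
      hCne (fun K => (hCclosed K).isCompact) hCclosed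
    refine ⟨x, ?_⟩
    apply Subtype.ext
    funext K
    exact Set.mem_iInter.1 hx K
  let e : completion (GrpCat.of G) ≃* completion (GrpCat.of H) :=
    MulEquiv.ofBijective (⟨⟨F, by
      have := hFmul 1 1
      rw [mul_one] at this
      exact (mul_eq_left (a := F 1)).1 this.symm⟩, hFmul⟩ :
        completion (GrpCat.of G) →* completion (GrpCat.of H)) ⟨hFinj, hFsurj⟩
  have hecont : Continuous e := hFcont
  have hecont' : Continuous e.symm := by
    have := (Continuous.homeoOfEquivCompactToT2 (f := e.toEquiv) hecont).symm.continuous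
    exact this
  exact ⟨(⟨e, hecont, hecont'⟩ : completion (GrpCat.of G) ≃ₜ* completion (GrpCat.of H)).symm⟩

end ProfArtin
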