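import Mathlib

/-!
# Profinite rigidity of Artin groups (MP_f6e909_al): definitions
-/

namespace ProfArtin

/-! ## Statement level definitions -/

/-- the alternating product `a * b * a * ⋯` with `m` factors -/
def alt {X : Type} [Monoid X] : X → X → ℕ → X
  | _, _, 0 => 1
  | a, b, m + 1 => a * alt b a m

/-- The relators of the Artin group of a Coxeter matrix `M` (Mathlib convention: the entry `0`
means `∞`, no relation): for `s ≠ t` with `M s t ≠ 0`, the alternating words
`s t s ⋯` and `t s t ⋯` of length `M s t` are equal. -/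
def artinRels {S : Type} (M : CoxeterMatrix S) : Set (FreeGroup S) :=
  {r | ∃ s t : S, s ≠ t ∧ M s t ≠ 0 ∧
    r = alt (FreeGroup.of s) (FreeGroup.of t) (M s t) *
      (alt (FreeGroup.of t) (FreeGroup.of s) (M s t))⁻¹}

/-- The Artin group of the Coxeter matrix `M`. -/
abbrev ArtinGroup {S : Type} (M : CoxeterMatrix S) : Type := PresentedGroup (artinRels M)

/-- the standard generator -/
def gen {S : Type} (M : CoxeterMatrix S) (s : S) : ArtinGroup M := PresentedGroup.of s

/-- Absolute profinite rigidity: `G` is residually finite, and every finitely generated residually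
finite group whose profinite completion is isomorphic (as a topological group) to the profinite
completion of `G` is isomorphic to `G`. -/
def ProfinitelyRigid (G : Type) [Group G] : Prop :=
  Group.ResiduallyFinite G ∧
    ∀ (H : Type) [Group H], Group.FG H → Group.ResiduallyFinite H →
      Nonempty (ProfiniteGrp.ProfiniteCompletion.completion (GrpCat.of H) ≃ₜ*
        ProfiniteGrp.ProfiniteCompletion.completion (GrpCat.of G)) →
      Nonempty (H ≃* G)

/-- the restriction of a Coxeter matrix to a set of generators -/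
def restrict {S : Type} (M : CoxeterMatrix S) (U : Set S) : CoxeterMatrix U where
  M := Matrix.of fun i j => M i.1 j.1
  isSymm := by
    ext i j
    exact M.symmetric _ _
  diagonal i := M.diagonal _
  off_diagonal i j h := M.off_diagonal _ _ fun h' => h (Subtype.ext h')

/-- adjacency in the Coxeter graph of type `D n` on the nodes `0, …, n - 1`: the chain
`0 - 1 - ⋯ - (n - 2)` and the edge `(n - 3) - (n - 1)`. -/
def adjD (n i j : ℕ) : Prop := (i + 1 = j ∧ j + 1 < n) ∨ (i + 2 = j ∧ j + 1 = n)

instance (n i j : ℕ) : Decidable (adjD n i j) := by unfold adjD; infer_instance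

/-- The Coxeter matrix of type `D n`. -/
def typeD (n : ℕ) : CoxeterMatrix (Fin n) where
  M := Matrix.of fun i j : Fin n =>
    if i = j then 1 else if adjD n i j ∨ adjD n j i then 3 else 2
  isSymm := by
    ext i j
    simp only [Matrix.transpose_apply, Matrix.of_apply, eq_comm (a := j) (b := i),
      or_comm (a := adjD n j i)]
  diagonal i := by simp
  off_diagonal i j h := by
    simp only [Matrix.of_apply, if_neg h]
    split_ifs <;> simp

/-- The restriction of `M` to `T` is the Coxeter matrix `N`. -/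
def HasType {S : Type} (M : CoxeterMatrix S) (T : Set S) {n : ℕ}
    (N : CoxeterMatrix (Fin n)) : Prop :=
  ∃ e : Fin n ≃ T, ∀ i j, M (e i) (e j) = N i j

/-! ## Families of elements with braid relations -/

/-- A family `t i` of elements with braid relations, folded along `a : ι → ℕ`: the nodes `i`, `j`
braid if `a i` and `a j` are consecutive, and commute otherwise. -/
structure Fold {ι G : Type} [Group G] (n : ℕ) (a : ι → ℕ) (t : ι → G) : Prop where
  lt : ∀ i, a i + 1 < n
  surj : ∀ k, k + 1 < n → ∃ i, a i = k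
  comm : ∀ i j, a i + 1 ≠ a j → a j + 1 ≠ a i → t i * t j = t j * t i
  braid : ∀ i j, a i + 1 = a j → t i * t j * t i = t j * t i * t j
  fold : ∀ i j, a i = a j → i ≠ j → a i + 2 = n

/-- Braid relations for a sequence (only the indices `< m` matter). -/
structure Chain {G : Type} [Group G] (m : ℕ) (x : ℕ → G) : Prop where
  comm : ∀ i j, i + 2 ≤ j → j < m → x i * x j = x j * x i
  braid : ∀ i, i + 1 < m → x i * x (i + 1) * x i = x (i + 1) * x i * x (i + 1)

/-- Central twist: adjoin a central element `z` with `z ^ κ = h`. -/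
abbrev Tw (G : Type) [Group G] (h : G) (κ : ℕ) : Type :=
  (G × Multiplicative ℤ) ⧸
    Subgroup.normalClosure {((h, Multiplicative.ofAdd (-(κ : ℤ))) : G × Multiplicative ℤ)}

/-! ## The first test group: crossing numbers -/

/-- The action of a permutation on an `n × n` integer matrix. -/
def act {n : ℕ} (s : Equiv.Perm (Fin n)) (v : Fin n → Fin n → ℤ) : Fin n → Fin n → ℤ :=
  fun i j => v (s.symm i) (s.symm j)

/-- The semidirect product of the group of `n × n` integer matrices by the symmetric group. -/
@[ext]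
structure Gam (n : ℕ) where
  v : Fin n → Fin n → ℤ
  s : Equiv.Perm (Fin n)

namespace Gam

variable {n : ℕ}

instance : Mul (Gam n) := ⟨fun x y => ⟨x.v + act x.s y.v, x.s * y.s⟩⟩
instance : One (Gam n) := ⟨⟨0, 1⟩⟩
instance : Inv (Gam n) := ⟨fun x => ⟨-act x.s⁻¹ x.v, x.s⁻¹⟩⟩

@[simp] theorem mul_v (x y : Gam n) : (x * y).v = x.v + act x.s y.v := rfl
@[simp] theorem mul_s (x y : Gam n) : (x * y).s = x.s * y.s := rfl
@[simp] theorem one_v : (1 : Gam n).v = 0 := rfl
@[simp] theorem one_s : (1 : Gam n).s = 1 := rfl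
@[simp] theorem inv_v (x : Gam n) : x⁻¹.v = -act x.s⁻¹ x.v := rfl
@[simp] theorem inv_s (x : Gam n) : x⁻¹.s = x.s⁻¹ := rfl

instance : Group (Gam n) where
  mul_assoc x y z := by
    ext
    · simp [act, add_assoc, Equiv.Perm.mul_def]
    · simp
  one_mul x := by
    ext
    · simp [act]
      rfl
    · simp
  mul_one x := by
    ext
    · simp [act]
    · simp
  inv_mul_cancel x := by
    ext
    · simp [act]
    · simp

end Gam

/-- the matrix with entry `1` at `(k, k+1)` and `(k+1, k)` and `0` elsewhere -/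
def E (n k : ℕ) : Fin n → Fin n → ℤ := fun i j =>
  if (i.1 = k ∧ j.1 = k + 1) ∨ (i.1 = k + 1 ∧ j.1 = k) then 1 else 0

/-- the transposition of `k` and `k + 1` (the identity if `k + 1 ≥ n`) -/
def sw (n k : ℕ) : Equiv.Perm (Fin n) :=
  if h : k + 1 < n then Equiv.swap ⟨k, by omega⟩ ⟨k + 1, h⟩ else 1

/-- the matrix with all entries `1` outside the diagonal and `0` on the diagonal -/
def ones (n : ℕ) : Fin n → Fin n → ℤ := fun i j => if i = j then 0 else 1

/-- sum of all entries -/
def tot {n : ℕ} (v : Fin n → Fin n → ℤ) : ℤ := ∑ i, ∑ j, v i j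

/-! ## The second test group: affine transformations of the plane -/

/-- The semidirect product of `ℤ²` by `SL(2, ℤ)`. -/
@[ext]
structure Aff where
  u : Fin 2 → ℤ
  m : Matrix.SpecialLinearGroup (Fin 2) ℤ

namespace Aff

instance : Mul Aff := ⟨fun x y => ⟨x.u + x.m.1.mulVec y.u, x.m * y.m⟩⟩
instance : One Aff := ⟨⟨0, 1⟩⟩
instance : Inv Aff := ⟨fun x => ⟨-(x.m⁻¹).1.mulVec x.u, x.m⁻¹⟩⟩

@[simp] theorem mul_u (x y : Aff) : (x * y).u = x.u + x.m.1.mulVec y.u := rfl
@[simp] theorem mul_m (x y : Aff) : (x * y).m = x.m * y.m := rfl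
@[simp] theorem one_u : (1 : Aff).u = 0 := rfl
@[simp] theorem one_m : (1 : Aff).m = 1 := rfl
@[simp] theorem inv_u (x : Aff) : x⁻¹.u = -(x.m⁻¹).1.mulVec x.u := rfl
@[simp] theorem inv_m (x : Aff) : x⁻¹.m = x.m⁻¹ := rfl

instance : Group Aff where
  mul_assoc x y z := by
    refine Aff.ext ?_ ?_
    · simp only [mul_u, mul_m, Matrix.SpecialLinearGroup.coe_mul, Matrix.mulVec_add,
        Matrix.mulVec_mulVec, add_assoc]
    · simp only [mul_m, mul_assoc]
  one_mul x := by
    refine Aff.ext ?_ ?_ <;> simp
  mul_one x := by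
    refine Aff.ext ?_ ?_ <;> simp
  inv_mul_cancel x := by
    refine Aff.ext ?_ ?_
    · simp only [mul_u, inv_u, inv_m, one_u]
      exact neg_add_cancel _
    · simp

end Aff

/-- the matrix `[[1, 1], [0, 1]]` -/
def matT : Matrix.SpecialLinearGroup (Fin 2) ℤ := ⟨!![1, 1; 0, 1], by simp [Matrix.det_fin_two]⟩

/-- the matrix `[[1, 0], [-1, 1]]` -/
def matU : Matrix.SpecialLinearGroup (Fin 2) ℤ := ⟨!![1, 0; -1, 1], by simp [Matrix.det_fin_two]⟩

end ProfArtin
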