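import Pool.Agent.Work.MP_f6e909_al.Defs

/-! # Relations in the first test group -/

namespace ProfArtin

variable {n : ℕ}

theorem act_add (s : Equiv.Perm (Fin n)) (v w : Fin n → Fin n → ℤ) :
    act s (v + w) = act s v + act s w := rfl

theorem act_neg (s : Equiv.Perm (Fin n)) (v : Fin n → Fin n → ℤ) : act s (-v) = -act s v := rfl

theorem act_smul (s : Equiv.Perm (Fin n)) (c : ℤ) (v : Fin n → Fin n → ℤ) :
    act s (c • v) = c • act s v := rfl

theorem act_mul (s t : Equiv.Perm (Fin n)) (v : Fin n → Fin n → ℤ) :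
    act (s * t) v = act s (act t v) := rfl

theorem act_one (v : Fin n → Fin n → ℤ) : act 1 v = v := rfl

theorem act_ones (s : Equiv.Perm (Fin n)) : act s (ones n) = ones n := by
  funext i j
  simp [act, ones]

theorem tot_act (s : Equiv.Perm (Fin n)) (v : Fin n → Fin n → ℤ) : tot (act s v) = tot v := by
  unfold tot act
  rw [Equiv.sum_comp s.symm (fun i => ∑ j, v i (s.symm j))]
  refine Finset.sum_congr rfl fun i _ => ?_
  exact Equiv.sum_comp s.symm (fun j => v i j)

theorem tot_add (v w : Fin n → Fin n → ℤ) : tot (v + w) = tot v + tot w := by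
  simp [tot, Finset.sum_add_distrib]

theorem tot_smul (c : ℤ) (v : Fin n → Fin n → ℤ) : tot (c • v) = c * tot v := by
  simp [tot, Finset.mul_sum]

theorem tot_neg (v : Fin n → Fin n → ℤ) : tot (-v) = -tot v := by
  simp [tot]

theorem tot_ones (n : ℕ) : tot (ones n) = (n : ℤ) * (n - 1) := by
  have h : ∀ i j : Fin n, ones n i j = 1 - if i = j then 1 else 0 := by
    intro i j
    unfold ones
    split_ifs <;> simp
  unfold tot
  simp only [h, Finset.sum_sub_distrib, Finset.sum_const, Finset.card_univ, Fintype.card_fin,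
    Finset.sum_ite_eq, Finset.mem_univ, if_true]
  simp only [nsmul_eq_mul]
  ring

/-- the matrix of a pair -/
private def pair (a b : Fin n) : Fin n → Fin n → ℤ := fun i j =>
  if (i = a ∧ j = b) ∨ (i = b ∧ j = a) then 1 else 0

private theorem pair_comm (a b : Fin n) : pair a b = pair b a := by
  funext i j
  unfold pair
  congr 1
  exact propext or_comm

private theorem act_pair (s : Equiv.Perm (Fin n)) (a b : Fin n) :
    act s (pair a b) = pair (s a) (s b) := by
  funext i j
  simp only [act, pair, Equiv.symm_apply_eq]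

private theorem E_pair {k : ℕ} (hk : k + 1 < n) :
    E n k = pair ⟨k, by omega⟩ ⟨k + 1, hk⟩ := by
  funext i j
  simp only [E, pair, Fin.ext_iff]

private theorem sw_eq {k : ℕ} (hk : k + 1 < n) :
    sw n k = Equiv.swap ⟨k, by omega⟩ ⟨k + 1, hk⟩ := dif_pos hk

theorem tot_E {k : ℕ} (hk : k + 1 < n) : tot (E n k) = 2 := by
  have h : ∀ i j : Fin n, E n k i j = (if i = ⟨k, by omega⟩ then
      (if j = ⟨k + 1, hk⟩ then 1 else 0) else 0) +
      (if i = ⟨k + 1, hk⟩ then (if j = ⟨k, by omega⟩ then 1 else 0) else 0) := by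
    intro i j
    unfold E
    simp only [Fin.ext_iff]
    split_ifs <;> omega
  unfold tot
  simp only [h, Finset.sum_add_distrib]
  simp [Finset.sum_ite_irrel]

/-- far generators commute -/
theorem gam_comm {k l : ℕ} (hkl : k + 2 ≤ l) (hl : l + 1 < n) :
    (⟨E n k, sw n k⟩ : Gam n) * ⟨E n l, sw n l⟩ = ⟨E n l, sw n l⟩ * ⟨E n k, sw n k⟩ := by
  have hk : k + 1 < n := by omega
  refine Gam.ext ?_ ?_
  · rw [Gam.mul_v, Gam.mul_v]
    dsimp only
    rw [E_pair hk, E_pair hl, sw_eq hk, sw_eq hl, act_pair, act_pair,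
      Equiv.swap_apply_of_ne_of_ne, Equiv.swap_apply_of_ne_of_ne,
      Equiv.swap_apply_of_ne_of_ne, Equiv.swap_apply_of_ne_of_ne, add_comm]
    all_goals simp only [ne_eq, Fin.mk.injEq]; omega
  · rw [Gam.mul_s, Gam.mul_s]
    dsimp only
    rw [sw_eq hk, sw_eq hl]
    refine (Equiv.Perm.disjoint_swap_swap ?_).commute.eq
    simp only [List.nodup_cons, List.mem_cons, Fin.mk.injEq, List.not_mem_nil, or_false,
      not_or, List.nodup_nil, and_true, not_false_eq_true]
    omega

/-- adjacent generators braid -/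
theorem gam_braid {k : ℕ} (hk : k + 2 < n) :
    (⟨E n k, sw n k⟩ : Gam n) * ⟨E n (k + 1), sw n (k + 1)⟩ * ⟨E n k, sw n k⟩ =
      ⟨E n (k + 1), sw n (k + 1)⟩ * ⟨E n k, sw n k⟩ * ⟨E n (k + 1), sw n (k + 1)⟩ := by
  have h1 : k + 1 < n := by omega
  have h2 : k + 1 + 1 < n := by omega
  set a : Fin n := ⟨k, by omega⟩ with ha
  set b : Fin n := ⟨k + 1, h1⟩ with hb
  set c : Fin n := ⟨k + 1 + 1, h2⟩ with hc
  have hab : a ≠ b := by simp only [ha, hb, ne_eq, Fin.mk.injEq]; omega
  have hac : a ≠ c := by simp only [ha, hc, ne_eq, Fin.mk.injEq]; omega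
  have hbc : b ≠ c := by simp only [hb, hc, ne_eq, Fin.mk.injEq]; omega
  refine Gam.ext ?_ ?_
  · simp only [Gam.mul_v, Gam.mul_s]
    rw [E_pair h1, E_pair h2, sw_eq h1, sw_eq h2, act_pair, act_pair, act_pair, act_pair]
    simp only [Equiv.Perm.mul_apply, ← ha, ← hb, ← hc, Equiv.swap_apply_left,
      Equiv.swap_apply_right, Equiv.swap_apply_of_ne_of_ne hab hac,
      Equiv.swap_apply_of_ne_of_ne hac.symm hbc.symm]
    abel
  · simp only [Gam.mul_s]
    rw [sw_eq h1, sw_eq h2]
    simp only [← ha, ← hb, ← hc]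
    rw [Equiv.swap_mul_swap_mul_swap hab hac]
    rw [Equiv.swap_comm a b, Equiv.swap_comm b c, Equiv.swap_mul_swap_mul_swap hbc.symm hac.symm]
    exact Equiv.swap_comm _ _

/-- the square of a generator -/
theorem gam_sq {k : ℕ} (hk : k + 1 < n) :
    (⟨E n k, sw n k⟩ : Gam n) * ⟨E n k, sw n k⟩ = ⟨(2 : ℤ) • E n k, 1⟩ := by
  refine Gam.ext ?_ ?_
  · simp only [Gam.mul_v]
    rw [E_pair hk, sw_eq hk, act_pair, Equiv.swap_apply_left, Equiv.swap_apply_right,
      pair_comm ⟨k + 1, hk⟩, two_smul]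
  · simp only [Gam.mul_s]
    rw [sw_eq hk, Equiv.swap_mul_self]

/-- adjacent transpositions generate the symmetric group -/
theorem sw_closure (n : ℕ) :
    Subgroup.closure {s : Equiv.Perm (Fin n) | ∃ k, k + 1 < n ∧ s = sw n k} = ⊤ := by
  rcases n with _ | n
  · exact Subsingleton.elim _ _
  · rw [eq_top_iff]
    have h := Equiv.Perm.mclosure_swap_castSucc_succ n
    intro s _
    have hs : s ∈ Submonoid.closure (Set.range fun i : Fin n ↦ Equiv.swap i.castSucc i.succ) := by
      rw [h]; trivial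
    have hle : Submonoid.closure (Set.range fun i : Fin n ↦ Equiv.swap i.castSucc i.succ) ≤
        (Subgroup.closure {s : Equiv.Perm (Fin (n + 1)) |
          ∃ k, k + 1 < n + 1 ∧ s = sw (n + 1) k}).toSubmonoid := by
      rw [Submonoid.closure_le]
      rintro _ ⟨i, rfl⟩
      refine Subgroup.subset_closure ⟨i, by omega, ?_⟩
      rw [sw_eq (by omega)]
      rfl
    exact hle hs

theorem sw_sign {k : ℕ} (hk : k + 1 < n) : Equiv.Perm.sign (sw n k) = -1 := by
  rw [sw_eq hk, Equiv.Perm.sign_swap]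
  simp

/-- a matrix with zero diagonal invariant under all permutations is a multiple of `ones` -/
theorem inv_ones (hn : 2 ≤ n) (v : Fin n → Fin n → ℤ) (h0 : ∀ i, v i i = 0)
    (h : ∀ s, act s v = v) : ∃ c : ℤ, v = c • ones n := by
  set z : Fin n := ⟨0, by omega⟩ with hz
  set o : Fin n := ⟨1, by omega⟩ with ho
  have hzo : z ≠ o := by simp [hz, ho]
  refine ⟨v z o, ?_⟩
  funext i j
  by_cases hij : i = j
  · subst hij
    simp [h0, ones]
  · have h1 : i ≠ Equiv.swap z i o := by
      intro h1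
      have h2 : Equiv.swap z i z = Equiv.swap z i o := by rw [Equiv.swap_apply_left]; exact h1
      exact hzo ((Equiv.swap z i).injective h2)
    have hs := congrFun (congrFun (h (Equiv.swap (Equiv.swap z i o) j * Equiv.swap z i)) i) j
    have e1 : (Equiv.swap (Equiv.swap z i o) j * Equiv.swap z i).symm i = z := by
      rw [Equiv.symm_apply_eq, Equiv.Perm.mul_apply, Equiv.swap_apply_left,
        Equiv.swap_apply_of_ne_of_ne h1 hij]
    have e2 : (Equiv.swap (Equiv.swap z i o) j * Equiv.swap z i).symm j = o := by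
      rw [Equiv.symm_apply_eq, Equiv.Perm.mul_apply, Equiv.swap_apply_left]
    unfold act at hs
    rw [e1, e2] at hs
    simp [ones, hij, hs]

/-- scaling of the abelian part is an endomorphism -/
theorem gam_scale (c : ℤ) : ∃ F : Gam n →* Gam n, ∀ x, F x = ⟨c • x.v, x.s⟩ := by
  refine ⟨MonoidHom.mk' (fun x => ⟨c • x.v, x.s⟩) ?_, fun x => rfl⟩
  intro x y
  refine Gam.ext ?_ rfl
  simp only [Gam.mul_v, smul_add, act_smul]

end ProfArtin
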