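import Pool.Agent.Work.MP_f6e909_al.Art
import Pool.Agent.Work.MP_f6e909_al.GamRel

/-! # The families of generators of type `A` and `D` -/

namespace ProfArtin

variable {S : Type}

/-- The generators in `T` are `e 0, …, e (m - 1)`, folded along `a`. -/
structure FoldType (M : CoxeterMatrix S) (T : Set S) (n : ℕ) {m : ℕ} (e : Fin m ≃ T)
    (a : Fin m → ℕ) : Prop where
  lt : ∀ i, a i + 1 < n
  surj : ∀ k, k + 1 < n → ∃ i, a i = k
  entry : ∀ i j, i ≠ j → M (e i) (e j) = if a i + 1 = a j ∨ a j + 1 = a i then 3 else 2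
  fold : ∀ i j, a i = a j → i ≠ j → a i + 2 = n

theorem foldType_A (M : CoxeterMatrix S) (T : Set S) {m : ℕ} (hm : 1 ≤ m) (e : Fin m ≃ T)
    (he : ∀ i j, M (e i) (e j) = CoxeterMatrix.A m i j) :
    FoldType M T (m + 1) e (fun i => i.1) := by
  refine ⟨fun i => by have := i.2; omega, fun k hk => ⟨⟨k, by omega⟩, rfl⟩, ?_, ?_⟩
  · intro i j hij
    rw [he]
    simp only [CoxeterMatrix.A, Matrix.of_apply, if_neg hij]
    by_cases h : (i : ℕ) + 1 = j ∨ (j : ℕ) + 1 = i
    · rw [if_pos h, if_pos h.symm]
    · rw [if_neg h, if_neg (fun h' => h h'.symm)]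
  · intro i j h hij
    exact absurd (Fin.ext h) hij

theorem foldType_D (M : CoxeterMatrix S) (T : Set S) {n : ℕ} (hn : 4 ≤ n) (e : Fin n ≃ T)
    (he : ∀ i j, M (e i) (e j) = typeD n i j) :
    FoldType M T n e (fun i => min i.1 (n - 2)) := by
  refine ⟨fun i => by have := i.2; omega, fun k hk => ⟨⟨k, by omega⟩, by simp only; omega⟩, ?_, ?_⟩
  · intro i j hij
    rw [he]
    have hij' : i.1 ≠ j.1 := fun h => hij (Fin.ext h)
    have hi := i.2
    have hj := j.2
    change (if i = j then 1 else if adjD n i j ∨ adjD n j i then 3 else 2) = _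
    rw [if_neg hij]
    have key : (adjD n i j ∨ adjD n j i) ↔
        (min i.1 (n - 2) + 1 = min j.1 (n - 2) ∨ min j.1 (n - 2) + 1 = min i.1 (n - 2)) := by
      unfold adjD
      omega
    by_cases h : adjD n i j ∨ adjD n j i
    · rw [if_pos h, if_pos (key.1 h)]
    · rw [if_neg h, if_neg (fun h' => h (key.2 h'))]
  · intro i j h hij
    have hij' : i.1 ≠ j.1 := fun h => hij (Fin.ext h)
    have hi := i.2
    have hj := j.2
    omega

theorem fold_of_foldType (M : CoxeterMatrix S) (T : Set S) {n m : ℕ} {e : Fin m ≃ T}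
    {a : Fin m → ℕ} (h : FoldType M T n e a) : Fold n a (fun i => gen M (e i)) := by
  have hne : ∀ i j, i ≠ j → ((e i : T) : S) ≠ (e j : T) := by
    intro i j hij h
    exact hij (e.injective (Subtype.ext h))
  refine ⟨h.lt, h.surj, ?_, ?_, h.fold⟩
  · intro i j h1 h2
    by_cases hij : i = j
    · rw [hij]
    · have h3 := h.entry i j hij
      rw [if_neg (by tauto)] at h3
      have h4 := art_rel M (hne i j hij) (by rw [h3]; norm_num)
      rw [h3, alt_two, alt_two] at h4
      exact h4
  · intro i j h1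
    have hij : i ≠ j := by
      rintro rfl
      omega
    have h3 := h.entry i j hij
    rw [if_pos (Or.inl h1)] at h3
    have h4 := art_rel M (hne i j hij) (by rw [h3]; norm_num)
    rw [h3, alt_three, alt_three] at h4
    exact h4

private theorem alt_self {X : Type} [Monoid X] (a : X) (m : ℕ) : alt a a m = a ^ m := by
  induction m with
  | zero => simp [alt]
  | succ k ih => rw [alt, ih, pow_succ']

private theorem alt_one_one (X : Type) [Monoid X] (m : ℕ) : alt (1 : X) 1 m = 1 := by
  rw [alt_self, one_pow]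

/-- the crossing number homomorphism -/
theorem theta_exists (M : CoxeterMatrix S) (T : Set S) (hcomm : ∀ s ∈ T, ∀ t ∉ T, M s t = 2)
    {n m : ℕ} {e : Fin m ≃ T} {a : Fin m → ℕ} (h : FoldType M T n e a) :
    ∃ Θ : ArtinGroup M →* Gam n, (∀ i, Θ (gen M (e i)) = ⟨E n (a i), sw n (a i)⟩) ∧
      ∀ s, s ∉ T → Θ (gen M s) = 1 := by
  classical
  set f : S → Gam n := fun s => if hs : s ∈ T then
    ⟨E n (a (e.symm ⟨s, hs⟩)), sw n (a (e.symm ⟨s, hs⟩))⟩ else 1 with hf
  have hfe : ∀ i, f (e i) = ⟨E n (a i), sw n (a i)⟩ := by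
    intro i
    simp only [hf]
    rw [dif_pos (e i).2]
    simp
  have hfn : ∀ s, s ∉ T → f s = 1 := by
    intro s hs
    simp only [hf]
    rw [dif_neg hs]
  obtain ⟨Θ, hΘ⟩ := art_lift (X := Gam n) M f (by
    intro s t hst _
    by_cases hs : s ∈ T
    · by_cases ht : t ∈ T
      · obtain ⟨i, hi⟩ := e.surjective ⟨s, hs⟩
        obtain ⟨j, hj⟩ := e.surjective ⟨t, ht⟩
        have h3 : ((e i : T) : S) = s := by rw [hi]
        have h4 : ((e j : T) : S) = t := by rw [hj]
        have hij : i ≠ j := by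
          rintro rfl
          exact hst (h3.symm.trans h4)
        rw [← h3, ← h4, h.entry i j hij, hfe, hfe]
        have li := h.lt i
        have lj := h.lt j
        by_cases hadj : a i + 1 = a j ∨ a j + 1 = a i
        · rw [if_pos hadj, alt_three, alt_three]
          rcases hadj with h5 | h5
          · rw [← h5]
            exact gam_braid (by omega)
          · rw [← h5]
            exact (gam_braid (by omega)).symm
        · rw [if_neg hadj, alt_two, alt_two]
          rcases Nat.lt_trichotomy (a i) (a j) with h5 | h5 | h5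
          · exact gam_comm (by omega) lj
          · rw [h5]
          · exact (gam_comm (by omega) li).symm
      · rw [hcomm s hs t ht, alt_two, alt_two, hfn t ht, mul_one, one_mul]
    · by_cases ht : t ∈ T
      · rw [M.symmetric, hcomm t ht s hs, alt_two, alt_two, hfn s hs, mul_one, one_mul]
      · rw [hfn s hs, hfn t ht])
  exact ⟨Θ, fun i => by rw [hΘ, hfe], fun s hs => by rw [hΘ, hfn s hs]⟩

/-- the exponent sum of the generators in `T` -/
theorem chi_exists (M : CoxeterMatrix S) (T : Set S) (hcomm : ∀ s ∈ T, ∀ t ∉ T, M s t = 2)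
    {n m : ℕ} {e : Fin m ≃ T} {a : Fin m → ℕ} (h : FoldType M T n e a) :
    ∃ χ : ArtinGroup M →* Multiplicative ℤ, (∀ i, χ (gen M (e i)) = Multiplicative.ofAdd 1) ∧
      ∀ s, s ∉ T → χ (gen M s) = 1 := by
  classical
  obtain ⟨χ, hχ⟩ := art_lift (X := Multiplicative ℤ) M
    (fun s => if s ∈ T then Multiplicative.ofAdd 1 else 1) (by
      intro s t _ _
      by_cases hs : s ∈ T
      · by_cases ht : t ∈ T
        · simp only [hs, ht, if_true]
        · rw [hcomm s hs t ht, alt_two, alt_two, mul_comm]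
      · by_cases ht : t ∈ T
        · rw [M.symmetric, hcomm t ht s hs, alt_two, alt_two, mul_comm]
        · simp only [hs, ht, if_false])
  refine ⟨χ, fun i => ?_, fun s hs => ?_⟩
  · rw [hχ]
    simp only [(e i).2, if_true]
  · rw [hχ]
    simp only [hs, if_false]

end ProfArtin
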