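import Pool.Agent.Work.MP_f6e909_al.FiveAux

/-! # The exceptional case `n = 6` and the case of trivial permutations -/

namespace ProfArtin

variable {ι G : Type} [Group G] {n : ℕ} {a : ι → ℕ} {t : ι → G} {B : Subgroup G}
  {Θ Φ : G →* Gam n} {N' κ : ℤ} {y : G}

/-- The exceptional case does not occur. With `a i = 0`, `W = (Φ (t i * t i)).v` is invariant under
the transitive group generated by the permutations of the `t j`, `a j ≠ 1`, so all its row sums are
equal and `fD p q` vanishes on it and on its conjugates; by `ker_fold'` it vanishes on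
`(Φ g).v` for all `g` with `(Φ g).s = 1`. But `⟨(2 * κ) • E n 0, 1⟩` is in the range of `Φ`. -/
theorem five_exotic (H : HypFive n a t B Θ Φ N' κ y) (hB : ∀ b ∈ B, (Φ b).s = 1)
    (h1 : ∀ i, (Φ (t i)).s * (Φ (t i)).s = 1) (h2 : ∀ i j, a i = a j → (Φ (t i)).s = (Φ (t j)).s)
    (h3 : ∀ i, a i = 0 → ∀ p q, ∃ g ∈ Subgroup.closure {s | ∃ j, a j ≠ 1 ∧ s = (Φ (t j)).s},
      g p = q) : False := by
  classical
  have hn := H.hn
  obtain ⟨i, hi⟩ := H.hF.surj 0 (by omega)
  have hWs : (Φ (t i * t i)).s = 1 := by rw [map_mul, Gam.mul_s, h1]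
  -- invariance
  have hinv : ∀ g ∈ Subgroup.closure {s | ∃ j, a j ≠ 1 ∧ s = (Φ (t j)).s},
      act g (Φ (t i * t i)).v = (Φ (t i * t i)).v := by
    intro g hg
    induction hg using Subgroup.closure_induction with
    | mem s hs =>
      obtain ⟨j, hj, rfl⟩ := hs
      refine gam_comm_inv _ _ hWs ?_
      have c := H.hF.comm j i (by omega) (by omega)
      rw [← map_mul, ← map_mul]
      congr 1
      calc t j * (t i * t i) = (t j * t i) * t i := by group
        _ = (t i * t j) * t i := by rw [c]
        _ = t i * (t j * t i) := by group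
        _ = t i * (t i * t j) := by rw [c]
        _ = t i * t i * t j := by group
    | one => exact act_one _
    | mul x z _ _ hx hz => rw [act_mul, hz, hx]
    | inv x _ hx =>
      conv_lhs => rw [← hx]
      rw [← act_mul, inv_mul_cancel, act_one]
  have hrow : ∀ p q, ∑ j, (Φ (t i * t i)).v p j = ∑ j, (Φ (t i * t i)).v q j := by
    intro p q
    obtain ⟨g, hg, hgp⟩ := h3 i hi p q
    have e := hinv g hg
    have e2 : ∀ j, (Φ (t i * t i)).v q j = (Φ (t i * t i)).v p (g.symm j) := by
      intro j
      have := congrFun (congrFun e q) j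
      rw [← this]
      show (Φ (t i * t i)).v (g.symm q) (g.symm j) = _
      rw [← hgp, Equiv.symm_apply_apply]
    simp_rw [e2]
    exact (Equiv.sum_comp g.symm (fun j => (Φ (t i * t i)).v p j)).symm
  -- vanishing of `fD` on all conjugates
  have hrowσ : ∀ (v : Fin n → Fin n → ℤ), (∀ p q, ∑ j, v p j = ∑ j, v q j) →
      ∀ σ p q, fD p q (act σ v) = 0 := by
    intro v hv σ p q
    have e : ∀ p, ∑ j, act σ v p j = ∑ j, v (σ.symm p) j := by
      intro p
      exact Equiv.sum_comp σ.symm (fun j => v (σ.symm p) j)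
    unfold fD
    rw [e, e, hv (σ.symm p) (σ.symm q), sub_self]
  let P : Subgroup G :=
    { carrier := {g | (Φ g).s = 1 ∧ ∀ σ p q, fD p q (act σ (Φ g).v) = 0}
      mul_mem' := by
        rintro x z ⟨k1, k2⟩ ⟨l1, l2⟩
        refine ⟨by rw [map_mul, Gam.mul_s, k1, l1, one_mul], ?_⟩
        intro σ p q
        rw [map_mul, Gam.mul_v, k1, act_one, act_add, fD_add, k2, l2, add_zero]
      one_mem' := by
        refine ⟨by rw [map_one]; rfl, ?_⟩
        intro σ p q
        rw [map_one, Gam.one_v, act_zero']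
        simp [fD]
      inv_mem' := by
        rintro x ⟨k1, k2⟩
        refine ⟨by rw [map_inv, Gam.inv_s, k1, inv_one], ?_⟩
        intro σ p q
        rw [map_inv, Gam.inv_v, k1, inv_one, act_one, act_neg]
        have := fD_smul p q (-1) (act σ (Φ x).v)
        rw [k2, mul_zero, neg_one_smul] at this
        exact this }
  have hPconj : ∀ x ∈ P, ∀ h : G, h * x * h⁻¹ ∈ P := by
    rintro x ⟨k1, k2⟩ h
    refine ⟨?_, ?_⟩
    · rw [map_mul, map_mul, map_inv]
      exact (gam_conj _ _ k1).2
    · intro σ p q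
      rw [map_mul, map_mul, map_inv, (gam_conj _ _ k1).1, ← act_mul]
      exact k2 _ p q
  have hPn : P.Normal := ⟨hPconj⟩
  have hle : Subgroup.normalClosure ({x | ∃ i, x = t i * t i} ∪
      {x | ∃ i j, a i = a j ∧ x = t i * (t j)⁻¹} ∪ (B : Set G)) ≤ P := by
    refine Subgroup.normalClosure_le_normal ?_
    rintro x ((⟨j, rfl⟩ | ⟨j, j', hjj, rfl⟩) | hb)
    · obtain ⟨h, hh⟩ := fold_conj H.hF (fun j hj => five_zero_unique H hi hj) (a j) j rfl
      have hb : t i * t i ∈ P := ⟨hWs, hrowσ _ hrow⟩
      have : t j * t j = h * (t i * t i) * h⁻¹ := by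
        rw [hh]; group
      show t j * t j ∈ P
      rw [this]
      exact hPconj _ hb h
    · have e1 : Φ (t j) = Φ (t j') := five_fold_eq H h1 h2 hjj
      have e3 : Φ (t j * (t j')⁻¹) = 1 := by rw [map_mul, map_inv, e1, mul_inv_cancel]
      refine ⟨by rw [e3]; rfl, ?_⟩
      intro σ p q
      rw [e3, Gam.one_v, act_zero']
      simp [fD]
    · obtain ⟨c, hc⟩ := five_B_ones H hB hb
      refine ⟨hB x hb, ?_⟩
      intro σ p q
      rw [hc, act_smul, act_ones, fD_smul, fD_ones, mul_zero]
  -- the element `⟨(2 * κ) • E n 0, 1⟩`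
  have hx : (⟨(2 * κ) • E n 0, 1⟩ : Gam n) ∈ Φ.range := by
    rw [H.hrange]
    refine ⟨t i * t i, 0, ?_⟩
    rw [map_mul, H.hΘt, hi, gam_sq (by omega)]
    refine Gam.ext ?_ rfl
    show (2 * κ) • E n 0 = κ • ((2 : ℤ) • E n 0) + (0 * N') • ones n
    rw [zero_mul, zero_smul, add_zero, smul_smul, mul_comm]
  obtain ⟨g, hg⟩ := hx
  have hgs : (Φ g).s = 1 := by rw [hg]
  have hmem : g ∈ P := by
    refine hle (ker_fold' H.hF B H.hgen ((projS n).comp Θ) ?_ ?_ ((projS n).comp Φ) ?_ ?_ ?_ ?_
      g hgs)
    · intro j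
      show (Θ (t j)).s = sw n (a j)
      rw [H.hΘt]
    · intro b hb
      show (Θ b).s = 1
      rw [H.hΘB b hb]
      rfl
    · intro s
      obtain ⟨g, hg⟩ := phi_surj H s
      exact ⟨g, hg⟩
    · intro j
      show (Φ (t j * t j)).s = 1
      rw [map_mul, Gam.mul_s, h1]
    · intro j j' hjj
      show (Φ (t j * (t j')⁻¹)).s = 1
      rw [map_mul, map_inv, Gam.mul_s, Gam.inv_s, h2 j j' hjj, mul_inv_cancel]
    · exact hB
  have h0 := hmem.2 1 (⟨0, by omega⟩ : Fin n) ⟨2, by omega⟩
  rw [act_one, hg] at h0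
  change fD (⟨0, by omega⟩ : Fin n) ⟨2, by omega⟩ ((2 * κ) • E n 0) = 0 at h0
  rw [fD_smul, fD_E (by omega)] at h0
  obtain ⟨m, hm⟩ := H.hκ
  omega

/-- The permutations of the `Φ (t i)` are not all trivial: otherwise `B` maps onto the symmetric
group, `(Φ (t i)).v = c • ones n`, contradicting `phi_center` (`n * (n - 1) ≥ 20 > 2 * N'`). -/
theorem five_trivial (H : HypFive n a t B Θ Φ N' κ y) (h : ∀ i, (Φ (t i)).s = 1) : False := by
  classical
  have hn := H.hn
  obtain ⟨i, hi⟩ := H.hF.surj 0 (by omega)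
  have key : ∀ g : G, act (Φ g).s (Φ (t i)).v = (Φ (t i)).v := by
    intro g
    have hg : g ∈ Subgroup.closure (Set.range t) ⊔ B := by rw [H.hgen]; trivial
    have hle : Subgroup.closure (Set.range t) ⊔ B ≤
        ({ carrier := {g | act (Φ g).s (Φ (t i)).v = (Φ (t i)).v}
           mul_mem' := by
             intro x y hx hy
             show act (Φ (x * y)).s (Φ (t i)).v = (Φ (t i)).v
             rw [map_mul, Gam.mul_s, act_mul]
             have hx' : act (Φ x).s (Φ (t i)).v = (Φ (t i)).v := hx
             have hy' : act (Φ y).s (Φ (t i)).v = (Φ (t i)).v := hy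
             rw [hy', hx']
           one_mem' := by
             show act (Φ 1).s (Φ (t i)).v = (Φ (t i)).v
             rw [map_one, Gam.one_s, act_one]
           inv_mem' := by
             intro x hx
             show act (Φ x⁻¹).s (Φ (t i)).v = (Φ (t i)).v
             have hx' : act (Φ x).s (Φ (t i)).v = (Φ (t i)).v := hx
             rw [map_inv, Gam.inv_s]
             conv_lhs => rw [← hx']
             rw [← act_mul, inv_mul_cancel, act_one] } : Subgroup G) := by
      refine sup_le ?_ ?_
      · rw [Subgroup.closure_le]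
        rintro _ ⟨j, rfl⟩
        show act (Φ (t j)).s (Φ (t i)).v = (Φ (t i)).v
        rw [h j, act_one]
      · intro b hb
        show act (Φ b).s (Φ (t i)).v = (Φ (t i)).v
        refine gam_comm_inv _ _ (h i) ?_
        rw [← map_mul, ← map_mul, H.hB b hb i]
    exact hle hg
  obtain ⟨c, hc⟩ := inv_ones (by omega) _ (phi_symm H (t i)).1 (fun s => by
    obtain ⟨g, hg⟩ := phi_surj H s
    rw [← hg]
    exact key g)
  obtain ⟨c', hc'⟩ := phi_center H i
  rw [hc, tot_smul, tot_ones] at hc'
  have hn5 : (5 : ℤ) ≤ n := by exact_mod_cast hn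
  have hdvd : (n : ℤ) * (n - 1) ∣ 2 * N' := ⟨c * c', by rw [← hc']; ring⟩
  have hN : 0 < 2 * N' ∧ 2 * N' < 20 := by
    rcases H.hN with h | h <;> rw [h] <;> norm_num
  have := Int.le_of_dvd hN.1 hdvd
  nlinarith

theorem fiveB_inv_apply {α : Type} (e : Equiv.Perm α) (x : α) : e⁻¹ (e x) = x :=
  e.symm_apply_apply x

/-- Two commuting subgroups which generate the symmetric group of degree `n ≥ 5`: one of them is
trivial. -/
theorem sym_commuting (hn : 5 ≤ n) (X Y : Subgroup (Equiv.Perm (Fin n)))
    (hXY : ∀ x ∈ X, ∀ y ∈ Y, x * y = y * x) (hgen : X ⊔ Y = ⊤) : X = ⊥ ∨ Y = ⊥ := by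
  classical
  by_contra hcon
  push Not at hcon
  obtain ⟨hX, hY⟩ := hcon
  obtain ⟨x, hxX, hx1⟩ := (Subgroup.bot_or_exists_ne_one X).resolve_left hX
  obtain ⟨y, hyY, hy1⟩ := (Subgroup.bot_or_exists_ne_one Y).resolve_left hY
  -- all conjugates of `x` commute with `y`
  have hconj : ∀ σ : Equiv.Perm (Fin n), ∀ x ∈ X, σ * x * σ⁻¹ ∈ X := by
    intro σ
    have hσ : σ ∈ X ⊔ Y := by rw [hgen]; trivial
    have hle : X ⊔ Y ≤ ({ carrier := {σ | ∀ x, x ∈ X ↔ σ * x * σ⁻¹ ∈ X}
                          mul_mem' := by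
                            intro s t hs ht x
                            have e : s * t * x * (s * t)⁻¹ = s * (t * x * t⁻¹) * s⁻¹ := by group
                            rw [e, ← hs, ← ht]
                          one_mem' := by
                            intro x; simp
                          inv_mem' := by
                            intro s hs x
                            have := hs (s⁻¹ * x * s⁻¹⁻¹)
                            rw [this]
                            have e : s * (s⁻¹ * x * s⁻¹⁻¹) * s⁻¹ = x := by group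
                            rw [e] } : Subgroup (Equiv.Perm (Fin n))) := by
      refine sup_le ?_ ?_
      · intro s hs x
        constructor
        · intro hx
          exact X.mul_mem (X.mul_mem hs hx) (X.inv_mem hs)
        · intro hx
          have e : x = s⁻¹ * (s * x * s⁻¹) * s := by group
          rw [e]
          exact X.mul_mem (X.mul_mem (X.inv_mem hs) hx) hs
      · intro s hs x
        constructor
        · intro hx
          have e : s * x * s⁻¹ = x := by
            rw [← hXY x hx s hs]; group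
          rwa [e]
        · intro hx
          have e : x = s * x * s⁻¹ := by
            have c := hXY _ hx s hs
            -- `(s x s⁻¹) s = s (s x s⁻¹)` so `s x = s s x s⁻¹`, `x = s x s⁻¹`
            have c1 : s * x = s * (s * x * s⁻¹) := by
              rw [← c]; group
            exact mul_left_cancel c1
          rw [e]
          exact hx
    intro x hx
    exact (hle hσ x).1 hx
  have hcomm : ∀ σ : Equiv.Perm (Fin n), ∀ u, y (σ (x (σ⁻¹ u))) = σ (x (σ⁻¹ (y u))) := by
    intro σ u
    have h := hXY _ (hconj σ x hxX) y hyY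
    have := congrArg (fun e : Equiv.Perm (Fin n) => e u) h
    simp only [Equiv.Perm.mul_apply] at this
    exact this.symm
  obtain ⟨p, hp⟩ : ∃ p, x p ≠ p := by
    by_contra hcon
    push Not at hcon
    exact hx1 (Equiv.ext hcon)
  obtain ⟨p', hp'⟩ : ∃ p, y p ≠ p := by
    by_contra hcon
    push Not at hcon
    exact hy1 (Equiv.ext hcon)
  -- `u` outside `p`, `x p`, `x⁻¹ p`
  obtain ⟨u, hu⟩ : ∃ u, u ∉ ({p, x p, x⁻¹ p} : Finset (Fin n)) := by
    by_contra hcon
    push Not at hcon
    have h1 : (Finset.univ : Finset (Fin n)) ⊆ {p, x p, x⁻¹ p} := fun u _ => hcon u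
    have h2 := Finset.card_le_card h1
    have h3 := Finset.card_le_three (a := p) (b := x p) (c := x⁻¹ p)
    rw [Finset.card_univ, Fintype.card_fin] at h2
    omega
  simp only [Finset.mem_insert, Finset.mem_singleton, not_or] at hu
  obtain ⟨hu1, hu2, hu3⟩ := hu
  have hw1 : x u ≠ p := by
    intro h
    apply hu3
    rw [← h, fiveB_inv_apply]
  have hw2 : x u ≠ x p := fun h => hu1 (x.injective h)
  -- `σ` with `σ p = p'`, `σ u = y p'`
  obtain ⟨σ, hσ1, hσ2⟩ : ∃ σ : Equiv.Perm (Fin n), σ p = p' ∧ σ u = y p' := by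
    have hne : Equiv.swap p p' u ≠ p' := by
      intro h
      apply hu1
      have := congrArg (Equiv.swap p p') h
      rwa [Equiv.swap_apply_self, Equiv.swap_apply_right] at this
    refine ⟨Equiv.swap (Equiv.swap p p' u) (y p') * Equiv.swap p p', ?_, ?_⟩
    · rw [Equiv.Perm.mul_apply, Equiv.swap_apply_left]
      exact Equiv.swap_apply_of_ne_of_ne hne.symm hp'.symm
    · rw [Equiv.Perm.mul_apply, Equiv.swap_apply_left]
  have hmain : ∀ σ : Equiv.Perm (Fin n), σ p = p' → σ u = y p' → y (σ (x p)) = σ (x u) := by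
    intro σ h1 h2
    have := hcomm σ p'
    rw [← h1, fiveB_inv_apply] at this
    rw [this, h1, ← h2, fiveB_inv_apply]
  by_cases hwu : x u = u
  · have h := hmain σ hσ1 hσ2
    rw [hwu, hσ2] at h
    have h2 := y.injective h
    rw [← hσ1] at h2
    exact hp (σ.injective h2)
  · -- `z` outside `p`, `x p`, `u`, `x u`
    obtain ⟨z, hz⟩ : ∃ z, z ∉ ({p, x p, u, x u} : Finset (Fin n)) := by
      by_contra hcon
      push Not at hcon
      have h1 : (Finset.univ : Finset (Fin n)) ⊆ {p, x p, u, x u} := fun u _ => hcon u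
      have h2 := Finset.card_le_card h1
      have h3 := Finset.card_le_four (a := p) (b := x p) (c := u) (d := x u)
      rw [Finset.card_univ, Fintype.card_fin] at h2
      omega
    simp only [Finset.mem_insert, Finset.mem_singleton, not_or] at hz
    obtain ⟨hz1, hz2, hz3, hz4⟩ := hz
    have h := hmain σ hσ1 hσ2
    have h' := hmain (σ * Equiv.swap (x u) z)
      (by
        rw [Equiv.Perm.mul_apply, Equiv.swap_apply_of_ne_of_ne hw1.symm (Ne.symm hz1)]
        exact hσ1)
      (by
        rw [Equiv.Perm.mul_apply, Equiv.swap_apply_of_ne_of_ne (Ne.symm hwu) (Ne.symm hz3)]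
        exact hσ2)
    rw [Equiv.Perm.mul_apply, Equiv.Perm.mul_apply, Equiv.swap_apply_left,
      Equiv.swap_apply_of_ne_of_ne hw2.symm (Ne.symm hz2), h] at h'
    exact hz4 (σ.injective h').symm

end ProfArtin
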