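import Pool.Agent.Work.MP_f6e909_al.ChainA

/-! # The exceptional chains of permutations of six points -/

namespace ProfArtin

open Equiv

private theorem ps_dvd {Ω : Type} [Fintype Ω] [DecidableEq Ω] (p : ℕ) [Fact p.Prime] (σ : Perm Ω)
    (h : σ ^ p = 1) (hf : ∀ a, σ a ≠ a) : p ∣ Fintype.card Ω := by
  have h1 := Perm.card_compl_support_modEq (p := p) (n := 1) (σ := σ) (by simpa using h)
  have h2 : σ.supportᶜ = ∅ := by
    ext a
    simp [hf a]
  rw [h2, Finset.card_empty] at h1
  exact (Nat.modEq_zero_iff_dvd.1 h1.symm)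

private theorem ps_dvd_sub {Ω : Type} [Fintype Ω] [DecidableEq Ω] (p : ℕ) [Fact p.Prime]
    (σ : Perm Ω) (h : σ ^ p = 1) (P : Ω → Prop) [DecidablePred P] (hP : ∀ a, P (σ a) ↔ P a)
    (hf : ∀ a, P a → σ a ≠ a) : p ∣ (Finset.univ.filter P).card := by
  rw [← Fintype.card_subtype]
  apply ps_dvd p (σ.subtypePerm hP)
  · ext a
    have h1 : ∀ n : ℕ, (((σ.subtypePerm hP) ^ n) a : Ω) = (σ ^ n) a := by
      intro n
      induction n with
      | zero => rfl
      | succ n ih =>
        rw [pow_succ', pow_succ', Perm.mul_apply, Perm.mul_apply, ← ih]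
        rfl
    rw [h1, h]
    rfl
  · intro a ha
    exact hf a.1 a.2 (congrArg Subtype.val ha)

private theorem ps_rho {c y z : Perm (Fin 6)} (hc : ∀ p, c p ≠ p)
    (hc2 : c * c = 1) (hy2 : y * y = 1) (hz2 : z * z = 1)
    (hcy : c * y = y * c) (hcz : c * z = z * c) (hbr : y * z * y = z * y * z) (hne : y ≠ z) :
    (y * z) ^ 3 = 1 ∧ ∀ p, (y * z) p ≠ p := by
  have h3 : (y * z) ^ 3 = 1 := by
    calc (y * z) ^ 3 = (y * z * y) * (z * y * z) := by
          simp only [pow_succ, pow_zero, one_mul, mul_assoc]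
      _ = (y * z * y) * (y * z * y) := by rw [hbr]
      _ = y * z * (y * y) * z * y := by simp only [mul_assoc]
      _ = y * (z * z) * y := by rw [hy2]; simp only [mul_assoc, mul_one, one_mul]
      _ = 1 := by rw [hz2, mul_one, hy2]
  refine ⟨h3, ?_⟩
  have hyz : ∀ a, c ((y * z) a) = (y * z) (c a) := by
    intro a
    have : c * (y * z) = (y * z) * c := by
      rw [← mul_assoc, hcy, mul_assoc, hcz, mul_assoc]
    exact congrArg (fun f : Perm (Fin 6) => f a) this
  have h1 : 2 ∣ (Finset.univ.filter fun a => (y * z) a = a).card := by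
    haveI : Fact (Nat.Prime 2) := ⟨Nat.prime_two⟩
    apply ps_dvd_sub 2 c (by rw [pow_two, hc2])
    · intro a
      rw [← hyz]
      exact c.injective.eq_iff
    · intro a _
      exact hc a
  have h2 : 3 ∣ (Finset.univ.filter fun a => ¬ (y * z) a = a).card := by
    haveI : Fact (Nat.Prime 3) := ⟨Nat.prime_three⟩
    apply ps_dvd_sub 3 (y * z) h3
    · intro a
      exact not_congr (y * z).injective.eq_iff
    · intro a ha
      exact ha
  have h4 := Finset.card_filter_add_card_filter_not (s := (Finset.univ : Finset (Fin 6)))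
    (fun a => (y * z) a = a)
  rw [Finset.card_univ, Fintype.card_fin] at h4
  have h5 : (Finset.univ.filter fun a => (y * z) a = a).card ≠ 6 := by
    intro h6
    apply hne
    have h7 : y * z = 1 := by
      ext a
      have h8 : (Finset.univ.filter fun a => (y * z) a = a) = Finset.univ := by
        rw [← Finset.card_eq_iff_eq_univ, h6, Fintype.card_fin]
      have h9 : a ∈ Finset.univ.filter fun a => (y * z) a = a := by
        rw [h8]; exact Finset.mem_univ a
      rw [(Finset.mem_filter.1 h9).2]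
      rfl
    calc y = y * (z * z) := by rw [hz2, mul_one]
      _ = (y * z) * z := by rw [mul_assoc]
      _ = z := by rw [h7, one_mul]
  have h6 : (Finset.univ.filter fun a => (y * z) a = a).card = 0 := by omega
  intro p hp
  rw [Finset.card_eq_zero] at h6
  have : p ∈ Finset.univ.filter fun a => (y * z) a = a :=
    Finset.mem_filter.2 ⟨Finset.mem_univ _, hp⟩
  rw [h6] at this
  simp at this

/-- Let `c`, `y`, `z` be involutions without fixed points of six points, `c` commuting with `y` and
`z`, and `y`, `z` braid and are different. Then the group generated by `c`, `y`, `z` is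
transitive. (`ρ = y * z` has order 3 and commutes with `c`; `ρ` has no fixed point.) -/
theorem six_transitive (c y z : Perm (Fin 6)) (hc : ∀ p, c p ≠ p) (hy : ∀ p, y p ≠ p)
    (hz : ∀ p, z p ≠ p) (hc2 : c * c = 1) (hy2 : y * y = 1) (hz2 : z * z = 1)
    (hcy : c * y = y * c) (hcz : c * z = z * c) (hbr : y * z * y = z * y * z) (hne : y ≠ z)
    (p q : Fin 6) : ∃ g ∈ Subgroup.closure ({c, y, z} : Set (Perm (Fin 6))), g p = q := by
  classical
  obtain ⟨h3, hρ⟩ := ps_rho hc hc2 hy2 hz2 hcy hcz hbr hne
  set S := Subgroup.closure ({c, y, z} : Set (Perm (Fin 6))) with hS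
  have hcS : c ∈ S := Subgroup.subset_closure (by simp)
  have hyS : y ∈ S := Subgroup.subset_closure (by simp)
  have hzS : z ∈ S := Subgroup.subset_closure (by simp)
  set P : Fin 6 → Prop := fun q => ∃ g ∈ S, g p = q with hP
  have hinv : ∀ s ∈ S, ∀ a, P (s a) ↔ P a := by
    intro s hs a
    constructor
    · rintro ⟨g, hg, hga⟩
      refine ⟨s⁻¹ * g, S.mul_mem (S.inv_mem hs) hg, ?_⟩
      rw [Perm.mul_apply, hga]
      exact s.symm_apply_apply a
    · rintro ⟨g, hg, hga⟩
      exact ⟨s * g, S.mul_mem hs hg, by rw [Perm.mul_apply, hga]⟩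
  have h1 : 2 ∣ (Finset.univ.filter P).card := by
    haveI : Fact (Nat.Prime 2) := ⟨Nat.prime_two⟩
    exact ps_dvd_sub 2 c (by rw [pow_two, hc2]) P (hinv c hcS) fun a _ => hc a
  have h2 : 3 ∣ (Finset.univ.filter P).card := by
    haveI : Fact (Nat.Prime 3) := ⟨Nat.prime_three⟩
    exact ps_dvd_sub 3 (y * z) h3 P (hinv _ (S.mul_mem hyS hzS)) fun a _ => hρ a
  have h4 : 0 < (Finset.univ.filter P).card := by
    rw [Finset.card_pos]
    exact ⟨p, by simp only [Finset.mem_filter, Finset.mem_univ, true_and]; exact ⟨1, S.one_mem, rfl⟩⟩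
  have h5 : (Finset.univ.filter P).card ≤ 6 := by
    have := Finset.card_le_univ (Finset.univ.filter P)
    rwa [Fintype.card_fin] at this
  have h6 : (Finset.univ.filter P).card = 6 := by omega
  have h7 : Finset.univ.filter P = Finset.univ := by
    rw [← Finset.card_eq_iff_eq_univ, h6, Fintype.card_fin]
  have h8 : q ∈ Finset.univ.filter P := by rw [h7]; exact Finset.mem_univ q
  exact (Finset.mem_filter.1 h8).2

private theorem ps_sign {x : Perm (Fin 6)} (h2 : x * x = 1) (hf : ∀ p, x p ≠ p) :
    Perm.sign x = -1 := by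
  have h1 : ∀ a ∈ x.cycleType, a = 2 := by
    intro a ha
    have h3 := Perm.two_le_of_mem_cycleType ha
    have h4 : a ∣ orderOf x := by
      rw [← Perm.lcm_cycleType]
      exact Multiset.dvd_lcm ha
    have h5 : orderOf x ∣ 2 := by
      rw [orderOf_dvd_iff_pow_eq_one, pow_two, h2]
    exact le_antisymm (Nat.le_of_dvd (by norm_num) (h4.trans h5)) h3
  have h3 : x.cycleType = Multiset.replicate x.cycleType.card 2 :=
    Multiset.eq_replicate.2 ⟨rfl, h1⟩
  have h4 : x.cycleType.sum = 6 := by
    rw [Perm.sum_cycleType]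
    have h5 : x.support = Finset.univ := by
      ext a; simp [hf a]
    rw [h5, Finset.card_univ, Fintype.card_fin]
  have h5 : x.cycleType.card = 3 := by
    rw [h3, Multiset.sum_replicate, smul_eq_mul] at h4
    omega
  rw [Perm.sign_of_cycleType, h4, h5]
  norm_num

/-- Let `y`, `z` be as before and `b`, `c` two commuting involutions without fixed points, both
commuting with `y` and `z`. Then `b = c`. -/
theorem six_unique (b c y z : Perm (Fin 6)) (hb : ∀ p, b p ≠ p) (hc : ∀ p, c p ≠ p)
    (hy : ∀ p, y p ≠ p) (hz : ∀ p, z p ≠ p) (hb2 : b * b = 1) (hc2 : c * c = 1)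
    (hy2 : y * y = 1) (hz2 : z * z = 1) (hcy : c * y = y * c) (hcz : c * z = z * c)
    (hby : b * y = y * b) (hbz : b * z = z * b) (hbc : b * c = c * b)
    (hbr : y * z * y = z * y * z) (hne : y ≠ z) : b = c := by
  have htr := six_transitive c y z hc hy hz hc2 hy2 hz2 hcy hcz hbr hne
  obtain ⟨w, hw⟩ : ∃ w, w = b * c := ⟨_, rfl⟩
  have hww : w * w = 1 := by
    calc w * w = b * (c * b) * c := by rw [hw]; simp only [mul_assoc]
      _ = b * (b * c) * c := by rw [hbc]
      _ = (b * b) * (c * c) := by simp only [mul_assoc]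
      _ = 1 := by rw [hb2, hc2, mul_one]
  have hcomm : ∀ g ∈ Subgroup.closure ({c, y, z} : Set (Perm (Fin 6))), w * g = g * w := by
    intro g hg
    have h1 : Subgroup.closure ({c, y, z} : Set (Perm (Fin 6))) ≤
        Subgroup.centralizer {w} := by
      rw [Subgroup.closure_le]
      intro s hs
      rw [SetLike.mem_coe, Subgroup.mem_centralizer_singleton_iff]
      rcases hs with rfl | rfl | rfl
      · rw [hw]
        rw [← mul_assoc, ← hbc]
      · rw [hw, ← mul_assoc, ← hby, mul_assoc, ← hcy, mul_assoc]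
      · rw [hw, ← mul_assoc, ← hbz, mul_assoc, ← hcz, mul_assoc]
    exact (Subgroup.mem_centralizer_singleton_iff.1 (h1 hg)).symm
  by_cases hf : ∀ p, w p ≠ p
  · exfalso
    have h1 := ps_sign hww hf
    rw [hw, Perm.sign_mul, ps_sign hb2 hb, ps_sign hc2 hc] at h1
    simp at h1
  · push Not at hf
    obtain ⟨p, hp⟩ := hf
    have h1 : w = 1 := by
      ext q
      obtain ⟨g, hg, rfl⟩ := htr p q
      have h2 : w (g p) = g (w p) := congrArg (fun f : Perm (Fin 6) => f p) (hcomm g hg)
      rw [h2, hp]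
      rfl
    calc b = b * (c * c) := by rw [hc2, mul_one]
      _ = w * c := by rw [hw, mul_assoc]
      _ = c := by rw [h1, one_mul]

end ProfArtin
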