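import Pool.Agent.Work.MP_f6e909_al.ChainA
import Pool.Agent.Work.MP_f6e909_al.GamRel

/-! # Chains of transpositions -/

namespace ProfArtin

open Equiv

private theorem swap_share {n : ℕ} {a b d : Fin n} (hab : a ≠ b) (had : a ≠ d)
    (h : swap a b * swap a d = swap a d * swap a b) : b = d := by
  by_contra hbd
  have h1 := congrArg (fun s : Perm (Fin n) => s a) h
  simp only [Perm.mul_apply, swap_apply_left] at h1
  rw [swap_apply_of_ne_of_ne (Ne.symm had) (Ne.symm hbd),
    swap_apply_of_ne_of_ne (Ne.symm hab) hbd] at h1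
  exact hbd h1.symm

/-- commuting distinct swaps are disjoint -/
private theorem swap_disj {n : ℕ} {a b c d : Fin n} (hab : a ≠ b) (hcd : c ≠ d)
    (h : swap a b * swap c d = swap c d * swap a b) (hne : swap a b ≠ swap c d) :
    a ≠ c ∧ a ≠ d ∧ b ≠ c ∧ b ≠ d := by
  refine ⟨?_, ?_, ?_, ?_⟩
  · rintro rfl
    exact hne (by rw [swap_share hab hcd h])
  · rintro rfl
    rw [swap_comm c a] at h hne
    exact hne (by rw [swap_share hab (Ne.symm hcd) h])
  · rintro rfl
    rw [swap_comm a b] at h hne
    exact hne (by rw [swap_share (Ne.symm hab) hcd h])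
  · rintro rfl
    rw [swap_comm a b, swap_comm c b] at h hne
    exact hne (by rw [swap_share (Ne.symm hab) (Ne.symm hcd) h])

/-- disjoint swaps commute -/
private theorem swap_comm_of {n : ℕ} {a b c d : Fin n} (h1 : a ≠ c) (h2 : a ≠ d) (h3 : b ≠ c)
    (h4 : b ≠ d) : swap a b * swap c d = swap c d * swap a b := by
  ext p
  simp only [Perm.mul_apply, swap_apply_def]
  split_ifs <;> simp_all

/-- the points of a chain of swaps -/
private theorem chain_points {n : ℕ} (hn : 5 ≤ n) {x : ℕ → Perm (Fin n)} (hx : Chain (n - 1) x)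
    (hne : x 0 ≠ x 1) (hs : ∀ k, k < n - 1 → (x k).IsSwap) (m : ℕ) (hm : m + 2 ≤ n - 1) :
    ∃ p : ℕ → Fin n, (∀ k, k < m + 2 → x k = swap (p k) (p (k + 1))) ∧
      ∀ i j, i ≤ m + 2 → j ≤ m + 2 → p i = p j → i = j := by
  have hdist : ∀ i j, i < j → j < n - 1 → x i ≠ x j := by
    intro i j hij hj h
    have h1 := chain_collapse (by omega) hx hij hj h 1 (by omega)
    exact hne h1.symm
  have hncomm : ∀ i, i + 1 < n - 1 → x i * x (i + 1) ≠ x (i + 1) * x i := by
    intro i hi h
    exact hdist i (i + 1) (by omega) hi (chain_eq_of_comm hx hi h)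
  induction m with
  | zero =>
    obtain ⟨a, b, hab, h0⟩ := hs 0 (by omega)
    obtain ⟨c, d, hcd, h1⟩ := hs 1 (by omega)
    have hnc := hncomm 0 (by omega)
    rw [zero_add] at hnc
    have hex : ∃ p q r : Fin n, p ≠ q ∧ q ≠ r ∧ p ≠ r ∧ x 0 = swap p q ∧ x 1 = swap q r := by
      by_cases hac : a = c
      · refine ⟨b, a, d, Ne.symm hab, hac ▸ hcd, ?_, by rw [h0, swap_comm], by rw [h1, hac]⟩
        rintro rfl
        exact hne (by rw [h0, h1, hac])
      by_cases had : a = d
      · refine ⟨b, a, c, Ne.symm hab, had ▸ Ne.symm hcd, ?_, by rw [h0, swap_comm],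
          by rw [h1, had, swap_comm]⟩
        rintro rfl
        exact hne (by rw [h0, h1, had, swap_comm])
      by_cases hbc : b = c
      · refine ⟨a, b, d, hab, hbc ▸ hcd, had, h0, by rw [h1, hbc]⟩
      by_cases hbd : b = d
      · refine ⟨a, b, c, hab, hbd ▸ Ne.symm hcd, hac, h0, by rw [h1, hbd, swap_comm]⟩
      · exfalso
        apply hnc
        rw [h0, h1]
        exact swap_comm_of hac had hbc hbd
    obtain ⟨p, q, r, hpq, hqr, hpr, e0, e1⟩ := hex
    refine ⟨fun k => if k = 0 then p else if k = 1 then q else r, ?_, ?_⟩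
    · intro k hk
      have : k = 0 ∨ k = 1 := by omega
      rcases this with rfl | rfl
      · simpa using e0
      · simpa using e1
    · intro i j hi hj
      have hi' : i = 0 ∨ i = 1 ∨ i = 2 := by omega
      have hj' : j = 0 ∨ j = 1 ∨ j = 2 := by omega
      rcases hi' with rfl | rfl | rfl <;> rcases hj' with rfl | rfl | rfl <;>
        simp_all [Ne.symm hpq, Ne.symm hqr, Ne.symm hpr]
  | succ m ih =>
    obtain ⟨p, hp, hinj⟩ := ih (by omega)
    obtain ⟨a, b, hab, h0⟩ := hs (m + 2) (by omega)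
    -- disjointness from the far ones
    have hfar : ∀ j, j ≤ m → p j ≠ a ∧ p j ≠ b ∧ p (j + 1) ≠ a ∧ p (j + 1) ≠ b := by
      intro j hj
      have h1 := hx.comm j (m + 2) (by omega) (by omega)
      have h2 := hdist j (m + 2) (by omega) (by omega)
      rw [hp j (by omega), h0] at h1 h2
      have h3 : p j ≠ p (j + 1) := fun h => by
        have := hinj j (j + 1) (by omega) (by omega) h
        omega
      exact swap_disj h3 hab h1 h2
    have hnc := hncomm (m + 1) (by omega)
    rw [hp (m + 1) (by omega), show m + 1 + 1 = m + 2 from rfl, h0] at hnc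
    have hex : ∃ r, x (m + 2) = swap (p (m + 2)) r ∧ r ≠ p (m + 2) ∧
        ∀ j, j ≤ m + 1 → p j ≠ r := by
      obtain ⟨_, _, h1, h2⟩ := hfar m le_rfl
      by_cases hpa : p (m + 2) = a
      · refine ⟨b, by rw [h0, hpa], by rw [hpa]; exact Ne.symm hab, ?_⟩
        intro j hj
        rcases Nat.lt_or_ge j (m + 1) with h | h
        · exact (hfar j (by omega)).2.1
        · obtain rfl : j = m + 1 := by omega
          exact h2
      by_cases hpb : p (m + 2) = b
      · refine ⟨a, by rw [h0, hpb, swap_comm], by rw [hpb]; exact hab, ?_⟩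
        intro j hj
        rcases Nat.lt_or_ge j (m + 1) with h | h
        · exact (hfar j (by omega)).1
        · obtain rfl : j = m + 1 := by omega
          exact h1
      · exact absurd (swap_comm_of h1 h2 hpa hpb) hnc
    obtain ⟨r, hr1, hr2, hr3⟩ := hex
    refine ⟨fun k => if k = m + 3 then r else p k, ?_, ?_⟩
    · intro k hk
      rcases Nat.lt_or_ge k (m + 2) with h | h
      · simp only [if_neg (show ¬ k = m + 3 by omega), if_neg (show ¬ k + 1 = m + 3 by omega)]
        exact hp k h
      · obtain rfl : k = m + 2 := by omega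
        simp only [if_neg (show ¬ m + 2 = m + 3 by omega)]
        exact hr1
    · intro i j hi hj hij
      have hr4 : ∀ j, j ≤ m + 2 → p j ≠ r := by
        intro j hj
        rcases Nat.lt_or_ge j (m + 2) with h | h
        · exact hr3 j (by omega)
        · obtain rfl : j = m + 2 := by omega
          exact Ne.symm hr2
      simp only at hij
      split_ifs at hij with h1 h2 h2
      · omega
      · exact absurd hij.symm (hr4 j (by omega))
      · exact absurd hij (hr4 i (by omega))
      · exact hinj i j (by omega) (by omega) hij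

/-- A nonconstant chain of transpositions is conjugate to the standard one. -/
theorem swap_chain {n : ℕ} (hn : 5 ≤ n) {x : ℕ → Perm (Fin n)} (hx : Chain (n - 1) x)
    (hne : x 0 ≠ x 1) (hs : ∀ k, k < n - 1 → (x k).IsSwap) :
    ∃ σ : Perm (Fin n), ∀ k, k < n - 1 → x k = σ * sw n k * σ⁻¹ := by
  obtain ⟨p, hp, hinj⟩ := chain_points hn hx hne hs (n - 3) (by omega)
  have hi : Function.Injective (fun i : Fin n => p i.1) := by
    intro i j hij
    exact Fin.ext (hinj i.1 j.1 (by omega) (by omega) hij)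
  refine ⟨Equiv.ofBijective _ ((Finite.injective_iff_bijective).1 hi), ?_⟩
  intro k hk
  rw [hp k (by omega), sw, dif_pos (by omega), ← swap_apply_apply]
  rfl

/-- The extra node of type `D`. -/
theorem swap_extra {n : ℕ} (hn : 5 ≤ n) (b : Perm (Fin n)) (hb : b.IsSwap)
    (hcomm : ∀ k, k + 1 < n → k ≠ n - 3 → b * sw n k = sw n k * b)
    (hbraid : b * sw n (n - 3) * b = sw n (n - 3) * b * sw n (n - 3)) :
    b = sw n (n - 2) := by
  obtain ⟨c, d, hcd, rfl⟩ := hb
  have hsw : ∀ k (h : k + 1 < n), sw n k = swap ⟨k, by omega⟩ ⟨k + 1, h⟩ := by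
    intro k h
    rw [sw, dif_pos h]
  have hkk : ∀ k (h : k + 1 < n), (⟨k, by omega⟩ : Fin n) ≠ ⟨k + 1, h⟩ := by
    intro k h h'
    have := congrArg Fin.val h'
    simp at this
  by_contra hne
  -- disjoint from n - 2, n - 1
  have h1 := hcomm (n - 2) (by omega) (by omega)
  rw [hsw (n - 2) (by omega)] at h1 hne
  obtain ⟨h2, h3, h4, h5⟩ := swap_disj hcd (hkk (n - 2) (by omega)) h1 hne
  -- not equal to sw (n - 3)
  have h6 : swap c d ≠ sw n (n - 3) := by
    intro h
    have h7 : (swap c d) ⟨n - 2, by omega⟩ = (sw n (n - 3)) ⟨n - 2, by omega⟩ := by rw [h]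
    rw [swap_apply_of_ne_of_ne (Ne.symm h2) (Ne.symm h4), hsw (n - 3) (by omega)] at h7
    have h8 : (⟨n - 3 + 1, by omega⟩ : Fin n) = ⟨n - 2, by omega⟩ := Fin.ext (by simp; omega)
    rw [h8, swap_apply_right] at h7
    have := congrArg Fin.val h7
    simp at this
    omega
  -- it does not commute with sw (n - 3)
  have h7 : swap c d * sw n (n - 3) ≠ sw n (n - 3) * swap c d := by
    intro h
    rw [h] at hbraid
    exact h6 (mul_left_cancel hbraid)
  have h8 : c = ⟨n - 3, by omega⟩ ∨ d = ⟨n - 3, by omega⟩ := by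
    by_contra h
    push Not at h
    apply h7
    have e1 : (⟨n - 3 + 1, by omega⟩ : Fin n) = ⟨n - 2, by omega⟩ := Fin.ext (by simp; omega)
    rw [hsw (n - 3) (by omega), e1]
    exact swap_comm_of h.1 h2 h.2 h4
  have h9 : swap c d = sw n (n - 4) := by
    by_contra h
    have h' := hcomm (n - 4) (by omega) (by omega)
    rw [hsw (n - 4) (by omega)] at h' h
    obtain ⟨_, a2, _, a4⟩ := swap_disj hcd (hkk (n - 4) (by omega)) h' h
    have e1 : (⟨n - 4 + 1, by omega⟩ : Fin n) = ⟨n - 3, by omega⟩ := Fin.ext (by simp; omega)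
    rw [e1] at a2 a4
    rcases h8 with h8 | h8
    · exact a2 h8
    · exact a4 h8
  have h10 := hcomm (n - 5) (by omega) (by omega)
  rw [h9, hsw (n - 4) (by omega), hsw (n - 5) (by omega)] at h10
  have e1 : (⟨n - 5 + 1, by omega⟩ : Fin n) = ⟨n - 4, by omega⟩ := Fin.ext (by simp; omega)
  have h11 : swap (⟨n - 4, by omega⟩ : Fin n) ⟨n - 4 + 1, by omega⟩ ≠
      swap ⟨n - 5, by omega⟩ ⟨n - 5 + 1, by omega⟩ := by
    intro h
    have h12 : swap (⟨n - 4, by omega⟩ : Fin n) ⟨n - 4 + 1, by omega⟩ ⟨n - 5, by omega⟩ =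
      swap ⟨n - 5, by omega⟩ ⟨n - 5 + 1, by omega⟩ ⟨n - 5, by omega⟩ := by rw [h]
    rw [swap_apply_left, swap_apply_of_ne_of_ne] at h12
    · have := congrArg Fin.val h12
      simp at this
    · intro h13
      have := congrArg Fin.val h13
      simp at this
      omega
    · intro h13
      have := congrArg Fin.val h13
      simp at this
      omega
  exact (swap_disj (hkk (n - 4) (by omega)) (hkk (n - 5) (by omega)) h10 h11).2.1 e1.symm

end ProfArtin
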