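import Pool.Agent.Work.MP_f6e909_al.PermMain
import Pool.Agent.Work.MP_f6e909_al.PermStd
import Pool.Agent.Work.MP_f6e909_al.PermSix

/-! # Folded families of permutations generating the symmetric group -/

namespace ProfArtin

open Equiv

private theorem pf_section {ι : Type} {n : ℕ} {a : ι → ℕ} {t : ι → Perm (Fin n)}
    (hF : Fold n a t) (i : ι) : ∃ x : ℕ → Perm (Fin n), Chain (n - 1) x ∧ x (a i) = t i ∧
      ∀ k, k + 1 < n → ∃ j, a j = k ∧ x k = t j := by
  have h1 : ∀ k, ∃ g : Perm (Fin n), (k + 1 < n → ∃ j, a j = k ∧ g = t j) ∧ (k = a i → g = t i) := by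
    intro k
    by_cases hk : k = a i
    · exact ⟨t i, fun _ => ⟨i, hk.symm, rfl⟩, fun _ => rfl⟩
    · by_cases hkn : k + 1 < n
      · obtain ⟨j, hj⟩ := hF.surj k hkn
        exact ⟨t j, fun _ => ⟨j, hj, rfl⟩, fun h => absurd h hk⟩
      · exact ⟨1, fun h => absurd h hkn, fun h => absurd h hk⟩
  choose x hx using h1
  refine ⟨x, ⟨?_, ?_⟩, (hx (a i)).2 rfl, fun k hk => (hx k).1 hk⟩
  · intro p q hpq hq
    obtain ⟨j1, h1, e1⟩ := (hx p).1 (by omega)
    obtain ⟨j2, h2, e2⟩ := (hx q).1 (by omega)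
    rw [e1, e2]
    exact hF.comm j1 j2 (by omega) (by omega)
  · intro p hp
    obtain ⟨j1, h1, e1⟩ := (hx p).1 (by omega)
    obtain ⟨j2, h2, e2⟩ := (hx (p + 1)).1 (by omega)
    rw [e1, e2]
    exact hF.braid j1 j2 (by omega)

/-- A folded family generating `S_n`, `n ≥ 5`, is conjugate to the standard one, or `n = 6` and it
consists of involutions without fixed points. (All members are conjugate and generate `S_n`, hence
they are odd; they are not all equal.) -/
theorem perm_fold {ι : Type} {n : ℕ} (hn : 5 ≤ n) {a : ι → ℕ} {t : ι → Perm (Fin n)}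
    (hF : Fold n a t) (hgen : Subgroup.closure (Set.range t) = ⊤) :
    (∃ σ : Perm (Fin n), ∀ i, t i = σ * sw n (a i) * σ⁻¹) ∨
      (n = 6 ∧ (∀ i, t i * t i = 1) ∧ (∀ i j, a i = a j → t i = t j) ∧
        ∀ i, a i = 0 → ∀ p q, ∃ g ∈ Subgroup.closure {s | ∃ j, a j ≠ 1 ∧ s = t j}, g p = q) := by
  -- the node at the beginning
  obtain ⟨i0, hi0⟩ := hF.surj 0 (by omega)
  have huniq : ∀ i j, a i = a j → a i + 2 ≠ n → i = j := by
    intro i j h h2
    by_contra hne
    exact h2 (hF.fold i j h hne)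
  -- all members are conjugate to the first one
  have hconj : ∀ i, ∃ g : Perm (Fin n), t i = g * t i0 * g⁻¹ := by
    intro i
    obtain ⟨x, hx, hxi, hxs⟩ := pf_section hF i
    obtain ⟨g, -, hg⟩ := chain_conj hx (i := a i) (by have := hF.lt i; omega)
    obtain ⟨j, hj, hxj⟩ := hxs 0 (by omega)
    have : j = i0 := huniq j i0 (by omega) (by omega)
    rw [this] at hxj
    exact ⟨g, by rw [← hxi, hg, hxj]⟩
  -- signs
  have hsign : ∀ i, Perm.sign (t i) = Perm.sign (t i0) := by
    intro i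
    obtain ⟨g, hg⟩ := hconj i
    rw [hg, Perm.sign_mul, Perm.sign_mul, Perm.sign_inv, mul_comm, ← mul_assoc,
      Int.units_mul_self, one_mul]
  have h01 : (⟨0, by omega⟩ : Fin n) ≠ ⟨1, by omega⟩ := by
    intro h; simp at h
  have h12 : (⟨1, by omega⟩ : Fin n) ≠ ⟨2, by omega⟩ := by
    intro h; simp at h
  have h02 : (⟨0, by omega⟩ : Fin n) ≠ ⟨2, by omega⟩ := by
    intro h; simp at h
  have hodd : ∀ i, Perm.sign (t i) = -1 := by
    intro i
    rcases Int.units_eq_one_or (Perm.sign (t i)) with h | h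
    · exfalso
      have h1 : Subgroup.closure (Set.range t) ≤ (Perm.sign (α := Fin n)).ker := by
        rw [Subgroup.closure_le]
        rintro _ ⟨j, rfl⟩
        rw [SetLike.mem_coe, MonoidHom.mem_ker, hsign j, ← hsign i, h]
      rw [hgen] at h1
      have h2 := h1 (Subgroup.mem_top (swap (⟨0, by omega⟩ : Fin n) ⟨1, by omega⟩))
      rw [MonoidHom.mem_ker, Perm.sign_swap h01] at h2
      exact absurd h2 (by decide)
    · exact h
  -- not all members are equal
  have hnc : ¬ ∀ i, t i = t i0 := by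
    intro hall
    have h1 : Subgroup.closure (Set.range t) ≤ Subgroup.zpowers (t i0) := by
      rw [Subgroup.closure_le]
      rintro _ ⟨j, rfl⟩
      rw [SetLike.mem_coe, hall j]
      exact Subgroup.mem_zpowers _
    rw [hgen] at h1
    obtain ⟨u, hu⟩ := h1 (Subgroup.mem_top (swap (⟨0, by omega⟩ : Fin n) ⟨1, by omega⟩))
    obtain ⟨v, hv⟩ := h1 (Subgroup.mem_top (swap (⟨1, by omega⟩ : Fin n) ⟨2, by omega⟩))
    simp only at hu hv
    have h2 : swap (⟨0, by omega⟩ : Fin n) ⟨1, by omega⟩ * swap (⟨1, by omega⟩ : Fin n) ⟨2, by omega⟩ =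
        swap (⟨1, by omega⟩ : Fin n) ⟨2, by omega⟩ * swap (⟨0, by omega⟩ : Fin n) ⟨1, by omega⟩ := by
      rw [← hu, ← hv, ← zpow_add, ← zpow_add, add_comm]
    have h3 := congrArg (fun f : Perm (Fin n) => f ⟨0, by omega⟩) h2
    simp only [Perm.mul_apply] at h3
    rw [swap_apply_of_ne_of_ne h01 h02, swap_apply_left, swap_apply_left] at h3
    exact h12 h3
  have hneq : ∀ x : ℕ → Perm (Fin n), Chain (n - 1) x →
      (∀ k, k + 1 < n → ∃ j, a j = k ∧ x k = t j) → ∀ k, k + 2 < n → x k ≠ x (k + 1) := by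
    intro x hx hxs k hk he
    have h1 := chain_adj hx (i := k) (by omega) he
    obtain ⟨j0, hj0, hxj0⟩ := hxs 0 (by omega)
    have e0 : j0 = i0 := huniq j0 i0 (by omega) (by omega)
    rw [e0] at hxj0
    obtain ⟨j1, hj1, hxj1⟩ := hxs 1 (by omega)
    have h2 : t j1 = t i0 := by rw [← hxj1, ← hxj0]; exact h1 1 (by omega)
    apply hnc
    intro i
    obtain ⟨x', hx', hxi', hxs'⟩ := pf_section hF i
    obtain ⟨j0', hj0', hxj0'⟩ := hxs' 0 (by omega)
    have e0' : j0' = i0 := huniq j0' i0 (by omega) (by omega)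
    rw [e0'] at hxj0'
    obtain ⟨j1', hj1', hxj1'⟩ := hxs' 1 (by omega)
    have e1' : j1' = j1 := huniq j1' j1 (by omega) (by omega)
    rw [e1'] at hxj1'
    have h3 := chain_adj hx' (i := 0) (by omega) (by rw [hxj0', hxj1', h2]) (a i)
      (by have := hF.lt i; omega)
    rw [← hxi', h3, hxj0']
  obtain ⟨x, hx, -, hxs⟩ := pf_section hF i0
  have hx01 := hneq x hx hxs 0 (by omega)
  have hxodd : ∀ k, k < n - 1 → Perm.sign (x k) = -1 := by
    intro k hk
    obtain ⟨j, -, hj⟩ := hxs k (by omega)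
    rw [hj]
    exact hodd j
  rcases perm_main hn hx hx01 hxodd with hsw | ⟨h6, hinv⟩
  · left
    obtain ⟨σ, hσ⟩ := swap_chain hn hx hx01 hsw
    refine ⟨σ, ?_⟩
    have hσ' : ∀ k, k + 1 < n → σ⁻¹ * x k * σ = sw n k := by
      intro k hk
      rw [hσ k (by omega)]
      group
    intro i
    by_cases hi : a i + 2 = n
    · have hb : (σ⁻¹ * t i * σ).IsSwap := by
        obtain ⟨g, hg⟩ := hconj i
        obtain ⟨j, hj, hxj⟩ := hxs 0 (by omega)
        have : j = i0 := huniq j i0 (by omega) (by omega)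
        rw [this] at hxj
        have h1 : (t i0).IsSwap := by rw [← hxj]; exact hsw 0 (by omega)
        have h2 : σ⁻¹ * t i * σ = (σ⁻¹ * g) * t i0 * (σ⁻¹ * g)⁻¹ := by
          rw [hg]; group
        rw [h2, ← Perm.card_support_eq_two, Perm.card_support_conj, Perm.card_support_eq_two]
        exact h1
      have h1 := swap_extra hn (σ⁻¹ * t i * σ) hb (by
          intro k hk hk3
          obtain ⟨j, hj, hxj⟩ := hxs k hk
          rw [← hσ' k hk, hxj]
          have h2 := hF.comm i j (by have := hF.lt j; omega) (by omega)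
          calc σ⁻¹ * t i * σ * (σ⁻¹ * t j * σ) = σ⁻¹ * (t i * t j) * σ := by group
            _ = σ⁻¹ * (t j * t i) * σ := by rw [h2]
            _ = σ⁻¹ * t j * σ * (σ⁻¹ * t i * σ) := by group) (by
          obtain ⟨j, hj, hxj⟩ := hxs (n - 3) (by omega)
          rw [← hσ' (n - 3) (by omega), hxj]
          have h2 := hF.braid j i (by omega)
          calc σ⁻¹ * t i * σ * (σ⁻¹ * t j * σ) * (σ⁻¹ * t i * σ) =
                σ⁻¹ * (t i * t j * t i) * σ := by group
            _ = σ⁻¹ * (t j * t i * t j) * σ := by rw [h2]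
            _ = σ⁻¹ * t j * σ * (σ⁻¹ * t i * σ) * (σ⁻¹ * t j * σ) := by group)
      have h3 : a i = n - 2 := by omega
      rw [h3, ← h1]
      group
    · obtain ⟨j, hj, hxj⟩ := hxs (a i) (hF.lt i)
      have : i = j := huniq i j hj.symm hi
      rw [← this] at hxj
      rw [← hxj]
      exact hσ (a i) (by have := hF.lt i; omega)
  · right
    have hall : ∀ i, (∀ p, t i p ≠ p) ∧ t i * t i = 1 := by
      intro i
      obtain ⟨g, hg⟩ := hconj i
      obtain ⟨j, hj, hxj⟩ := hxs 0 (by omega)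
      have : j = i0 := huniq j i0 (by omega) (by omega)
      rw [this] at hxj
      have h0 := hinv 0 (by omega)
      rw [hxj] at h0
      refine ⟨?_, ?_⟩
      · intro p hp
        rw [hg, Perm.mul_apply, Perm.mul_apply] at hp
        apply h0.1 (g⁻¹ p)
        have := congrArg (fun q => g⁻¹ q) hp
        simpa using this
      · rw [hg]
        calc g * t i0 * g⁻¹ * (g * t i0 * g⁻¹) = g * (t i0 * t i0) * g⁻¹ := by group
          _ = 1 := by rw [h0.2]; group
    obtain ⟨j0, hj0, hxj0⟩ := hxs 0 (by omega)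
    obtain ⟨j1, hj1, hxj1⟩ := hxs 1 (by omega)
    obtain ⟨j2, hj2, hxj2⟩ := hxs 2 (by omega)
    obtain ⟨j3, hj3, hxj3⟩ := hxs 3 (by omega)
    have hne01 : t j0 ≠ t j1 := by
      rw [← hxj0, ← hxj1]; exact hx01
    have hne23 : t j2 ≠ t j3 := by
      rw [← hxj2, ← hxj3]; exact hneq x hx hxs 2 (by omega)
    subst h6
    refine ⟨rfl, fun i => (hall i).2, ?_, ?_⟩
    · intro i j hij
      by_cases hne : i = j
      · rw [hne]
      · have h4 := hF.fold i j hij hne
        exact six_unique (t i) (t j) (t j0) (t j1) (hall i).1 (hall j).1 (hall j0).1 (hall j1).1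
          (hall i).2 (hall j).2 (hall j0).2 (hall j1).2 (hF.comm j j0 (by omega) (by omega))
          (hF.comm j j1 (by omega) (by omega)) (hF.comm i j0 (by omega) (by omega))
          (hF.comm i j1 (by omega) (by omega)) (hF.comm i j (by omega) (by omega))
          (hF.braid j0 j1 (by omega)) hne01
    · intro i hi p q
      obtain ⟨g, hg, hgp⟩ := six_transitive (t i) (t j2) (t j3) (hall i).1 (hall j2).1 (hall j3).1
        (hall i).2 (hall j2).2 (hall j3).2 (hF.comm i j2 (by omega) (by omega))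
        (hF.comm i j3 (by omega) (by omega)) (hF.braid j2 j3 (by omega)) hne23 p q
      refine ⟨g, ?_, hgp⟩
      have h1 : Subgroup.closure ({t i, t j2, t j3} : Set (Perm (Fin 6))) ≤
          Subgroup.closure {s | ∃ j, a j ≠ 1 ∧ s = t j} := by
        apply Subgroup.closure_mono
        rintro s (rfl | rfl | rfl)
        · exact ⟨i, by omega, rfl⟩
        · exact ⟨j2, by omega, rfl⟩
        · exact ⟨j3, by omega, rfl⟩
      exact h1 hg

end ProfArtin
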