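import Pool.Agent.Work.MP_f6e909_al.FiveA
import Pool.Agent.Work.MP_f6e909_al.FiveB
import Pool.Agent.Work.MP_f6e909_al.PermFold

/-! # No isomorphism, `n ≥ 5` -/

namespace ProfArtin

variable {ι G : Type} [Group G] {n : ℕ} {a : ι → ℕ} {t : ι → G} {B : Subgroup G}
  {Θ Φ : G →* Gam n} {N' κ : ℤ} {y : G}

/-- Assembly: by `sym_commuting` and `five_trivial` the permutations of `Φ b`, `b ∈ B`, are trivial,
so those of the `Φ (t i)` generate; apply `perm_fold`, conjugate with `hypFive_conj`. -/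
theorem five_main (H : HypFive n a t B Θ Φ N' κ y) :
    ((n : ℤ) * (n - 1) ∣ 2 * (κ - 1)) ∨ ((n : ℤ) * (n - 1) ∣ 2 * (κ + 1)) := by
  classical
  have hn := H.hn
  have hgen' : (Subgroup.closure (Set.range t)).map ((projS n).comp Φ) ⊔
      B.map ((projS n).comp Φ) = ⊤ := by
    rw [← Subgroup.map_sup, H.hgen, eq_top_iff]
    intro s _
    obtain ⟨g, hg⟩ := phi_surj H s
    exact ⟨g, trivial, hg⟩
  have hcomm : ∀ x ∈ (Subgroup.closure (Set.range t)).map ((projS n).comp Φ),
      ∀ z ∈ B.map ((projS n).comp Φ), x * z = z * x := by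
    rintro _ ⟨x, hx, rfl⟩ _ ⟨b, hb, rfl⟩
    rw [← map_mul, ← map_mul]
    congr 1
    have hx' : x ∈ Subgroup.closure (Set.range t) := hx
    have hb' : b ∈ B := hb
    clear hx hb
    induction hx' using Subgroup.closure_induction with
    | mem x hx =>
      obtain ⟨i, rfl⟩ := hx
      exact (H.hB b hb' i).symm
    | one => simp
    | mul x z _ _ hx hz =>
      rw [mul_assoc, hz, ← mul_assoc, hx, mul_assoc]
    | inv x _ hx =>
      rw [inv_mul_eq_iff_eq_mul, ← mul_assoc, hx, mul_inv_cancel_right]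
  have hstd : ∀ {Φ : G →* Gam n} {y : G}, HypFive n a t B Θ Φ N' κ y →
      (∀ b ∈ B, (Φ b).s = 1) → (∀ i, (Φ (t i)).s = sw n (a i)) →
      ((n : ℤ) * (n - 1) ∣ 2 * (κ - 1)) ∨ ((n : ℤ) * (n - 1) ∣ 2 * (κ + 1)) :=
    fun H hB hst => five_standard H hst hB
  rcases sym_commuting hn _ _ hcomm hgen' with h | h
  · exfalso
    refine five_trivial H ?_
    intro i
    have : ((projS n).comp Φ) (t i) ∈
        (Subgroup.closure (Set.range t)).map ((projS n).comp Φ) :=
      ⟨t i, Subgroup.subset_closure ⟨i, rfl⟩, rfl⟩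
    rw [h, Subgroup.mem_bot] at this
    exact this
  · have hB : ∀ b ∈ B, (Φ b).s = 1 := by
      intro b hb
      have : ((projS n).comp Φ) b ∈ B.map ((projS n).comp Φ) := ⟨b, hb, rfl⟩
      rw [h, Subgroup.mem_bot] at this
      exact this
    rw [h, sup_bot_eq, MonoidHom.map_closure, ← Set.range_comp] at hgen'
    have hFold : Fold n a (fun i => (Φ (t i)).s) :=
      { lt := H.hF.lt
        surj := H.hF.surj
        comm := by
          intro i j h1 h2
          show (Φ (t i)).s * (Φ (t j)).s = (Φ (t j)).s * (Φ (t i)).s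
          rw [← Gam.mul_s, ← Gam.mul_s, ← map_mul, ← map_mul, H.hF.comm i j h1 h2]
        braid := by
          intro i j h1
          show (Φ (t i)).s * (Φ (t j)).s * (Φ (t i)).s =
            (Φ (t j)).s * (Φ (t i)).s * (Φ (t j)).s
          simp only [← Gam.mul_s, ← map_mul]
          rw [H.hF.braid i j h1]
        fold := H.hF.fold }
    rcases perm_fold hn hFold hgen' with ⟨σ, hσ⟩ | ⟨hn6, h1, h2, h3⟩
    · obtain ⟨g₀, hg₀⟩ := phi_surj H σ⁻¹
      refine hstd (hypFive_conj H g₀) ?_ ?_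
      · intro b hb
        show (Φ g₀ * Φ b * (Φ g₀)⁻¹).s = 1
        simp [hB b hb]
      · intro i
        show (Φ g₀ * Φ (t i) * (Φ g₀)⁻¹).s = sw n (a i)
        have e : (Φ (t i)).s = σ * sw n (a i) * σ⁻¹ := hσ i
        rw [Gam.mul_s, Gam.mul_s, Gam.inv_s, e, hg₀]
        group
    · exact (five_exotic H hB h1 h2 h3).elim

end ProfArtin
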