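import Pool.Agent.Work.MP_f6e909_al.AffGrp
import Pool.Agent.Work.MP_f6e909_al.Art

/-! # Types `A 3` and `D 4` -/

namespace ProfArtin

/-- The analogue of `HypFive` for star-shaped components: leaves `t i`, center `d`. -/
structure HypFour {ι G : Type} [Group G] (t : ι → G) (d : G) (B : Subgroup G) (Ψ : G →* Aff)
    (χ : G →* Multiplicative ℤ) (N κ : ℤ) (Φ : G →* Aff × Multiplicative ℤ) (y : G) : Prop where
  hne : Nonempty ι
  hcomm : ∀ i j, t i * t j = t j * t i
  hbraid : ∀ i, t i * d * t i = d * t i * d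
  hBt : ∀ b ∈ B, ∀ i, b * t i = t i * b
  hBd : ∀ b ∈ B, b * d = d * b
  hgen : Subgroup.closure (Set.range t ∪ {d}) ⊔ B = ⊤
  hΨ : Function.Surjective Ψ
  hΨt : ∀ i, (Ψ (t i)).m = matT
  hΨd : (Ψ d).m = matU
  hΨB : ∀ b ∈ B, Ψ b = 1
  hχt : ∀ i, χ (t i) = Multiplicative.ofAdd 1
  hχd : χ d = Multiplicative.ofAdd 1
  hχB : ∀ b ∈ B, χ b = 1
  hN : N = 12 ∨ N = 24
  hκ : Odd κ
  hrange : ∀ x, x ∈ Φ.range ↔ ∃ (g : G) (k : ℤ), x = (Ψ g, χ g ^ κ * Multiplicative.ofAdd (k * N))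
  hyc : y ∈ Subgroup.center G
  hyt : y ∈ Subgroup.closure (Set.range t ∪ {d})
  hy : Φ y = (1, Multiplicative.ofAdd N)

variable {ι G : Type} [Group G] {t : ι → G} {d : G} {B : Subgroup G} {Ψ : G →* Aff}
  {χ : G →* Multiplicative ℤ} {N κ : ℤ} {Φ : G →* Aff × Multiplicative ℤ} {y : G}

private theorem hom_ext {X : Type} [Group X] (H : HypFour t d B Ψ χ N κ Φ y) (f₁ f₂ : G →* X)
    (ht : ∀ i, f₁ (t i) = f₂ (t i)) (hd : f₁ d = f₂ d) (hB : ∀ b ∈ B, f₁ b = f₂ b) : f₁ = f₂ := by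
  apply MonoidHom.eq_of_eqOn_top
  have h : (⊤ : Subgroup G) ≤ f₁.eqLocus f₂ := by
    rw [← H.hgen, sup_le_iff, Subgroup.closure_le]
    refine ⟨?_, hB⟩
    rintro x (⟨i, rfl⟩ | rfl)
    · exact ht i
    · exact hd
  intro x hx
  exact h hx

/-- the exponent sum modulo 12 is determined by the linear part -/
theorem four_chi (H : HypFour t d B Ψ χ N κ Φ y) (ρ : SL2 →* Multiplicative (ZMod 12))
    (hT : ρ matT = Multiplicative.ofAdd 1) (hU : ρ matU = Multiplicative.ofAdd 1) (g : G) :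
    ρ (Ψ g).m = Multiplicative.ofAdd ((Multiplicative.toAdd (χ g) : ℤ) : ZMod 12) := by
  let pr : Aff →* SL2 := ⟨⟨fun x => x.m, rfl⟩, fun _ _ => rfl⟩
  let f₁ : G →* Multiplicative (ZMod 12) := (ρ.comp pr).comp Ψ
  let f₂ : G →* Multiplicative (ZMod 12) :=
    (AddMonoidHom.toMultiplicative (Int.castAddHom (ZMod 12))).comp χ
  have h : f₁ = f₂ := by
    apply hom_ext H
    · intro i
      show ρ (Ψ (t i)).m = Multiplicative.ofAdd ((Multiplicative.toAdd (χ (t i)) : ℤ) : ZMod 12)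
      rw [H.hΨt, H.hχt, hT]
      simp
    · show ρ (Ψ d).m = Multiplicative.ofAdd ((Multiplicative.toAdd (χ d) : ℤ) : ZMod 12)
      rw [H.hΨd, H.hχd, hU]
      simp
    · intro b hb
      show ρ (Ψ b).m = Multiplicative.ofAdd ((Multiplicative.toAdd (χ b) : ℤ) : ZMod 12)
      rw [H.hΨB b hb, H.hχB b hb, Aff.one_m, map_one]
      simp
  exact congrArg (fun f : G →* Multiplicative (ZMod 12) => f g) h

private theorem snd_eq (H : HypFour t d B Ψ χ N κ Φ y) (i : ι) : (Φ (t i)).2 = (Φ d).2 := by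
  have h := congrArg (fun g => (Φ g).2) (H.hbraid i)
  simp only [map_mul, Prod.snd_mul] at h
  have h2 : (Φ (t i)).2 * (Φ d).2 * (Φ (t i)).2 = (Φ (t i)).2 * (Φ d).2 * (Φ d).2 := by
    rw [h]
    rw [mul_comm (Φ d).2 (Φ (t i)).2]
  exact mul_left_cancel h2

/-- on the subgroup generated by `t` and `d`, the second component of `Φ` is `v` times `χ`;
and `v * χ y = N`, where `12 ∣ χ y` -/
theorem four_center (H : HypFour t d B Ψ χ N κ Φ y) :
    ∃ v : ℤ, (∀ i, (Φ (t i)).2 = Multiplicative.ofAdd v) ∧ (Φ d).2 = Multiplicative.ofAdd v ∧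
      ∃ c : ℤ, v * (12 * c) = N := by
  obtain ⟨ρ, hT, hU⟩ := sl_chi
  refine ⟨Multiplicative.toAdd (Φ d).2, ?_, rfl, ?_⟩
  · intro i
    rw [snd_eq H i]
    rfl
  · have h12 : (12 : ℤ) ∣ Multiplicative.toAdd (χ y) := by
      have hy : Ψ y = 1 := by
        apply aff_center
        intro z
        obtain ⟨g, rfl⟩ := H.hΨ z
        rw [← map_mul, ← map_mul, Subgroup.mem_center_iff.mp H.hyc g]
      have h := four_chi H ρ hT hU y
      rw [hy, Aff.one_m, map_one] at h
      have h' : ((Multiplicative.toAdd (χ y) : ℤ) : ZMod 12) = 0 := by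
        exact Multiplicative.ofAdd.injective h.symm
      exact (ZMod.intCast_zmod_eq_zero_iff_dvd _ 12).mp h'
    obtain ⟨c, hc⟩ := h12
    refine ⟨c, ?_⟩
    have hv : ∀ g ∈ Subgroup.closure (Set.range t ∪ {d}),
        Multiplicative.toAdd (Φ g).2 =
          Multiplicative.toAdd (Φ d).2 * Multiplicative.toAdd (χ g) := by
      intro g hg
      induction hg using Subgroup.closure_induction with
      | mem g hg =>
        rcases hg with ⟨i, rfl⟩ | rfl
        · rw [snd_eq H i, H.hχt]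
          simp
        · rw [H.hχd]
          simp
      | one => simp
      | mul g h _ _ hg hh =>
        rw [map_mul, map_mul, Prod.snd_mul, toAdd_mul, toAdd_mul, hg, hh]
        ring
      | inv g _ hg =>
        rw [map_inv, map_inv, Prod.snd_inv, toAdd_inv, toAdd_inv, hg]
        ring
    have := hv y H.hyt
    rw [H.hy, hc] at this
    exact this.symm

private theorem range_val (H : HypFour t d B Ψ χ N κ Φ y) (ρ : SL2 →* Multiplicative (ZMod 12))
    (hT : ρ matT = Multiplicative.ofAdd 1) (hU : ρ matU = Multiplicative.ofAdd 1) (x : G) :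
    ∃ r : ℤ, ρ (Φ x).1.m = Multiplicative.ofAdd (r : ZMod 12) ∧
      (12 : ℤ) ∣ Multiplicative.toAdd (Φ x).2 - κ * r := by
  obtain ⟨g, k, hgk⟩ := (H.hrange (Φ x)).mp ⟨x, rfl⟩
  refine ⟨Multiplicative.toAdd (χ g), ?_, ?_⟩
  · rw [hgk]
    exact four_chi H ρ hT hU g
  · rw [hgk]
    simp only [toAdd_mul, toAdd_zpow, toAdd_ofAdd, smul_eq_mul]
    have hN : (12 : ℤ) ∣ N := by
      rcases H.hN with h | h <;> rw [h] <;> norm_num
    obtain ⟨e, he⟩ := hN
    exact ⟨k * e, by rw [he]; ring⟩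

private theorem v_small {v c N : ℤ} (h : v * (12 * c) = N) (hN : N = 12 ∨ N = 24) :
    v = 1 ∨ v = -1 ∨ v = 2 ∨ v = -2 := by
  have h1 : v * c ∣ 2 := by
    rcases hN with hN | hN
    · have : v * c = 1 := by linarith
      rw [this]
      norm_num
    · have : v * c = 2 := by linarith
      rw [this]
  have h2 : v ∣ 2 := (Dvd.intro c rfl).trans h1
  have h3 := Int.le_of_dvd (by norm_num) h2
  have h4 := Int.le_of_dvd (by norm_num) ((neg_dvd).mpr h2)
  have h5 : v ≠ 0 := by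
    rintro rfl
    norm_num at h2
  omega

/-- Both cases of the decomposition: the first components of `Φ` on `⟨t, d⟩` are not all trivial
(otherwise `12 ∣ v` and `144 ∣ N`). -/
theorem four_trivial (H : HypFour t d B Ψ χ N κ Φ y)
    (h : ∀ g ∈ Subgroup.closure (Set.range t ∪ {d}), (Φ g).1 = 1) : False := by
  obtain ⟨ρ, hT, hU⟩ := sl_chi
  obtain ⟨v, -, hv, c, hc⟩ := four_center H
  obtain ⟨r, hr, hr'⟩ := range_val H ρ hT hU d
  rw [h d (Subgroup.subset_closure (by simp)), Aff.one_m, map_one] at hr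
  have h' : ((r : ℤ) : ZMod 12) = 0 := Multiplicative.ofAdd.injective hr.symm
  have h12 : (12 : ℤ) ∣ r := (ZMod.intCast_zmod_eq_zero_iff_dvd _ 12).mp h'
  rw [hv, toAdd_ofAdd] at hr'
  have h12v : (12 : ℤ) ∣ v := by
    have := dvd_add hr' (h12.mul_left κ)
    simpa using this
  rcases v_small hc H.hN with h | h | h | h <;> rw [h] at h12v <;> omega

/-- Conclusion. By `aff_commuting` the first components on `B` are trivial, so those of the `t i`
and `d` generate `Aff`. By `sl_comm_conj` the linear parts of the `Φ (t i)` are all equal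
(an inverse is excluded by `ρ`); by `aff_not_braid` the `(Φ (t i)).1` are not all equal; so the
linear part fixes a nonzero vector, hence is conjugate to `matT ^ k` (`sl_fix`), `k = ± 1` by
`sl_gen_pow`; compare `ρ` with `hrange`: `v ≡ ± κ` modulo 12, and `v = ± 1` by `four_center`. -/
theorem four_main (H : HypFour t d B Ψ χ N κ Φ y) : 12 ∣ κ - 1 ∨ 12 ∣ κ + 1 := by
  obtain ⟨ρ, hT, hU⟩ := sl_chi
  obtain ⟨v, hvt, hvd, c, hc⟩ := four_center H
  have hvs := v_small hc H.hN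
  let Φ₁ : G →* Aff := (MonoidHom.fst _ _).comp Φ
  have hΦ₁ : ∀ g, Φ₁ g = (Φ g).1 := fun _ => rfl
  have hsurj : Function.Surjective Φ₁ := by
    intro a
    obtain ⟨g, rfl⟩ := H.hΨ a
    obtain ⟨g', hg'⟩ := (H.hrange (Ψ g, χ g ^ κ * Multiplicative.ofAdd (0 * N))).mpr ⟨g, 0, rfl⟩
    exact ⟨g', by rw [hΦ₁, hg']⟩
  have hsup : (Subgroup.closure (Set.range t ∪ {d})).map Φ₁ ⊔ B.map Φ₁ = ⊤ := by
    rw [← Subgroup.map_sup, H.hgen, ← MonoidHom.range_eq_map, MonoidHom.range_eq_top]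
    exact hsurj
  have hBc : ∀ b ∈ B, ∀ g ∈ Subgroup.closure (Set.range t ∪ {d}), Commute b g := by
    intro b hb g hg
    induction hg using Subgroup.closure_induction with
    | mem g hg =>
      rcases hg with ⟨i, rfl⟩ | rfl
      · exact H.hBt b hb i
      · exact H.hBd b hb
    | one => exact Commute.one_right _
    | mul g h _ _ hg hh => exact hg.mul_right hh
    | inv g _ hg => exact hg.inv_right
  have hYbot : B.map Φ₁ = ⊥ := by
    rcases aff_commuting ((Subgroup.closure (Set.range t ∪ {d})).map Φ₁) (B.map Φ₁) (by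
      rintro _ ⟨g, hg, rfl⟩ _ ⟨b, hb, rfl⟩
      rw [← map_mul, ← map_mul, (hBc b hb g hg).eq]) hsup with h | h
    · exfalso
      apply four_trivial H
      intro g hg
      have : Φ₁ g ∈ (Subgroup.closure (Set.range t ∪ {d})).map Φ₁ := ⟨g, hg, rfl⟩
      rw [h, Subgroup.mem_bot] at this
      exact this
    · exact h
  have hXtop : Subgroup.closure (Set.range (fun i => Φ₁ (t i)) ∪ {Φ₁ d}) = ⊤ := by
    rw [hYbot, sup_bot_eq, MonoidHom.map_closure, Set.image_union, Set.image_singleton,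
      ← Set.range_comp] at hsup
    exact hsup
  -- linear parts
  have hlin : ∀ P : Subgroup SL2, (∀ i, (Φ₁ (t i)).m ∈ P) → (Φ₁ d).m ∈ P → ∀ x, x ∈ P := by
    intro P hP hPd x
    have : ∀ a : Aff, a.m ∈ P := by
      intro a
      have ha : a ∈ Subgroup.closure (Set.range (fun i => Φ₁ (t i)) ∪ {Φ₁ d}) := by
        rw [hXtop]
        trivial
      induction ha using Subgroup.closure_induction with
      | mem a ha =>
        rcases ha with ⟨i, rfl⟩ | rfl
        · exact hP i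
        · exact hPd
      | one => exact P.one_mem
      | mul a b _ _ ha hb => exact P.mul_mem ha hb
      | inv a _ ha => exact P.inv_mem ha
    exact this ⟨0, x⟩
  -- conjugacy
  have hconj : ∀ i, ∃ g : Aff, Φ₁ d = g * Φ₁ (t i) * g⁻¹ := by
    intro i
    refine ⟨Φ₁ (t i) * Φ₁ d, ?_⟩
    rw [eq_mul_inv_iff_mul_eq, ← map_mul, ← map_mul, ← map_mul, ← mul_assoc]
    rw [← H.hbraid i]
  have hconjm : ∀ i, ∃ g : SL2, (Φ₁ d).m = g * (Φ₁ (t i)).m * g⁻¹ := by
    intro i
    obtain ⟨g, hg⟩ := hconj i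
    exact ⟨g.m, by rw [hg]; rfl⟩
  have hρconj : ∀ i, ρ (Φ₁ (t i)).m = ρ (Φ₁ d).m := by
    intro i
    obtain ⟨g, hg⟩ := hconjm i
    rw [hg, map_mul, map_mul, map_inv, mul_comm (ρ g), mul_inv_cancel_right]
  obtain ⟨r, hr, hr'⟩ := range_val H ρ hT hU d
  rw [hvd, toAdd_ofAdd] at hr'
  obtain ⟨i₀⟩ := H.hne
  have hne1 : ∀ i, (Φ₁ (t i)).m ≠ 1 ∧ (Φ₁ (t i)).m ≠ -1 := by
    intro i
    by_contra hcon
    have hi : (Φ₁ (t i)).m ∈ Subgroup.center SL2 := by
      rw [Subgroup.mem_center_iff]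
      intro g
      by_cases h : (Φ₁ (t i)).m = 1
      · rw [h, one_mul, mul_one]
      · have h' : (Φ₁ (t i)).m = -1 := by
          by_contra h2
          exact hcon ⟨h, h2⟩
        rw [h', mul_neg, neg_mul, one_mul, mul_one]
    have hd : (Φ₁ d).m ∈ Subgroup.center SL2 := by
      obtain ⟨g, hg⟩ := hconjm i
      rw [hg]
      exact Subgroup.Normal.conj_mem inferInstance _ hi g
    have hj : ∀ j, (Φ₁ (t j)).m ∈ Subgroup.center SL2 := by
      intro j
      obtain ⟨g, hg⟩ := hconjm j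
      have : (Φ₁ (t j)).m = g⁻¹ * (Φ₁ d).m * g⁻¹⁻¹ := by
        rw [hg]
        group
      rw [this]
      exact Subgroup.Normal.conj_mem inferInstance _ hd g⁻¹
    apply sl_not_comm
    intro x y
    exact (Subgroup.mem_center_iff.mp (hlin _ hj hd y) x)
  have hconj2 : ∀ i j, ∃ g : SL2, (Φ₁ (t j)).m = g * (Φ₁ (t i)).m * g⁻¹ := by
    intro i j
    obtain ⟨g, hg⟩ := hconjm i
    obtain ⟨h, hh⟩ := hconjm j
    refine ⟨h⁻¹ * g, ?_⟩
    have : (Φ₁ (t j)).m = h⁻¹ * (Φ₁ d).m * h := by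
      rw [hh]
      group
    rw [this, hg]
    group
  have hsame : ∀ i j, (Φ₁ (t j)).m = (Φ₁ (t i)).m := by
    intro i j
    obtain ⟨g, hg⟩ := hconj2 i j
    have hcomm : (Φ₁ (t i)).m * (Φ₁ (t j)).m = (Φ₁ (t j)).m * (Φ₁ (t i)).m := by
      rw [← Aff.mul_m, ← Aff.mul_m, ← map_mul, ← map_mul, H.hcomm i j]
    rcases sl_comm_conj _ _ g hg hcomm (hne1 i).1 (hne1 i).2 with h | h
    · exact h
    · exfalso
      have h1 := congrArg ρ h
      rw [map_inv, hρconj, hρconj, hΦ₁, hr] at h1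
      have h2 : ((r : ℤ) : ZMod 12) = -((r : ℤ) : ZMod 12) := Multiplicative.ofAdd.injective h1
      have h3 : ((2 * r : ℤ) : ZMod 12) = 0 := by
        push_cast
        linear_combination h2
      have h4 : (12 : ℤ) ∣ 2 * r := (ZMod.intCast_zmod_eq_zero_iff_dvd _ 12).mp h3
      have h5 : (6 : ℤ) ∣ r := by omega
      have h6 : (6 : ℤ) ∣ v := by
        have := dvd_add (Dvd.dvd.trans (by norm_num : (6 : ℤ) ∣ 12) hr') (h5.mul_left κ)
        simpa using this
      rcases hvs with h | h | h | h <;> rw [h] at h6 <;> omega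
  -- not all equal
  obtain ⟨i, j, hij⟩ : ∃ i j, Φ₁ (t i) ≠ Φ₁ (t j) := by
    by_contra hcon
    push Not at hcon
    apply aff_not_braid (Φ₁ (t i₀)) (Φ₁ d)
    · rw [← map_mul, ← map_mul, ← map_mul, ← map_mul, H.hbraid i₀]
    · rw [← hXtop]
      congr 1
      ext x
      constructor
      · rintro (rfl | rfl)
        · exact Or.inl ⟨i₀, rfl⟩
        · exact Or.inr rfl
      · rintro (⟨i, rfl⟩ | rfl)
        · left
          exact hcon i i₀
        · right
          rfl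
  set m := (Φ₁ (t i)).m with hm
  have hmj : (Φ₁ (t j)).m = m := hsame i j
  have hfix : m.1.mulVec ((Φ₁ (t i)).u - (Φ₁ (t j)).u) = (Φ₁ (t i)).u - (Φ₁ (t j)).u := by
    have h1 : Φ₁ (t i) * Φ₁ (t j) = Φ₁ (t j) * Φ₁ (t i) := by
      rw [← map_mul, ← map_mul, H.hcomm i j]
    have h2 := congrArg Aff.u h1
    simp only [Aff.mul_u, hmj, ← hm] at h2
    rw [Matrix.mulVec_sub]
    have h3 : m.1.mulVec (Φ₁ (t i)).u = (Φ₁ (t i)).u + m.1.mulVec (Φ₁ (t j)).u - (Φ₁ (t j)).u := by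
      rw [h2]
      abel
    rw [h3]
    abel
  have hune : (Φ₁ (t i)).u - (Φ₁ (t j)).u ≠ 0 := by
    intro h0
    apply hij
    exact Aff.ext (sub_eq_zero.mp h0) hmj.symm
  obtain ⟨g, k, hgk⟩ := sl_fix m _ hune hfix
  have hk : k = 1 ∨ k = -1 := by
    apply sl_gen_pow k (Set.range (fun i => (Φ₁ (t i)).m) ∪ {(Φ₁ d).m})
    · rintro x (⟨l, rfl⟩ | rfl)
      · exact ⟨g, by rw [← hgk]; exact hsame i l⟩
      · obtain ⟨e, he⟩ := hconjm i
        refine ⟨e * g, ?_⟩
        rw [he, ← hm, hgk]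
        group
    · rw [eq_top_iff]
      intro x _
      apply hlin
      · intro l
        exact Subgroup.subset_closure (Or.inl ⟨l, rfl⟩)
      · exact Subgroup.subset_closure (Or.inr rfl)
  have hρm : ρ m = Multiplicative.ofAdd ((k : ℤ) : ZMod 12) := by
    rw [hgk, map_mul, map_mul, map_inv, mul_comm (ρ g), mul_inv_cancel_right, map_zpow, hT,
      ← ofAdd_zsmul]
    simp
  have hrk : ((r : ℤ) : ZMod 12) = ((k : ℤ) : ZMod 12) := by
    apply Multiplicative.ofAdd.injective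
    rw [← hr, ← hρm, hm, hρconj, hΦ₁]
  have hrk' : (12 : ℤ) ∣ r - k := by
    apply (ZMod.intCast_zmod_eq_zero_iff_dvd _ 12).mp
    push_cast
    rw [hrk, sub_self]
  have hvk : (12 : ℤ) ∣ v - κ * k := by
    have := dvd_add hr' (hrk'.mul_left κ)
    have e : v - κ * r + κ * (r - k) = v - κ * k := by ring
    rwa [e] at this
  obtain ⟨w, hw⟩ := H.hκ
  rcases hk with rfl | rfl <;> rcases hvs with h | h | h | h <;> rw [h] at hvk <;> omega

end ProfArtin
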