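import Pool.Agent.Work.MP_f6e909_al.AffGrp
import Pool.Agent.Work.MP_f6e909_al.Art

/-! # The affine representation of star-shaped components -/

namespace ProfArtin

variable {S : Type}

/-- The generators in `T` are a center `d` and leaves (with pairwise entries 2, and entry 3 with the
center). Two different leaves `l₀ ≠ l₁` are given. -/
theorem psi_exists (M : CoxeterMatrix S) (T : Set S) (hcomm : ∀ s ∈ T, ∀ t ∉ T, M s t = 2)
    (d l₀ l₁ : S) (hd : d ∈ T) (hl₀ : l₀ ∈ T) (hl₁ : l₁ ∈ T) (h01 : l₀ ≠ l₁) (h0 : l₀ ≠ d)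
    (h1 : l₁ ≠ d) (hleaf : ∀ s ∈ T, s ≠ d → M s d = 3)
    (hleaves : ∀ s ∈ T, ∀ t ∈ T, s ≠ d → t ≠ d → s ≠ t → M s t = 2) :
    ∃ Ψ : ArtinGroup M →* Aff, Function.Surjective Ψ ∧ (Ψ (gen M d)).m = matU ∧
      (∀ s ∈ T, s ≠ d → (Ψ (gen M s)).m = matT) ∧ ∀ s, s ∉ T → Ψ (gen M s) = 1 := by
  classical
  have hcomm' : ∀ s ∉ T, ∀ t ∈ T, M s t = 2 := by
    intro s hs t ht
    rw [M.symmetric]
    exact hcomm t ht s hs
  let f : S → Aff := fun s =>
    if s ∉ T then 1 else if s = d then ⟨0, matU⟩ else if s = l₁ then ⟨![1, 0], matT⟩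
      else ⟨0, matT⟩
  have fT : ∀ s, s ∉ T → f s = 1 := fun s hs => by simp only [f, if_pos hs]
  have fd : f d = ⟨0, matU⟩ := by
    simp only [f, if_neg (not_not.mpr hd), if_true]
  have fl : ∀ s ∈ T, s ≠ d → ∃ u : Fin 2 → ℤ, (u = 0 ∨ u = ![1, 0]) ∧ f s = ⟨u, matT⟩ := by
    intro s hs hsd
    by_cases h : s = l₁
    · refine ⟨![1, 0], Or.inr rfl, ?_⟩
      simp only [f, if_neg (not_not.mpr hs), if_neg hsd, if_pos h]
    · refine ⟨0, Or.inl rfl, ?_⟩
      simp only [f, if_neg (not_not.mpr hs), if_neg hsd, if_neg h]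
  have f1 : f l₁ = ⟨![1, 0], matT⟩ := by
    simp only [f, if_neg (not_not.mpr hl₁), if_neg h1, if_true]
  have f0 : f l₀ = ⟨0, matT⟩ := by
    simp only [f, if_neg (not_not.mpr hl₀), if_neg h0, if_neg h01]
  obtain ⟨Ψ, hΨ⟩ := art_lift M f (by
    intro s t hst _
    by_cases hs : s ∈ T
    · by_cases ht : t ∈ T
      · by_cases hsd : s = d
        · subst hsd
          obtain ⟨u, hu, hu'⟩ := fl t ht (Ne.symm hst)
          rw [M.symmetric, hleaf t ht (Ne.symm hst), alt_three, alt_three, hu', fd]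
          exact (aff_braid u hu).symm
        · by_cases htd : t = d
          · subst htd
            obtain ⟨u, hu, hu'⟩ := fl s hs hst
            rw [hleaf s hs hst, alt_three, alt_three, hu', fd]
            exact aff_braid u hu
          · obtain ⟨u, hu, hu'⟩ := fl s hs hsd
            obtain ⟨v, hv, hv'⟩ := fl t ht htd
            rw [hleaves s hs t ht hsd htd hst, alt_two, alt_two, hu', hv']
            rcases hu with rfl | rfl <;> rcases hv with rfl | rfl
            · rfl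
            · exact aff_comm
            · exact aff_comm.symm
            · rfl
      · rw [hcomm s hs t ht, alt_two, alt_two, fT t ht, one_mul, mul_one]
    · by_cases ht : t ∈ T
      · rw [hcomm' s hs t ht, alt_two, alt_two, fT s hs, one_mul, mul_one]
      · rw [fT s hs, fT t ht])
  refine ⟨Ψ, ?_, ?_, ?_, ?_⟩
  · rw [← MonoidHom.range_eq_top, eq_top_iff, ← aff_closure, Subgroup.closure_le]
    rintro x (rfl | rfl | rfl)
    · exact ⟨gen M l₀, by rw [hΨ, f0]⟩
    · exact ⟨gen M l₁, by rw [hΨ, f1]⟩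
    · exact ⟨gen M d, by rw [hΨ, fd]⟩
  · rw [hΨ, fd]
  · intro s hs hsd
    obtain ⟨u, _, hu'⟩ := fl s hs hsd
    rw [hΨ, hu']
  · intro s hs
    rw [hΨ, fT s hs]

end ProfArtin
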