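import Mathlib

/-! # Powers with factorial exponents -/

namespace ProfArtin

/-- In `ZMod o` the sequence of powers is eventually periodic (pigeonhole), so that
`κ ^ (m !)` does not depend on `m ≥ o`. -/
theorem pow_factorial_modEq (κ o m : ℕ) (ho : 1 ≤ o) (hm : o ≤ m) :
    κ ^ m.factorial ≡ κ ^ o.factorial [MOD o] := by
  haveI : NeZero o := ⟨by omega⟩
  -- pigeonhole
  have h1 : ¬ Function.Injective (fun i : Fin (o + 1) => (κ : ZMod o) ^ (i : ℕ)) := by
    intro hinj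
    have := Fintype.card_le_of_injective _ hinj
    rw [Fintype.card_fin, ZMod.card] at this
    omega
  obtain ⟨i, j, hij, hji⟩ : ∃ i j : ℕ, i < j ∧ j ≤ o ∧ (κ : ZMod o) ^ i = (κ : ZMod o) ^ j := by
    unfold Function.Injective at h1
    push Not at h1
    obtain ⟨a, b, hab, hne⟩ := h1
    rcases lt_or_gt_of_ne hne with h | h
    · exact ⟨a, b, h, by omega, hab⟩
    · exact ⟨b, a, h, by omega, hab.symm⟩
  obtain ⟨hjo, hpow⟩ := hji
  obtain ⟨p, rfl⟩ : ∃ p, j = i + p := ⟨j - i, by omega⟩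
  have hp : 1 ≤ p := by omega
  -- periodicity
  have h2 : ∀ n, i ≤ n → ∀ t, (κ : ZMod o) ^ (n + p * t) = (κ : ZMod o) ^ n := by
    intro n hn t
    induction t with
    | zero => simp
    | succ t ih =>
      obtain ⟨r, rfl⟩ : ∃ r, n = i + r := ⟨n - i, by omega⟩
      rw [show i + r + p * (t + 1) = (i + p) + (r + p * t) by ring, pow_add, ← hpow, ← pow_add,
        show i + (r + p * t) = i + r + p * t by ring, ih]
  have h3 : p ∣ o.factorial := Nat.dvd_factorial hp (by omega)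
  have h4 : o.factorial ∣ m.factorial := Nat.factorial_dvd_factorial hm
  have h5 : o.factorial ≤ m.factorial := Nat.factorial_le hm
  obtain ⟨t, ht⟩ : p ∣ m.factorial - o.factorial := Nat.dvd_sub (h3.trans h4) h3
  have h6 : m.factorial = o.factorial + p * t := by omega
  have h7 : i ≤ o.factorial := by
    have := Nat.self_le_factorial o
    omega
  have h8 := h2 o.factorial h7 t
  rw [← h6] at h8
  rw [← ZMod.natCast_eq_natCast_iff]
  push_cast
  exact h8

/-- With `a = 1 - κ ^ (m !)` the number `κ + a * N` is prime to `o`, if `κ` and `N` are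
coprime and `o ≤ m`. -/
theorem isCoprime_twist {κ : ℕ} {N : ℤ} (hκ : 1 ≤ κ) (hN : IsCoprime (κ : ℤ) N) (o m : ℕ)
    (ho : 1 ≤ o) (hm : o ≤ m) :
    IsCoprime ((κ : ℤ) + (1 - (κ : ℤ) ^ m.factorial) * N) (o : ℤ) := by
  rw [Int.isCoprime_iff_gcd_eq_one]
  by_contra h
  obtain ⟨p, hp, hpd⟩ := Nat.exists_prime_and_dvd h
  have h1 : (p : ℤ) ∣ (κ : ℤ) + (1 - (κ : ℤ) ^ m.factorial) * N :=
    (Int.natCast_dvd_natCast.2 hpd).trans (Int.gcd_dvd_left ..)
  have h2 : (p : ℤ) ∣ (o : ℤ) := (Int.natCast_dvd_natCast.2 hpd).trans (Int.gcd_dvd_right ..)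
  have h3 : p ≤ o := Nat.le_of_dvd (by omega) (Int.natCast_dvd_natCast.1 h2)
  have hfac : m.factorial ≠ 0 := Nat.factorial_ne_zero m
  have hpp : Prime (p : ℤ) := Nat.prime_iff_prime_int.1 hp
  by_cases hk : (p : ℤ) ∣ (κ : ℤ)
  · have h4 : (p : ℤ) ∣ (κ : ℤ) ^ m.factorial := dvd_pow hk hfac
    have h5 : (p : ℤ) ∣ N := by
      have h6 : N = ((κ : ℤ) + (1 - (κ : ℤ) ^ m.factorial) * N) - κ + (κ : ℤ) ^ m.factorial * N := by
        ring
      rw [h6]
      exact dvd_add (dvd_sub h1 hk) (h4.mul_right N)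
    obtain ⟨a, b, hab⟩ := hN
    have h7 : (p : ℤ) ∣ 1 := by
      rw [← hab]
      exact dvd_add (hk.mul_left a) (h5.mul_left b)
    exact hpp.not_unit (isUnit_of_dvd_one h7)
  · have h4 : (p : ℤ) ∣ (κ : ℤ) ^ m.factorial - 1 := by
      haveI : Fact p.Prime := ⟨hp⟩
      have h5 : (κ : ZMod p) ≠ 0 := by
        intro h0
        apply hk
        rw [← ZMod.intCast_zmod_eq_zero_iff_dvd]
        exact_mod_cast h0
      have h6 : (κ : ZMod p) ^ (p - 1) = 1 := ZMod.pow_card_sub_one_eq_one h5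
      have h7 : (p - 1) ∣ m.factorial := Nat.dvd_factorial (by have := hp.two_le; omega) (by omega)
      obtain ⟨t, ht⟩ := h7
      have h8 : (κ : ZMod p) ^ m.factorial = 1 := by
        rw [ht, pow_mul, h6, one_pow]
      have h9 : (((κ : ℤ) ^ m.factorial - 1 : ℤ) : ZMod p) = 0 := by
        push_cast
        rw [h8, sub_self]
      exact (ZMod.intCast_zmod_eq_zero_iff_dvd _ _).1 h9
    apply hk
    have h6 : (κ : ℤ) = ((κ : ℤ) + (1 - (κ : ℤ) ^ m.factorial) * N) +
        ((κ : ℤ) ^ m.factorial - 1) * N := by ring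
    rw [h6]
    exact dvd_add h1 (h4.mul_right N)

end ProfArtin
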