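import Pool.Agent.Work.MP_f6e909_al.TwBasic
import Pool.Agent.Work.MP_f6e909_al.PowFact
import Pool.Agent.Work.MP_f6e909_al.CompIso

/-! # The central twist has the same profinite completion -/

namespace ProfArtin

open ProfiniteGrp ProfiniteCompletion

variable {G : Type} [Group G]

/-- `g ↦ g * z ^ (a * χ g)` -/
private def shear (h : G) (κ : ℕ) (χ : G →* Multiplicative ℤ) (a : ℤ) : G →* Tw G h κ where
  toFun g := twOf h κ g * twZ h κ ^ (a * (χ g).toAdd)
  map_one' := by simp
  map_mul' x y := by
    have hc : twZ h κ ^ (a * (χ x).toAdd) * twOf h κ y = twOf h κ y * twZ h κ ^ (a * (χ x).toAdd) :=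
      (Commute.zpow_right (tw_z_comm h κ (twOf h κ y)) _).symm
    rw [map_mul, map_mul, toAdd_mul, mul_add, zpow_add, mul_assoc, mul_assoc]
    congr 1
    rw [← mul_assoc, ← hc, mul_assoc]

private theorem shear_apply (h : G) (κ : ℕ) (χ : G →* Multiplicative ℤ) (a : ℤ) (g : G) :
    shear h κ χ a g = twOf h κ g * twZ h κ ^ (a * (χ g).toAdd) := rfl

/-- the exponent attached to a finite index subgroup -/
private noncomputable def ex {h : G} {κ : ℕ} (K : Subgroup (Tw G h κ)) : ℤ :=
  1 - (κ : ℤ) ^ (K.index).factorial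

private theorem order_le {h : G} {κ : ℕ} (K : FiniteIndexNormalSubgroup (Tw G h κ))
    (x : Tw G h κ ⧸ K.toSubgroup) : 1 ≤ orderOf x ∧ orderOf x ≤ K.toSubgroup.index := by
  haveI : Finite (Tw G h κ ⧸ K.toSubgroup) := Subgroup.finite_quotient_of_finiteIndex
  exact ⟨orderOf_pos x, orderOf_le_card⟩

private theorem pow_modEq_int {κ o m : ℕ} (ho : 1 ≤ o) (hm : o ≤ m) :
    (κ : ℤ) ^ m.factorial ≡ (κ : ℤ) ^ o.factorial [ZMOD o] := by
  have h := pow_factorial_modEq κ o m ho hm
  have h2 := (Int.natCast_modEq_iff (n := o)).2 h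
  push_cast at h2
  exact h2

/-- Let `h` be central, `χ : G → ℤ` with `χ h = N` prime to `κ`. Then the twist has the same
profinite completion as `G`. -/
theorem tw_completion {h : G} (hh : h ∈ Subgroup.center G) {κ : ℕ} (hκ : 1 ≤ κ)
    (χ : G →* Multiplicative ℤ) (N : ℤ) (hN : χ h = Multiplicative.ofAdd N)
    (hco : IsCoprime (κ : ℤ) N) :
    Nonempty (completion (GrpCat.of (Tw G h κ)) ≃ₜ* completion (GrpCat.of G)) := by
  refine completion_iso (H := Tw G h κ)
    (fun K => (QuotientGroup.mk' K.toSubgroup).comp (shear h κ χ (ex K.toSubgroup))) ?_ ?_ ?_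
  · -- surjective
    intro K
    set a := ex K.toSubgroup with ha
    set θ := (QuotientGroup.mk' K.toSubgroup).comp (shear h κ χ a) with hθ
    set zz : Tw G h κ ⧸ K.toSubgroup := QuotientGroup.mk' K.toSubgroup (twZ h κ) with hzz
    obtain ⟨ho1, ho2⟩ := order_le K zz
    have h1 : θ h = zz ^ ((κ : ℤ) + a * N) := by
      rw [hθ, MonoidHom.comp_apply, shear_apply, hN, toAdd_ofAdd, ← tw_pow, ← zpow_natCast,
        ← zpow_add, map_zpow]
    have h2 : IsCoprime ((κ : ℤ) + a * N) (orderOf zz : ℤ) := by
      rw [ha]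
      exact isCoprime_twist hκ hco (orderOf zz) (K.toSubgroup.index) ho1 ho2
    obtain ⟨u, v, huv⟩ := h2
    have h3 : zz = θ (h ^ u) := by
      rw [map_zpow, h1, ← zpow_mul]
      have h4 : zz ^ (((κ : ℤ) + a * N) * u + orderOf zz * v) = zz := by
        rw [show ((κ : ℤ) + a * N) * u + orderOf zz * v = 1 by linarith, zpow_one]
      rw [zpow_add, zpow_mul zz (orderOf zz : ℤ) v, zpow_natCast, pow_orderOf_eq_one, one_zpow,
        mul_one] at h4
      exact h4.symm
    intro y
    induction y using QuotientGroup.induction_on with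
    | H y =>
      obtain ⟨g, k, rfl⟩ := tw_surj h κ y
      refine ⟨g * (h ^ u) ^ (k - a * (χ g).toAdd), ?_⟩
      rw [map_mul, map_zpow, ← h3, hθ, MonoidHom.comp_apply, shear_apply, map_mul, map_zpow,
        mul_assoc, ← zpow_add]
      change _ = QuotientGroup.mk' K.toSubgroup (twOf h κ g * twZ h κ ^ k)
      rw [map_mul, map_zpow, ← hzz]
      congr 2
      ring
  · -- compatible
    intro K K' hK g
    have hKs : K.toSubgroup ≤ K'.toSubgroup := hK
    set zz : Tw G h κ ⧸ K'.toSubgroup := QuotientGroup.mk' K'.toSubgroup (twZ h κ) with hzz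
    obtain ⟨ho1, ho2⟩ := order_le K' zz
    have hidx : K'.toSubgroup.index ≤ K.toSubgroup.index := by
      refine Nat.le_of_dvd ?_ (Subgroup.index_dvd_of_le hKs)
      exact Nat.pos_of_ne_zero Subgroup.FiniteIndex.index_ne_zero
    have h1 : ex K.toSubgroup ≡ ex K'.toSubgroup [ZMOD orderOf zz] := by
      unfold ex
      have e1 := pow_modEq_int (κ := κ) ho1 (ho2.trans hidx)
      have e2 := pow_modEq_int (κ := κ) ho1 ho2
      exact (Int.ModEq.refl 1).sub (e1.trans e2.symm)
    change (QuotientGroup.mk' K'.toSubgroup) (shear h κ χ (ex K.toSubgroup) g) =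
      (QuotientGroup.mk' K'.toSubgroup) (shear h κ χ (ex K'.toSubgroup) g)
    rw [shear_apply, shear_apply, map_mul, map_mul, map_zpow, map_zpow, ← hzz]
    congr 1
    rw [zpow_eq_zpow_iff_modEq]
    exact h1.mul_right _
  · -- cofinal
    intro V
    haveI : Finite (G ⧸ V.toSubgroup) := Subgroup.finite_quotient_of_finiteIndex
    set hq : G ⧸ V.toSubgroup := QuotientGroup.mk' V.toSubgroup h with hhq
    set o := orderOf hq with ho
    have ho1 : 1 ≤ o := orderOf_pos hq
    set as : ℤ := 1 - (κ : ℤ) ^ o.factorial with has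
    have h2 : IsCoprime ((κ : ℤ) + as * N) (o : ℤ) := isCoprime_twist hκ hco o o ho1 le_rfl
    obtain ⟨b, v, hbv⟩ := h2
    -- `b * (κ + as * N) + v * o = 1`
    have hcen : ∀ (x : G ⧸ V.toSubgroup) (k : ℤ), x * hq ^ k = hq ^ k * x := by
      intro x k
      induction x using QuotientGroup.induction_on with
      | H x =>
        have h3 : Commute x h := Subgroup.mem_center_iff.1 hh x
        have h4 : Commute (QuotientGroup.mk' V.toSubgroup x) (QuotientGroup.mk' V.toSubgroup h) :=
          h3.map _
        exact (h4.zpow_right k)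
    let f₀ : G →* G ⧸ V.toSubgroup :=
      { toFun := fun g => QuotientGroup.mk' V.toSubgroup g * hq ^ (-b * as * (χ g).toAdd)
        map_one' := by simp
        map_mul' := by
          intro x y
          have hyy := hcen (QuotientGroup.mk' V.toSubgroup y) (-b * as * (χ x).toAdd)
          rw [map_mul, map_mul, toAdd_mul, mul_add, zpow_add]
          generalize QuotientGroup.mk' V.toSubgroup x = X at hyy ⊢
          generalize QuotientGroup.mk' V.toSubgroup y = Y at hyy ⊢
          generalize hq ^ (-b * as * (χ x).toAdd) = P at hyy ⊢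
          generalize hq ^ (-b * as * (χ y).toAdd) = R
          calc X * Y * (P * R) = X * (Y * P) * R := by group
            _ = X * (P * Y) * R := by rw [hyy]
            _ = X * P * (Y * R) := by group }
    have hf₀ : ∀ g, f₀ g = QuotientGroup.mk' V.toSubgroup g * hq ^ (-b * as * (χ g).toAdd) :=
      fun g => rfl
    have hmod : (1 + -b * as * N) ≡ b * κ [ZMOD orderOf hq] := by
      rw [← ho]
      refine (Int.modEq_iff_dvd).2 ⟨-v, ?_⟩
      linarith
    obtain ⟨F, hF1, hF2⟩ := tw_lift h κ f₀ (hq ^ b) (fun g => hcen _ _) (by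
      rw [hf₀, hN, toAdd_ofAdd, ← hhq, ← zpow_natCast, ← zpow_mul]
      conv_lhs => rw [← zpow_one_add]
      rw [zpow_eq_zpow_iff_modEq]
      exact hmod)
    haveI hfin : F.ker.FiniteIndex := Subgroup.finiteIndex_ker F
    refine ⟨FiniteIndexNormalSubgroup.ofSubgroup F.ker, ?_⟩
    intro g hg
    rw [MonoidHom.mem_ker, MonoidHom.comp_apply] at hg
    set a := ex (FiniteIndexNormalSubgroup.ofSubgroup F.ker).toSubgroup with ha
    have hg1 : shear h κ χ a g ∈ F.ker := by
      rw [QuotientGroup.mk'_apply, QuotientGroup.eq_one_iff] at hg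
      exact hg
    rw [MonoidHom.mem_ker, shear_apply, map_mul, map_zpow, hF1, hF2, hf₀, mul_assoc, ← zpow_mul,
      ← zpow_add] at hg1
    -- the order of `z` modulo the kernel
    have hord : o ≤ F.ker.index := by
      have h5 : orderOf (F (twZ h κ)) = o := by
        rw [hF2]
        have h6 : hq ∈ Subgroup.zpowers (hq ^ b) := by
          refine Subgroup.mem_zpowers_iff.2 ⟨(κ : ℤ) + as * N, ?_⟩
          rw [← zpow_mul]
          conv_rhs => rw [← zpow_one hq]
          rw [zpow_eq_zpow_iff_modEq, ← ho]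
          refine (Int.modEq_iff_dvd).2 ⟨v, ?_⟩
          linarith
        have h7 : Subgroup.zpowers (hq ^ b) = Subgroup.zpowers hq := by
          apply le_antisymm
          · rw [Subgroup.zpowers_le]
            exact Subgroup.zpow_mem _ (Subgroup.mem_zpowers hq) b
          · rw [Subgroup.zpowers_le]
            exact h6
        rw [← Nat.card_zpowers, h7, Nat.card_zpowers]
      have h8 : F.ker.index = Nat.card F.range := Subgroup.index_ker F
      rw [h8, ← h5, ← Nat.card_zpowers]
      have h9 : Subgroup.zpowers (F (twZ h κ)) ≤ F.range := by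
        rw [Subgroup.zpowers_le]
        exact ⟨_, rfl⟩
      haveI : Finite F.range := inferInstance
      exact Nat.card_le_card_of_injective _ (Subgroup.inclusion_injective h9)
    have h10 : a ≡ as [ZMOD o] := by
      rw [ha, has]
      unfold ex
      exact (Int.ModEq.refl 1).sub (pow_modEq_int (κ := κ) ho1 hord)
    have h11 : hq ^ (-b * as * (χ g).toAdd + b * (a * (χ g).toAdd)) = 1 := by
      rw [← zpow_zero hq, zpow_eq_zpow_iff_modEq, ← ho]
      have h12 : (a - as) ≡ 0 [ZMOD o] := by
        have := h10.sub (Int.ModEq.refl as)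
        rwa [sub_self] at this
      have h13 := h12.mul_left (b * (χ g).toAdd)
      rw [mul_zero] at h13
      have h14 : -b * as * (χ g).toAdd + b * (a * (χ g).toAdd) = b * (χ g).toAdd * (a - as) := by
        ring
      rw [h14]
      exact h13
    rw [h11, mul_one, QuotientGroup.mk'_apply, QuotientGroup.eq_one_iff] at hg1
    exact hg1

end ProfArtin
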