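import Pool.Agent.Work.MP_f6e909_al.Comp
import Pool.Agent.Work.MP_f6e909_al.Fam
import Pool.Agent.Work.MP_f6e909_al.Cen
import Pool.Agent.Work.MP_f6e909_al.TwComp
import Pool.Agent.Work.MP_f6e909_al.Five
import Pool.Agent.Work.MP_f6e909_al.HypFour
import Pool.Agent.Work.MP_f6e909_al.Psi

/-! # Assembly -/

namespace ProfArtin

variable {S : Type}

/-- A rigid group is isomorphic to its twist. -/
theorem rigid_twist {G : Type} [Group G] (hfg : Group.FG G) (hr : ProfinitelyRigid G) {h : G}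
    (hh : h ∈ Subgroup.center G) {κ : ℕ} (hκ : 1 ≤ κ) (χ : G →* Multiplicative ℤ) (N : ℤ)
    (hN : χ h = Multiplicative.ofAdd N) (hco : IsCoprime (κ : ℤ) N) :
    Nonempty (Tw G h κ ≃* G) :=
  hr.2 (Tw G h κ) (tw_fg h κ hfg) (tw_rf hh hκ hr.1) (tw_completion hh hκ χ N hN hco)

/-- an element of the component group commuting with the component is central -/
private theorem central_of_comm (M : CoxeterMatrix S) (T : Set S)
    (hcomm : ∀ s ∈ T, ∀ t ∉ T, M s t = 2) (h : ArtinGroup M)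
    (hh : ∀ s ∈ T, h * gen M s = gen M s * h) (hht : h ∈ Subgroup.closure (gen M '' T)) :
    h ∈ Subgroup.center (ArtinGroup M) := by
  have h1 : Subgroup.closure (gen M '' T) ≤ Subgroup.centralizer {h} := by
    rw [Subgroup.closure_le]
    rintro _ ⟨s, hs, rfl⟩
    rw [SetLike.mem_coe, Subgroup.mem_centralizer_iff]
    intro k hk
    rw [Set.mem_singleton_iff.1 hk]
    exact hh s hs
  have h2 : Subgroup.closure (gen M '' Tᶜ) ≤ Subgroup.centralizer {h} := by
    intro b hb
    rw [Subgroup.mem_centralizer_iff]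
    intro k hk
    rw [Set.mem_singleton_iff.1 hk]
    have h3 : Subgroup.closure (gen M '' T) ≤ Subgroup.centralizer {b} := by
      rw [Subgroup.closure_le]
      rintro _ ⟨s, hs, rfl⟩
      rw [SetLike.mem_coe, Subgroup.mem_centralizer_iff]
      intro k hk
      rw [Set.mem_singleton_iff.1 hk]
      exact comp_comm M T hcomm b hb s hs
    have h4 := Subgroup.mem_centralizer_iff.1 (h3 hht) b (Set.mem_singleton b)
    exact h4.symm
  rw [Subgroup.mem_center_iff]
  intro g
  have h5 : g ∈ Subgroup.centralizer {h} := by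
    have : (⊤ : Subgroup (ArtinGroup M)) ≤ Subgroup.centralizer {h} := by
      rw [← comp_gen M T]
      exact sup_le h1 h2
    exact this (Subgroup.mem_top g)
  exact (Subgroup.mem_centralizer_iff.1 h5 h (Set.mem_singleton h)).symm

/-- the permutations commuting with all permutations are trivial -/
private theorem perm_center {n : ℕ} (hn : 3 ≤ n) (s : Equiv.Perm (Fin n))
    (h : ∀ r, s * r = r * s) : s = 1 := by
  by_contra hs
  obtain ⟨p, hp⟩ : ∃ p, s p ≠ p := by
    by_contra hc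
    push Not at hc
    exact hs (Equiv.ext hc)
  obtain ⟨q, hq1, hq2⟩ : ∃ q : Fin n, q ≠ p ∧ q ≠ s p := by
    by_contra hc
    push Not at hc
    have h1 : (Finset.univ : Finset (Fin n)) ⊆ {p, s p} := by
      intro q _
      by_cases hq : q = p
      · simp [hq]
      · simp [hc q hq]
    have h2 := Finset.card_le_card h1
    have h3 := Finset.card_le_two (a := p) (b := s p)
    rw [Finset.card_univ, Fintype.card_fin] at h2
    omega
  have h1 := congrArg (fun r : Equiv.Perm (Fin n) => r p) (h (Equiv.swap (s p) q))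
  simp only [Equiv.Perm.mul_apply] at h1
  rw [Equiv.swap_apply_of_ne_of_ne (Ne.symm hp) (Ne.symm hq1), Equiv.swap_apply_left] at h1
  exact hq2 h1.symm

/-- facts about the crossing homomorphism -/
private theorem theta_facts (M : CoxeterMatrix S) (T : Set S) {n m : ℕ} {e : Fin m ≃ T}
    {a : Fin m → ℕ} (hF : FoldType M T n e a) (Θ : ArtinGroup M →* Gam n)
    (hΘ : ∀ i, Θ (gen M (e i)) = ⟨E n (a i), sw n (a i)⟩)
    (hΘ' : ∀ s, s ∉ T → Θ (gen M s) = 1) (χ : ArtinGroup M →* Multiplicative ℤ)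
    (hχ : ∀ i, χ (gen M (e i)) = Multiplicative.ofAdd 1) (hχ' : ∀ s, s ∉ T → χ (gen M s) = 1)
    (g : ArtinGroup M) :
    (∀ i, (Θ g).v i i = 0) ∧ tot (Θ g).v = 2 * Multiplicative.toAdd (χ g) := by
  have hE0 : ∀ (k : ℕ) (i : Fin n), E n k i i = 0 := by
    intro k i
    simp only [E]
    rw [if_neg]
    omega
  have hg : g ∈ Subgroup.closure (Set.range (gen M)) := by
    rw [art_closure]
    exact Subgroup.mem_top g
  induction hg using Subgroup.closure_induction with
  | mem x hx =>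
    obtain ⟨s, rfl⟩ := hx
    by_cases hs : s ∈ T
    · obtain ⟨i, hi⟩ := e.surjective ⟨s, hs⟩
      have h1 : ((e i : T) : S) = s := by rw [hi]
      rw [← h1, hΘ i, hχ i]
      exact ⟨fun j => hE0 _ _, by rw [tot_E (hF.lt i)]; rfl⟩
    · rw [hΘ' s hs, hχ' s hs]
      refine ⟨fun j => rfl, ?_⟩
      simp [tot]
  | one =>
    rw [map_one, map_one]
    refine ⟨fun j => rfl, ?_⟩
    simp [tot]
  | mul x y _ _ hx hy =>
    rw [map_mul, map_mul]
    refine ⟨fun j => ?_, ?_⟩
    · simp only [Gam.mul_v, Pi.add_apply, act]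
      rw [hx.1, hy.1, add_zero]
    · rw [Gam.mul_v, tot_add, tot_act, hx.2, hy.2, toAdd_mul]
      ring
  | inv x _ hx =>
    rw [map_inv, map_inv]
    refine ⟨fun j => ?_, ?_⟩
    · simp only [Gam.inv_v, Pi.neg_apply, act]
      rw [hx.1, neg_zero]
    · rw [Gam.inv_v, tot_neg, tot_act, hx.2, toAdd_inv]
      ring

private theorem theta_perm_surj (M : CoxeterMatrix S) (T : Set S) {n m : ℕ} {e : Fin m ≃ T}
    {a : Fin m → ℕ} (hF : FoldType M T n e a) (Θ : ArtinGroup M →* Gam n)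
    (hΘ : ∀ i, Θ (gen M (e i)) = ⟨E n (a i), sw n (a i)⟩) (s : Equiv.Perm (Fin n)) :
    ∃ g, (Θ g).s = s := by
  have hs : s ∈ Subgroup.closure {s : Equiv.Perm (Fin n) | ∃ k, k + 1 < n ∧ s = sw n k} := by
    rw [sw_closure]
    exact Subgroup.mem_top s
  induction hs using Subgroup.closure_induction with
  | mem x hx =>
    obtain ⟨k, hk, rfl⟩ := hx
    obtain ⟨i, hi⟩ := hF.surj k hk
    refine ⟨gen M (e i), ?_⟩
    rw [hΘ i, hi]
  | one => exact ⟨1, by rw [map_one]; rfl⟩
  | mul x y _ _ hx hy =>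
    obtain ⟨g, hg⟩ := hx
    obtain ⟨g', hg'⟩ := hy
    exact ⟨g * g', by rw [map_mul, Gam.mul_s, hg, hg']⟩
  | inv x _ hx =>
    obtain ⟨g, hg⟩ := hx
    exact ⟨g⁻¹, by rw [map_inv, Gam.inv_s, hg]⟩

private theorem gam_pow_ones (n : ℕ) (c : ℤ) (κ : ℕ) :
    (⟨c • ones n, 1⟩ : Gam n) ^ κ = ⟨((κ : ℤ) * c) • ones n, 1⟩ := by
  induction κ with
  | zero =>
    refine Gam.ext ?_ ?_
    · simp
    · simp
  | succ k ih =>
    rw [pow_succ, ih]
    refine Gam.ext ?_ ?_
    · rw [Gam.mul_v]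
      simp only
      rw [act_smul, act_one, ← add_smul]
      congr 1
      push_cast
      ring
    · simp

private theorem gam_ones_central (n : ℕ) (c : ℤ) (x : Gam n) :
    x * ⟨c • ones n, 1⟩ = ⟨c • ones n, 1⟩ * x := by
  refine Gam.ext ?_ ?_
  · rw [Gam.mul_v, Gam.mul_v]
    simp only
    rw [act_smul, act_ones, act_one, add_comm]
  · simp

private theorem gam_zpow_ones (n : ℕ) (c k : ℤ) :
    (⟨c • ones n, 1⟩ : Gam n) ^ k = ⟨(k * c) • ones n, 1⟩ := by
  rcases Int.eq_nat_or_neg k with ⟨j, rfl | rfl⟩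
  · rw [zpow_natCast, gam_pow_ones]
  · rw [zpow_neg, zpow_natCast, gam_pow_ones]
    refine Gam.ext ?_ ?_
    · rw [Gam.inv_v]
      simp only
      rw [act_smul, inv_one, act_one, ← neg_smul]
      congr 1
      ring
    · simp

private theorem arith_five {n : ℕ} (hn : 5 ≤ n) (N N' : ℤ) (hN' : N' = 2 ∨ N' = 4)
    (hN : 2 * N = N' * n * (n - 1)) :
    ∃ κ : ℕ, 1 ≤ κ ∧ Odd (κ : ℤ) ∧ IsCoprime (κ : ℤ) N ∧
      ¬ ((n : ℤ) * (n - 1) ∣ 2 * ((κ : ℤ) - 1)) ∧ ¬ ((n : ℤ) * (n - 1) ∣ 2 * ((κ : ℤ) + 1)) := by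
  have hNval : N = (n : ℤ) * (n - 1) ∨ N = 2 * ((n : ℤ) * (n - 1)) := by
    rcases hN' with h | h
    · left
      rw [h] at hN
      linarith
    · right
      rw [h] at hN
      linarith
  rcases Nat.lt_or_ge 5 n with h6 | h5
  · refine ⟨2 * n - 1, by omega, ?_, ?_, ?_, ?_⟩
    · have : ((2 * n - 1 : ℕ) : ℤ) = 2 * ((n : ℤ) - 1) + 1 := by
        have : 1 ≤ 2 * n := by omega
        push_cast [Nat.cast_sub this]
        ring
      rw [this]
      exact ⟨_, rfl⟩
    · have hk : ((2 * n - 1 : ℕ) : ℤ) = 2 * (n : ℤ) - 1 := by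
        have : 1 ≤ 2 * n := by omega
        push_cast [Nat.cast_sub this]
        ring
      rw [hk]
      have c1 : IsCoprime (2 * (n : ℤ) - 1) (n : ℤ) := ⟨-1, 2, by ring⟩
      have c2 : IsCoprime (2 * (n : ℤ) - 1) ((n : ℤ) - 1) := ⟨1, -2, by ring⟩
      have c3 : IsCoprime (2 * (n : ℤ) - 1) 2 := ⟨-1, (n : ℤ), by ring⟩
      rcases hNval with h | h
      · rw [h]
        exact c1.mul_right c2
      · rw [h]
        exact c3.mul_right (c1.mul_right c2)
    · have hk : ((2 * n - 1 : ℕ) : ℤ) = 2 * (n : ℤ) - 1 := by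
        have : 1 ≤ 2 * n := by omega
        push_cast [Nat.cast_sub this]
        ring
      rw [hk]
      intro hd
      have e : 2 * (2 * (n : ℤ) - 1 - 1) = ((n : ℤ) - 1) * 4 := by ring
      rw [e, mul_comm (n : ℤ)] at hd
      have h7 : (n : ℤ) ∣ 4 := Int.dvd_of_mul_dvd_mul_left (by omega) hd
      have := Int.le_of_dvd (by norm_num) h7
      omega
    · have hk : ((2 * n - 1 : ℕ) : ℤ) = 2 * (n : ℤ) - 1 := by
        have : 1 ≤ 2 * n := by omega
        push_cast [Nat.cast_sub this]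
        ring
      rw [hk]
      intro hd
      have e : 2 * (2 * (n : ℤ) - 1 + 1) = (n : ℤ) * 4 := by ring
      rw [e] at hd
      have h7 : (n : ℤ) - 1 ∣ 4 := Int.dvd_of_mul_dvd_mul_left (by omega) hd
      have := Int.le_of_dvd (by norm_num) h7
      omega
  · have hn5 : n = 5 := by omega
    subst hn5
    refine ⟨3, by norm_num, ⟨1, by norm_num⟩, ?_, by norm_num, by norm_num⟩
    rcases hNval with h | h
    · rw [h]
      exact ⟨7, -1, by norm_num⟩
    · rw [h]
      exact ⟨-13, 1, by norm_num⟩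

/-- the folded case, `n ≥ 5` -/
theorem not_rigid_five [Finite S] (M : CoxeterMatrix S) (T : Set S)
    (hcomm : ∀ s ∈ T, ∀ t ∉ T, M s t = 2)
    (hcen : Subgroup.center (ArtinGroup (restrict M Tᶜ)) = ⊥) {n m : ℕ} (hn : 5 ≤ n)
    {e : Fin m ≃ T} {a : Fin m → ℕ} (hF : FoldType M T n e a) (N' : ℤ) (hN' : N' = 2 ∨ N' = 4)
    (h : ArtinGroup M) (hh : ∀ i, h * gen M (e i) = gen M (e i) * h)
    (hht : h ∈ Subgroup.closure (gen M '' T))
    (hχ : ∀ χ : ArtinGroup M →* Multiplicative ℤ,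
      (∀ i, χ (gen M (e i)) = Multiplicative.ofAdd 1) →
        2 * Multiplicative.toAdd (χ h) = N' * n * (n - 1)) :
    ¬ ProfinitelyRigid (ArtinGroup M) := by
  intro hr
  obtain ⟨Θ, hΘ, hΘ'⟩ := theta_exists M T hcomm hF
  obtain ⟨χ, hχ1, hχ'⟩ := chi_exists M T hcomm hF
  have hh' : ∀ s ∈ T, h * gen M s = gen M s * h := by
    intro s hs
    obtain ⟨i, hi⟩ := e.surjective ⟨s, hs⟩
    have h1 : ((e i : T) : S) = s := by rw [hi]
    rw [← h1]
    exact hh i
  have hcentral : h ∈ Subgroup.center (ArtinGroup M) := central_of_comm M T hcomm h hh' hht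
  have hfacts := theta_facts M T hF Θ hΘ hΘ' χ hχ1 hχ'
  have hsurj := theta_perm_surj M T hF Θ hΘ
  have hcg := Subgroup.mem_center_iff.1 hcentral
  -- the value of `Θ` at `h`
  have hΘh : Θ h = ⟨N' • ones n, 1⟩ := by
    have hs1 : (Θ h).s = 1 := by
      refine perm_center (by omega) _ fun r => ?_
      obtain ⟨g, hg⟩ := hsurj r
      rw [← hg, ← Gam.mul_s, ← Gam.mul_s, ← map_mul, ← map_mul, hcg g]
    obtain ⟨c, hc⟩ := inv_ones (n := n) (by omega) (Θ h).v (hfacts h).1 (by
      intro r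
      obtain ⟨g, hg⟩ := hsurj r
      have h1 : Θ g * Θ h = Θ h * Θ g := by rw [← map_mul, ← map_mul, hcg g]
      have h2 := congrArg Gam.v h1
      rw [Gam.mul_v, Gam.mul_v, hs1, act_one, hg] at h2
      have h3 : act r (Θ h).v + (Θ g).v = (Θ h).v + (Θ g).v := by rw [← h2, add_comm]
      exact add_right_cancel h3)
    have h4 := (hfacts h).2
    rw [hc, tot_smul, tot_ones, hχ χ hχ1] at h4
    have h5 : (c - N') * ((n : ℤ) * (n - 1)) = 0 := by linarith
    have h6 : (n : ℤ) * (n - 1) ≠ 0 := by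
      have : (5 : ℤ) ≤ n := by exact_mod_cast hn
      nlinarith
    have h7 : c = N' := by
      rcases mul_eq_zero.1 h5 with h8 | h8
      · linarith
      · exact absurd h8 h6
    refine Gam.ext ?_ ?_
    · simp only
      rw [hc, h7]
    · exact hs1
  obtain ⟨κ, hκ1, hκodd, hco, hd1, hd2⟩ := arith_five hn _ N' hN' (hχ χ hχ1)
  obtain ⟨φ⟩ := rigid_twist (art_fg M) hr hcentral hκ1 χ _ rfl hco
  -- the scaled crossing homomorphism of the twist
  obtain ⟨F, hFs⟩ := gam_scale (n := n) (κ : ℤ)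
  obtain ⟨Θκ, hΘκ, hΘκz⟩ := tw_lift h κ (F.comp Θ) (⟨N' • ones n, 1⟩ : Gam n)
    (fun g => gam_ones_central n N' _) (by
      rw [MonoidHom.comp_apply, hFs, hΘh, gam_pow_ones]
      refine Gam.ext ?_ rfl
      simp only
      rw [smul_smul])
  set Φ : ArtinGroup M →* Gam n := Θκ.comp φ.symm.toMonoidHom with hΦ
  have hyp : HypFive n a (fun i => gen M (e i)) (Subgroup.closure (gen M '' Tᶜ)) Θ Φ N' (κ : ℤ)
      (φ (twZ h κ)) := by
    refine ⟨hn, fold_of_foldType M T hF, ?_, ?_, hΘ, ?_, hN', hκodd, ?_, ?_, ?_, ?_⟩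
    · intro b hb i
      exact comp_comm M T hcomm b hb _ (e i).2
    · rw [← comp_gen M T]
      congr 2
      ext x
      constructor
      · rintro ⟨i, rfl⟩
        exact ⟨_, (e i).2, rfl⟩
      · rintro ⟨s, hs, rfl⟩
        obtain ⟨i, hi⟩ := e.surjective ⟨s, hs⟩
        refine ⟨i, ?_⟩
        simp only
        rw [hi]
    · intro b hb
      have : Subgroup.closure (gen M '' Tᶜ) ≤ Θ.ker := by
        rw [Subgroup.closure_le]
        rintro _ ⟨s, hs, rfl⟩
        exact hΘ' s hs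
      exact this hb
    · intro x
      constructor
      · rintro ⟨g, rfl⟩
        obtain ⟨g', k, hg'⟩ := tw_surj h κ (φ.symm g)
        refine ⟨g', k, ?_⟩
        rw [hΦ, MonoidHom.comp_apply]
        change Θκ (φ.symm g) = _
        rw [hg', map_mul, map_zpow, hΘκ, hΘκz, MonoidHom.comp_apply, hFs, gam_zpow_ones]
        refine Gam.ext ?_ ?_
        · rw [Gam.mul_v]
          simp only
          rw [act_smul, act_ones]
        · simp
      · rintro ⟨g', k, rfl⟩
        refine ⟨φ (twOf h κ g' * twZ h κ ^ k), ?_⟩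
        rw [hΦ, MonoidHom.comp_apply]
        change Θκ (φ.symm (φ _)) = _
        rw [MulEquiv.symm_apply_apply, map_mul, map_zpow, hΘκ, hΘκz, MonoidHom.comp_apply, hFs,
          gam_zpow_ones]
        refine Gam.ext ?_ ?_
        · rw [Gam.mul_v]
          simp only
          rw [act_smul, act_ones]
        · simp
    · rw [Subgroup.mem_center_iff]
      intro g
      have h1 := tw_z_comm h κ (φ.symm g)
      have h2 := congrArg φ h1
      rw [map_mul, map_mul, MulEquiv.apply_symm_apply] at h2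
      exact h2
    · have h1 : (φ (twZ h κ)) ∈ Subgroup.center (ArtinGroup M) := by
        rw [Subgroup.mem_center_iff]
        intro g
        have h1 := tw_z_comm h κ (φ.symm g)
        have h2 := congrArg φ h1
        rw [map_mul, map_mul, MulEquiv.apply_symm_apply] at h2
        exact h2
      have h2 := comp_center M T hcomm hcen _ h1
      have h3 : gen M '' T = Set.range (fun i => gen M (e i)) := by
        ext x
        constructor
        · rintro ⟨s, hs, rfl⟩
          obtain ⟨i, hi⟩ := e.surjective ⟨s, hs⟩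
          refine ⟨i, ?_⟩
          simp only
          rw [hi]
        · rintro ⟨i, rfl⟩
          exact ⟨_, (e i).2, rfl⟩
      rw [← h3]
      exact h2
    · rw [hΦ, MonoidHom.comp_apply]
      change Θκ (φ.symm (φ _)) = _
      rw [MulEquiv.symm_apply_apply, hΘκz]
  rcases five_main hyp with h1 | h1
  · exact hd1 h1
  · exact hd2 h1

private theorem alt_comm_eq {X : Type} [CommGroup X] (a : X) (m : ℕ) : alt a a m = a ^ m := by
  induction m with
  | zero => simp [alt]
  | succ k ih => rw [alt, ih, pow_succ']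

/-- the exponent sum in the star-shaped case -/
private theorem chi_star (M : CoxeterMatrix S) (T : Set S)
    (hcomm : ∀ s ∈ T, ∀ t ∉ T, M s t = 2) :
    ∃ χ : ArtinGroup M →* Multiplicative ℤ,
      (∀ s ∈ T, χ (gen M s) = Multiplicative.ofAdd 1) ∧ ∀ s, s ∉ T → χ (gen M s) = 1 := by
  classical
  obtain ⟨χ, hχ⟩ := art_lift (X := Multiplicative ℤ) M
    (fun s => if s ∈ T then Multiplicative.ofAdd 1 else 1) (by
      intro s t _ _
      by_cases hs : s ∈ T
      · by_cases ht : t ∈ T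
        · simp only [hs, ht, if_true]
        · rw [hcomm s hs t ht, alt_two, alt_two, mul_comm]
      · by_cases ht : t ∈ T
        · rw [M.symmetric, hcomm t ht s hs, alt_two, alt_two, mul_comm]
        · simp only [hs, ht, if_false])
  refine ⟨χ, fun s hs => ?_, fun s hs => ?_⟩
  · rw [hχ]
    simp only [hs, if_true]
  · rw [hχ]
    simp only [hs, if_false]

private theorem pair_pow (x : Multiplicative ℤ) (κ : ℕ) :
    ((1, x) : Aff × Multiplicative ℤ) ^ κ = (1, x ^ κ) := by
  ext <;> simp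

private theorem pair_zpow (x : Multiplicative ℤ) (k : ℤ) :
    ((1, x) : Aff × Multiplicative ℤ) ^ k = (1, x ^ k) := by
  ext <;> simp

/-- the star-shaped case (types `A 3` and `D 4`) -/
theorem not_rigid_four [Finite S] (M : CoxeterMatrix S) (T : Set S)
    (hcomm : ∀ s ∈ T, ∀ t ∉ T, M s t = 2)
    (hcen : Subgroup.center (ArtinGroup (restrict M Tᶜ)) = ⊥)
    (d l₀ l₁ : S) (hd : d ∈ T) (hl₀ : l₀ ∈ T) (hl₁ : l₁ ∈ T) (h01 : l₀ ≠ l₁) (h0 : l₀ ≠ d)
    (h1 : l₁ ≠ d) (hleaf : ∀ s ∈ T, s ≠ d → M s d = 3)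
    (hleaves : ∀ s ∈ T, ∀ t ∈ T, s ≠ d → t ≠ d → s ≠ t → M s t = 2)
    (N : ℤ) (hN : N = 12 ∨ N = 24) (h : ArtinGroup M)
    (hh : ∀ s ∈ T, h * gen M s = gen M s * h) (hht : h ∈ Subgroup.closure (gen M '' T))
    (hχ : ∀ χ : ArtinGroup M →* Multiplicative ℤ,
      (∀ s ∈ T, χ (gen M s) = Multiplicative.ofAdd 1) → χ h = Multiplicative.ofAdd N) :
    ¬ ProfinitelyRigid (ArtinGroup M) := by
  intro hr
  obtain ⟨Ψ, hΨs, hΨd, hΨt, hΨB⟩ := psi_exists M T hcomm d l₀ l₁ hd hl₀ hl₁ h01 h0 h1 hleaf hleaves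
  obtain ⟨χ, hχ1, hχB⟩ := chi_star M T hcomm
  have hcentral : h ∈ Subgroup.center (ArtinGroup M) := central_of_comm M T hcomm h hh hht
  have hcg := Subgroup.mem_center_iff.1 hcentral
  have hΨh : Ψ h = 1 := by
    refine aff_center _ fun y => ?_
    obtain ⟨g, rfl⟩ := hΨs y
    rw [← map_mul, ← map_mul, hcg g]
  have hco : IsCoprime ((5 : ℕ) : ℤ) N := by
    rcases hN with h2 | h2
    · rw [h2]
      exact ⟨5, -2, by norm_num⟩
    · rw [h2]
      exact ⟨5, -1, by norm_num⟩
  obtain ⟨φ⟩ := rigid_twist (κ := 5) (art_fg M) hr hcentral (by norm_num) χ N (hχ χ hχ1) hco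
  obtain ⟨Ξ, hΞ, hΞz⟩ := tw_lift h 5
    (Ψ.prod ((zpowGroupHom ((5 : ℕ) : ℤ)).comp χ))
    ((1, Multiplicative.ofAdd N) : Aff × Multiplicative ℤ)
    (fun g => by
      refine Prod.ext ?_ ?_
      · simp
      · simp only [Prod.snd_mul]
        exact mul_comm _ _) (by
      rw [pair_pow]
      refine Prod.ext ?_ ?_
      · simpa using hΨh
      · simp only [MonoidHom.prod_apply, MonoidHom.comp_apply, zpowGroupHom_apply]
        rw [hχ χ hχ1]
        rfl)
  set Φ : ArtinGroup M →* Aff × Multiplicative ℤ := Ξ.comp φ.symm.toMonoidHom with hΦ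
  have hyc : (φ (twZ h 5)) ∈ Subgroup.center (ArtinGroup M) := by
    rw [Subgroup.mem_center_iff]
    intro g
    have h1 := tw_z_comm h 5 (φ.symm g)
    have h2 := congrArg φ h1
    rw [map_mul, map_mul, MulEquiv.apply_symm_apply] at h2
    exact h2
  have hset : Set.range (fun s : {s // s ∈ T ∧ s ≠ d} => gen M s.1) ∪ {gen M d} = gen M '' T := by
    ext x
    constructor
    · rintro (⟨s, rfl⟩ | hx)
      · exact ⟨_, s.2.1, rfl⟩
      · rw [Set.mem_singleton_iff.1 hx]
        exact ⟨_, hd, rfl⟩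
    · rintro ⟨s, hs, rfl⟩
      by_cases hsd : s = d
      · right
        rw [hsd]
        rfl
      · left
        exact ⟨⟨s, hs, hsd⟩, rfl⟩
  have hyp : HypFour (fun s : {s // s ∈ T ∧ s ≠ d} => gen M s.1) (gen M d)
      (Subgroup.closure (gen M '' Tᶜ)) Ψ χ N ((5 : ℕ) : ℤ) Φ (φ (twZ h 5)) := by
    refine ⟨⟨⟨l₀, hl₀, h0⟩⟩, ?_, ?_, ?_, ?_, ?_, hΨs, ?_, hΨd, ?_, ?_, hχ1 _ hd, ?_, hN, ?_, ?_,
      hyc, ?_, ?_⟩
    · intro i j
      by_cases hij : i.1 = j.1
      · rw [hij]
      · have h2 := art_rel M hij (by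
          rw [hleaves _ i.2.1 _ j.2.1 i.2.2 j.2.2 hij]
          norm_num)
        rw [hleaves _ i.2.1 _ j.2.1 i.2.2 j.2.2 hij, alt_two, alt_two] at h2
        exact h2
    · intro i
      have h2 := art_rel M i.2.2 (by
          rw [hleaf _ i.2.1 i.2.2]
          norm_num)
      rw [hleaf _ i.2.1 i.2.2, alt_three, alt_three] at h2
      exact h2
    · intro b hb i
      exact comp_comm M T hcomm b hb _ i.2.1
    · intro b hb
      exact comp_comm M T hcomm b hb _ hd
    · rw [hset]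
      exact comp_gen M T
    · intro i
      exact hΨt _ i.2.1 i.2.2
    · intro b hb
      have : Subgroup.closure (gen M '' Tᶜ) ≤ Ψ.ker := by
        rw [Subgroup.closure_le]
        rintro _ ⟨s, hs, rfl⟩
        exact hΨB s hs
      exact this hb
    · intro i
      exact hχ1 _ i.2.1
    · intro b hb
      have : Subgroup.closure (gen M '' Tᶜ) ≤ χ.ker := by
        rw [Subgroup.closure_le]
        rintro _ ⟨s, hs, rfl⟩
        exact hχB s hs
      exact this hb
    · exact ⟨2, by norm_num⟩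
    · intro x
      constructor
      · rintro ⟨g, rfl⟩
        obtain ⟨g', k, hg'⟩ := tw_surj h 5 (φ.symm g)
        refine ⟨g', k, ?_⟩
        rw [hΦ, MonoidHom.comp_apply]
        change Ξ (φ.symm g) = _
        rw [hg', map_mul, map_zpow, hΞ, hΞz, pair_zpow]
        refine Prod.ext ?_ ?_
        · simp
        · simp only [Prod.snd_mul, MonoidHom.prod_apply, MonoidHom.comp_apply, zpowGroupHom_apply]
          congr 1
      · rintro ⟨g', k, rfl⟩
        refine ⟨φ (twOf h 5 g' * twZ h 5 ^ k), ?_⟩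
        rw [hΦ, MonoidHom.comp_apply]
        change Ξ (φ.symm (φ _)) = _
        rw [MulEquiv.symm_apply_apply, map_mul, map_zpow, hΞ, hΞz, pair_zpow]
        refine Prod.ext ?_ ?_
        · simp
        · simp only [Prod.snd_mul, MonoidHom.prod_apply, MonoidHom.comp_apply, zpowGroupHom_apply]
          congr 1
    · rw [hset]
      exact comp_center M T hcomm hcen _ hyc
    · rw [hΦ, MonoidHom.comp_apply]
      change Ξ (φ.symm (φ _)) = _
      rw [MulEquiv.symm_apply_apply, hΞz]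
  rcases four_main hyp with h1 | h1
  · norm_num at h1
  · norm_num at h1

/-- the central element in type `A` -/
private theorem central_A (M : CoxeterMatrix S) (T : Set S) {m : ℕ} (hm : 1 ≤ m) (e : Fin m ≃ T)
    (he : ∀ i j, M (e i) (e j) = CoxeterMatrix.A m i j) :
    ∃ h ∈ Subgroup.closure (gen M '' T), (∀ s ∈ T, h * gen M s = gen M s * h) ∧
      ∀ χ : ArtinGroup M →* Multiplicative ℤ,
        (∀ s ∈ T, χ (gen M s) = Multiplicative.ofAdd 1) →
          χ h = Multiplicative.ofAdd ((m : ℤ) * (m + 1)) := by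
  have hF := fold_of_foldType M T (foldType_A M T hm e he)
  set x : ℕ → ArtinGroup M := fun k => if hk : k < m then gen M (e ⟨k, hk⟩) else 1 with hx
  have hxk : ∀ k (hk : k < m), x k = gen M (e ⟨k, hk⟩) := by
    intro k hk
    simp only [hx]
    rw [dif_pos hk]
  have hchain : Chain m x := by
    constructor
    · intro i j hij hj
      rw [hxk i (by omega), hxk j hj]
      exact hF.comm ⟨i, by omega⟩ ⟨j, hj⟩ (by simp only; omega) (by simp only; omega)
    · intro i hi
      rw [hxk i (by omega), hxk (i + 1) hi]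
      exact hF.braid ⟨i, by omega⟩ ⟨i + 1, hi⟩ rfl
  obtain ⟨h, hh, hc, hχ⟩ := cen_chain hm hchain
  have hT : ∀ s ∈ T, ∃ k, k < m ∧ x k = gen M s := by
    intro s hs
    obtain ⟨i, hi⟩ := e.surjective ⟨s, hs⟩
    refine ⟨i.1, i.2, ?_⟩
    rw [hxk i.1 i.2]
    have h1 : ((e i : T) : S) = s := by rw [hi]
    rw [← h1]
  refine ⟨h, ?_, ?_, ?_⟩
  · refine (Subgroup.closure_mono ?_) hh
    rintro _ ⟨k, hk, rfl⟩
    rw [hxk k hk]
    exact ⟨_, (e _).2, rfl⟩
  · intro s hs
    obtain ⟨k, hk, hks⟩ := hT s hs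
    rw [← hks]
    exact hc k hk
  · intro χ hχ1
    refine hχ χ fun k hk => ?_
    rw [hxk k hk]
    exact hχ1 _ (e _).2

/-- the central element in type `D` -/
private theorem central_D (M : CoxeterMatrix S) (T : Set S) {n : ℕ} (hn : 4 ≤ n) (e : Fin n ≃ T)
    (he : ∀ i j, M (e i) (e j) = typeD n i j) :
    ∃ h ∈ Subgroup.closure (gen M '' T), (∀ s ∈ T, h * gen M s = gen M s * h) ∧
      ∀ χ : ArtinGroup M →* Multiplicative ℤ,
        (∀ s ∈ T, χ (gen M s) = Multiplicative.ofAdd 1) →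
          χ h = Multiplicative.ofAdd (2 * ((n : ℤ) - 1) * n) := by
  have hF := fold_of_foldType M T (foldType_D M T hn e he)
  set x : ℕ → ArtinGroup M := fun k => if hk : k < n then gen M (e ⟨k, hk⟩) else 1 with hx
  have hxk : ∀ k (hk : k < n), x k = gen M (e ⟨k, hk⟩) := by
    intro k hk
    simp only [hx]
    rw [dif_pos hk]
  have hchain : Chain (n - 1) x := by
    constructor
    · intro i j hij hj
      rw [hxk i (by omega), hxk j (by omega)]
      exact hF.comm ⟨i, by omega⟩ ⟨j, by omega⟩ (by simp only; omega) (by simp only; omega)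
    · intro i hi
      rw [hxk i (by omega), hxk (i + 1) (by omega)]
      exact hF.braid ⟨i, by omega⟩ ⟨i + 1, by omega⟩ (by simp only; omega)
  set b : ArtinGroup M := x (n - 1) with hb
  have hb1 : ∀ k, k < n - 1 → k ≠ (n - 1) - 2 → b * x k = x k * b := by
    intro k hk hk2
    rw [hb, hxk (n - 1) (by omega), hxk k (by omega)]
    exact hF.comm ⟨n - 1, by omega⟩ ⟨k, by omega⟩ (by simp only; omega) (by simp only; omega)
  have hb2 : b * x ((n - 1) - 2) * b = x ((n - 1) - 2) * b * x ((n - 1) - 2) := by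
    rw [hb, hxk (n - 1) (by omega), hxk ((n - 1) - 2) (by omega)]
    exact (hF.braid ⟨(n - 1) - 2, by omega⟩ ⟨n - 1, by omega⟩ (by simp only; omega)).symm
  obtain ⟨h, hh, hc, hcb, hχ⟩ := cen_D (by omega : 2 ≤ n - 1) hchain hb1 hb2
  have hT : ∀ s ∈ T, ∃ k, k < n ∧ x k = gen M s := by
    intro s hs
    obtain ⟨i, hi⟩ := e.surjective ⟨s, hs⟩
    refine ⟨i.1, i.2, ?_⟩
    rw [hxk i.1 i.2]
    have h1 : ((e i : T) : S) = s := by rw [hi]
    rw [← h1]
  refine ⟨h, ?_, ?_, ?_⟩
  · refine (Subgroup.closure_mono ?_) hh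
    rintro _ (⟨k, hk, rfl⟩ | hx)
    · have hk' : k < n - 1 := hk
      rw [hxk k (by omega)]
      exact ⟨_, (e _).2, rfl⟩
    · rw [Set.mem_singleton_iff.1 hx, hb, hxk (n - 1) (by omega)]
      exact ⟨_, (e _).2, rfl⟩
  · intro s hs
    obtain ⟨k, hk, hks⟩ := hT s hs
    rw [← hks]
    rcases Nat.lt_or_ge k (n - 1) with h1 | h1
    · exact hc k h1
    · have h2 : k = n - 1 := by omega
      rw [h2]
      exact hcb
  · intro χ hχ1
    have h1 := hχ χ (fun k hk => by
      rw [hxk k (by omega)]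
      exact hχ1 _ (e _).2) (by
      rw [hb, hxk (n - 1) (by omega)]
      exact hχ1 _ (e _).2)
    rw [h1]
    congr 1
    have : ((n - 1 : ℕ) : ℤ) = (n : ℤ) - 1 := by
      have : 1 ≤ n := by omega
      push_cast [Nat.cast_sub this]
      ring
    rw [this]
    ring

/-- Main theorem. -/
theorem main [Finite S] (M : CoxeterMatrix S) (T : Set S)
    (hT : (∃ n, 3 ≤ n ∧ HasType M T (CoxeterMatrix.A n)) ∨ (∃ n, 4 ≤ n ∧ HasType M T (typeD n)))
    (hcomm : ∀ s ∈ T, ∀ t ∉ T, M s t = 2)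
    (hcen : Subgroup.center (ArtinGroup (restrict M Tᶜ)) = ⊥) :
    ¬ ProfinitelyRigid (ArtinGroup M) := by
  have star : ∀ {m : ℕ} (e : Fin m ≃ T) (c : Fin m),
      (∀ i, i ≠ c → M (e i) (e c) = 3) → (∀ i j, i ≠ c → j ≠ c → i ≠ j → M (e i) (e j) = 2) →
      (∀ s ∈ T, s ≠ (e c : S) → M s (e c) = 3) ∧
      (∀ s ∈ T, ∀ t ∈ T, s ≠ (e c : S) → t ≠ (e c : S) → s ≠ t → M s t = 2) := by
    intro m e c h1 h2
    constructor
    · intro s hs hsc
      obtain ⟨i, hi⟩ := e.surjective ⟨s, hs⟩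
      have h3 : ((e i : T) : S) = s := by rw [hi]
      rw [← h3] at hsc ⊢
      exact h1 i fun hic => hsc (by rw [hic])
    · intro s hs t ht hsc htc hst
      obtain ⟨i, hi⟩ := e.surjective ⟨s, hs⟩
      obtain ⟨j, hj⟩ := e.surjective ⟨t, ht⟩
      have h3 : ((e i : T) : S) = s := by rw [hi]
      have h4 : ((e j : T) : S) = t := by rw [hj]
      rw [← h3] at hsc hst ⊢
      rw [← h4] at htc hst ⊢
      exact h2 i j (fun hic => hsc (by rw [hic])) (fun hjc => htc (by rw [hjc]))
        (fun hij => hst (by rw [hij]))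
  have einj : ∀ {m : ℕ} (e : Fin m ≃ T) {i j : Fin m}, i ≠ j → ((e i : T) : S) ≠ (e j : T) := by
    intro m e i j hij h
    exact hij (e.injective (Subtype.ext h))
  rcases hT with ⟨n, hn, e, he⟩ | ⟨n, hn, e, he⟩
  · obtain ⟨h, hht, hh, hχ⟩ := central_A M T (by omega) e he
    rcases Nat.lt_or_ge 3 n with h4 | h3
    · refine not_rigid_five M T hcomm hcen (n := n + 1) (by omega)
        (foldType_A M T (by omega) e he) 2 (Or.inl rfl) h (fun i => hh _ (e i).2) hht ?_
      intro χ hχ1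
      rw [hχ χ (fun s hs => by
        obtain ⟨i, hi⟩ := e.surjective ⟨s, hs⟩
        have h3 : ((e i : T) : S) = s := by rw [hi]
        rw [← h3]
        exact hχ1 i)]
      simp only [toAdd_ofAdd]
      push_cast
      ring
    · have hn3 : n = 3 := by omega
      subst hn3
      obtain ⟨s1, s2⟩ := star e 1 (by
        intro i hi
        rw [he]
        fin_cases i <;> simp_all [CoxeterMatrix.A]) (by
        intro i j hi hj hij
        rw [he]
        fin_cases i <;> fin_cases j <;> simp_all [CoxeterMatrix.A])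
      refine not_rigid_four M T hcomm hcen (e 1) (e 0) (e 2) (e 1).2 (e 0).2 (e 2).2
        (einj e (by decide)) (einj e (by decide)) (einj e (by decide)) s1 s2 12 (Or.inl rfl) h hh
        hht ?_
      intro χ hχ1
      rw [hχ χ hχ1]
      norm_num
  · obtain ⟨h, hht, hh, hχ⟩ := central_D M T hn e he
    rcases Nat.lt_or_ge 4 n with h4 | h3
    · refine not_rigid_five M T hcomm hcen (n := n) (by omega)
        (foldType_D M T hn e he) 4 (Or.inr rfl) h (fun i => hh _ (e i).2) hht ?_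
      intro χ hχ1
      rw [hχ χ (fun s hs => by
        obtain ⟨i, hi⟩ := e.surjective ⟨s, hs⟩
        have h3 : ((e i : T) : S) = s := by rw [hi]
        rw [← h3]
        exact hχ1 i)]
      simp only [toAdd_ofAdd]
      ring
    · have hn4 : n = 4 := by omega
      subst hn4
      obtain ⟨s1, s2⟩ := star e 1 (by
        intro i hi
        rw [he]
        fin_cases i <;> simp_all [typeD, adjD]) (by
        intro i j hi hj hij
        rw [he]
        fin_cases i <;> fin_cases j <;> simp_all [typeD, adjD])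
      refine not_rigid_four M T hcomm hcen (e 1) (e 0) (e 2) (e 1).2 (e 0).2 (e 2).2
        (einj e (by decide)) (einj e (by decide)) (einj e (by decide)) s1 s2 24 (Or.inr rfl) h hh
        hht ?_
      intro χ hχ1
      rw [hχ χ hχ1]
      norm_num

end ProfArtin
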