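import Pool.Agent.Work.MP_f6e909_al.FiveAux

/-! # Main computation: the standard case -/

namespace ProfArtin

variable {ι G : Type} [Group G] {n : ℕ} {a : ι → ℕ} {t : ι → G} {B : Subgroup G}
  {Θ Φ : G →* Gam n} {N' κ : ℤ} {y : G}

theorem act_apply' (s : Equiv.Perm (Fin n)) (v : Fin n → Fin n → ℤ) (i j : Fin n) :
    act s v i j = v (s.symm i) (s.symm j) := rfl

/-- in the standard case the two projections to the symmetric group agree -/
theorem five_same (H : HypFive n a t B Θ Φ N' κ y)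
    (hst : ∀ i, (Φ (t i)).s = sw n (a i)) (hB : ∀ b ∈ B, (Φ b).s = 1) (g : G) :
    (Φ g).s = (Θ g).s := by
  have hg : g ∈ Subgroup.closure (Set.range t) ⊔ B := by rw [H.hgen]; trivial
  have hle : Subgroup.closure (Set.range t) ⊔ B ≤
      ((projS n).comp Φ).eqLocus ((projS n).comp Θ) := by
    refine sup_le ?_ ?_
    · rw [Subgroup.closure_le]
      rintro _ ⟨i, rfl⟩
      show (Φ (t i)).s = (Θ (t i)).s
      rw [hst, H.hΘt]
    · intro b hb
      show (Φ b).s = (Θ b).s
      rw [hB b hb, H.hΘB b hb]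
      rfl
  exact hle hg

/-- in the standard case `Φ (t i * t i)` for `a i = 0` is `⟨tri n A B C, 1⟩` -/
theorem five_W (H : HypFive n a t B Θ Φ N' κ y) (hst : ∀ i, (Φ (t i)).s = sw n (a i))
    {i : ι} (hi : a i = 0) :
    ∃ A B' C : ℤ, Φ (t i * t i) = ⟨tri n A B' C, 1⟩ ∧ Even A ∧
      (∃ c, B' - C = 2 * κ * c) ∧ 2 * tot (Φ (t i)).v = tot (tri n A B' C) := by
  have hn := H.hn
  have hsw : ∀ k, k + 1 < n → sw n k * sw n k = 1 := by
    intro k hk
    unfold sw
    rw [dif_pos hk]
    exact Equiv.swap_mul_self _ _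
  have hs0 : (Φ (t i)).s = sw n 0 := by rw [hst, hi]
  have hWs : (Φ (t i * t i)).s = 1 := by
    rw [map_mul, Gam.mul_s, hs0, hsw 0 (by omega)]
  have hWv : (Φ (t i * t i)).v = (Φ (t i)).v + act (sw n 0) (Φ (t i)).v := by
    rw [map_mul, Gam.mul_v, hs0]
  have hsym := phi_symm H (t i * t i)
  have hcomm0 : act (sw n 0) (Φ (t i * t i)).v = (Φ (t i * t i)).v := by
    rw [← hs0]
    refine gam_comm_inv _ _ hWs ?_
    rw [← map_mul, ← map_mul]
    congr 1
    group
  have hcommk : ∀ k, 2 ≤ k → k + 1 < n →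
      act (sw n k) (Φ (t i * t i)).v = (Φ (t i * t i)).v := by
    intro k hk1 hk2
    obtain ⟨j, hj⟩ := H.hF.surj k hk2
    have c := H.hF.comm j i (by omega) (by omega)
    have hsj : (Φ (t j)).s = sw n k := by rw [hst, hj]
    rw [← hsj]
    refine gam_comm_inv _ _ hWs ?_
    rw [← map_mul, ← map_mul]
    congr 1
    calc t j * (t i * t i) = (t j * t i) * t i := by group
      _ = (t i * t j) * t i := by rw [c]
      _ = t i * (t j * t i) := by group
      _ = t i * (t i * t j) := by rw [c]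
      _ = t i * t i * t j := by group
  obtain ⟨A, B', C, hABC⟩ := tri_of_inv (by omega) _ hsym.1 hsym.2 hcomm0 hcommk
  refine ⟨A, B', C, Gam.ext hABC hWs, ?_, ?_, ?_⟩
  · -- parity of `A`
    have e1 : (Φ (t i * t i)).v ⟨0, by omega⟩ ⟨1, by omega⟩ = A := by
      rw [hABC]
      simp [tri]
    have e2 : (sw n 0).symm (⟨0, by omega⟩ : Fin n) = ⟨1, by omega⟩ := by
      unfold sw
      rw [dif_pos (by omega), Equiv.symm_swap]
      exact Equiv.swap_apply_left _ _
    have e3 : (sw n 0).symm (⟨1, by omega⟩ : Fin n) = ⟨0, by omega⟩ := by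
      unfold sw
      rw [dif_pos (by omega), Equiv.symm_swap]
      exact Equiv.swap_apply_right _ _
    rw [hWv] at e1
    simp only [Pi.add_apply] at e1
    rw [act_apply', e2, e3, ← (phi_symm H (t i)).2] at e1
    exact ⟨_, e1.symm⟩
  · -- divisibility of `B' - C`
    have hr : Φ (t i * t i) ∈ Φ.range := ⟨_, rfl⟩
    rw [H.hrange] at hr
    obtain ⟨g, k, hg⟩ := hr
    have hgs : (Θ g).s = 1 := by
      have := congrArg Gam.s hg
      rw [hWs] at this
      exact this.symm
    obtain ⟨w, hw⟩ := theta_even H g hgs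
    have hv : (Φ (t i * t i)).v = κ • (Θ g).v + (k * N') • ones n := congrArg Gam.v hg
    rw [hABC, hw] at hv
    have e1 := congrFun (congrFun hv ⟨0, by omega⟩) ⟨2, by omega⟩
    have e2 := congrFun (congrFun hv ⟨2, by omega⟩) ⟨3, by omega⟩
    simp [tri, ones] at e1 e2
    exact ⟨w ⟨0, by omega⟩ ⟨2, by omega⟩ - w ⟨2, by omega⟩ ⟨3, by omega⟩, by
      rw [e1, e2]; ring⟩
  · rw [← hABC, hWv, tot_add, tot_act]
    ring

/-- In the standard case every functional `f` which is additive and homogeneous, kills `ones`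
and satisfies `f (act σ (tri n A B C)) = α * f (act σ (E n 0))` for all `σ`, satisfies
`2 * f (Φ g).v = α * f (Θ g).v` for all `g` with trivial permutation.
(Induction over the normal closure of `ker_fold`; for `t i * (t j)⁻¹` with `a i = a j`, `i ≠ j`,
one shows `(Φ (t i * (t j)⁻¹)).v = 0` with the element `d = t i * t j * t k * t i * t j * t k`,
`a k = n - 3`, which exchanges `t i` and `t j` and has trivial permutation; for `b ∈ B`,
`(Φ b).v` is invariant under all permutations, hence a multiple of `ones`.) -/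
theorem five_functional (H : HypFive n a t B Θ Φ N' κ y)
    (hst : ∀ i, (Φ (t i)).s = sw n (a i)) (hB : ∀ b ∈ B, (Φ b).s = 1)
    {i : ι} (hi : a i = 0) {A B' C : ℤ} (hW : Φ (t i * t i) = ⟨tri n A B' C, 1⟩)
    (f : (Fin n → Fin n → ℤ) → ℤ) (hadd : ∀ v w, f (v + w) = f v + f w)
    (hsmul : ∀ (c : ℤ) v, f (c • v) = c * f v) (hones : f (ones n) = 0) (α : ℤ)
    (hα : ∀ σ, f (act σ (tri n A B' C)) = α * f (act σ (E n 0))) (g : G)
    (hg : (Θ g).s = 1) :
    (Φ g).s = 1 ∧ 2 * f (Φ g).v = α * f (Θ g).v := by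
  classical
  have hn := H.hn
  have hsame := five_same H hst hB
  have hsw : ∀ k, k + 1 < n → sw n k * sw n k = 1 := by
    intro k hk
    unfold sw
    rw [dif_pos hk]
    exact Equiv.swap_mul_self _ _
  have hf0 : f 0 = 0 := by
    have := hsmul 0 0
    simpa using this
  have hfneg : ∀ v, f (-v) = -f v := by
    intro v
    have := hsmul (-1) v
    simpa using this
  -- the subgroup
  let P : Subgroup G :=
    { carrier := {g | (Φ g).s = 1 ∧ (Θ g).s = 1 ∧
        ∀ σ, 2 * f (act σ (Φ g).v) = α * f (act σ (Θ g).v)}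
      mul_mem' := by
        rintro x z ⟨h1, h2, h3⟩ ⟨k1, k2, k3⟩
        refine ⟨by rw [map_mul, Gam.mul_s, h1, k1, one_mul],
          by rw [map_mul, Gam.mul_s, h2, k2, one_mul], ?_⟩
        intro σ
        rw [map_mul, map_mul, Gam.mul_v, Gam.mul_v, h1, h2, act_one, act_one, act_add, act_add,
          hadd, hadd]
        linear_combination h3 σ + k3 σ
      one_mem' := by
        refine ⟨by rw [map_one]; rfl, by rw [map_one]; rfl, ?_⟩
        intro σ
        rw [map_one, map_one, Gam.one_v, act_zero', hf0]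
        ring
      inv_mem' := by
        rintro x ⟨h1, h2, h3⟩
        refine ⟨by rw [map_inv, Gam.inv_s, h1, inv_one],
          by rw [map_inv, Gam.inv_s, h2, inv_one], ?_⟩
        intro σ
        rw [map_inv, map_inv, Gam.inv_v, Gam.inv_v, h1, h2, inv_one, act_one, act_one,
          act_neg, act_neg, hfneg, hfneg]
        linear_combination -(h3 σ) }
  have hPconj : ∀ x ∈ P, ∀ h : G, h * x * h⁻¹ ∈ P := by
    rintro x ⟨h1, h2, h3⟩ h
    refine ⟨?_, ?_, ?_⟩
    · rw [map_mul, map_mul, map_inv]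
      exact (gam_conj _ _ h1).2
    · rw [map_mul, map_mul, map_inv]
      exact (gam_conj _ _ h2).2
    · intro σ
      rw [map_mul, map_mul, map_inv, map_mul, map_mul, map_inv, (gam_conj _ _ h1).1,
        (gam_conj _ _ h2).1, hsame h, ← act_mul, ← act_mul]
      exact h3 _
  have hPn : P.Normal := ⟨hPconj⟩
  have hle : Subgroup.normalClosure ({x | ∃ i, x = t i * t i} ∪
      {x | ∃ i j, a i = a j ∧ x = t i * (t j)⁻¹} ∪ (B : Set G)) ≤ P := by
    refine Subgroup.normalClosure_le_normal ?_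
    rintro x ((⟨j, rfl⟩ | ⟨j, j', hjj, rfl⟩) | hb)
    · -- squares
      obtain ⟨h, hh⟩ := fold_conj H.hF (fun j hj => five_zero_unique H hi hj) (a j) j rfl
      have hb : t i * t i ∈ P := by
        refine ⟨by rw [hW], ?_, ?_⟩
        · rw [map_mul, H.hΘt, hi, gam_sq (by omega)]
        · intro σ
          rw [hW, map_mul, H.hΘt, hi, gam_sq (by omega)]
          show 2 * f (act σ (tri n A B' C)) = α * f (act σ ((2 : ℤ) • E n 0))
          rw [hα, act_smul, hsmul]
          ring
      have : t j * t j = h * (t i * t i) * h⁻¹ := by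
        rw [hh]; group
      show t j * t j ∈ P
      rw [this]
      exact hPconj _ hb h
    · -- quotients
      have e1 : Φ (t j) = Φ (t j') := five_fold_eq H
        (fun l => by rw [hst, hsw _ (H.hF.lt l)]) (fun l l' hll => by rw [hst, hst, hll]) hjj
      have e2 : Θ (t j) = Θ (t j') := by rw [H.hΘt, H.hΘt, hjj]
      have e3 : Φ (t j * (t j')⁻¹) = 1 := by rw [map_mul, map_inv, e1, mul_inv_cancel]
      have e4 : Θ (t j * (t j')⁻¹) = 1 := by rw [map_mul, map_inv, e2, mul_inv_cancel]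
      refine ⟨by rw [e3]; rfl, by rw [e4]; rfl, ?_⟩
      intro σ
      rw [e3, e4, Gam.one_v, act_zero', hf0]
      ring
    · obtain ⟨c, hc⟩ := five_B_ones H hB hb
      refine ⟨hB x hb, by rw [H.hΘB x hb]; rfl, ?_⟩
      intro σ
      rw [hc, H.hΘB x hb, Gam.one_v, act_zero', hf0, act_smul, act_ones, hsmul, hones]
      ring
  have hmem : g ∈ P := by
    refine hle (ker_fold H.hF B H.hgen ((projS n).comp Θ) ?_ ?_ g hg)
    · intro j
      show (Θ (t j)).s = sw n (a j)
      rw [H.hΘt]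
    · intro b hb
      show (Θ b).s = 1
      rw [H.hΘB b hb]
      rfl
  obtain ⟨h1, h2, h3⟩ := hmem
  refine ⟨h1, ?_⟩
  have := h3 1
  rwa [act_one, act_one] at this

/-- In the situation of `five_functional`, if `f (E n 0) = 1` then `α = ± 2 κ`, provided that
`κ ≠ 0`. (There is `g` with `Φ g = ⟨(2 * κ) • E n 0, 1⟩`, and `f (Φ g').v ∈ 2 κ ℤ` for all `g'`
with trivial permutation.) -/
theorem five_alpha (H : HypFive n a t B Θ Φ N' κ y)
    (hst : ∀ i, (Φ (t i)).s = sw n (a i)) (hB : ∀ b ∈ B, (Φ b).s = 1)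
    {i : ι} (hi : a i = 0) {A B' C : ℤ} (hW : Φ (t i * t i) = ⟨tri n A B' C, 1⟩)
    (f : (Fin n → Fin n → ℤ) → ℤ) (hadd : ∀ v w, f (v + w) = f v + f w)
    (hsmul : ∀ (c : ℤ) v, f (c • v) = c * f v) (hones : f (ones n) = 0) (α : ℤ)
    (hα : ∀ σ, f (act σ (tri n A B' C)) = α * f (act σ (E n 0))) (hE : f (E n 0) = 1) :
    α = 2 * κ ∨ α = -(2 * κ) := by
  have hn := H.hn
  have hsame := five_same H hst hB
  -- `α ∣ 2 κ`
  have d1 : α ∣ 2 * κ := by
    have hx : (⟨(2 * κ) • E n 0, 1⟩ : Gam n) ∈ Φ.range := by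
      rw [H.hrange]
      refine ⟨t i * t i, 0, ?_⟩
      rw [map_mul, H.hΘt, hi, gam_sq (by omega)]
      refine Gam.ext ?_ rfl
      show (2 * κ) • E n 0 = κ • ((2 : ℤ) • E n 0) + (0 * N') • ones n
      rw [zero_mul, zero_smul, add_zero, smul_smul, mul_comm]
    obtain ⟨g, hg⟩ := hx
    have hgs : (Θ g).s = 1 := by rw [← hsame, hg]
    obtain ⟨w, hw⟩ := theta_even H g hgs
    have h := (five_functional H hst hB hi hW f hadd hsmul hones α hα g hgs).2
    rw [hg, hw] at h
    change 2 * f ((2 * κ) • E n 0) = α * f ((2 : ℤ) • w) at h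
    rw [hsmul, hsmul, hE] at h
    exact ⟨f w, by linarith⟩
  -- `2 κ ∣ α`
  have d2 : 2 * κ ∣ α := by
    have hr : Φ (t i * t i) ∈ Φ.range := ⟨_, rfl⟩
    rw [H.hrange] at hr
    obtain ⟨g, k, hg⟩ := hr
    have hWs : (Φ (t i * t i)).s = 1 := by rw [hW]
    have hgs : (Θ g).s = 1 := by
      have := congrArg Gam.s hg
      rw [hWs] at this
      exact this.symm
    obtain ⟨w, hw⟩ := theta_even H g hgs
    have hv : (Φ (t i * t i)).v = κ • (Θ g).v + (k * N') • ones n := congrArg Gam.v hg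
    have h1 : f (Φ (t i * t i)).v = α := by
      rw [hW]
      have := hα 1
      rw [act_one, act_one, hE] at this
      linarith
    rw [hv, hadd, hsmul, hsmul, hones, hw, hsmul] at h1
    exact ⟨f w, by linarith⟩
  have h3 := Int.natAbs_dvd_natAbs.2 d1
  have h4 := Int.natAbs_dvd_natAbs.2 d2
  have h5 := Nat.dvd_antisymm h3 h4
  exact Int.natAbs_eq_natAbs_iff.1 h5

/-- conclusion in the standard case -/
theorem five_standard (H : HypFive n a t B Θ Φ N' κ y)
    (hst : ∀ i, (Φ (t i)).s = sw n (a i)) (hB : ∀ b ∈ B, (Φ b).s = 1) :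
    ((n : ℤ) * (n - 1) ∣ 2 * (κ - 1)) ∨ ((n : ℤ) * (n - 1) ∣ 2 * (κ + 1)) := by
  have hn := H.hn
  obtain ⟨i, hi⟩ := H.hF.surj 0 (by omega)
  obtain ⟨A, B', C, hW, hA, ⟨c, hc⟩, htot⟩ := five_W H hst hi
  have hκ : κ ≠ 0 := by
    rintro rfl
    have := H.hκ
    simp at this
  have aD := five_alpha H hst hB hi hW
    (fD (⟨0, by omega⟩ : Fin n) ⟨2, by omega⟩) (fD_add _ _) (fun c v => fD_smul _ _ c v)
    (fD_ones _ _) (A + ((n : ℤ) - 4) * B' - ((n : ℤ) - 3) * C)
    (fun σ => fD_tri (by omega) A B' C σ _ _) (fD_E (by omega))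
  have aF := five_alpha H hst hB hi hW
    (fF (⟨0, by omega⟩ : Fin n) ⟨1, by omega⟩ ⟨2, by omega⟩ ⟨3, by omega⟩)
    (fF_add _ _ _ _) (fun c v => fF_smul _ _ _ _ c v)
    (fF_ones (by simp) (by simp) (by simp) (by simp)) (A - 2 * B' + C)
    (fun σ => fF_tri (by omega) A B' C σ (by simp) (by simp) (by simp) (by simp) (by simp)
      (by simp)) (fF_E (by omega))
  have hdiff : (A + ((n : ℤ) - 4) * B' - ((n : ℤ) - 3) * C) - (A - 2 * B' + C) =
      2 * κ * (((n : ℤ) - 2) * c) := by
    have : (A + ((n : ℤ) - 4) * B' - ((n : ℤ) - 3) * C) - (A - 2 * B' + C) =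
      ((n : ℤ) - 2) * (B' - C) := by ring
    rw [this, hc]
    ring
  have hnc : ((n : ℤ) - 2) * c = 0 ∨ ((n : ℤ) - 2) * c = 2 ∨ ((n : ℤ) - 2) * c = -2 := by
    have h2κ : 2 * κ ≠ 0 := by
      intro h; apply hκ; linarith
    rcases aD with h | h <;> rcases aF with h' | h' <;> rw [h, h'] at hdiff
    · left
      apply mul_left_cancel₀ h2κ
      linarith
    · right; left
      apply mul_left_cancel₀ h2κ
      linarith
    · right; right
      apply mul_left_cancel₀ h2κ
      linarith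
    · left
      apply mul_left_cancel₀ h2κ
      linarith
  have hn3 : (3 : ℤ) ≤ (n : ℤ) - 2 := by
    have : (5 : ℤ) ≤ (n : ℤ) := by exact_mod_cast hn
    linarith
  have hc0 : c = 0 := by
    rcases hnc with h | h | h
    · rcases mul_eq_zero.1 h with h | h
      · linarith
      · exact h
    · exfalso
      rcases lt_trichotomy c 0 with hc | hc | hc
      · nlinarith
      · rw [hc] at h; simp at h
      · nlinarith
    · exfalso
      rcases lt_trichotomy c 0 with hc | hc | hc
      · nlinarith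
      · rw [hc] at h; simp at h
      · nlinarith
  have hBC : C = B' := by rw [hc0] at hc; linarith
  subst hBC
  have hAB : A - C = 2 * κ ∨ A - C = -(2 * κ) := by
    rcases aF with h | h
    · left; linarith
    · right; linarith
  rw [tot_tri (by omega)] at htot
  have htot' : 2 * tot (Φ (t i)).v = 2 * (A - C) + (n : ℤ) * (n - 1) * C := by
    rw [htot]; ring
  have hCe : Even C := by
    rcases hAB with h | h
    · have : C = A - 2 * κ := by linarith
      rw [this]
      exact hA.sub (even_two_mul κ)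
    · have : C = A + 2 * κ := by linarith
      rw [this]
      exact hA.add (even_two_mul κ)
  obtain ⟨C', hC'⟩ := hCe
  have hsign : Equiv.Perm.sign (Φ (t i)).s = -1 := by
    rw [hst]
    exact sw_sign (H.hF.lt i)
  rcases phi_two H i hsign with h2 | h2 <;> rcases hAB with h | h <;>
    rw [h2, h, hC'] at htot'
  · left
    exact ⟨-C', by linarith⟩
  · right
    exact ⟨C', by linarith⟩
  · right
    exact ⟨-C', by linarith⟩
  · left
    exact ⟨C', by linarith⟩

end ProfArtin
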