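import Pool.Agent.Work.MP_f6e909_al.GamRel

/-! # The Coxeter presentation of the symmetric group -/

namespace ProfArtin

/-- the descending product `x (j + l - 1) * ⋯ * x j` -/
private def dsc {X : Type} [Group X] (x : ℕ → X) (j : ℕ) : ℕ → X
  | 0 => 1
  | l + 1 => x (j + l) * dsc x j l

private theorem dsc_succ' {X : Type} [Group X] (x : ℕ → X) (j l : ℕ) :
    dsc x j (l + 1) = dsc x (j + 1) l * x j := by
  induction l with
  | zero => simp [dsc]
  | succ l ih =>
    rw [dsc, ih, ← mul_assoc, dsc, show j + 1 + l = j + (l + 1) by ring]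

private theorem dsc_split {X : Type} [Group X] (x : ℕ → X) (j a b : ℕ) :
    dsc x j (a + b) = dsc x (j + a) b * dsc x j a := by
  induction b with
  | zero => simp [dsc]
  | succ b ih =>
    rw [← add_assoc, dsc, ih, dsc, mul_assoc, add_assoc]

private theorem dsc_low {X : Type} [Group X] {n : ℕ} {x : ℕ → X} (hx : Chain (n - 1) x)
    (k j l : ℕ) (hk : k + 2 ≤ j) (hl : j + l ≤ n - 1) :
    x k * dsc x j l = dsc x j l * x k := by
  induction l with
  | zero => simp [dsc]
  | succ l ih =>
    rw [dsc, ← mul_assoc, hx.comm k (j + l) (by omega) (by omega), mul_assoc,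
      ih (by omega), mul_assoc]

private theorem dsc_high {X : Type} [Group X] {n : ℕ} {x : ℕ → X} (hx : Chain (n - 1) x)
    (k j l : ℕ) (hk : j + l + 1 ≤ k) (hl : k < n - 1) :
    x k * dsc x j l = dsc x j l * x k := by
  induction l with
  | zero => simp [dsc]
  | succ l ih =>
    rw [dsc, ← mul_assoc, ← hx.comm (j + l) k (by omega) (by omega), mul_assoc,
      ih (by omega), mul_assoc]

private theorem decomp {X : Type} [Group X] {n : ℕ} {x : ℕ → X} (hx : Chain (n - 1) x)
    (hsq : ∀ k, k + 1 < n → x k * x k = 1) (m : ℕ) (hm : m + 1 ≤ n - 1) (g : X)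
    (hg : g ∈ Subgroup.closure (x '' {k | k < m + 1})) :
    ∃ w ∈ Subgroup.closure (x '' {k | k < m}), ∃ j l, j + l = m + 1 ∧ g = w * dsc x j l := by
  have step : ∀ g k, k < m + 1 →
      (∃ w ∈ Subgroup.closure (x '' {k | k < m}), ∃ j l, j + l = m + 1 ∧ g = w * dsc x j l) →
      (∃ w ∈ Subgroup.closure (x '' {k | k < m}), ∃ j l, j + l = m + 1 ∧
        g * x k = w * dsc x j l) := by
    rintro g k hk ⟨w, hw, j, l, hjl, rfl⟩
    rcases lt_trichotomy (k + 1) j with h | h | h
    · refine ⟨w * x k, mul_mem hw (Subgroup.subset_closure ⟨k, by simp; omega, rfl⟩), j, l, hjl, ?_⟩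
      rw [mul_assoc, mul_assoc, dsc_low hx k j l (by omega) (by omega)]
    · refine ⟨w, hw, k, l + 1, by omega, ?_⟩
      rw [dsc_succ', mul_assoc, h]
    · rcases Nat.lt_or_ge j k with h' | h'
      · -- k > j
        obtain ⟨a, rfl⟩ : ∃ a, k = j + a + 1 := ⟨k - j - 1, by omega⟩
        obtain ⟨b, rfl⟩ : ∃ b, l = (a + 2) + b := ⟨l - (a + 2), by omega⟩
        refine ⟨w * x (j + a),
          mul_mem hw (Subgroup.subset_closure ⟨j + a, by simp; omega, rfl⟩), j, _, hjl, ?_⟩
        have e1 : dsc x j (a + 2) = x (j + a + 1) * (x (j + a) * dsc x j a) := rfl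
        have h1 := dsc_high hx (j + a + 1) j a (by omega) (by omega)
        have h2 := dsc_low hx (j + a) (j + (a + 2)) b (by omega) (by omega)
        have h3 := hx.braid (j + a) (by omega)
        rw [dsc_split, e1]
        calc w * (dsc x (j + (a + 2)) b * (x (j + a + 1) * (x (j + a) * dsc x j a))) *
              x (j + a + 1)
            = w * (dsc x (j + (a + 2)) b * (x (j + a + 1) * (x (j + a) *
                (dsc x j a * x (j + a + 1))))) := by simp only [mul_assoc]
          _ = w * (dsc x (j + (a + 2)) b * (x (j + a + 1) * (x (j + a) *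
                (x (j + a + 1) * dsc x j a)))) := by rw [h1]
          _ = w * (dsc x (j + (a + 2)) b * ((x (j + a + 1) * x (j + a) *
                x (j + a + 1)) * dsc x j a)) := by simp only [mul_assoc]
          _ = w * (dsc x (j + (a + 2)) b * ((x (j + a) * x (j + a + 1) *
                x (j + a)) * dsc x j a)) := by rw [h3]
          _ = w * ((dsc x (j + (a + 2)) b * x (j + a)) * (x (j + a + 1) *
                (x (j + a) * dsc x j a))) := by simp only [mul_assoc]
          _ = w * ((x (j + a) * dsc x (j + (a + 2)) b) * (x (j + a + 1) *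
                (x (j + a) * dsc x j a))) := by rw [h2]
          _ = _ := by simp only [mul_assoc]
      · -- k = j
        obtain rfl : k = j := by omega
        obtain ⟨l, rfl⟩ : ∃ l', l = l' + 1 := ⟨l - 1, by omega⟩
        refine ⟨w, hw, k + 1, l, by omega, ?_⟩
        rw [dsc_succ', mul_assoc, mul_assoc, hsq k (by omega), mul_one]
  have hinv : ∀ k, k < m + 1 → (x k)⁻¹ = x k := fun k hk =>
    inv_eq_of_mul_eq_one_left (hsq k (by omega))
  induction hg using Subgroup.closure_induction_right with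
  | one => exact ⟨1, one_mem _, m + 1, 0, rfl, by simp [dsc]⟩
  | mul_right g _ y hy ih =>
    obtain ⟨k, hk, rfl⟩ := hy
    exact step g k hk ih
  | mul_inv_cancel g _ y hy ih =>
    obtain ⟨k, hk, rfl⟩ := hy
    rw [hinv k hk]
    exact step g k hk ih

private theorem sw_fix {n : ℕ} (k : ℕ) (p : Fin n) (hp : k + 1 < p.1) : sw n k p = p := by
  unfold sw
  split_ifs with h
  · apply Equiv.swap_apply_of_ne_of_ne
    · intro h'
      have := congrArg Fin.val h'
      simp at this
      omega
    · intro h'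
      have := congrArg Fin.val h'
      simp at this
      omega
  · rfl

private theorem sw_self {n : ℕ} (k : ℕ) (h : k + 1 < n) :
    sw n k ⟨k, by omega⟩ = ⟨k + 1, h⟩ := by
  unfold sw
  rw [dif_pos h]
  exact Equiv.swap_apply_left _ _

private theorem sw_sq {n : ℕ} (k : ℕ) : sw n k * sw n k = 1 := by
  unfold sw
  split_ifs with h
  · exact Equiv.swap_mul_self _ _
  · rfl

private theorem inj_aux {X : Type} [Group X] {n : ℕ} {x : ℕ → X} (hx : Chain (n - 1) x)
    (hsq : ∀ k, k + 1 < n → x k * x k = 1)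
    (f : X →* Equiv.Perm (Fin n)) (hf : ∀ k, k + 1 < n → f (x k) = sw n k) (m : ℕ)
    (hm : m ≤ n - 1) :
    ∀ g ∈ Subgroup.closure (x '' {k | k < m}), f g = 1 → g = 1 := by
  induction m with
  | zero =>
    intro g hg _
    simpa using hg
  | succ m ih =>
    intro g hg hfg
    obtain ⟨w, hw, j, l, hjl, rfl⟩ := decomp hx hsq m hm g hg
    have hfw : ∀ w ∈ Subgroup.closure (x '' {k | k < m}), ∀ p : Fin n, m < p.1 → f w p = p := by
      intro w hw
      induction hw using Subgroup.closure_induction with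
      | mem y hy =>
        obtain ⟨k, hk, rfl⟩ := hy
        intro p hp
        simp only [Set.mem_setOf_eq] at hk
        rw [hf k (by omega)]
        exact sw_fix k p (by omega)
      | one => intro p _; rw [map_one]; rfl
      | mul a b _ _ ha hb =>
        intro p hp
        rw [map_mul, Equiv.Perm.mul_apply, hb p hp, ha p hp]
      | inv a _ ha =>
        intro p hp
        rw [map_inv, Equiv.Perm.inv_eq_iff_eq, ha p hp]
    have hfd : ∀ l, ∀ h : j + l < n, f (dsc x j l) ⟨j, by omega⟩ = ⟨j + l, h⟩ := by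
      intro l
      induction l with
      | zero => intro h; simp [dsc]
      | succ l ih =>
        intro h
        rw [dsc, map_mul, Equiv.Perm.mul_apply, ih (by omega), hf (j + l) (by omega)]
        exact sw_self (j + l) h
    rcases Nat.eq_zero_or_pos l with rfl | hl
    · have h1 : w * dsc x j 0 = w := by simp [dsc]
      rw [h1] at hfg ⊢
      exact ih (by omega) w hw hfg
    · exfalso
      have h1 := congrArg (fun s : Equiv.Perm (Fin n) => s ⟨j, by omega⟩) hfg
      simp only [map_mul, Equiv.Perm.mul_apply, Equiv.Perm.one_apply] at h1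
      rw [hfd l (by omega), hfw w hw _ (by simp; omega)] at h1
      have := congrArg Fin.val h1
      simp at this
      omega

/-- A group generated by involutions `x k`, `k + 1 < n`, with the braid relations, which maps to
the symmetric group by `x k ↦ sw n k`, injects. -/
theorem sn_pres {X : Type} [Group X] {n : ℕ} {x : ℕ → X} (hx : Chain (n - 1) x)
    (hsq : ∀ k, k + 1 < n → x k * x k = 1)
    (hgen : Subgroup.closure (x '' {k | k + 1 < n}) = ⊤)
    (f : X →* Equiv.Perm (Fin n)) (hf : ∀ k, k + 1 < n → f (x k) = sw n k) :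
    Function.Injective f := by
  rw [injective_iff_map_eq_one]
  intro g hg
  refine inj_aux hx hsq f hf (n - 1) le_rfl g ?_ hg
  have : {k : ℕ | k < n - 1} = {k | k + 1 < n} := by
    ext k
    simp only [Set.mem_setOf_eq]
    omega
  rw [this, hgen]
  trivial

private theorem ker_core {ι G : Type} [Group G] {n : ℕ} {a : ι → ℕ} {t : ι → G}
    (hF : Fold n a t)
    (B : Subgroup G) (hgen : Subgroup.closure (Set.range t) ⊔ B = ⊤)
    (N : Subgroup G) [N.Normal]
    (hN1 : ∀ i, t i * t i ∈ N) (hN2 : ∀ i j, a i = a j → t i * (t j)⁻¹ ∈ N) (hN3 : B ≤ N)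
    (F : G ⧸ N →* Equiv.Perm (Fin n)) (hFt : ∀ i, F (QuotientGroup.mk (t i)) = sw n (a i)) :
    Function.Injective F := by
  classical
  have hch : ∀ k, ∃ y : G, (k + 1 < n → ∃ i, a i = k ∧ y = t i) := by
    intro k
    by_cases hk : k + 1 < n
    · obtain ⟨i, hi⟩ := hF.surj k hk
      exact ⟨t i, fun _ => ⟨i, hi, rfl⟩⟩
    · exact ⟨1, fun h => absurd h hk⟩
  choose y hy using hch
  refine sn_pres (n := n) (x := fun k => (QuotientGroup.mk (y k) : G ⧸ N)) ⟨?_, ?_⟩ ?_ ?_ F ?_
  · intro i j hij hj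
    obtain ⟨i', hi', e1⟩ := hy i (by omega)
    obtain ⟨j', hj', e2⟩ := hy j (by omega)
    simp only [e1, e2]
    rw [← QuotientGroup.mk_mul, ← QuotientGroup.mk_mul,
      hF.comm i' j' (by omega) (by omega)]
  · intro i hi
    obtain ⟨i', hi', e1⟩ := hy i (by omega)
    obtain ⟨j', hj', e2⟩ := hy (i + 1) (by omega)
    simp only [e1, e2]
    simp only [← QuotientGroup.mk_mul]
    rw [hF.braid i' j' (by omega)]
  · intro k hk
    obtain ⟨i, hi, e1⟩ := hy k hk
    simp only [e1]
    rw [← QuotientGroup.mk_mul]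
    exact (QuotientGroup.eq_one_iff _).2 (hN1 i)
  · have key : ∀ g : G, (QuotientGroup.mk g : G ⧸ N) ∈
        Subgroup.closure ((fun k => (QuotientGroup.mk (y k) : G ⧸ N)) '' {k | k + 1 < n}) := by
      intro g
      have h1 : (⊤ : Subgroup G) ≤ Subgroup.comap (QuotientGroup.mk' N)
          (Subgroup.closure ((fun k => (QuotientGroup.mk (y k) : G ⧸ N)) '' {k | k + 1 < n})) := by
        rw [← hgen]
        refine sup_le ?_ ?_
        · rw [Subgroup.closure_le]
          rintro _ ⟨i, rfl⟩
          rw [SetLike.mem_coe, Subgroup.mem_comap, QuotientGroup.mk'_apply]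
          obtain ⟨j, hj, e1⟩ := hy (a i) (hF.lt i)
          have h2 : (QuotientGroup.mk (t i) : G ⧸ N) = QuotientGroup.mk (y (a i)) := by
            rw [e1]
            rw [← mul_inv_eq_one, ← QuotientGroup.mk_inv, ← QuotientGroup.mk_mul]
            exact (QuotientGroup.eq_one_iff _).2 (hN2 i j hj.symm)
          rw [h2]
          exact Subgroup.subset_closure ⟨a i, hF.lt i, rfl⟩
        · intro b hb
          rw [Subgroup.mem_comap, QuotientGroup.mk'_apply,
            (QuotientGroup.eq_one_iff b).2 (hN3 hb)]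
          exact one_mem _
      exact h1 (Subgroup.mem_top g)
    rw [eq_top_iff]
    intro q _
    obtain ⟨g, rfl⟩ := QuotientGroup.mk_surjective q
    exact key g
  · intro k hk
    obtain ⟨i, hi, e1⟩ := hy k hk
    simp only [e1]
    rw [hFt, hi]

/-- The kernel of the map to the symmetric group. -/
theorem ker_fold {ι G : Type} [Group G] {n : ℕ} {a : ι → ℕ} {t : ι → G} (hF : Fold n a t)
    (B : Subgroup G) (hgen : Subgroup.closure (Set.range t) ⊔ B = ⊤)
    (f : G →* Equiv.Perm (Fin n)) (hf : ∀ i, f (t i) = sw n (a i)) (hfB : ∀ b ∈ B, f b = 1)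
    (g : G) (hg : f g = 1) :
    g ∈ Subgroup.normalClosure ({x | ∃ i, x = t i * t i} ∪
      {x | ∃ i j, a i = a j ∧ x = t i * (t j)⁻¹} ∪ (B : Set G)) := by
  set N := Subgroup.normalClosure ({x | ∃ i, x = t i * t i} ∪
      {x | ∃ i j, a i = a j ∧ x = t i * (t j)⁻¹} ∪ (B : Set G)) with hNdef
  have hNk : N ≤ f.ker := by
    apply Subgroup.normalClosure_le_normal
    rintro x ((⟨i, rfl⟩ | ⟨i, j, hij, rfl⟩) | hx)
    · rw [SetLike.mem_coe, MonoidHom.mem_ker, map_mul, hf, sw_sq]
    · rw [SetLike.mem_coe, MonoidHom.mem_ker, map_mul, map_inv, hf, hf, hij, mul_inv_cancel]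
    · exact hfB x hx
  have hinj := ker_core hF B hgen N
    (fun i => Subgroup.subset_normalClosure (Or.inl (Or.inl ⟨i, rfl⟩)))
    (fun i j hij => Subgroup.subset_normalClosure (Or.inl (Or.inr ⟨i, j, hij, rfl⟩)))
    (fun b hb => Subgroup.subset_normalClosure (Or.inr hb))
    (QuotientGroup.lift N f hNk) (fun i => hf i)
  have h1 : QuotientGroup.lift N f hNk (QuotientGroup.mk g) = 1 := hg
  rw [← map_one (QuotientGroup.lift N f hNk)] at h1
  exact (QuotientGroup.eq_one_iff g).1 (hinj h1)

/-- The same for a homomorphism onto the symmetric group which kills these elements. -/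
theorem ker_fold' {ι G : Type} [Group G] {n : ℕ} {a : ι → ℕ} {t : ι → G} (hF : Fold n a t)
    (B : Subgroup G) (hgen : Subgroup.closure (Set.range t) ⊔ B = ⊤)
    (f₀ : G →* Equiv.Perm (Fin n)) (hf₀ : ∀ i, f₀ (t i) = sw n (a i))
    (hf₀B : ∀ b ∈ B, f₀ b = 1)
    (f : G →* Equiv.Perm (Fin n)) (hsurj : Function.Surjective f)
    (hf : ∀ i, f (t i * t i) = 1) (hf' : ∀ i j, a i = a j → f (t i * (t j)⁻¹) = 1)
    (hfB : ∀ b ∈ B, f b = 1) (g : G) (hg : f g = 1) :
    g ∈ Subgroup.normalClosure ({x | ∃ i, x = t i * t i} ∪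
      {x | ∃ i j, a i = a j ∧ x = t i * (t j)⁻¹} ∪ (B : Set G)) := by
  set N := Subgroup.normalClosure ({x | ∃ i, x = t i * t i} ∪
      {x | ∃ i j, a i = a j ∧ x = t i * (t j)⁻¹} ∪ (B : Set G)) with hNdef
  have hNk₀ : N ≤ f₀.ker := by
    apply Subgroup.normalClosure_le_normal
    rintro x ((⟨i, rfl⟩ | ⟨i, j, hij, rfl⟩) | hx)
    · rw [SetLike.mem_coe, MonoidHom.mem_ker, map_mul, hf₀, sw_sq]
    · rw [SetLike.mem_coe, MonoidHom.mem_ker, map_mul, map_inv, hf₀, hf₀, hij, mul_inv_cancel]
    · exact hf₀B x hx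
  have hNk : N ≤ f.ker := by
    apply Subgroup.normalClosure_le_normal
    rintro x ((⟨i, rfl⟩ | ⟨i, j, hij, rfl⟩) | hx)
    · exact hf i
    · exact hf' i j hij
    · exact hfB x hx
  have hinj := ker_core hF B hgen N
    (fun i => Subgroup.subset_normalClosure (Or.inl (Or.inl ⟨i, rfl⟩)))
    (fun i j hij => Subgroup.subset_normalClosure (Or.inl (Or.inr ⟨i, j, hij, rfl⟩)))
    (fun b hb => Subgroup.subset_normalClosure (Or.inr hb))
    (QuotientGroup.lift N f₀ hNk₀) (fun i => hf₀ i)
  have hfin : Finite (G ⧸ N) := Finite.of_injective _ hinj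
  have hs : Function.Surjective (QuotientGroup.lift N f hNk) := by
    intro s
    obtain ⟨g, rfl⟩ := hsurj s
    exact ⟨QuotientGroup.mk g, rfl⟩
  have hc1 : Nat.card (G ⧸ N) ≤ Nat.card (Equiv.Perm (Fin n)) :=
    Nat.card_le_card_of_injective _ hinj
  have hc2 : Nat.card (Equiv.Perm (Fin n)) ≤ Nat.card (G ⧸ N) :=
    Nat.card_le_card_of_surjective _ hs
  have hb := (Nat.bijective_iff_surjective_and_card (QuotientGroup.lift N f hNk)).2
    ⟨hs, le_antisymm hc1 hc2⟩
  have h1 : QuotientGroup.lift N f hNk (QuotientGroup.mk g) = 1 := hg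
  rw [← map_one (QuotientGroup.lift N f hNk)] at h1
  exact (QuotientGroup.eq_one_iff g).1 (hb.1 h1)

end ProfArtin
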