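import Pool.Agent.Work.MP_f6e909_al.HypFive
import Pool.Agent.Work.MP_f6e909_al.SnPres

/-! # Auxiliary lemmas for the modules `FiveA`, `FiveB`, `Five` -/

namespace ProfArtin

/-- the projection to the symmetric group -/
def projS (n : ℕ) : Gam n →* Equiv.Perm (Fin n) where
  toFun x := x.s
  map_one' := rfl
  map_mul' _ _ := rfl

@[simp] theorem projS_apply {n : ℕ} (x : Gam n) : projS n x = x.s := rfl

theorem act_zero' {n : ℕ} (s : Equiv.Perm (Fin n)) : act s (0 : Fin n → Fin n → ℤ) = 0 := rfl

theorem gam_conj {n : ℕ} (x g : Gam n) (hg : g.s = 1) :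
    (x * g * x⁻¹).v = act x.s g.v ∧ (x * g * x⁻¹).s = 1 := by
  constructor
  · simp only [Gam.mul_v, Gam.mul_s, Gam.inv_v, hg, mul_one]
    rw [act_neg, ← act_mul, mul_inv_cancel, act_one]
    abel
  · simp [hg]

theorem gam_comm_inv {n : ℕ} (x g : Gam n) (hg : g.s = 1) (h : x * g = g * x) :
    act x.s g.v = g.v := by
  have h1 : (x * g).v = (g * x).v := by rw [h]
  simp only [Gam.mul_v, hg, act_one] at h1
  have h2 : act x.s g.v = (x.v + act x.s g.v) - x.v := by abel
  rw [h2, h1]
  abel

/-- swapping trick: `d = a b c a b c` exchanges `a` and `b` -/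
theorem d_trick {G : Type} [Group G] {a b c : G} (hab : a * b = b * a)
    (hac : a * c * a = c * a * c) (hbc : b * c * b = c * b * c) :
    (a * b * c * a * b * c) * a = b * (a * b * c * a * b * c) := by
  have e1 : c * a * b * c * a = b * c * b * a * c := by
    calc c * a * b * c * a = c * (a * b) * c * a := by group
      _ = c * (b * a) * c * a := by rw [hab]
      _ = c * b * (a * c * a) := by group
      _ = c * b * (c * a * c) := by rw [hac]
      _ = (c * b * c) * a * c := by group
      _ = (b * c * b) * a * c := by rw [hbc]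
  calc (a * b * c * a * b * c) * a = a * b * (c * a * b * c * a) := by group
    _ = a * b * (b * c * b * a * c) := by rw [e1]
    _ = (a * b) * b * c * (b * a) * c := by group
    _ = (b * a) * b * c * (a * b) * c := by rw [← hab]
    _ = b * (a * b * c * a * b * c) := by group

variable {ι G : Type} [Group G] {n : ℕ} {a : ι → ℕ} {t : ι → G} {B : Subgroup G}
  {Θ Φ : G →* Gam n} {N' κ : ℤ} {y : G}

/-- the generators are conjugate -/
theorem fold_conj (hF : Fold n a t) {i : ι} (huniq : ∀ j, a j = 0 → j = i) :
    ∀ (k : ℕ) (j : ι), a j = k → ∃ g, t j = g * t i * g⁻¹ := by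
  intro k
  induction k with
  | zero =>
    intro j hj
    rw [huniq j hj]
    exact ⟨1, by simp⟩
  | succ k ih =>
    intro j hj
    have hlt := hF.lt j
    obtain ⟨l, hl⟩ := hF.surj k (by omega)
    obtain ⟨g, hg⟩ := ih l hl
    have hbr := hF.braid l j (by omega)
    refine ⟨t l * t j * g, ?_⟩
    have : t j = (t l * t j) * t l * (t l * t j)⁻¹ := by
      rw [eq_mul_inv_iff_mul_eq]
      calc t j * (t l * t j) = t j * t l * t j := by group
        _ = t l * t j * t l := hbr.symm
    rw [mul_inv_rev]
    calc t j = (t l * t j) * t l * (t l * t j)⁻¹ := this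
      _ = (t l * t j) * (g * t i * g⁻¹) * (t l * t j)⁻¹ := by rw [← hg]
      _ = _ := by group

theorem five_zero_unique (H : HypFive n a t B Θ Φ N' κ y) {i j : ι} (hi : a i = 0) (hj : a j = 0) :
    j = i := by
  by_contra hne
  have := H.hF.fold j i (by omega) hne
  have := H.hn
  omega

/-- If `Φ (t i)` and `Φ (t j)` have the same permutation, of order two, and so has `Φ (t k)`,
`a k = n - 3`, they are equal. -/
theorem five_fold_eq (H : HypFive n a t B Θ Φ N' κ y)
    (h1 : ∀ i, (Φ (t i)).s * (Φ (t i)).s = 1) (h2 : ∀ i j, a i = a j → (Φ (t i)).s = (Φ (t j)).s)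
    {i j : ι} (hij : a i = a j) : Φ (t i) = Φ (t j) := by
  classical
  by_cases hne : i = j
  · rw [hne]
  · have hfold := H.hF.fold i j hij hne
    have hn := H.hn
    obtain ⟨k, hk⟩ := H.hF.surj (n - 3) (by omega)
    have c1 := H.hF.comm i j (by omega) (by omega)
    have c2 := H.hF.braid k i (by omega)
    have c3 := H.hF.braid k j (by omega)
    set s := (Φ (t i)).s with hs
    have hsj : (Φ (t j)).s = s := (h2 i j hij).symm
    set d := t i * t j * t k * t i * t j * t k with hd
    have e1 : d * t i = t j * d := d_trick c1 c2.symm c3.symm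
    have hd' : d = t j * t i * t k * t j * t i * t k := by
      rw [hd]
      calc t i * t j * t k * t i * t j * t k = (t i * t j) * t k * (t i * t j) * t k := by group
        _ = (t j * t i) * t k * (t j * t i) * t k := by rw [c1]
        _ = _ := by group
    have e2 : d * t j = t i * d := by
      rw [hd']
      exact d_trick c1.symm c3.symm c2.symm
    have hds : (Φ d).s = 1 := by
      have : (Φ d).s = (s * s * (Φ (t k)).s) * (s * s * (Φ (t k)).s) := by
        rw [hd]
        simp only [map_mul, Gam.mul_s, hsj, ← hs]
        group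
      rw [this, h1 i, one_mul, h1 k]
    have f1 : (Φ (d * t i)).v = (Φ (t j * d)).v := by rw [e1]
    have f2 : (Φ (d * t j)).v = (Φ (t i * d)).v := by rw [e2]
    simp only [map_mul, Gam.mul_v, hds, act_one, hsj, ← hs] at f1 f2
    refine Gam.ext ?_ (h2 i j hij)
    funext p q
    have g1 := congrFun (congrFun f1 p) q
    have g2 := congrFun (congrFun f2 p) q
    simp only [Pi.add_apply] at g1 g2
    linarith

/-- Elements of `B` with trivial permutation: multiples of `ones`, if the permutations of the
`Φ (t i)` generate. -/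
theorem five_B_ones (H : HypFive n a t B Θ Φ N' κ y) (hB : ∀ b ∈ B, (Φ b).s = 1) {b : G}
    (hb : b ∈ B) : ∃ c : ℤ, (Φ b).v = c • ones n := by
  have hn := H.hn
  refine inv_ones (by omega) _ (phi_symm H b).1 ?_
  -- the set of `g` with `act (Φ g).s v = v` is a subgroup
  have key : ∀ g : G, act (Φ g).s (Φ b).v = (Φ b).v := by
    intro g
    have hg : g ∈ Subgroup.closure (Set.range t) ⊔ B := by rw [H.hgen]; trivial
    have hle : Subgroup.closure (Set.range t) ⊔ B ≤
        ({ carrier := {g | act (Φ g).s (Φ b).v = (Φ b).v}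
           mul_mem' := by
             intro x y hx hy
             show act (Φ (x * y)).s (Φ b).v = (Φ b).v
             rw [map_mul, Gam.mul_s, act_mul]
             have hx' : act (Φ x).s (Φ b).v = (Φ b).v := hx
             have hy' : act (Φ y).s (Φ b).v = (Φ b).v := hy
             rw [hy', hx']
           one_mem' := by
             show act (Φ 1).s (Φ b).v = (Φ b).v
             rw [map_one, Gam.one_s, act_one]
           inv_mem' := by
             intro x hx
             show act (Φ x⁻¹).s (Φ b).v = (Φ b).v
             have hx' : act (Φ x).s (Φ b).v = (Φ b).v := hx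
             rw [map_inv, Gam.inv_s]
             conv_lhs => rw [← hx']
             rw [← act_mul, inv_mul_cancel, act_one] } : Subgroup G) := by
      refine sup_le ?_ ?_
      · rw [Subgroup.closure_le]
        rintro _ ⟨i, rfl⟩
        show act (Φ (t i)).s (Φ b).v = (Φ b).v
        refine gam_comm_inv _ _ (hB b hb) ?_
        rw [← map_mul, ← map_mul, H.hB b hb i]
      · intro b' hb'
        show act (Φ b').s (Φ b).v = (Φ b).v
        rw [hB b' hb', act_one]
    exact hle hg
  intro s
  obtain ⟨g, hg⟩ := phi_surj H s
  rw [← hg]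
  exact key g

end ProfArtin
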