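import Pool.Agent.Work.MP_f6e909_al.GamRel

/-! # Two linear functionals -/

namespace ProfArtin

variable {n : ℕ}

/-- difference of the row sums -/
def fD (p q : Fin n) (v : Fin n → Fin n → ℤ) : ℤ := ∑ j, v p j - ∑ j, v q j

/-- alternating sum along a four-cycle -/
def fF (p q r s : Fin n) (v : Fin n → Fin n → ℤ) : ℤ := v p q - v q r + v r s - v s p

/-- the matrix with entry `A` for the pair `{0, 1}`, entry `B` for pairs with exactly one element
in `{0, 1}`, and entry `C` for pairs disjoint from `{0, 1}` -/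
def tri (n : ℕ) (A B C : ℤ) : Fin n → Fin n → ℤ := fun i j =>
  if i = j then 0 else if i.1 < 2 ∧ j.1 < 2 then A else if i.1 < 2 ∨ j.1 < 2 then B else C

private theorem sw_eq' {k : ℕ} (hk : k + 1 < n) :
    sw n k = Equiv.swap ⟨k, by omega⟩ ⟨k + 1, hk⟩ := dif_pos hk

private theorem inv_mul {v : Fin n → Fin n → ℤ} {s t : Equiv.Perm (Fin n)} (hs : act s v = v)
    (ht : act t v = v) : act (s * t) v = v := by
  rw [act_mul, ht, hs]

private theorem inv_two {v : Fin n → Fin n → ℤ} (hn : 4 ≤ n)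
    (h' : ∀ k, 2 ≤ k → k + 1 < n → act (sw n k) v = v) (d : ℕ) (hd : 2 + (d + 1) < n) :
    act (Equiv.swap ⟨2, by omega⟩ ⟨2 + (d + 1), hd⟩) v = v := by
  induction d with
  | zero =>
    have := h' 2 le_rfl (by omega)
    rwa [sw_eq' (by omega)] at this
  | succ d ih =>
    have h1 := ih (by omega)
    have h2 := h' (2 + (d + 1)) (by omega) hd
    rw [sw_eq' (by omega)] at h2
    have h3 := Equiv.swap_mul_swap_mul_swap (x := (⟨2, by omega⟩ : Fin n))
      (y := ⟨2 + (d + 1), by omega⟩) (z := ⟨2 + (d + 1) + 1, hd⟩)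
      (by simp only [ne_eq, Fin.mk.injEq]; omega) (by simp only [ne_eq, Fin.mk.injEq]; omega)
    have h4 := inv_mul (inv_mul h2 h1) h2
    rw [h3, Equiv.swap_comm] at h4
    exact h4

private theorem inv_two' {v : Fin n → Fin n → ℤ} (hn : 4 ≤ n)
    (h' : ∀ k, 2 ≤ k → k + 1 < n → act (sw n k) v = v) (i : Fin n) (hi : 2 ≤ i.1) :
    act (Equiv.swap ⟨2, by omega⟩ i) v = v := by
  rcases Nat.eq_or_lt_of_le hi with h | h
  · have : i = ⟨2, by omega⟩ := Fin.ext h.symm
    rw [this, Equiv.swap_self]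
    exact act_one v
  · have h2 := i.2
    have := inv_two hn h' (i.1 - 3) (by omega)
    have e : (⟨2 + (i.1 - 3 + 1), by omega⟩ : Fin n) = i :=
      Fin.ext (by show 2 + (i.1 - 3 + 1) = i.1; omega)
    rwa [e] at this

private theorem inv_ge {v : Fin n → Fin n → ℤ} (hn : 4 ≤ n)
    (h' : ∀ k, 2 ≤ k → k + 1 < n → act (sw n k) v = v) (i j : Fin n) (hi : 2 ≤ i.1)
    (hj : 2 ≤ j.1) : act (Equiv.swap i j) v = v := by
  by_cases hij : i = j
  · rw [hij, Equiv.swap_self]
    exact act_one v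
  by_cases hi2 : i = ⟨2, by omega⟩
  · rw [hi2]
    exact inv_two' hn h' j hj
  · have h1 := inv_two' hn h' i hi
    have h2 := inv_two' hn h' j hj
    have h3 := Equiv.swap_mul_swap_mul_swap (x := i) (y := (⟨2, by omega⟩ : Fin n)) (z := j)
      hi2 hij
    rw [Equiv.swap_comm i] at h3
    have h4 := inv_mul (inv_mul h2 h1) h2
    rw [h3, Equiv.swap_comm] at h4
    exact h4

/-- A symmetric matrix with zero diagonal invariant under `sw n 0` and `sw n k`, `k ≥ 2`, is of
the form `tri n A B C`. -/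
theorem tri_of_inv (hn : 4 ≤ n) (v : Fin n → Fin n → ℤ) (h0 : ∀ i, v i i = 0)
    (hs : ∀ i j, v i j = v j i) (h : act (sw n 0) v = v)
    (h' : ∀ k, 2 ≤ k → k + 1 < n → act (sw n k) v = v) : ∃ A B C : ℤ, v = tri n A B C := by
  have hsw := inv_ge hn h'
  have happ : ∀ a b : Fin n, 2 ≤ a.1 → 2 ≤ b.1 → ∀ i j,
      v i j = v (Equiv.swap a b i) (Equiv.swap a b j) := by
    intro a b ha hb i j
    have := congrFun (congrFun (hsw a b ha hb) i) j
    unfold act at this
    rw [Equiv.symm_swap] at this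
    exact this.symm
  rw [sw_eq' (by omega)] at h
  have h01 : ∀ i j, v i j = v (Equiv.swap ⟨0, by omega⟩ ⟨1, by omega⟩ i)
      (Equiv.swap ⟨0, by omega⟩ ⟨1, by omega⟩ j) := by
    intro i j
    have := congrFun (congrFun h i) j
    unfold act at this
    rw [Equiv.symm_swap] at this
    exact this.symm
  set e0 : Fin n := ⟨0, by omega⟩ with he0
  set e1 : Fin n := ⟨1, by omega⟩ with he1
  set e2 : Fin n := ⟨2, by omega⟩ with he2
  set e3 : Fin n := ⟨3, by omega⟩ with he3
  have hB0 : ∀ i : Fin n, 2 ≤ i.1 → v e0 i = v e0 e2 := by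
    intro i hi
    have := happ e2 i le_rfl hi e0 i
    rw [Equiv.swap_apply_right, Equiv.swap_apply_of_ne_of_ne] at this
    · exact this
    · simp [he0, he2]
    · intro h3; rw [← h3] at hi; simp [he0] at hi
  have hB1 : ∀ i : Fin n, 2 ≤ i.1 → v e1 i = v e0 e2 := by
    intro i hi
    have h3 := h01 e1 i
    rw [Equiv.swap_apply_right, Equiv.swap_apply_of_ne_of_ne] at h3
    · rw [h3, hB0 i hi]
    · intro h4; rw [h4] at hi; simp [he0] at hi
    · intro h4; rw [h4] at hi; simp [he1] at hi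
  have hC : ∀ i j : Fin n, 2 ≤ i.1 → 2 ≤ j.1 → i ≠ j → v i j = v e2 e3 := by
    intro i j hi hj hij
    have h3 := happ e2 i le_rfl hi i j
    rw [Equiv.swap_apply_right] at h3
    set j' := Equiv.swap e2 i j with hj'
    have hj2 : 2 ≤ j'.1 ∧ j' ≠ e2 := by
      by_cases hj2 : j = e2
      · rw [hj2, Equiv.swap_apply_left] at hj'
        rw [hj']
        exact ⟨hi, fun h4 => hij (h4.trans hj2.symm)⟩
      · rw [Equiv.swap_apply_of_ne_of_ne hj2 (Ne.symm hij)] at hj'
        rw [hj']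
        exact ⟨hj, hj2⟩
    have h4 := happ e3 j' (by simp [he3]) hj2.1 e2 j'
    rw [Equiv.swap_apply_right, Equiv.swap_apply_of_ne_of_ne _ hj2.2.symm] at h4
    · rw [h3, h4]
    · simp [he2, he3]
  have hcase : ∀ i : Fin n, i = e0 ∨ i = e1 ∨ 2 ≤ i.1 := by
    intro i
    have : i.1 = 0 ∨ i.1 = 1 ∨ 2 ≤ i.1 := by omega
    rcases this with h | h | h
    · exact Or.inl (Fin.ext h)
    · exact Or.inr (Or.inl (Fin.ext h))
    · exact Or.inr (Or.inr h)
  have l0 : e0.1 < 2 := by simp [he0]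
  have l1 : e1.1 < 2 := by simp [he1]
  have n01 : e0 ≠ e1 := by simp [he0, he1]
  refine ⟨v e0 e1, v e0 e2, v e2 e3, ?_⟩
  funext i j
  unfold tri
  by_cases hij : i = j
  · rw [if_pos hij, hij]
    exact h0 j
  rw [if_neg hij]
  rcases hcase i with hi | hi | hi <;> rcases hcase j with hj | hj | hj
  · exact absurd (hi.trans hj.symm) hij
  · rw [hi, hj, if_pos ⟨l0, l1⟩]
  · rw [hi, if_neg (by omega), if_pos (Or.inl l0)]
    exact hB0 j hj
  · rw [hi, hj, if_pos ⟨l1, l0⟩, hs]
  · exact absurd (hi.trans hj.symm) hij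
  · rw [hi, if_neg (by omega), if_pos (Or.inl l1)]
    exact hB1 j hj
  · rw [hj, if_neg (by omega), if_pos (Or.inr l0), hs]
    exact hB0 i hi
  · rw [hj, if_neg (by omega), if_pos (Or.inr l1), hs]
    exact hB1 i hi
  · rw [if_neg (by omega), if_neg (by omega)]
    exact hC i j hi hj hij

private def uu (i : Fin n) : ℤ := if i.1 < 2 then 1 else 0

private theorem uu_sq (i : Fin n) : uu i * uu i = uu i := by
  unfold uu; split_ifs <;> simp

private theorem sum_uu (hn : 2 ≤ n) : ∑ i : Fin n, uu i = 2 := by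
  obtain ⟨m, rfl⟩ : ∃ m, n = m + 2 := ⟨n - 2, by omega⟩
  rw [Fin.sum_univ_succ, Fin.sum_univ_succ]
  have h : ∀ i : Fin m, uu i.succ.succ = 0 := by
    intro i
    unfold uu
    rw [if_neg (by simp only [Fin.val_succ]; omega)]
  simp only [h]
  simp [uu]

private theorem tri_eq (A B C : ℤ) (i j : Fin n) :
    tri n A B C i j = if i = j then 0 else
      C + (B - C) * (uu i + uu j) + (A - 2 * B + C) * (uu i * uu j) := by
  unfold tri uu
  split_ifs <;> first | rfl | (exfalso; omega) | ring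

private theorem E_eq (i j : Fin n) :
    E n 0 i j = if i = j then 0 else uu i * uu j := by
  unfold E uu
  by_cases hij : i = j
  · subst hij
    rw [if_pos rfl, if_neg (by omega)]
  · rw [if_neg hij]
    have : i.1 ≠ j.1 := fun h => hij (Fin.ext h)
    split_ifs <;> first | rfl | (exfalso; omega) | ring

private theorem E_tri : E n 0 = tri n 1 0 0 := by
  funext i j
  rw [E_eq, tri_eq]
  split_ifs <;> ring

private theorem row_tri (hn : 2 ≤ n) (A B C : ℤ) (i : Fin n) :
    ∑ j, tri n A B C i j = ((n : ℤ) - 1) * C + 2 * (B - C) +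
      (A + ((n : ℤ) - 4) * B - ((n : ℤ) - 3) * C) * uu i := by
  have h1 : ∀ j, tri n A B C i j =
      (C + (B - C) * (uu i + uu j) + (A - 2 * B + C) * (uu i * uu j)) -
      if i = j then (C + (B - C) * (uu i + uu j) + (A - 2 * B + C) * (uu i * uu j)) else 0 := by
    intro j
    rw [tri_eq]
    split_ifs <;> ring
  simp only [h1, Finset.sum_sub_distrib, Finset.sum_ite_eq, Finset.mem_univ, if_true,
    Finset.sum_add_distrib, ← Finset.mul_sum, Finset.sum_const, Finset.card_univ,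
    Fintype.card_fin, sum_uu hn, uu_sq, nsmul_eq_mul]
  ring

theorem tot_tri (hn : 4 ≤ n) (A B C : ℤ) :
    tot (tri n A B C) = 2 * A + 4 * ((n : ℤ) - 2) * B + ((n : ℤ) - 2) * (n - 3) * C := by
  unfold tot
  simp only [row_tri (by omega : 2 ≤ n), Finset.sum_add_distrib, ← Finset.mul_sum,
    Finset.sum_const, Finset.card_univ, Fintype.card_fin, sum_uu (by omega : 2 ≤ n),
    nsmul_eq_mul]
  ring

private theorem fD_act (hn : 2 ≤ n) (A B C : ℤ) (σ : Equiv.Perm (Fin n)) (p q : Fin n) :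
    fD p q (act σ (tri n A B C)) =
      (A + ((n : ℤ) - 4) * B - ((n : ℤ) - 3) * C) * (uu (σ.symm p) - uu (σ.symm q)) := by
  have h1 : ∀ p, ∑ j, act σ (tri n A B C) p j = ∑ j, tri n A B C (σ.symm p) j := by
    intro p
    unfold act
    exact Equiv.sum_comp σ.symm (fun j => tri n A B C (σ.symm p) j)
  unfold fD
  rw [h1, h1, row_tri hn, row_tri hn]
  ring

/-- compare `tri` with `E n 0` (which is `tri n 1 0 0`) -/
theorem fD_tri (hn : 4 ≤ n) (A B C : ℤ) (σ : Equiv.Perm (Fin n)) (p q : Fin n) :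
    fD p q (act σ (tri n A B C)) =
      (A + ((n : ℤ) - 4) * B - ((n : ℤ) - 3) * C) * fD p q (act σ (E n 0)) := by
  rw [E_tri, fD_act (by omega), fD_act (by omega)]
  ring

private theorem fF_act (A B C : ℤ) (σ : Equiv.Perm (Fin n)) {p q r s : Fin n}
    (hpq : p ≠ q) (hqr : q ≠ r) (hrs : r ≠ s) (hsp : s ≠ p) :
    fF p q r s (act σ (tri n A B C)) = (A - 2 * B + C) *
      (uu (σ.symm p) * uu (σ.symm q) - uu (σ.symm q) * uu (σ.symm r) +
        uu (σ.symm r) * uu (σ.symm s) - uu (σ.symm s) * uu (σ.symm p)) := by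
  unfold fF act
  rw [tri_eq, tri_eq, tri_eq, tri_eq, if_neg (fun h => hpq (σ.symm.injective h)),
    if_neg (fun h => hqr (σ.symm.injective h)), if_neg (fun h => hrs (σ.symm.injective h)),
    if_neg (fun h => hsp (σ.symm.injective h))]
  ring

theorem fF_tri (hn : 4 ≤ n) (A B C : ℤ) (σ : Equiv.Perm (Fin n)) {p q r s : Fin n}
    (hpq : p ≠ q) (hpr : p ≠ r) (hps : p ≠ s) (hqr : q ≠ r) (hqs : q ≠ s) (hrs : r ≠ s) :
    fF p q r s (act σ (tri n A B C)) = (A - 2 * B + C) * fF p q r s (act σ (E n 0)) := by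
  rw [E_tri, fF_act _ _ _ _ hpq hqr hrs hps.symm, fF_act _ _ _ _ hpq hqr hrs hps.symm]
  ring

theorem fD_add (p q : Fin n) (v w : Fin n → Fin n → ℤ) :
    fD p q (v + w) = fD p q v + fD p q w := by
  unfold fD
  simp only [Pi.add_apply, Finset.sum_add_distrib]
  ring

theorem fF_add (p q r s : Fin n) (v w : Fin n → Fin n → ℤ) :
    fF p q r s (v + w) = fF p q r s v + fF p q r s w := by
  unfold fF
  simp only [Pi.add_apply]
  ring

theorem fD_smul (p q : Fin n) (c : ℤ) (v : Fin n → Fin n → ℤ) :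
    fD p q (c • v) = c * fD p q v := by
  unfold fD
  simp only [Pi.smul_apply, smul_eq_mul, ← Finset.mul_sum]
  ring

theorem fF_smul (p q r s : Fin n) (c : ℤ) (v : Fin n → Fin n → ℤ) :
    fF p q r s (c • v) = c * fF p q r s v := by
  unfold fF
  simp only [Pi.smul_apply, smul_eq_mul]
  ring

theorem fD_ones (p q : Fin n) : fD p q (ones n) = 0 := by
  have h : ∀ i : Fin n, ∑ j, ones n i j = (n : ℤ) - 1 := by
    intro i
    have h1 : ∀ j, ones n i j = 1 - if i = j then 1 else 0 := by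
      intro j
      unfold ones
      split_ifs <;> simp
    simp only [h1, Finset.sum_sub_distrib, Finset.sum_const, Finset.card_univ, Fintype.card_fin,
      Finset.sum_ite_eq, Finset.mem_univ, if_true]
    simp
  unfold fD
  rw [h, h, sub_self]

theorem fF_ones {p q r s : Fin n} (hpq : p ≠ q) (hps : p ≠ s) (hqr : q ≠ r) (hrs : r ≠ s) :
    fF p q r s (ones n) = 0 := by
  unfold fF ones
  rw [if_neg hpq, if_neg hqr, if_neg hrs, if_neg hps.symm]
  ring

/-- values at `E n 0` -/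
theorem fD_E (hn : 4 ≤ n) : fD (⟨0, by omega⟩ : Fin n) ⟨2, by omega⟩ (E n 0) = 1 := by
  unfold fD
  rw [E_tri, row_tri (by omega), row_tri (by omega)]
  simp [uu]

theorem fF_E (hn : 4 ≤ n) :
    fF (⟨0, by omega⟩ : Fin n) ⟨1, by omega⟩ ⟨2, by omega⟩ ⟨3, by omega⟩ (E n 0) = 1 := by
  unfold fF E
  simp

end ProfArtin
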