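import Pool.Agent.Work.MP_f6e909_al.Fun
import Pool.Agent.Work.MP_f6e909_al.SnPres

/-! # The situation of a hypothetical isomorphism, `n ≥ 5` -/

namespace ProfArtin

/-- `G` is an Artin group, `t i` the generators of the component, `B` the subgroup generated by the
others, `Θ` the crossing number homomorphism; `Φ` is the composition of an isomorphism from `G`
onto its twist with the scaled crossing number homomorphism of the twist; `y` is the preimage of
the new central element. -/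
structure HypFive {ι G : Type} [Group G] (n : ℕ) (a : ι → ℕ) (t : ι → G) (B : Subgroup G)
    (Θ Φ : G →* Gam n) (N' κ : ℤ) (y : G) : Prop where
  hn : 5 ≤ n
  hF : Fold n a t
  hB : ∀ b ∈ B, ∀ i, b * t i = t i * b
  hgen : Subgroup.closure (Set.range t) ⊔ B = ⊤
  hΘt : ∀ i, Θ (t i) = ⟨E n (a i), sw n (a i)⟩
  hΘB : ∀ b ∈ B, Θ b = 1
  hN : N' = 2 ∨ N' = 4
  hκ : Odd κ
  hrange : ∀ x, x ∈ Φ.range ↔
    ∃ (g : G) (k : ℤ), x = ⟨κ • (Θ g).v + (k * N') • ones n, (Θ g).s⟩
  hyc : y ∈ Subgroup.center G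
  hyt : y ∈ Subgroup.closure (Set.range t)
  hy : Φ y = ⟨N' • ones n, 1⟩

variable {ι G : Type} [Group G] {n : ℕ} {a : ι → ℕ} {t : ι → G} {B : Subgroup G}
  {Θ Φ : G →* Gam n} {N' κ : ℤ} {y : G}

/-- `tot` of the abelian part as a homomorphism -/
private def totHom (n : ℕ) : Gam n →* Multiplicative ℤ where
  toFun x := Multiplicative.ofAdd (tot x.v)
  map_one' := by
    have h : tot (0 : Fin n → Fin n → ℤ) = 0 := by simp [tot]
    change Multiplicative.ofAdd (tot (0 : Fin n → Fin n → ℤ)) = 1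
    rw [h]; rfl
  map_mul' x y := by
    rw [Gam.mul_v, tot_add, tot_act]; rfl

private theorem tot_mul (x y : Gam n) : tot (x * y).v = tot x.v + tot y.v := by
  rw [Gam.mul_v, tot_add, tot_act]

private theorem tot_one' : tot (1 : Gam n).v = 0 := by
  rw [Gam.one_v]; simp [tot]

private theorem tot_inv (x : Gam n) : tot (x⁻¹).v = - tot x.v := by
  rw [Gam.inv_v, tot_neg, tot_act]

/-- the projection to the symmetric group -/
private def prj (n : ℕ) : Gam n →* Equiv.Perm (Fin n) where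
  toFun x := x.s
  map_one' := rfl
  map_mul' _ _ := rfl

/-- induction over the group -/
private theorem hyp_top (H : HypFive n a t B Θ Φ N' κ y) (S : Subgroup G)
    (h1 : ∀ i, t i ∈ S) (h2 : ∀ b ∈ B, b ∈ S) (g : G) : g ∈ S := by
  have h : (⊤ : Subgroup G) ≤ S := by
    rw [← H.hgen]
    refine sup_le ?_ h2
    rw [Subgroup.closure_le]
    rintro _ ⟨i, rfl⟩
    exact h1 i
  exact h (Subgroup.mem_top g)

/-- symmetric matrices with zero diagonal -/
private def symGam (n : ℕ) : Subgroup (Gam n) where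
  carrier := {x | (∀ i, x.v i i = 0) ∧ ∀ i j, x.v i j = x.v j i}
  one_mem' := ⟨fun _ => rfl, fun _ _ => rfl⟩
  mul_mem' := by
    rintro x y ⟨h1, h2⟩ ⟨h3, h4⟩
    refine ⟨fun i => ?_, fun i j => ?_⟩
    · simp [act, h1, h3]
    · simp only [Gam.mul_v, act, Pi.add_apply]
      rw [h2 i j, h4]
  inv_mem' := by
    rintro x ⟨h1, h2⟩
    refine ⟨fun i => ?_, fun i j => ?_⟩
    · simp [act, h1]
    · simp only [Gam.inv_v, act, Pi.neg_apply]
      rw [h2]

private theorem E_sym (n k : ℕ) : (∀ i, E n k i i = 0) ∧ ∀ i j, E n k i j = E n k j i := by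
  refine ⟨fun i => ?_, fun i j => ?_⟩
  · unfold E
    rw [if_neg]
    omega
  · unfold E
    congr 1
    apply propext
    constructor <;> rintro (⟨h1, h2⟩ | ⟨h1, h2⟩) <;> simp [h1, h2]

/-- the values of `Θ` are symmetric with zero diagonal -/
theorem theta_symm (H : HypFive n a t B Θ Φ N' κ y) (g : G) :
    (∀ i, (Θ g).v i i = 0) ∧ ∀ i j, (Θ g).v i j = (Θ g).v j i := by
  have h := hyp_top H ((symGam n).comap Θ) (fun i => ?_) (fun b hb => ?_) g
  · exact h
  · rw [Subgroup.mem_comap, H.hΘt]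
    exact E_sym n (a i)
  · rw [Subgroup.mem_comap, H.hΘB b hb]
    exact one_mem _

/-- the values of `Φ` are symmetric with zero diagonal -/
theorem phi_symm (H : HypFive n a t B Θ Φ N' κ y) (g : G) :
    (∀ i, (Φ g).v i i = 0) ∧ ∀ i j, (Φ g).v i j = (Φ g).v j i := by
  obtain ⟨g', k, hg⟩ := (H.hrange (Φ g)).1 ⟨g, rfl⟩
  obtain ⟨h1, h2⟩ := theta_symm H g'
  rw [hg]
  refine ⟨fun i => ?_, fun i j => ?_⟩
  · simp [h1, ones]
  · simp only [Pi.add_apply, Pi.smul_apply, smul_eq_mul, ones]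
    rw [h2 i j]
    simp only [eq_comm]

/-- both compositions with the projection to the symmetric group are surjective -/
theorem theta_surj (H : HypFive n a t B Θ Φ N' κ y) (s : Equiv.Perm (Fin n)) :
    ∃ g, (Θ g).s = s := by
  have h1 : (⊤ : Subgroup (Equiv.Perm (Fin n))) ≤ ((prj n).comp Θ).range := by
    rw [← sw_closure n, Subgroup.closure_le]
    rintro _ ⟨k, hk, rfl⟩
    obtain ⟨i, hi⟩ := H.hF.surj k hk
    refine ⟨t i, ?_⟩
    change (Θ (t i)).s = sw n k
    rw [H.hΘt, hi]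
  obtain ⟨g, hg⟩ := h1 (Subgroup.mem_top s)
  exact ⟨g, hg⟩

theorem phi_surj (H : HypFive n a t B Θ Φ N' κ y) (s : Equiv.Perm (Fin n)) :
    ∃ g, (Φ g).s = s := by
  obtain ⟨g, hg⟩ := theta_surj H s
  obtain ⟨g', hg'⟩ := (H.hrange ⟨κ • (Θ g).v + ((0 : ℤ) * N') • ones n, (Θ g).s⟩).2 ⟨g, 0, rfl⟩
  exact ⟨g', by rw [hg', hg]⟩

/-- parity of the exponent sum -/
theorem theta_sign (H : HypFive n a t B Θ Φ N' κ y) (g : G) :
    ∃ c : ℤ, tot (Θ g).v = 2 * c ∧ ((Equiv.Perm.sign (Θ g).s = 1 ∧ Even c) ∨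
      (Equiv.Perm.sign (Θ g).s = -1 ∧ Odd c)) := by
  let S : Subgroup (Gam n) :=
    { carrier := {x | ∃ c : ℤ, tot x.v = 2 * c ∧ ((Equiv.Perm.sign x.s = 1 ∧ Even c) ∨
        (Equiv.Perm.sign x.s = -1 ∧ Odd c))}
      one_mem' := ⟨0, by rw [tot_one']; rfl, Or.inl ⟨by simp, by simp⟩⟩
      mul_mem' := by
        rintro x y ⟨c, hc, h1⟩ ⟨d, hd, h2⟩
        refine ⟨c + d, by rw [tot_mul, hc, hd]; ring, ?_⟩
        rw [Gam.mul_s, map_mul]
        rcases h1 with ⟨h1, h1'⟩ | ⟨h1, h1'⟩ <;> rcases h2 with ⟨h2, h2'⟩ | ⟨h2, h2'⟩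
        · exact Or.inl ⟨by rw [h1, h2]; rfl, h1'.add h2'⟩
        · exact Or.inr ⟨by rw [h1, h2]; rfl, h1'.add_odd h2'⟩
        · exact Or.inr ⟨by rw [h1, h2]; rfl, h1'.add_even h2'⟩
        · exact Or.inl ⟨by rw [h1, h2]; rfl, h1'.add_odd h2'⟩
      inv_mem' := by
        rintro x ⟨c, hc, h1⟩
        refine ⟨-c, by rw [tot_inv, hc]; ring, ?_⟩
        rw [Gam.inv_s, Equiv.Perm.sign_inv]
        rcases h1 with ⟨h1, h1'⟩ | ⟨h1, h1'⟩
        · exact Or.inl ⟨h1, h1'.neg⟩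
        · exact Or.inr ⟨h1, h1'.neg⟩ }
  have h := hyp_top H (S.comap Θ) (fun i => ?_) (fun b hb => ?_) g
  · exact h
  · rw [Subgroup.mem_comap, H.hΘt]
    refine ⟨1, ?_, Or.inr ⟨sw_sign (H.hF.lt i), odd_one⟩⟩
    rw [tot_E (H.hF.lt i)]
    norm_num
  · rw [Subgroup.mem_comap, H.hΘB b hb]
    exact one_mem _

/-- elements with trivial permutation have even crossing numbers -/
theorem theta_even (H : HypFive n a t B Θ Φ N' κ y) (g : G) (hg : (Θ g).s = 1) :
    ∃ w : Fin n → Fin n → ℤ, (Θ g).v = (2 : ℤ) • w := by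
  let M : Subgroup (Gam n) :=
    { carrier := {x | x.s = 1 ∧ ∃ w : Fin n → Fin n → ℤ, x.v = (2 : ℤ) • w}
      one_mem' := ⟨rfl, 0, by simp⟩
      mul_mem' := by
        rintro x y ⟨h1, w, hw⟩ ⟨h2, w', hw'⟩
        refine ⟨by rw [Gam.mul_s, h1, h2, one_mul], w + w', ?_⟩
        rw [Gam.mul_v, h1, act_one, hw, hw', smul_add]
      inv_mem' := by
        rintro x ⟨h1, w, hw⟩
        refine ⟨by rw [Gam.inv_s, h1, inv_one], -w, ?_⟩
        rw [Gam.inv_v, h1, inv_one, act_one, hw, smul_neg] }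
  have hMn : M.Normal := by
    constructor
    rintro x ⟨h1, w, hw⟩ z
    refine ⟨by rw [Gam.mul_s, Gam.mul_s, h1, mul_one, Gam.inv_s, mul_inv_cancel], act z.s w, ?_⟩
    rw [Gam.mul_v, Gam.mul_v, Gam.mul_s, h1, mul_one, Gam.inv_v, act_neg, ← act_mul,
      mul_inv_cancel, act_one, hw, act_smul]
    abel
  have hk := ker_fold H.hF B H.hgen ((prj n).comp Θ) (fun i => ?_) (fun b hb => ?_) g hg
  · have hle : Subgroup.normalClosure ({x | ∃ i, x = t i * t i} ∪
      {x | ∃ i j, a i = a j ∧ x = t i * (t j)⁻¹} ∪ (B : Set G)) ≤ M.comap Θ := by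
      have := hMn.comap Θ
      apply Subgroup.normalClosure_le_normal
      rintro x ((⟨i, rfl⟩ | ⟨i, j, hij, rfl⟩) | hx)
      · rw [SetLike.mem_coe, Subgroup.mem_comap, map_mul, H.hΘt, gam_sq (H.hF.lt i)]
        exact ⟨rfl, _, rfl⟩
      · rw [SetLike.mem_coe, Subgroup.mem_comap, map_mul, map_inv, H.hΘt, H.hΘt, hij,
          mul_inv_cancel]
        exact one_mem _
      · rw [SetLike.mem_coe, Subgroup.mem_comap, H.hΘB x hx]
        exact one_mem _
    exact (hle hk).2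
  · change (Θ (t i)).s = _
    rw [H.hΘt]
  · change (Θ b).s = _
    rw [H.hΘB b hb]
    rfl

/-- braiding generators have the same total under `Φ` -/
private theorem tot_braid (H : HypFive n a t B Θ Φ N' κ y) (i j : ι) (h : a i + 1 = a j) :
    tot (Φ (t i)).v = tot (Φ (t j)).v := by
  have h1 := congrArg (fun x => tot (Φ x).v) (H.hF.braid i j h)
  simp only [map_mul, tot_mul] at h1
  linarith

private theorem tot_const (H : HypFive n a t B Θ Φ N' κ y) (i j : ι) :
    tot (Φ (t i)).v = tot (Φ (t j)).v := by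
  have hn := H.hn
  obtain ⟨i₀, hi₀⟩ := H.hF.surj 0 (by omega)
  have key : ∀ m, ∀ i, a i = m → tot (Φ (t i)).v = tot (Φ (t i₀)).v := by
    intro m
    induction m with
    | zero =>
      intro i hi
      by_cases h : i = i₀
      · rw [h]
      · exfalso
        have := H.hF.fold i i₀ (by rw [hi, hi₀]) h
        omega
    | succ m ih =>
      intro i hi
      have hlt := H.hF.lt i
      obtain ⟨j, hj⟩ := H.hF.surj m (by omega)
      rw [← tot_braid H j i (by omega)]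
      exact ih j hj
  rw [key _ i rfl, key _ j rfl]

private theorem perm_center (hn : 3 ≤ n) (σ : Equiv.Perm (Fin n))
    (h : ∀ τ : Equiv.Perm (Fin n), σ * τ = τ * σ) : σ = 1 := by
  by_contra hne
  obtain ⟨p, hp⟩ : ∃ p, σ p ≠ p := by
    by_contra h'
    push Not at h'
    exact hne (Equiv.ext h')
  obtain ⟨r, hr⟩ : ∃ r : Fin n, r ∉ ({p, σ p} : Finset (Fin n)) := by
    by_contra h'
    push Not at h'
    have h1 : (Finset.univ : Finset (Fin n)) ⊆ {p, σ p} := fun x _ => h' x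
    have h2 := Finset.card_le_card h1
    have h3 : ({p, σ p} : Finset (Fin n)).card ≤ 2 := Finset.card_le_two
    simp at h2
    omega
  simp only [Finset.mem_insert, Finset.mem_singleton, not_or] at hr
  have h1 := congrArg (fun s : Equiv.Perm (Fin n) => s p) (h (Equiv.swap (σ p) r))
  simp only [Equiv.Perm.mul_apply, Equiv.swap_apply_left] at h1
  rw [Equiv.swap_apply_of_ne_of_ne (Ne.symm hp) (Ne.symm hr.1)] at h1
  exact hr.2 h1.symm

/-- `tot (Φ (t i)).v` does not depend on `i`, and on `⟨t⟩` twice `tot (Φ g).v` is this number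
times `tot (Θ g).v` -/
theorem phi_tot (H : HypFive n a t B Θ Φ N' κ y) (i : ι) (g : G)
    (hg : g ∈ Subgroup.closure (Set.range t)) :
    2 * tot (Φ g).v = tot (Φ (t i)).v * tot (Θ g).v := by
  induction hg using Subgroup.closure_induction with
  | mem x hx =>
    obtain ⟨j, rfl⟩ := hx
    rw [H.hΘt, tot_E (H.hF.lt j), tot_const H j i]
    ring
  | one => rw [map_one, map_one, tot_one']; ring
  | mul x y _ _ hx hy =>
    rw [map_mul, map_mul, tot_mul, tot_mul, mul_add, hx, hy]; ring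
  | inv x _ hx =>
    rw [map_inv, map_inv, tot_inv, tot_inv]
    linarith

/-- consequence of the central element: `tot (Φ (t i)).v` divides `2 * N'`, and
`tot (Θ y).v = c * n * (n - 1)` -/
theorem phi_center (H : HypFive n a t B Θ Φ N' κ y) (i : ι) :
    ∃ c : ℤ, tot (Φ (t i)).v * c = 2 * N' := by
  have hn := H.hn
  have hcomm : ∀ g, y * g = g * y := fun g => (Subgroup.mem_center_iff.1 H.hyc g).symm
  have hs : (Θ y).s = 1 := by
    apply perm_center (by omega)
    intro τ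
    obtain ⟨g, rfl⟩ := theta_surj H τ
    rw [← Gam.mul_s, ← Gam.mul_s, ← map_mul, ← map_mul, hcomm]
  obtain ⟨h1, h2⟩ := theta_symm H y
  have hinv : ∀ τ, act τ (Θ y).v = (Θ y).v := by
    intro τ
    obtain ⟨g, rfl⟩ := theta_surj H τ
    have h3 := congrArg (fun x => (Θ x).v) (hcomm g)
    simp only [map_mul, Gam.mul_v, hs, act_one] at h3
    rw [add_comm] at h3
    exact (add_left_cancel h3).symm
  obtain ⟨c, hc⟩ := inv_ones (by omega) _ h1 hinv
  refine ⟨c, ?_⟩
  have h4 := phi_tot H i y H.hyt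
  rw [H.hy, hc, tot_smul, tot_smul, tot_ones] at h4
  have h5 : ((n : ℤ) * (n - 1)) ≠ 0 := by
    have : (5 : ℤ) ≤ n := by exact_mod_cast hn
    apply mul_ne_zero <;> omega
  have h6 : (2 * N' - tot (Φ (t i)).v * c) * ((n : ℤ) * (n - 1)) = 0 := by linarith
  rcases mul_eq_zero.1 h6 with h7 | h7
  · linarith
  · exact absurd h7 h5

/-- if `Φ (t i)` has odd permutation, `tot (Φ (t i)).v = ± 2` -/
theorem phi_two (H : HypFive n a t B Θ Φ N' κ y) (i : ι)
    (hs : Equiv.Perm.sign (Φ (t i)).s = -1) : tot (Φ (t i)).v = 2 ∨ tot (Φ (t i)).v = -2 := by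
  obtain ⟨g, k, hg⟩ := (H.hrange (Φ (t i))).1 ⟨t i, rfl⟩
  obtain ⟨c, hc, hsg⟩ := theta_sign H g
  have hs' : Equiv.Perm.sign (Θ g).s = -1 := by
    rw [hg] at hs
    exact hs
  have hodd : Odd c := by
    rcases hsg with ⟨h1, _⟩ | ⟨_, h1⟩
    · rw [h1] at hs'
      exact absurd hs' (by decide)
    · exact h1
  obtain ⟨c', hc'⟩ := phi_center H i
  have hT : tot (Φ (t i)).v = κ * (2 * c) + k * N' * ((n : ℤ) * (n - 1)) := by
    rw [hg]
    simp only
    rw [tot_add, tot_smul, tot_smul, tot_ones, hc]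
  obtain ⟨m, hm⟩ : ∃ m, N' = 2 * m := by
    rcases H.hN with h | h
    · exact ⟨1, by rw [h]; norm_num⟩
    · exact ⟨2, by rw [h]; norm_num⟩
  obtain ⟨r, hr⟩ : ∃ r, (n : ℤ) * (n - 1) = 2 * r := by
    have := Int.even_mul_pred_self (n : ℤ)
    obtain ⟨r, hr⟩ := this
    exact ⟨r, by rw [hr]; ring⟩
  obtain ⟨κ', hκ'⟩ := H.hκ
  obtain ⟨c₁, hc₁⟩ := hodd
  obtain ⟨e, he⟩ : ∃ e, tot (Φ (t i)).v = 2 * (2 * e + 1) := by
    refine ⟨κ * c₁ + κ' + k * m * r, ?_⟩
    rw [hT, hm, hr, hc₁, hκ']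
    ring
  rw [he] at hc' ⊢
  have h8 : (2 * e + 1) * c' = N' := by linarith
  have h9 : (2 * e + 1) ∣ N' := ⟨c', h8.symm⟩
  have h10 : e = 0 ∨ e = -1 := by
    rcases H.hN with h | h
    · rw [h] at h9
      have h11 : |2 * e + 1| ≤ 2 := Int.le_of_dvd (by norm_num) ((abs_dvd _ _).2 h9)
      rw [abs_le] at h11
      omega
    · rw [h] at h9
      have h11 : |2 * e + 1| ≤ 4 := Int.le_of_dvd (by norm_num) ((abs_dvd _ _).2 h9)
      rw [abs_le] at h11
      have h12 : e = -2 ∨ e = -1 ∨ e = 0 ∨ e = 1 := by omega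
      rcases h12 with rfl | rfl | rfl | rfl
      · exfalso; norm_num at h9
      · right; rfl
      · left; rfl
      · exfalso; norm_num at h9
  rcases h10 with rfl | rfl
  · left; norm_num
  · right; norm_num

/-- conjugating `Φ` by an element of its range -/
theorem hypFive_conj (H : HypFive n a t B Θ Φ N' κ y) (g₀ : G) :
    HypFive n a t B Θ ((MulAut.conj (Φ g₀)).toMonoidHom.comp Φ) N' κ y := by
  refine ⟨H.hn, H.hF, H.hB, H.hgen, H.hΘt, H.hΘB, H.hN, H.hκ, ?_, H.hyc, H.hyt, ?_⟩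
  · intro x
    rw [← H.hrange x]
    constructor
    · rintro ⟨g, rfl⟩
      exact ⟨g₀ * g * g₀⁻¹, by simp [MulAut.conj_apply]⟩
    · rintro ⟨g, rfl⟩
      exact ⟨g₀⁻¹ * g * g₀, by simp [MulAut.conj_apply, mul_assoc]⟩
  · have hcomm : g₀ * y = y * g₀ := (Subgroup.mem_center_iff.1 H.hyc g₀)
    have : ((MulAut.conj (Φ g₀)).toMonoidHom.comp Φ) y = Φ (g₀ * y * g₀⁻¹) := by
      simp [MulAut.conj_apply]
    rw [this, hcomm, mul_inv_cancel_right, H.hy]

end ProfArtin
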