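import Pool.Agent.Work.MP_f6e909_al.Defs

/-! # Permutations commuting with a given permutation -/

namespace ProfArtin

open Equiv

variable {Ω : Type} [Fintype Ω] [DecidableEq Ω]

private theorem pk_fix {x y z : Perm Ω} (hy : x * y = y * x) (hz : x * z = z * x)
    (hfix : (Finset.univ.filter fun p => x p = p).card ≤ 2) {p : Ω} (hp : x p = p) :
    y (z p) = z (y p) := by
  have hyf : ∀ q, x q = q → x (y q) = y q := by
    intro q hq
    have := congrArg (fun f : Perm Ω => f q) hy
    simp only [Perm.mul_apply, hq] at this
    exact this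
  have hzf : ∀ q, x q = q → x (z q) = z q := by
    intro q hq
    have := congrArg (fun f : Perm Ω => f q) hz
    simp only [Perm.mul_apply, hq] at this
    exact this
  have key : ∀ a b c : Ω, x a = a → x b = b → x c = c → a = b ∨ b = c ∨ a = c := by
    intro a b c ha hb hc
    by_contra hcon
    push Not at hcon
    have h3 : ({a, b, c} : Finset Ω) ⊆ Finset.univ.filter fun p => x p = p := by
      intro q hq
      simp only [Finset.mem_insert, Finset.mem_singleton] at hq
      rw [Finset.mem_filter]
      refine ⟨Finset.mem_univ _, ?_⟩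
      rcases hq with rfl | rfl | rfl
      · exact ha
      · exact hb
      · exact hc
    have h4 := Finset.card_le_card h3
    rw [Finset.card_eq_three.2 ⟨a, b, c, hcon.1, hcon.2.2, hcon.2.1, rfl⟩] at h4
    omega
  rcases key p (y p) (z p) hp (hyf p hp) (hzf p hp) with h | h | h
  · -- p = y p
    rcases key p (z p) (y (z p)) hp (hzf p hp) (hyf _ (hzf p hp)) with h1 | h1 | h1
    · rw [← h1, ← h, ← h1]
    · rw [← h1, ← h]
    · have h2 : z p = p := y.injective (by rw [← h1, ← h])
      rw [h2, ← h, h2]
  · -- y p = z p
    rcases key p (y p) (y (y p)) hp (hyf p hp) (hyf _ (hyf p hp)) with h1 | h1 | h1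
    · rw [← h, ← h1, ← h, ← h1]
    · have h2 := y.injective h1
      rw [← h, ← h2, ← h, ← h2]
    · rcases key p (y p) (z (y p)) hp (hyf p hp) (hzf _ (hyf p hp)) with h2 | h2 | h2
      · rw [← h, ← h2, ← h, ← h2]
      · have h3 : p = y p := z.injective (by rw [← h, ← h2])
        rw [← h, ← h3, ← h, ← h3]
      · rw [← h, ← h1, ← h2]
  · -- p = z p
    rcases key p (y p) (z (y p)) hp (hyf p hp) (hzf _ (hyf p hp)) with h1 | h1 | h1
    · rw [← h, ← h1, ← h]
    · rw [← h, ← h1]
    · have h2 : y p = p := z.injective (by rw [← h1, ← h])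
      rw [← h, h2, ← h]

private theorem pk_cycle {x y : Perm Ω} (hy : x * y = y * x)
    (hcyc : ∀ p q, x p ≠ p → x q ≠ q → (x.cycleOf p).support.card = (x.cycleOf q).support.card →
      x.SameCycle p q) {p : Ω} (hp : x p ≠ p) : x.SameCycle p (y p) := by
  have hyp : ∀ q, x (y q) = y (x q) := fun q => congrArg (fun f : Perm Ω => f q) hy
  have hp' : x (y p) ≠ y p := by
    rw [hyp]
    exact fun h => hp (y.injective h)
  apply hcyc p (y p) hp hp'
  have hconj : y * x * y⁻¹ = x := by rw [← hy, mul_assoc, mul_inv_cancel, mul_one]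
  have h1 : (x.cycleOf (y p)).support = (x.cycleOf p).support.map y.toEmbedding := by
    ext q
    rw [Perm.mem_support_cycleOf_iff' hp', Finset.mem_map_equiv,
      Perm.mem_support_cycleOf_iff' hp]
    have h2 := Perm.sameCycle_conj (f := x) (g := y) (x := y p) (y := q)
    rw [hconj] at h2
    rw [h2]
    simp
  rw [h1, Finset.card_map]

/-- Key orbit lemma. Let `y` and `z` commute with `x`. If `x` has at most two fixed points and
different nontrivial cycles of `x` have different lengths, then `y` and `z` commute. -/
theorem perm_key (x y z : Perm Ω) (hy : x * y = y * x) (hz : x * z = z * x)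
    (hfix : (Finset.univ.filter fun p => x p = p).card ≤ 2)
    (hcyc : ∀ p q, x p ≠ p → x q ≠ q → (x.cycleOf p).support.card = (x.cycleOf q).support.card →
      x.SameCycle p q) : y * z = z * y := by
  ext p
  rw [Perm.mul_apply, Perm.mul_apply]
  by_cases hp : x p = p
  · exact pk_fix hy hz hfix hp
  · obtain ⟨i, hi⟩ := pk_cycle hy hcyc hp
    obtain ⟨j, hj⟩ := pk_cycle hz hcyc hp
    have hyc : ∀ (k : ℤ) q, y ((x ^ k) q) = (x ^ k) (y q) := by
      intro k q
      have : Commute y (x ^ k) := (show Commute y x from hy.symm).zpow_right k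
      exact congrArg (fun f : Perm Ω => f q) this
    have hzc : ∀ (k : ℤ) q, z ((x ^ k) q) = (x ^ k) (z q) := by
      intro k q
      have : Commute z (x ^ k) := (show Commute z x from hz.symm).zpow_right k
      exact congrArg (fun f : Perm Ω => f q) this
    rw [← hj, hyc, ← hi, hzc, ← hj, ← Perm.mul_apply, ← Perm.mul_apply, ← zpow_add, ← zpow_add,
      add_comm]

/-- the alternative provided by the key lemma -/
private theorem pk_alt {x y z : Perm Ω} (hy : x * y = y * x) (hz : x * z = z * x)
    (hyz : y * z ≠ z * y) :
    x.support.card + 3 ≤ Fintype.card Ω ∨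
    ∃ (l : ℕ) (m : Multiset ℕ), x.cycleType = l ::ₘ l ::ₘ m := by
  by_cases hfix : (Finset.univ.filter fun p => x p = p).card ≤ 2
  · right
    by_contra hcon
    apply hyz
    apply perm_key x y z hy hz hfix
    intro p q hp hq hpq
    by_contra hns
    apply hcon
    have hcp : x.cycleOf p ∈ x.cycleFactorsFinset :=
      Perm.cycleOf_mem_cycleFactorsFinset_iff.2 (Perm.mem_support.2 hp)
    have hcq : x.cycleOf q ∈ x.cycleFactorsFinset :=
      Perm.cycleOf_mem_cycleFactorsFinset_iff.2 (Perm.mem_support.2 hq)
    have hne : x.cycleOf p ≠ x.cycleOf q := by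
      intro h
      apply hns
      have h1 : q ∈ (x.cycleOf q).support :=
        (Perm.mem_support_cycleOf_iff' hq).2 (Perm.SameCycle.refl x q)
      rw [← h] at h1
      exact (Perm.mem_support_cycleOf_iff' hp).1 h1
    have h1 : x.cycleFactorsFinset.val = x.cycleOf p ::ₘ x.cycleOf q ::ₘ
        ((x.cycleFactorsFinset.erase (x.cycleOf p)).erase (x.cycleOf q)).val := by
      rw [Finset.erase_val, Multiset.cons_erase (by
        exact Finset.mem_erase.2 ⟨hne.symm, hcq⟩), Finset.erase_val, Multiset.cons_erase hcp]
    refine ⟨(x.cycleOf p).support.card, Multiset.map (Finset.card ∘ Perm.support)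
      ((x.cycleFactorsFinset.erase (x.cycleOf p)).erase (x.cycleOf q)).val, ?_⟩
    rw [Perm.cycleType_def, h1, Multiset.map_cons, Multiset.map_cons]
    simp only [Function.comp_apply]
    rw [← hpq]
  · left
    have h1 : (Finset.univ.filter fun p => x p = p).card + x.support.card = Fintype.card Ω := by
      have h2 : x.support = Finset.univ.filter fun p => ¬ x p = p := by
        ext p
        simp [Perm.mem_support]
      rw [h2, Finset.card_filter_add_card_filter_not, Finset.card_univ]
    omega

private theorem pk_sum {x : Perm Ω} {l : ℕ} {m : Multiset ℕ} (h : x.cycleType = l ::ₘ l ::ₘ m) :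
    2 ≤ l ∧ (∀ a ∈ m, 2 ≤ a) ∧ x.support.card = 2 * l + m.sum ∧ 2 * l + m.sum ≤ Fintype.card Ω ∧
    Perm.sign x = (-1) ^ (m.sum + m.card) := by
  have h1 : ∀ a ∈ l ::ₘ l ::ₘ m, 2 ≤ a := by
    intro a ha
    rw [← h] at ha
    exact Perm.two_le_of_mem_cycleType ha
  have h2 : x.support.card = 2 * l + m.sum := by
    rw [← Perm.sum_cycleType, h, Multiset.sum_cons, Multiset.sum_cons]
    ring
  refine ⟨h1 l (by simp), fun a ha => h1 a (by simp [ha]), h2, ?_, ?_⟩
  · rw [← h2]
    exact Finset.card_le_univ _
  · rw [Perm.sign_of_cycleType, h, Multiset.sum_cons, Multiset.sum_cons, Multiset.card_cons,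
      Multiset.card_cons]
    rw [show l + (l + m.sum) + (m.card + 1 + 1) = 2 * (l + 1) + (m.sum + m.card) by ring, pow_add,
      pow_mul]
    simp

private theorem pk_sum_zero {m : Multiset ℕ} (hm : ∀ a ∈ m, 2 ≤ a) (h : m.sum ≤ 1) : m = 0 := by
  by_contra hne
  obtain ⟨a, ha⟩ := Multiset.exists_mem_of_ne_zero hne
  have := Multiset.single_le_sum (fun x _ => Nat.zero_le x) a ha
  have := hm a ha
  omega

private theorem pk_sq {x : Perm Ω} (h : ∀ a ∈ x.cycleType, a = 2) : x * x = 1 := by
  rw [← pow_two, ← orderOf_dvd_iff_pow_eq_one, ← Perm.lcm_cycleType]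
  exact Multiset.lcm_dvd.2 fun a ha => by rw [h a ha]

private theorem pk_three {x : Perm Ω} (h : x.support.card = 3) : Perm.sign x = 1 := by
  have h1 : x.IsThreeCycle := by
    exact card_support_eq_three_iff.1 h
  exact h1.sign

/-- Five points: an odd permutation with two non-commuting elements in its centralizer is a
transposition. -/
theorem perm_five (h5 : Fintype.card Ω = 5) (x y z : Perm Ω) (hy : x * y = y * x)
    (hz : x * z = z * x) (hyz : y * z ≠ z * y) (hs : Perm.sign x = -1) : x.IsSwap := by
  rcases pk_alt hy hz hyz with h | ⟨l, m, h⟩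
  · rw [← Perm.card_support_eq_two]
    have h1 := Perm.card_support_ne_one x
    have h2 : x.support.card ≠ 0 := by
      intro h0
      rw [Finset.card_eq_zero, Perm.support_eq_empty_iff] at h0
      rw [h0] at hs
      simp at hs
    omega
  · obtain ⟨h1, h2, h3, h4, h6⟩ := pk_sum h
    exfalso
    have h7 := pk_sum_zero h2 (by omega)
    rw [h6, h7] at hs
    simp at hs

/-- Six points: an odd permutation with two non-commuting elements in its centralizer is a
transposition or an involution without fixed points. -/
theorem perm_six (h6 : Fintype.card Ω = 6) (x y z : Perm Ω) (hy : x * y = y * x)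
    (hz : x * z = z * x) (hyz : y * z ≠ z * y) (hs : Perm.sign x = -1) :
    x.IsSwap ∨ ((∀ p, x p ≠ p) ∧ x * x = 1) := by
  rcases pk_alt hy hz hyz with h | ⟨l, m, h⟩
  · left
    rw [← Perm.card_support_eq_two]
    have h1 := Perm.card_support_ne_one x
    have h2 : x.support.card ≠ 0 := by
      intro h0
      rw [Finset.card_eq_zero, Perm.support_eq_empty_iff] at h0
      rw [h0] at hs
      simp at hs
    have h3 : x.support.card ≠ 3 := by
      intro h3
      rw [pk_three h3] at hs
      simp at hs
    omega
  · right
    obtain ⟨h1, h2, h3, h4, h7⟩ := pk_sum h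
    have h8 : ¬ m.sum ≤ 1 := by
      intro h8
      rw [h7, pk_sum_zero h2 h8] at hs
      simp at hs
    have hl : l = 2 := by omega
    have hm : m.sum = 2 := by omega
    refine ⟨?_, ?_⟩
    · intro p
      have h9 : x.support = Finset.univ := by
        rw [← Finset.card_eq_iff_eq_univ]
        omega
      rw [← Perm.mem_support, h9]
      exact Finset.mem_univ p
    · apply pk_sq
      intro a ha
      have h10 := Perm.two_le_of_mem_cycleType ha
      rw [h] at ha
      simp only [Multiset.mem_cons] at ha
      rcases ha with ha | ha | ha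
      · omega
      · omega
      · have := Multiset.single_le_sum (fun x _ => Nat.zero_le x) a ha
        omega

/-- At most five points: a permutation with two non-commuting elements in its centralizer is the
identity, a transposition, or a product of two disjoint transpositions (an involution moving
exactly four points). -/
theorem perm_le_five (h5 : Fintype.card Ω ≤ 5) (x y z : Perm Ω) (hy : x * y = y * x)
    (hz : x * z = z * x) (hyz : y * z ≠ z * y) :
    x = 1 ∨ (x.IsSwap ∧ Fintype.card Ω = 5) ∨ (x * x = 1 ∧ x.support.card = 4) := by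
  rcases pk_alt hy hz hyz with h | ⟨l, m, h⟩
  · by_cases h0 : x.support.card = 0
    · left
      rwa [Finset.card_eq_zero, Perm.support_eq_empty_iff] at h0
    · right; left
      have h1 := Perm.card_support_ne_one x
      rw [← Perm.card_support_eq_two]
      omega
  · right; right
    obtain ⟨h1, h2, h3, h4, h7⟩ := pk_sum h
    have h8 := pk_sum_zero h2 (by omega)
    subst h8
    have hl : l = 2 := by simp only [Multiset.sum_zero] at h4; omega
    subst hl
    refine ⟨?_, by simpa using h3⟩
    apply pk_sq
    intro a ha
    rw [h] at ha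
    simpa using ha

end ProfArtin
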