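import Pool.Agent.Work.MP_f6e909_al.ChainA

/-! # The inductive step for homomorphisms of braid groups to symmetric groups -/

namespace ProfArtin

open Equiv

/-- `CycRes l`: every chain of length `l` in the symmetric group of a set with at most `l` points
is constant (the braid group on `l + 1` strands has only cyclic images in `S_k`, `k < l + 1`). -/
def CycRes (l : ℕ) : Prop :=
  ∀ (Ω : Type) [Fintype Ω] [DecidableEq Ω], Fintype.card Ω ≤ l →
    ∀ x : ℕ → Perm Ω, Chain l x → ∀ k, k < l → x k = x 0

section

variable {Ω : Type} {x : Perm Ω}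

theorem cent_comm (c : Subgroup.centralizer ({x} : Set (Perm Ω))) : x * c.1 = c.1 * x :=
  Subgroup.mem_centralizer_iff.1 c.2 x rfl

theorem cent_app (c : Subgroup.centralizer ({x} : Set (Perm Ω))) (p : Ω) :
    x (c.1 p) = c.1 (x p) := by
  have h := congrArg (fun f : Perm Ω => f p) (cent_comm c)
  simpa using h

theorem cent_same (c : Subgroup.centralizer ({x} : Set (Perm Ω))) {p q : Ω}
    (h : x.SameCycle p q) : x.SameCycle (c.1 p) (c.1 q) := by
  obtain ⟨i, hi⟩ := h
  refine ⟨i, ?_⟩
  have h1 : Commute x c.1 := cent_comm c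
  have h2 := congrArg (fun f : Perm Ω => f p) (h1.zpow_left i).eq
  simp only [Perm.coe_mul, Function.comp_apply] at h2
  rw [h2, hi]

/-- restriction to the support -/
noncomputable def rs (x : Perm Ω) :
    Subgroup.centralizer ({x} : Set (Perm Ω)) →* Perm {p // x p ≠ p} where
  toFun c := c.1.subtypePerm (p := fun p => x p ≠ p) (fun p => by
    rw [ne_eq, ne_eq, cent_app c, c.1.injective.eq_iff])
  map_one' := by
    ext p
    rfl
  map_mul' a b := by
    ext p
    rfl

/-- restriction to the fixed points -/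
noncomputable def rf (x : Perm Ω) :
    Subgroup.centralizer ({x} : Set (Perm Ω)) →* Perm {p // x p = p} where
  toFun c := c.1.subtypePerm (p := fun p => x p = p) (fun p => by
    rw [cent_app c, c.1.injective.eq_iff])
  map_one' := by
    ext p
    rfl
  map_mul' a b := by
    ext p
    rfl

/-- the setoid of cycles on the support -/
def cset (x : Perm Ω) : Setoid {p // x p ≠ p} where
  r p q := x.SameCycle p.1 q.1
  iseqv := ⟨fun _ => Perm.SameCycle.refl _ _, fun h => h.symm, fun h h' => h.trans h'⟩

/-- action on the nontrivial cycles -/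
noncomputable def rq (x : Perm Ω) :
    Subgroup.centralizer ({x} : Set (Perm Ω)) →* Perm (Quotient (cset x)) where
  toFun c := Quotient.congr (rs x c) (fun p q => by
    constructor
    · intro h
      exact cent_same c h
    · intro h
      have h1 : x.SameCycle (c⁻¹.1 (c.1 p.1)) (c⁻¹.1 (c.1 q.1)) := cent_same c⁻¹ h
      have h2 : x.SameCycle p.1 q.1 := by simpa using h1
      exact h2)
  map_one' := by
    ext p
    induction p using Quotient.inductionOn with
    | h p => rfl
  map_mul' a b := by
    ext p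
    induction p using Quotient.inductionOn with
    | h p => rfl

theorem rq_same {c d : Subgroup.centralizer ({x} : Set (Perm Ω))} (h : rq x c = rq x d)
    (p : {p // x p ≠ p}) : x.SameCycle (c.1 p.1) (d.1 p.1) := by
  have h1 := congrArg (fun f : Perm (Quotient (cset x)) => f (Quotient.mk _ p)) h
  exact Quotient.exact h1

/-- the subgroup of permutations of the support preserving each cycle and commuting with `x` -/
def absub (x : Perm Ω) (xs : Perm {p // x p ≠ p}) : Subgroup (Perm {p // x p ≠ p}) where
  carrier := {z | z * xs = xs * z ∧ ∀ p : {p // x p ≠ p}, x.SameCycle p.1 (z p).1}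
  one_mem' := ⟨by simp, fun p => Perm.SameCycle.refl _ _⟩
  mul_mem' := by
    rintro z w ⟨hz, hz'⟩ ⟨hw, hw'⟩
    refine ⟨?_, fun p => (hw' p).trans (hz' (w p))⟩
    rw [mul_assoc, hw, ← mul_assoc, hz, mul_assoc]
  inv_mem' := by
    rintro z ⟨hz, hz'⟩
    refine ⟨?_, fun p => ?_⟩
    · have h1 : Commute z xs := hz
      exact h1.inv_left.eq
    · have h1 := hz' (z⁻¹ p)
      have h2 : z (z⁻¹ p) = p := by simp
      rw [h2] at h1
      exact h1.symm

theorem self_cent (x : Perm Ω) : x ∈ Subgroup.centralizer ({x} : Set (Perm Ω)) := by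
  rw [Subgroup.mem_centralizer_iff]
  rintro y rfl
  rfl

theorem rs_zpow (x : Perm Ω) (i : ℤ) (p : {p // x p ≠ p}) :
    ((rs x ⟨x, self_cent x⟩ ^ i) p).1 = (x ^ i) p.1 := by
  rw [← map_zpow]
  change ((⟨x, self_cent x⟩ ^ i : Subgroup.centralizer ({x} : Set (Perm Ω))) : Perm Ω) p.1 = _
  rw [Subgroup.coe_zpow]

theorem absub_comm (x : Perm Ω) : ∀ u ∈ absub x (rs x ⟨x, self_cent x⟩),
    ∀ v ∈ absub x (rs x ⟨x, self_cent x⟩), u * v = v * u := by
  rintro u ⟨hu, hu'⟩ v ⟨hv, hv'⟩
  ext p
  obtain ⟨i, hi⟩ := hu' p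
  obtain ⟨j, hj⟩ := hv' p
  set X := rs x ⟨x, self_cent x⟩ with hX
  have h1 : u p = (X ^ i) p := Subtype.ext (by rw [hX, rs_zpow, hi])
  have h2 : v p = (X ^ j) p := Subtype.ext (by rw [hX, rs_zpow, hj])
  have h3 : Commute u X := hu
  have h4 : Commute v X := hv
  have h5 := congrArg (fun f : Perm _ => f p) (h3.zpow_right j).eq
  have h6 := congrArg (fun f : Perm _ => f p) (h4.zpow_right i).eq
  simp only [Perm.coe_mul, Function.comp_apply] at h5 h6 ⊢
  rw [h2, h5, h1, h6, h2]
  have h7 := congrArg (fun f : Perm _ => f p) (zpow_mul_comm X j i)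
  simp only [Perm.coe_mul, Function.comp_apply] at h7
  rw [h7]

end

theorem card_cset {Ω : Type} [Fintype Ω] [DecidableEq Ω] (x : Perm Ω)
    [Fintype (Quotient (cset x))] :
    2 * Fintype.card (Quotient (cset x)) ≤ Fintype.card Ω := by
  classical
  have h1 : Fintype.card {p // x p ≠ p} ≤ Fintype.card Ω := Fintype.card_subtype_le _
  refine le_trans ?_ h1
  rw [← Finset.card_univ, ← Finset.card_univ]
  have h2 : ∀ b : Quotient (cset x), b ∈ (Finset.univ : Finset {p // x p ≠ p}).image
      (Quotient.mk (cset x)) := by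
    intro b
    induction b using Quotient.inductionOn with
    | h p => exact Finset.mem_image_of_mem _ (Finset.mem_univ _)
  have h3 : (Finset.univ : Finset {p // x p ≠ p}).image (Quotient.mk (cset x)) =
      Finset.univ := by
    ext b
    simp only [h2, Finset.mem_univ]
  rw [← h3]
  refine Finset.mul_card_image_le_card _ 2 ?_
  intro b _
  induction b using Quotient.inductionOn with
  | h p =>
    have hp : x (x p.1) ≠ x p.1 := fun h => p.2 (x.injective h)
    have h4 : ({p, ⟨x p.1, hp⟩} : Finset {p // x p ≠ p}) ⊆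
        Finset.univ.filter (fun a => Quotient.mk (cset x) a = Quotient.mk (cset x) p) := by
      intro a ha
      rw [Finset.mem_insert, Finset.mem_singleton] at ha
      rw [Finset.mem_filter]
      refine ⟨Finset.mem_univ _, ?_⟩
      rcases ha with rfl | rfl
      · rfl
      · apply Quotient.sound
        exact ⟨-1, by simp⟩
    have h5 := Finset.card_le_card h4
    rw [Finset.card_pair] at h5
    · exact h5
    · intro h6
      exact p.2 (congrArg Subtype.val h6).symm

/-- Let `x` be a permutation of `Ω`, `|Ω| ≤ l + 3`, `l ≥ 4`, and `y k`, `k < l`, a chain of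
permutations commuting with `x`, not all equal. Assuming `CycRes l`, all `y k` agree on the
support of `x`, and `x` has at least `l + 1` fixed points. -/
theorem perm_step {l : ℕ} (hl : 4 ≤ l) (hres : CycRes l) {Ω : Type} [Fintype Ω] [DecidableEq Ω]
    (hΩ : Fintype.card Ω ≤ l + 3) (x : Perm Ω) (y : ℕ → Perm Ω) (hy : Chain l y)
    (hxy : ∀ k, k < l → x * y k = y k * x) (hne : ∃ k, k < l ∧ y k ≠ y 0) :
    l + 1 ≤ (Finset.univ.filter fun p => x p = p).card := by
  classical
  -- the chain inside the centralizer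
  let Y : ℕ → Subgroup.centralizer ({x} : Set (Perm Ω)) := fun k =>
    if h : k < l then ⟨y k, by
      rw [Subgroup.mem_centralizer_iff]
      rintro z rfl
      exact hxy k h⟩ else 1
  have hYv : ∀ k, k < l → (Y k).1 = y k := by
    intro k hk
    simp only [Y, dif_pos hk]
  have hY : Chain l Y := by
    constructor
    · intro i j hij hj
      apply Subtype.ext
      change (Y i).1 * (Y j).1 = (Y j).1 * (Y i).1
      rw [hYv i (by omega), hYv j hj]
      exact hy.comm i j hij hj
    · intro i hi
      apply Subtype.ext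
      change (Y i).1 * (Y (i + 1)).1 * (Y i).1 = (Y (i + 1)).1 * (Y i).1 * (Y (i + 1)).1
      rw [hYv i (by omega), hYv (i + 1) hi]
      exact hy.braid i hi
  have hQ : ∀ k, k < l → rq x (Y k) = rq x (Y 0) := by
    apply hres (Quotient (cset x)) _ (fun k => rq x (Y k)) (chain_map hY (rq x))
    have := card_cset x
    omega
  have hS : ∀ k, k < l → rs x (Y k) = rs x (Y 0) := by
    apply chain_metab hl (chain_map hY (rs x)) (absub x (rs x ⟨x, self_cent x⟩)) (absub_comm x)
    intro i j hi hj
    rw [← map_inv, ← map_mul]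
    refine ⟨?_, fun p => ?_⟩
    · rw [← map_mul, ← map_mul]
      congr 1
      apply Subtype.ext
      exact (cent_comm (Y i * (Y j)⁻¹)).symm
    · have h1 := rq_same ((hQ i hi).trans (hQ j hj).symm) (rs x (Y j)⁻¹ p)
      have h2 : (Y j).1 (rs x (Y j)⁻¹ p).1 = p.1 := by
        change (Y j).1 ((Y j)⁻¹.1 p.1) = p.1
        simp
      rw [h2] at h1
      exact h1.symm
  by_contra hcon
  push Not at hcon
  have hF : ∀ k, k < l → rf x (Y k) = rf x (Y 0) := by
    apply hres {p // x p = p} _ (fun k => rf x (Y k)) (chain_map hY (rf x))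
    rw [Fintype.card_subtype]
    omega
  obtain ⟨k, hk, hk'⟩ := hne
  apply hk'
  rw [← hYv k hk, ← hYv 0 (by omega)]
  ext p
  by_cases hp : x p = p
  · have h1 := congrArg (fun f : Perm {p // x p = p} => (f ⟨p, hp⟩).1) (hF k hk)
    exact h1
  · have h1 := congrArg (fun f : Perm {p // x p ≠ p} => (f ⟨p, hp⟩).1) (hS k hk)
    exact h1

end ProfArtin
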