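import Pool.Agent.Work.MP_f6e909_al.PermSmall
import Pool.Agent.Work.MP_f6e909_al.PermStep

/-! # Homomorphisms from braid groups to symmetric groups -/

namespace ProfArtin

open Equiv

theorem perm_chain_shift_two {l : ℕ} {G : Type} [Group G] {x : ℕ → G} (hx : Chain (l + 2) x) :
    Chain l (fun k => x (k + 2)) := by
  have h := chain_shift hx 2
  simpa using h

theorem card_fix_add {Ω : Type} [Fintype Ω] [DecidableEq Ω] (x : Perm Ω) :
    (Finset.univ.filter fun p => x p = p).card + x.support.card = Fintype.card Ω := by
  have h1 : x.support = Finset.univ.filter fun p => ¬ (x p = p) := by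
    ext p
    simp [Perm.mem_support]
  rw [h1, Finset.card_filter_add_card_filter_not, Finset.card_univ]

/-- Artin: the braid group on `l + 1 ≥ 5` strands has only cyclic images in `S_k`, `k ≤ l`.
Induction from `l` to `l + 2` by `perm_step`, starting with `small_four` and `small_five`. -/
theorem cycRes {l : ℕ} (hl : 4 ≤ l) : CycRes l := by
  induction l using Nat.strong_induction_on with
  | _ l ih =>
    rcases Nat.lt_or_ge l 6 with h6 | h6
    · have h45 : l = 4 ∨ l = 5 := by omega
      rcases h45 with rfl | rfl
      · intro Ω _ _ hΩ x hx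
        exact small_four hΩ hx
      · intro Ω _ _ hΩ x hx
        exact small_five hΩ hx
    · obtain ⟨m, rfl⟩ : ∃ m, l = m + 2 := ⟨l - 2, by omega⟩
      have hm := ih m (by omega) (by omega)
      intro Ω _ _ hΩ x hx
      by_cases hne : ∃ k, k < m ∧ (fun k => x (k + 2)) k ≠ (fun k => x (k + 2)) 0
      · have h1 := perm_step (l := m) (by omega) hm (by omega) (x 0) (fun k => x (k + 2))
          (perm_chain_shift_two hx) (fun k hk => hx.comm 0 (k + 2) (by omega) (by omega)) hne
        have h2 := card_fix_add (x 0)
        have h3 : x 0 = 1 := by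
          by_contra hc
          have h4 := Perm.two_le_card_support_of_ne_one hc
          omega
        have h5 := hx.braid 0 (by omega)
        have h6 : x 0 = x (0 + 1) := by
          rw [h3] at h5 ⊢
          have h7 : x 1 = 1 := by simpa using h5
          exact h7.symm
        exact chain_adj hx (by omega) h6
      · push Not at hne
        have h1 := hne 1 (by omega)
        exact chain_adj hx (i := 2) (by omega) h1.symm

/-- A nonconstant chain of odd permutations of `n ≥ 5` points consists of transpositions or
(`n = 6`) of involutions without fixed points. -/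
theorem perm_main {n : ℕ} (hn : 5 ≤ n) {x : ℕ → Perm (Fin n)} (hx : Chain (n - 1) x)
    (hne : x 0 ≠ x 1) (hs : ∀ k, k < n - 1 → Perm.sign (x k) = -1) :
    (∀ k, k < n - 1 → (x k).IsSwap) ∨
      (n = 6 ∧ ∀ k, k < n - 1 → (∀ p, x k p ≠ p) ∧ x k * x k = 1) := by
  have hconj : ∀ k, k < n - 1 → ∃ g, x k = g * x 0 * g⁻¹ := by
    intro k hk
    obtain ⟨g, -, hg⟩ := chain_conj hx hk
    exact ⟨g, hg⟩
  have h23 : x 2 ≠ x 3 := by
    intro h
    exact hne (chain_adj hx (i := 2) (by omega) h 1 (by omega)).symm
  have hswap : (x 0).IsSwap → ∀ k, k < n - 1 → (x k).IsSwap := by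
    intro h k hk
    obtain ⟨g, hg⟩ := hconj k hk
    rw [← Perm.card_support_eq_two] at h ⊢
    rw [hg, Perm.card_support_conj, h]
  have hnc : x 2 * x 3 ≠ x 3 * x 2 := by
    intro h
    exact h23 (chain_eq_of_comm hx (i := 2) (by omega) h)
  rcases Nat.lt_or_ge n 7 with h7 | h7
  · have h56 : n = 5 ∨ n = 6 := by omega
    rcases h56 with rfl | rfl
    · left
      apply hswap
      exact perm_five (by simp) (x 0) (x 2) (x 3) (hx.comm 0 2 (by omega) (by omega))
        (hx.comm 0 3 (by omega) (by omega)) hnc (hs 0 (by omega))
    · rcases perm_six (by simp) (x 0) (x 2) (x 3) (hx.comm 0 2 (by omega) (by omega))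
        (hx.comm 0 3 (by omega) (by omega)) hnc (hs 0 (by omega)) with h | h
      · left
        exact hswap h
      · right
        refine ⟨rfl, fun k hk => ?_⟩
        obtain ⟨g, hg⟩ := hconj k hk
        constructor
        · intro p hp
          rw [hg] at hp
          simp only [Perm.coe_mul, Function.comp_apply] at hp
          apply h.1 (g⁻¹ p)
          apply g.injective
          rw [hp]
          simp
        · rw [hg]
          have h1 : g * x 0 * g⁻¹ * (g * x 0 * g⁻¹) = g * (x 0 * x 0) * g⁻¹ := by group
          rw [h1, h.2]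
          simp
  · left
    apply hswap
    obtain ⟨l, rfl⟩ : ∃ l, n = l + 3 := ⟨n - 3, by omega⟩
    have hx' : Chain (l + 2) x := hx
    have h1 := perm_step (l := l) (by omega) (cycRes (by omega)) (by simp) (x 0)
      (fun k => x (k + 2)) (perm_chain_shift_two hx')
      (fun k hk => hx.comm 0 (k + 2) (by omega) (by omega))
      ⟨1, by omega, fun h => h23 h.symm⟩
    have h2 := card_fix_add (x 0)
    rw [Fintype.card_fin] at h2
    rw [← Perm.card_support_eq_two]
    have h3 : x 0 ≠ 1 := by
      intro h
      have h4 := hs 0 (by omega)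
      rw [h] at h4
      simp at h4
    have h5 := Perm.two_le_card_support_of_ne_one h3
    omega

end ProfArtin
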