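import Pool.Agent.Work.MP_f6e909_al.ChainA
import Pool.Agent.Work.MP_f6e909_al.PermKey

/-! # Small symmetric groups -/

namespace ProfArtin

open Equiv

variable {Ω : Type} [Fintype Ω] [DecidableEq Ω]

private theorem sm_swap {a b d : Ω} (hab : a ≠ b) (had : a ≠ d)
    (h : swap a b * swap a d = swap a d * swap a b) : b = d := by
  by_contra hbd
  have h1 := congrArg (fun f : Perm Ω => f a) h
  simp only [Perm.mul_apply, swap_apply_left] at h1
  rw [swap_apply_of_ne_of_ne had.symm (Ne.symm hbd), swap_apply_of_ne_of_ne hab.symm hbd] at h1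
  exact hbd h1.symm

private theorem sm_disj {u v : Perm Ω} (hu : u.IsSwap) (hv : v.IsSwap) (h : u * v = v * u)
    (hne : u ≠ v) : Disjoint u.support v.support := by
  obtain ⟨a, b, hab, rfl⟩ := hu
  obtain ⟨c, d, hcd, rfl⟩ := hv
  rw [Perm.support_swap hab, Perm.support_swap hcd, Finset.disjoint_left]
  intro p hp hq
  simp only [Finset.mem_insert, Finset.mem_singleton] at hp hq
  rcases hp with rfl | rfl <;> rcases hq with hq | hq
  · subst hq
    exact hne (by rw [sm_swap hab hcd h])
  · subst hq
    rw [swap_comm c p] at h hne
    exact hne (by rw [sm_swap hab hcd.symm h])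
  · subst hq
    rw [swap_comm a p] at h hne
    exact hne (by rw [sm_swap hab.symm hcd h])
  · subst hq
    rw [swap_comm a p, swap_comm c p] at h hne
    exact hne (by rw [sm_swap hab.symm hcd.symm h])

private theorem sm_three (h5 : Fintype.card Ω ≤ 5) {u v w : Perm Ω} (hu : u.IsSwap)
    (hv : v.IsSwap) (hw : w.IsSwap) (huv : u * v = v * u) (huw : u * w = w * u)
    (hvw : v * w = w * v) (h1 : u ≠ v) (h2 : u ≠ w) (h3 : v ≠ w) : False := by
  have d1 := sm_disj hu hv huv h1
  have d2 := sm_disj hu hw huw h2
  have d3 := sm_disj hv hw hvw h3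
  have c1 := Perm.card_support_eq_two.2 hu
  have c2 := Perm.card_support_eq_two.2 hv
  have c3 := Perm.card_support_eq_two.2 hw
  have h4 : (u.support ∪ v.support ∪ w.support).card = 6 := by
    rw [Finset.card_union_of_disjoint, Finset.card_union_of_disjoint d1, c1, c2, c3]
    rw [Finset.disjoint_union_left]
    exact ⟨d2, d3⟩
  have h5' := Finset.card_le_univ (u.support ∪ v.support ∪ w.support)
  omega

private theorem sm_supp (h5 : Fintype.card Ω ≤ 5) {x u : Perm Ω} (hx : x.support.card = 4)
    (hu : u.support.card = 4) (h : x * u = u * x) : u.support = x.support := by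
  apply Finset.eq_of_subset_of_card_le
  · intro p hp
    by_contra hpx
    rw [Perm.mem_support] at hp
    apply hp
    have h1 : x p = p := Perm.notMem_support.1 hpx
    have h2 : x (u p) = u p := by
      have := congrArg (fun f : Perm Ω => f p) h
      simp only [Perm.mul_apply, h1] at this
      exact this
    by_contra h3
    have h4 : ({u p, p} : Finset Ω) ⊆ x.supportᶜ := by
      intro q hq
      simp only [Finset.mem_insert, Finset.mem_singleton] at hq
      rw [Finset.mem_compl, Perm.mem_support, not_not]
      rcases hq with rfl | rfl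
      · exact h2
      · exact h1
    have h5' := Finset.card_le_card h4
    rw [Finset.card_pair h3, Finset.card_compl, hx] at h5'
    omega
  · rw [hx, hu]

private theorem sm_comm (h5 : Fintype.card Ω ≤ 5) {x u v : Perm Ω} (hx : x.support.card = 4)
    (hu : u.support.card = 4) (hv : v.support.card = 4) (hu2 : u * u = 1) (hv2 : v * v = 1)
    (h1 : x * u = u * x) (h2 : x * v = v * x) : u * v = v * u := by
  have su := sm_supp h5 hx hu h1
  have sv := sm_supp h5 hx hv h2
  have huu : ∀ p, u (u p) = p := fun p => congrArg (fun f : Perm Ω => f p) hu2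
  have hvv : ∀ p, v (v p) = p := fun p => congrArg (fun f : Perm Ω => f p) hv2
  ext p
  rw [Perm.mul_apply, Perm.mul_apply]
  by_cases hp : p ∈ x.support
  · by_cases hpe : u p = v p
    · rw [← hpe, huu, hpe, hvv]
    · have mu : ∀ q, q ∈ x.support → u q ∈ x.support := by
        intro q hq; rw [← su] at hq ⊢; exact Perm.apply_mem_support.2 hq
      have mv : ∀ q, q ∈ x.support → v q ∈ x.support := by
        intro q hq; rw [← sv] at hq ⊢; exact Perm.apply_mem_support.2 hq
      have fu : ∀ q, q ∈ x.support → u q ≠ q := by
        intro q hq; rw [← su] at hq; exact Perm.mem_support.1 hq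
      have fv : ∀ q, q ∈ x.support → v q ≠ q := by
        intro q hq; rw [← sv] at hq; exact Perm.mem_support.1 hq
      by_contra hne
      have h3 : ({p, u p, v p, u (v p), v (u p)} : Finset Ω) ⊆ x.support := by
        intro q hq
        simp only [Finset.mem_insert, Finset.mem_singleton] at hq
        rcases hq with rfl | rfl | rfl | rfl | rfl
        · exact hp
        · exact mu _ hp
        · exact mv _ hp
        · exact mu _ (mv _ hp)
        · exact mv _ (mu _ hp)
      have h4 := Finset.card_le_card h3
      have e1 : p ≠ u p := (fu p hp).symm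
      have e2 : p ≠ v p := (fv p hp).symm
      have e3 : p ≠ u (v p) := by
        intro h; exact hpe (by conv_lhs => rw [h, huu])
      have e4 : p ≠ v (u p) := by
        intro h; exact hpe (by conv_rhs => rw [h, hvv])
      have e5 : u p ≠ u (v p) := fun h => e2 (u.injective h)
      have e6 : u p ≠ v (u p) := (fv _ (mu _ hp)).symm
      have e7 : v p ≠ u (v p) := (fu _ (mv _ hp)).symm
      have e8 : v p ≠ v (u p) := fun h => e1 (v.injective h)
      rw [Finset.card_insert_of_notMem (by simp [e1, e2, e3, e4]),
        Finset.card_insert_of_notMem (by simp [hpe, e5, e6]),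
        Finset.card_insert_of_notMem (by simp [e7, e8]), Finset.card_pair hne, hx] at h4
      omega
  · have h3 : u p = p := by
      rw [← su] at hp; exact Perm.notMem_support.1 hp
    have h4 : v p = p := by
      rw [← sv] at hp; exact Perm.notMem_support.1 hp
    rw [h4, h3, h4]

/-- common part: for a chain with `m ≥ 4` of permutations of at most five points, all are equal or
`x 0` is a swap (and there are five points). -/
private theorem sm_main (h5 : Fintype.card Ω ≤ 5) {m : ℕ} (hm : 4 ≤ m) {x : ℕ → Perm Ω}
    (hx : Chain m x) :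
    (∀ k, k < m → x k = x 0) ∨ ((x 0).IsSwap ∧ Fintype.card Ω = 5) := by
  by_contra hcon
  push Not at hcon
  obtain ⟨⟨k, hk, hk0⟩, hsw⟩ := hcon
  have h23 : x 2 * x 3 ≠ x 3 * x 2 := by
    intro h
    have h1 := chain_eq_of_comm hx (i := 2) (by omega) h
    exact hk0 (chain_adj hx (i := 2) (by omega) h1 k hk)
  have h02 := hx.comm 0 2 (by omega) (by omega)
  have h03 := hx.comm 0 3 (by omega) (by omega)
  rcases perm_le_five h5 (x 0) (x 2) (x 3) h02 h03 h23 with h | h | h
  · have h1 := hx.braid 0 (by omega)
    rw [h] at h1
    have h2 : x 0 = x (0 + 1) := by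
      rw [h]
      simp only [one_mul, mul_one] at h1
      exact (mul_eq_left.1 h1.symm).symm
    exact hk0 (chain_adj hx (i := 0) (by omega) h2 k hk)
  · exact hsw h.1 h.2
  · apply h23
    have hc : ∀ i, i < m → (x i).support.card = 4 ∧ x i * x i = 1 := by
      intro i hi
      obtain ⟨g, -, hg⟩ := chain_conj hx hi
      rw [hg]
      refine ⟨?_, ?_⟩
      · rw [Perm.card_support_conj]
        exact h.2
      · calc g * x 0 * g⁻¹ * (g * x 0 * g⁻¹) = g * (x 0 * x 0) * g⁻¹ := by group
          _ = 1 := by rw [h.1]; group
    exact sm_comm h5 h.2 (hc 2 (by omega)).1 (hc 3 (by omega)).1 (hc 2 (by omega)).2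
      (hc 3 (by omega)).2 h02 h03

/-- the braid group on five strands has only cyclic images in `S_k`, `k ≤ 4`.
(By `perm_le_five`, `x 0` is `1` or an involution moving four points; commuting fixed-point-free
involutions ...; any two fixed-point-free involutions of a four-point set commute.) -/
theorem small_four (h4 : Fintype.card Ω ≤ 4) {x : ℕ → Perm Ω} (hx : Chain 4 x) :
    ∀ k, k < 4 → x k = x 0 := by
  rcases sm_main (by omega) (le_refl 4) hx with h | h
  · exact h
  · omega

/-- the braid group on six strands has only cyclic images in `S_k`, `k ≤ 5`.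
(`x 0` is a transposition: then `x 2`, `x 3`, `x 4` are transpositions of the complement (three
points), and `x 2`, `x 4` commute, so `x 2 = x 4`. Or `x 0` is a product of two disjoint
transpositions: all `x k`, `k ≥ 2`, preserve its four-point support and fix the other points, and
they commute.) -/
theorem small_five (h5 : Fintype.card Ω ≤ 5) {x : ℕ → Perm Ω} (hx : Chain 5 x) :
    ∀ k, k < 5 → x k = x 0 := by
  rcases sm_main h5 (by norm_num) hx with h | h
  · exact h
  · by_contra hcon
    have hsw : ∀ i, i < 5 → (x i).IsSwap := by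
      intro i hi
      obtain ⟨g, -, hg⟩ := chain_conj hx hi
      rw [hg, ← Perm.card_support_eq_two, Perm.card_support_conj, Perm.card_support_eq_two]
      exact h.1
    have hne : ∀ i j, i < j → j < 5 → x i ≠ x j := by
      intro i j hij hj he
      exact hcon (chain_collapse (by norm_num) hx hij hj he)
    exact sm_three h5 (hsw 0 (by norm_num)) (hsw 2 (by norm_num)) (hsw 4 (by norm_num))
      (hx.comm 0 2 (by norm_num) (by norm_num)) (hx.comm 0 4 (by norm_num) (by norm_num))
      (hx.comm 2 4 (by norm_num) (by norm_num)) (hne 0 2 (by norm_num) (by norm_num))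
      (hne 0 4 (by norm_num) (by norm_num)) (hne 2 4 (by norm_num) (by norm_num))

end ProfArtin
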