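import Pool.Agent.Work.MP_f6e909_al.Defs

/-! # The abelianization of `SL(2, ℤ)` -/

namespace ProfArtin

abbrev SL2 := Matrix.SpecialLinearGroup (Fin 2) ℤ

theorem sl_closure : Subgroup.closure ({matT, matU} : Set SL2) = ⊤ := by
  rw [eq_top_iff, ← SpecialLinearGroup.SL2Z_generators, Subgroup.closure_le]
  have hT : matT ∈ Subgroup.closure ({matT, matU} : Set SL2) :=
    Subgroup.subset_closure (by simp)
  have hU : matU ∈ Subgroup.closure ({matT, matU} : Set SL2) :=
    Subgroup.subset_closure (by simp)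
  rintro x (rfl | rfl)
  · have h : ModularGroup.S = (matT * matU * matT)⁻¹ := by
      rw [eq_inv_iff_mul_eq_one]
      ext i j
      fin_cases i <;> fin_cases j <;>
        simp [ModularGroup.S, matT, matU, Matrix.mul_apply, Fin.sum_univ_two]
    rw [h]
    exact Subgroup.inv_mem _ (Subgroup.mul_mem _ (Subgroup.mul_mem _ hT hU) hT)
  · exact hT

theorem sl_braid : matT * matU * matT = matU * matT * matU := by
  ext i j
  fin_cases i <;> fin_cases j <;>
    simp [matT, matU, Matrix.mul_apply, Fin.sum_univ_two]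

private def ff {R : Type} [CommRing R] (a b c d : R) : R :=
  (1 - c * c) * (b * d + 3 * (c - 1) * d + c + 3) + c * (a + d - 3)

private theorem ff_T3 : ∀ a b c d : ZMod 3, a * d - b * c = 1 →
    ff a (a + b) c (c + d) - ff a b c d - 1 = 0 := by
  unfold ff
  decide

private theorem ff_U3 : ∀ a b c d : ZMod 3, a * d - b * c = 1 →
    ff (a - b) b (c - d) d - ff a b c d - 1 = 0 := by
  unfold ff
  decide

private theorem ff_T4 : ∀ a b c d : ZMod 4, a * d - b * c = 1 →
    ff a (a + b) c (c + d) - ff a b c d - 1 = 0 := by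
  unfold ff
  decide

private theorem ff_U4 : ∀ a b c d : ZMod 4, a * d - b * c = 1 →
    ff (a - b) b (c - d) d - ff a b c d - 1 = 0 := by
  unfold ff
  decide

private theorem dvd12 (m : ℤ) (h3 : ((m : ℤ) : ZMod 3) = 0) (h4 : ((m : ℤ) : ZMod 4) = 0) :
    ((m : ℤ) : ZMod 12) = 0 := by
  rw [ZMod.intCast_zmod_eq_zero_iff_dvd] at *
  push_cast at *
  omega

private def fv (x : SL2) : ℤ := ff (x.1 0 0) (x.1 0 1) (x.1 1 0) (x.1 1 1)

private theorem det_eq (x : SL2) : x.1 0 0 * x.1 1 1 - x.1 0 1 * x.1 1 0 = 1 := by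
  have := x.2
  rwa [Matrix.det_fin_two] at this

private theorem fv_T (x : SL2) : ((fv (x * matT) : ℤ) : ZMod 12) = (fv x : ℤ) + 1 := by
  have e : fv (x * matT) = ff (x.1 0 0) (x.1 0 0 + x.1 0 1) (x.1 1 0) (x.1 1 0 + x.1 1 1) := by
    simp [fv, matT, Matrix.mul_apply, Fin.sum_univ_two]
  have hd := det_eq x
  have key : ((fv (x * matT) - fv x - 1 : ℤ) : ZMod 12) = 0 := by
    apply dvd12
    · rw [e]
      have := ff_T3 (x.1 0 0 : ℤ) (x.1 0 1 : ℤ) (x.1 1 0 : ℤ) (x.1 1 1 : ℤ)
        (by exact_mod_cast congrArg (Int.cast : ℤ → ZMod 3) hd)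
      rw [← this]
      simp only [fv, ff]
      push_cast
      rfl
    · rw [e]
      have := ff_T4 (x.1 0 0 : ℤ) (x.1 0 1 : ℤ) (x.1 1 0 : ℤ) (x.1 1 1 : ℤ)
        (by exact_mod_cast congrArg (Int.cast : ℤ → ZMod 4) hd)
      rw [← this]
      simp only [fv, ff]
      push_cast
      rfl
  push_cast at key
  linear_combination key

private theorem fv_U (x : SL2) : ((fv (x * matU) : ℤ) : ZMod 12) = (fv x : ℤ) + 1 := by
  have e : fv (x * matU) = ff (x.1 0 0 - x.1 0 1) (x.1 0 1) (x.1 1 0 - x.1 1 1) (x.1 1 1) := by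
    simp [fv, matU, Matrix.mul_apply, Fin.sum_univ_two, sub_eq_add_neg]
  have hd := det_eq x
  have key : ((fv (x * matU) - fv x - 1 : ℤ) : ZMod 12) = 0 := by
    apply dvd12
    · rw [e]
      have := ff_U3 (x.1 0 0 : ℤ) (x.1 0 1 : ℤ) (x.1 1 0 : ℤ) (x.1 1 1 : ℤ)
        (by exact_mod_cast congrArg (Int.cast : ℤ → ZMod 3) hd)
      rw [← this]
      simp only [fv, ff]
      push_cast
      rfl
    · rw [e]
      have := ff_U4 (x.1 0 0 : ℤ) (x.1 0 1 : ℤ) (x.1 1 0 : ℤ) (x.1 1 1 : ℤ)
        (by exact_mod_cast congrArg (Int.cast : ℤ → ZMod 4) hd)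
      rw [← this]
      simp only [fv, ff]
      push_cast
      rfl
  push_cast at key
  linear_combination key

private theorem fv_one : ((fv 1 : ℤ) : ZMod 12) = 0 := by
  have : fv 1 = 0 := by
    simp [fv, ff]
  rw [this]
  simp

private theorem fv_mul (x y : SL2) :
    ((fv (x * y) : ℤ) : ZMod 12) = (fv x : ℤ) + (fv y : ℤ) := by
  have hy : y ∈ Subgroup.closure ({matT, matU} : Set SL2) := by
    rw [sl_closure]
    trivial
  induction hy using Subgroup.closure_induction generalizing x with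
  | mem y hy =>
    rcases hy with rfl | rfl
    · have h1 := fv_T 1
      rw [one_mul, fv_one, zero_add] at h1
      rw [fv_T, h1]
    · have h1 := fv_U 1
      rw [one_mul, fv_one, zero_add] at h1
      rw [fv_U, h1]
  | one => rw [mul_one, fv_one, add_zero]
  | mul y z _ _ ihy ihz => rw [← mul_assoc, ihz, ihy, ihz y, add_assoc]
  | inv y _ ih =>
    have h1 := ih (x * y⁻¹)
    have h2 := ih y⁻¹
    rw [inv_mul_cancel_right] at h1
    rw [inv_mul_cancel, fv_one] at h2
    linear_combination h2 - h1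

/-- The homomorphism to `ℤ/12`; for a matrix `[[a, b], [c, d]]` it is given by
`(1 - c²)(b d + 3 (c - 1) d + c + 3) + c (a + d - 3)` modulo 12 (up to sign conventions; one may
also combine homomorphisms modulo 3 and modulo 4, proved by `decide` on `ZMod 3`, `ZMod 4`). -/
theorem sl_chi : ∃ ρ : SL2 →* Multiplicative (ZMod 12),
    ρ matT = Multiplicative.ofAdd 1 ∧ ρ matU = Multiplicative.ofAdd 1 := by
  refine ⟨⟨⟨fun x => Multiplicative.ofAdd ((fv x : ℤ) : ZMod 12), ?_⟩, ?_⟩, ?_, ?_⟩
  · rw [fv_one]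
    rfl
  · intro x y
    show Multiplicative.ofAdd _ = Multiplicative.ofAdd _ * Multiplicative.ofAdd _
    rw [fv_mul, ofAdd_add]
  · have h1 := fv_T 1
    rw [one_mul, fv_one, zero_add] at h1
    show Multiplicative.ofAdd _ = _
    rw [h1]
  · have h1 := fv_U 1
    rw [one_mul, fv_one, zero_add] at h1
    show Multiplicative.ofAdd _ = _
    rw [h1]

end ProfArtin
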