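import Pool.Agent.Work.MP_f6e909_al.SlChi

/-! # Commuting and unipotent elements of `SL(2, ℤ)` -/

namespace ProfArtin

private theorem det_eq' (x : SL2) : x.1 0 0 * x.1 1 1 - x.1 0 1 * x.1 1 0 = 1 := by
  have := x.2
  rwa [Matrix.det_fin_two] at this

private theorem sl_ext {x y : SL2} (h00 : x.1 0 0 = y.1 0 0) (h01 : x.1 0 1 = y.1 0 1)
    (h10 : x.1 1 0 = y.1 1 0) (h11 : x.1 1 1 = y.1 1 1) : x = y := by
  ext i j
  fin_cases i <;> fin_cases j <;> assumption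

private theorem mul00 (x y : SL2) : (x * y).1 0 0 = x.1 0 0 * y.1 0 0 + x.1 0 1 * y.1 1 0 := by
  simp [Matrix.mul_apply, Fin.sum_univ_two]

private theorem mul01 (x y : SL2) : (x * y).1 0 1 = x.1 0 0 * y.1 0 1 + x.1 0 1 * y.1 1 1 := by
  simp [Matrix.mul_apply, Fin.sum_univ_two]

private theorem mul10 (x y : SL2) : (x * y).1 1 0 = x.1 1 0 * y.1 0 0 + x.1 1 1 * y.1 1 0 := by
  simp [Matrix.mul_apply, Fin.sum_univ_two]

private theorem mul11 (x y : SL2) : (x * y).1 1 1 = x.1 1 0 * y.1 0 1 + x.1 1 1 * y.1 1 1 := by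
  simp [Matrix.mul_apply, Fin.sum_univ_two]

private theorem inv00 (x : SL2) : (x⁻¹).1 0 0 = x.1 1 1 := by
  simp [Matrix.SpecialLinearGroup.coe_inv, Matrix.adjugate_fin_two]

private theorem inv01 (x : SL2) : (x⁻¹).1 0 1 = - x.1 0 1 := by
  simp [Matrix.SpecialLinearGroup.coe_inv, Matrix.adjugate_fin_two]

private theorem inv10 (x : SL2) : (x⁻¹).1 1 0 = - x.1 1 0 := by
  simp [Matrix.SpecialLinearGroup.coe_inv, Matrix.adjugate_fin_two]

private theorem inv11 (x : SL2) : (x⁻¹).1 1 1 = x.1 0 0 := by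
  simp [Matrix.SpecialLinearGroup.coe_inv, Matrix.adjugate_fin_two]

private theorem eq_pm {x : SL2} (h0 : x.1 0 0 = x.1 1 1) (h1 : x.1 0 1 = 0) (h2 : x.1 1 0 = 0) :
    x = 1 ∨ x = -1 := by
  have hd := det_eq' x
  rw [h1, ← h0] at hd
  have h : x.1 0 0 * x.1 0 0 = 1 := by linarith
  rcases mul_self_eq_one_iff.mp h with h | h
  · left
    refine sl_ext ?_ ?_ ?_ ?_
    · simpa using h
    · simpa using h1
    · simpa using h2
    · rw [← h0]
      simpa using h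
  · right
    refine sl_ext ?_ ?_ ?_ ?_
    · simpa using h
    · simpa using h1
    · simpa using h2
    · rw [← h0]
      simpa using h

/-- primitive direction of the traceless part -/
private theorem prim (x : SL2) (h1 : x ≠ 1) (h2 : x ≠ -1) :
    ∃ δ w₁ w₂ w₃ r₁ r₂ r₃ : ℤ, δ ≠ 0 ∧ r₁ * w₁ + r₂ * w₂ + r₃ * w₃ = 1 ∧
      x.1 0 0 - x.1 1 1 = δ * w₁ ∧ x.1 0 1 = δ * w₂ ∧ x.1 1 0 = δ * w₃ := by
  set A := x.1 0 0 - x.1 1 1 with hA
  set B := x.1 0 1 with hB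
  set C := x.1 1 0 with hC
  set e : ℤ := (Int.gcd B C : ℤ) with he
  set δ : ℤ := (Int.gcd A e : ℤ) with hδ
  have hδA : δ ∣ A := Int.gcd_dvd_left _ _
  have hδe : δ ∣ e := Int.gcd_dvd_right _ _
  have heB : e ∣ B := Int.gcd_dvd_left _ _
  have heC : e ∣ C := Int.gcd_dvd_right _ _
  obtain ⟨w₁, hw₁⟩ := hδA
  obtain ⟨w₂, hw₂⟩ := hδe.trans heB
  obtain ⟨w₃, hw₃⟩ := hδe.trans heC
  have b1 : δ = A * Int.gcdA A e + e * Int.gcdB A e := Int.gcd_eq_gcd_ab _ _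
  have b2 : e = B * Int.gcdA B C + C * Int.gcdB B C := Int.gcd_eq_gcd_ab _ _
  have hne : δ ≠ 0 := by
    intro h0
    rw [h0, zero_mul] at hw₁ hw₂ hw₃
    rcases eq_pm (x := x) (by linarith) hw₂ hw₃ with h | h
    · exact h1 h
    · exact h2 h
  refine ⟨δ, w₁, w₂, w₃, Int.gcdA A e, Int.gcdB A e * Int.gcdA B C,
    Int.gcdB A e * Int.gcdB B C, hne, ?_, hw₁, hw₂, hw₃⟩
  have : δ * (Int.gcdA A e * w₁ + Int.gcdB A e * Int.gcdA B C * w₂ +
      Int.gcdB A e * Int.gcdB B C * w₃) = δ * 1 := by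
    have e1 : δ * (Int.gcdA A e * w₁ + Int.gcdB A e * Int.gcdA B C * w₂ +
        Int.gcdB A e * Int.gcdB B C * w₃) =
        (δ * w₁) * Int.gcdA A e + ((δ * w₂) * Int.gcdA B C + (δ * w₃) * Int.gcdB B C) *
          Int.gcdB A e := by ring
    rw [e1, ← hw₁, ← hw₂, ← hw₃, ← b2, ← b1, mul_one]
  exact mul_left_cancel₀ hne this

/-- elements commuting with `x` have parallel traceless part -/
private theorem parallel {x y : SL2} (hxy : x * y = y * x) {δ w₁ w₂ w₃ r₁ r₂ r₃ : ℤ}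
    (hδ : δ ≠ 0) (hr : r₁ * w₁ + r₂ * w₂ + r₃ * w₃ = 1)
    (ha : x.1 0 0 - x.1 1 1 = δ * w₁) (hb : x.1 0 1 = δ * w₂) (hc : x.1 1 0 = δ * w₃) :
    ∃ μ : ℤ, y.1 0 0 - y.1 1 1 = μ * w₁ ∧ y.1 0 1 = μ * w₂ ∧ y.1 1 0 = μ * w₃ := by
  have e00 := congrArg (fun z : SL2 => z.1 0 0) hxy
  have e01 := congrArg (fun z : SL2 => z.1 0 1) hxy
  have e10 := congrArg (fun z : SL2 => z.1 1 0) hxy
  simp only [mul00, mul01, mul10] at e00 e01 e10
  have c1 : w₂ * y.1 1 0 = y.1 0 1 * w₃ := by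
    apply mul_left_cancel₀ hδ
    have : x.1 0 1 * y.1 1 0 = y.1 0 1 * x.1 1 0 := by linarith
    rw [hb, hc] at this
    linarith
  have c2 : y.1 0 1 * w₁ = w₂ * (y.1 0 0 - y.1 1 1) := by
    apply mul_left_cancel₀ hδ
    have : y.1 0 1 * (x.1 0 0 - x.1 1 1) = x.1 0 1 * (y.1 0 0 - y.1 1 1) := by linarith
    rw [ha, hb] at this
    linarith
  have c3 : w₃ * (y.1 0 0 - y.1 1 1) = y.1 1 0 * w₁ := by
    apply mul_left_cancel₀ hδ
    have : x.1 1 0 * (y.1 0 0 - y.1 1 1) = y.1 1 0 * (x.1 0 0 - x.1 1 1) := by linarith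
    rw [ha, hc] at this
    linarith
  refine ⟨r₁ * (y.1 0 0 - y.1 1 1) + r₂ * y.1 0 1 + r₃ * y.1 1 0, ?_, ?_, ?_⟩
  · linear_combination (-(y.1 0 0 - y.1 1 1)) * hr - r₂ * c2 + r₃ * c3
  · linear_combination (-(y.1 0 1)) * hr + r₁ * c2 - r₃ * c1
  · linear_combination (-(y.1 1 0)) * hr - r₁ * c3 + r₂ * c1

/-- conjugation does not change the divisibility of the traceless part -/
private theorem conj_dvd (x g : SL2) (m : ℤ) (h0 : m ∣ x.1 0 0 - x.1 1 1) (h1 : m ∣ x.1 0 1)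
    (h2 : m ∣ x.1 1 0) : m ∣ (g * x * g⁻¹).1 0 0 - (g * x * g⁻¹).1 1 1 ∧
      m ∣ (g * x * g⁻¹).1 0 1 ∧ m ∣ (g * x * g⁻¹).1 1 0 := by
  obtain ⟨A, hA⟩ := h0
  obtain ⟨B, hB⟩ := h1
  obtain ⟨C, hC⟩ := h2
  have hA' : x.1 0 0 = m * A + x.1 1 1 := by linarith
  simp only [mul00, mul01, mul10, mul11, inv00, inv01, inv10, inv11]
  refine ⟨⟨A * (g.1 0 0 * g.1 1 1 + g.1 0 1 * g.1 1 0) - 2 * B * g.1 0 0 * g.1 1 0 +
    2 * C * g.1 0 1 * g.1 1 1, ?_⟩, ⟨-A * g.1 0 0 * g.1 0 1 + B * g.1 0 0 * g.1 0 0 -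
    C * g.1 0 1 * g.1 0 1, ?_⟩, ⟨A * g.1 1 0 * g.1 1 1 - B * g.1 1 0 * g.1 1 0 +
    C * g.1 1 1 * g.1 1 1, ?_⟩⟩
  · rw [hA', hB, hC]
    ring
  · rw [hA', hB, hC]
    ring
  · rw [hA', hB, hC]
    ring

private theorem conj_trace (x g : SL2) :
    (g * x * g⁻¹).1 0 0 + (g * x * g⁻¹).1 1 1 = x.1 0 0 + x.1 1 1 := by
  have hd := det_eq' g
  simp only [mul00, mul01, mul10, mul11, inv00, inv01, inv10, inv11]
  linear_combination (x.1 0 0 + x.1 1 1) * hd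

/-- Commuting conjugate elements of `SL(2, ℤ)` different from `± 1` are equal or inverse.
(The vectors `(a - d, b, c)` of two commuting elements are parallel, those of conjugate elements
have the same content, and the traces are equal.) -/
theorem sl_comm_conj (x y g : SL2) (hg : y = g * x * g⁻¹) (hxy : x * y = y * x) (h1 : x ≠ 1)
    (h2 : x ≠ -1) : y = x ∨ y = x⁻¹ := by
  obtain ⟨δ, w₁, w₂, w₃, r₁, r₂, r₃, hδ, hr, ha, hb, hc⟩ := prim x h1 h2
  obtain ⟨μ, ha', hb', hc'⟩ := parallel hxy hδ hr ha hb hc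
  have hx : x = g⁻¹ * y * g⁻¹⁻¹ := by
    rw [hg]
    group
  have d1 := conj_dvd x g δ ⟨w₁, ha⟩ ⟨w₂, hb⟩ ⟨w₃, hc⟩
  have d2 := conj_dvd y g⁻¹ μ ⟨w₁, ha'⟩ ⟨w₂, hb'⟩ ⟨w₃, hc'⟩
  have ht := conj_trace x g
  rw [← hg] at d1 ht
  rw [← hx] at d2
  rw [ha', hb', hc'] at d1
  rw [ha, hb, hc] at d2
  have k1 : δ ∣ μ := by
    have : μ = r₁ * (μ * w₁) + r₂ * (μ * w₂) + r₃ * (μ * w₃) := by
      linear_combination (-μ) * hr
    rw [this]
    exact dvd_add (dvd_add (d1.1.mul_left _) (d1.2.1.mul_left _)) (d1.2.2.mul_left _)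
  have k2 : μ ∣ δ := by
    have : δ = r₁ * (δ * w₁) + r₂ * (δ * w₂) + r₃ * (δ * w₃) := by
      linear_combination (-δ) * hr
    rw [this]
    exact dvd_add (dvd_add (d2.1.mul_left _) (d2.2.1.mul_left _)) (d2.2.2.mul_left _)
  rcases Int.natAbs_eq_natAbs_iff.mp (Nat.dvd_antisymm (Int.natAbs_dvd_natAbs.mpr k1)
    (Int.natAbs_dvd_natAbs.mpr k2)) with h | h
  · left
    rw [← h] at ha' hb' hc'
    refine sl_ext ?_ ?_ ?_ ?_
    · linarith
    · rw [hb, hb']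
    · rw [hc, hc']
    · linarith
  · right
    have h' : μ = -δ := by linarith
    rw [h'] at ha' hb' hc'
    refine sl_ext ?_ ?_ ?_ ?_
    · rw [inv00]
      linarith
    · rw [inv01, hb, hb']
      ring
    · rw [inv10, hc, hc']
      ring
    · rw [inv11]
      linarith

/-- the centralizer of an element different from `± 1` is commutative -/
theorem sl_centralizer (x y z : SL2) (h1 : x ≠ 1) (h2 : x ≠ -1) (hy : x * y = y * x)
    (hz : x * z = z * x) : y * z = z * y := by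
  obtain ⟨δ, w₁, w₂, w₃, r₁, r₂, r₃, hδ, hr, ha, hb, hc⟩ := prim x h1 h2
  obtain ⟨μ, ha', hb', hc'⟩ := parallel hy hδ hr ha hb hc
  obtain ⟨ν, ha'', hb'', hc''⟩ := parallel hz hδ hr ha hb hc
  have hy0 : y.1 0 0 = μ * w₁ + y.1 1 1 := by linarith
  have hz0 : z.1 0 0 = ν * w₁ + z.1 1 1 := by linarith
  refine sl_ext ?_ ?_ ?_ ?_
  · rw [mul00, mul00, hb', hc'', hb'', hc']
    ring
  · rw [mul01, mul01, hb', hb'', hy0, hz0]
    ring
  · rw [mul10, mul10, hc', hc'', hy0, hz0]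
    ring
  · rw [mul11, mul11, hb', hc'', hb'', hc']
    ring

/-- an involution is `± 1` -/
theorem sl_involution (x : SL2) (h : x * x = 1) : x = 1 ∨ x = -1 := by
  have hx : x = x⁻¹ := eq_inv_of_mul_eq_one_left h
  have h00 := congrArg (fun z : SL2 => z.1 0 0) hx
  have h01 := congrArg (fun z : SL2 => z.1 0 1) hx
  have h10 := congrArg (fun z : SL2 => z.1 1 0) hx
  simp only [inv00, inv01, inv10] at h00 h01 h10
  exact eq_pm h00 (by linarith) (by linarith)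

/-- `SL(2, ℤ)` is not commutative -/
theorem sl_not_comm : ¬ ∀ x y : SL2, x * y = y * x := by
  intro h
  have h1 := congrArg (fun z : SL2 => z.1 0 0) (h matT matU)
  simp [mul00, matT, matU] at h1

private theorem matT_zpow (k : ℤ) : ((matT ^ k : SL2)).1 = !![1, k; 0, 1] := by
  have h : matT = ModularGroup.T := rfl
  rw [h]
  exact ModularGroup.coe_T_zpow k

/-- an element fixing a nonzero vector is conjugate to a power of `matT` -/
theorem sl_fix (x : SL2) (u : Fin 2 → ℤ) (hu : u ≠ 0) (h : x.1.mulVec u = u) :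
    ∃ (g : SL2) (k : ℤ), x = g * matT ^ k * g⁻¹ := by
  set δ : ℤ := (Int.gcd (u 0) (u 1) : ℤ) with hδ
  obtain ⟨w₁, hw₁⟩ : δ ∣ u 0 := Int.gcd_dvd_left _ _
  obtain ⟨w₂, hw₂⟩ : δ ∣ u 1 := Int.gcd_dvd_right _ _
  have b1 : δ = u 0 * Int.gcdA (u 0) (u 1) + u 1 * Int.gcdB (u 0) (u 1) := Int.gcd_eq_gcd_ab _ _
  have hne : δ ≠ 0 := by
    intro h0
    apply hu
    rw [h0, zero_mul] at hw₁ hw₂
    ext i
    fin_cases i
    · exact hw₁
    · exact hw₂
  set r₁ := Int.gcdA (u 0) (u 1)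
  set r₂ := Int.gcdB (u 0) (u 1)
  have hr : r₁ * w₁ + r₂ * w₂ = 1 := by
    apply mul_left_cancel₀ hne
    rw [mul_one]
    conv_rhs => rw [b1, hw₁, hw₂]
    ring
  have f0 : x.1 0 0 * u 0 + x.1 0 1 * u 1 = u 0 := by
    have := congrFun h 0
    simpa [Matrix.mulVec, dotProduct, Fin.sum_univ_two] using this
  have f1 : x.1 1 0 * u 0 + x.1 1 1 * u 1 = u 1 := by
    have := congrFun h 1
    simpa [Matrix.mulVec, dotProduct, Fin.sum_univ_two] using this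
  rw [hw₁, hw₂] at f0 f1
  have g0 : x.1 0 0 * w₁ + x.1 0 1 * w₂ = w₁ := by
    apply mul_left_cancel₀ hne
    linarith
  have g1 : x.1 1 0 * w₁ + x.1 1 1 * w₂ = w₂ := by
    apply mul_left_cancel₀ hne
    linarith
  have hd := det_eq' x
  let g : SL2 := ⟨!![w₁, -r₂; w₂, r₁], by
    rw [Matrix.det_fin_two]
    simp
    linarith⟩
  have hg00 : g.1 0 0 = w₁ := rfl
  have hg01 : g.1 0 1 = -r₂ := rfl
  have hg10 : g.1 1 0 = w₂ := rfl
  have hg11 : g.1 1 1 = r₁ := rfl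
  -- `k` is the upper right entry of `g⁻¹ x g`
  set k : ℤ := r₁ * (x.1 0 0 * (-r₂) + x.1 0 1 * r₁) + r₂ * (x.1 1 0 * (-r₂) + x.1 1 1 * r₁)
    with hk
  refine ⟨g, k, ?_⟩
  rw [eq_mul_inv_iff_mul_eq]
  have i0 : x.1 1 1 * w₁ - x.1 0 1 * w₂ = w₁ := by
    linear_combination w₁ * hd - x.1 1 1 * g0 + x.1 0 1 * g1
  have i1 : x.1 0 0 * w₂ - x.1 1 0 * w₁ = w₂ := by
    linear_combination w₂ * hd - x.1 0 0 * g1 + x.1 1 0 * g0
  have hT00 : (matT ^ k : SL2).1 0 0 = 1 := by rw [matT_zpow]; rfl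
  have hT01 : (matT ^ k : SL2).1 0 1 = k := by rw [matT_zpow]; rfl
  have hT10 : (matT ^ k : SL2).1 1 0 = 0 := by rw [matT_zpow]; rfl
  have hT11 : (matT ^ k : SL2).1 1 1 = 1 := by rw [matT_zpow]; rfl
  refine sl_ext ?_ ?_ ?_ ?_
  · rw [mul00, mul00, hT00, hT10, hg00, hg01, hg10]
    linarith
  · rw [mul01, mul01, hT01, hT11, hg00, hg01, hg11, hk]
    linear_combination (x.1 0 0 * (-r₂) + x.1 0 1 * r₁) * (-1) * hr - r₂ * r₁ * i0 - r₂ * r₂ * i1 - r₂ * hr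
  · rw [mul10, mul10, hT00, hT10, hg00, hg11, hg10]
    linarith
  · rw [mul11, mul11, hT01, hT11, hg01, hg10, hg11, hk]
    linear_combination (x.1 1 0 * (-r₂) + x.1 1 1 * r₁) * (-1) * hr + r₁ * r₁ * i0 + r₁ * r₂ * i1 + r₁ * hr

/-- conjugates of `matT ^ k` generate only if `k = ± 1`
(if `|k| ≠ 1` they are all trivial modulo `k`). -/
theorem sl_gen_pow (k : ℤ) (P : Set SL2) (hP : ∀ x ∈ P, ∃ g : SL2, x = g * matT ^ k * g⁻¹)
    (hgen : Subgroup.closure P = ⊤) : k = 1 ∨ k = -1 := by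
  let f : SL2 →* Matrix.SpecialLinearGroup (Fin 2) (ZMod k.natAbs) :=
    Matrix.SpecialLinearGroup.map (Int.castRingHom (ZMod k.natAbs))
  have hT : f (matT ^ k) = 1 := by
    ext i j
    have : (f (matT ^ k)).1 i j = (((matT ^ k : SL2).1 i j : ℤ) : ZMod k.natAbs) := rfl
    rw [this, matT_zpow]
    have hk : ((k : ℤ) : ZMod k.natAbs) = 0 := by
      rw [ZMod.intCast_zmod_eq_zero_iff_dvd]
      exact Int.natAbs_dvd_self
    fin_cases i <;> fin_cases j <;> simp [hk]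
  have h1 : ∀ x : SL2, f x = 1 := by
    intro x
    have hx : x ∈ Subgroup.closure P := by
      rw [hgen]
      trivial
    induction hx using Subgroup.closure_induction with
    | mem x hx =>
      obtain ⟨g, rfl⟩ := hP x hx
      rw [map_mul, map_mul, hT, mul_one, ← map_mul, mul_inv_cancel, map_one]
    | one => exact map_one _
    | mul x y _ _ hx hy => rw [map_mul, hx, hy, mul_one]
    | inv x _ hx => rw [map_inv, hx, inv_one]
  have h2 : (f matT).1 0 1 = 0 := by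
    rw [h1]
    simp
  have h3 : (f matT).1 0 1 = (((matT : SL2).1 0 1 : ℤ) : ZMod k.natAbs) := rfl
  rw [h3] at h2
  have h4 : ((1 : ℤ) : ZMod k.natAbs) = 0 := h2
  rw [ZMod.intCast_zmod_eq_zero_iff_dvd] at h4
  have h5 : k.natAbs = 1 := by
    rw [Int.natCast_dvd] at h4
    simpa using h4
  omega

/-- the vector which is fixed up to sign by all matrices is zero -/
theorem sl_fix_all (u : Fin 2 → ℤ) (h : ∀ x : SL2, x.1.mulVec u = u ∨ x.1.mulVec u = -u) :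
    u = 0 := by
  have hT := h matT
  have hU := h matU
  simp only [funext_iff, Fin.forall_fin_two, matT, matU, Matrix.mulVec, dotProduct,
    Fin.sum_univ_two] at hT hU
  simp at hT hU
  ext i
  fin_cases i
  · show u 0 = 0
    omega
  · show u 1 = 0
    omega

end ProfArtin
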