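import Pool.Agent.Work.MP_f6e909_al.Defs

/-! # The central twist: basic properties -/

namespace ProfArtin

variable {G : Type} [Group G]

/-- the natural map into the twist -/
def twOf (h : G) (κ : ℕ) : G →* Tw G h κ :=
  (QuotientGroup.mk' _).comp (MonoidHom.inl G (Multiplicative ℤ))

/-- the new central element -/
def twZ (h : G) (κ : ℕ) : Tw G h κ := QuotientGroup.mk (1, Multiplicative.ofAdd 1)

theorem tw_z_comm (h : G) (κ : ℕ) (x : Tw G h κ) : x * twZ h κ = twZ h κ * x := by
  induction x using QuotientGroup.induction_on with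
  | H x =>
    unfold twZ
    rw [← QuotientGroup.mk_mul, ← QuotientGroup.mk_mul]
    congr 1
    refine Prod.ext ?_ ?_
    · simp
    · exact mul_comm _ _

private theorem twOf_apply (h : G) (κ : ℕ) (g : G) :
    twOf h κ g = QuotientGroup.mk (g, (1 : Multiplicative ℤ)) := rfl

private theorem twZ_zpow (h : G) (κ : ℕ) (k : ℤ) :
    twZ h κ ^ k = QuotientGroup.mk ((1 : G), Multiplicative.ofAdd k) := by
  unfold twZ
  rw [← QuotientGroup.mk_zpow]
  congr 1
  refine Prod.ext ?_ ?_
  · simp
  · simp only [Prod.pow_snd]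
    rw [← ofAdd_zsmul, smul_eq_mul, mul_one]

theorem tw_pow (h : G) (κ : ℕ) : twZ h κ ^ κ = twOf h κ h := by
  rw [← zpow_natCast, twZ_zpow, twOf_apply, QuotientGroup.eq]
  have : ((1 : G), Multiplicative.ofAdd (κ : ℤ))⁻¹ * (h, (1 : Multiplicative ℤ)) =
      (h, Multiplicative.ofAdd (-(κ : ℤ))) := by
    refine Prod.ext ?_ ?_
    · simp
    · simp
  rw [this]
  exact Subgroup.subset_normalClosure (Set.mem_singleton _)

theorem tw_surj (h : G) (κ : ℕ) (x : Tw G h κ) :
    ∃ (g : G) (k : ℤ), x = twOf h κ g * twZ h κ ^ k := by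
  induction x using QuotientGroup.induction_on with
  | H x =>
    refine ⟨x.1, x.2.toAdd, ?_⟩
    rw [twZ_zpow, twOf_apply, ← QuotientGroup.mk_mul]
    congr 1
    refine Prod.ext ?_ ?_
    · simp
    · simp

theorem tw_lift {X : Type} [Group X] (h : G) (κ : ℕ) (f : G →* X) (x : X)
    (hx : ∀ g, f g * x = x * f g) (hf : f h = x ^ κ) :
    ∃ F : Tw G h κ →* X, (∀ g, F (twOf h κ g) = f g) ∧ F (twZ h κ) = x := by
  have hcomm : ∀ (g : G) (k : Multiplicative ℤ), Commute (f g) (zpowersHom X x k) := by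
    intro g k
    rw [zpowersHom_apply]
    exact Commute.zpow_right (hx g) _
  let F₀ : G × Multiplicative ℤ →* X := MonoidHom.noncommCoprod f (zpowersHom X x) hcomm
  have hker : Subgroup.normalClosure {((h, Multiplicative.ofAdd (-(κ : ℤ))) : G × Multiplicative ℤ)}
      ≤ F₀.ker := by
    apply Subgroup.normalClosure_le_normal
    rintro _ rfl
    change F₀ _ = 1
    rw [MonoidHom.noncommCoprod_apply, hf]
    simp
  refine ⟨QuotientGroup.lift _ F₀ hker, ?_, ?_⟩
  · intro g
    rw [twOf_apply, QuotientGroup.lift_mk]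
    rw [MonoidHom.noncommCoprod_apply]
    simp
  · unfold twZ
    rw [QuotientGroup.lift_mk, MonoidHom.noncommCoprod_apply]
    simp

theorem tw_inj {h : G} (hh : h ∈ Subgroup.center G) {κ : ℕ} (hκ : 1 ≤ κ) :
    Function.Injective (twOf h κ) := by
  rw [injective_iff_map_eq_one]
  intro g hg
  rw [twOf_apply, QuotientGroup.eq_one_iff] at hg
  set w : G × Multiplicative ℤ := (h, Multiplicative.ofAdd (-(κ : ℤ))) with hw
  have hwc : w ∈ Subgroup.center (G × Multiplicative ℤ) := by
    rw [Subgroup.mem_center_iff] at hh ⊢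
    intro y
    refine Prod.ext ?_ ?_
    · exact hh y.1
    · exact mul_comm _ _
  have hle : Subgroup.zpowers w ≤ Subgroup.center (G × Multiplicative ℤ) := by
    rw [Subgroup.zpowers_le]
    exact hwc
  have hnorm : (Subgroup.zpowers w).Normal := by
    refine ⟨fun y hy z => ?_⟩
    have h1 := Subgroup.mem_center_iff.1 (hle hy) z
    rw [h1]
    simpa using hy
  have hmem : ((g, (1 : Multiplicative ℤ)) : G × Multiplicative ℤ) ∈ Subgroup.zpowers w := by
    have h2 : Subgroup.normalClosure {w} ≤ Subgroup.zpowers w := by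
      apply Subgroup.normalClosure_le_normal
      rintro _ rfl
      exact Subgroup.mem_zpowers w
    exact h2 hg
  obtain ⟨j, hj⟩ := Subgroup.mem_zpowers_iff.1 hmem
  have h3 := congrArg Prod.snd hj
  have h4 := congrArg Prod.fst hj
  simp only [hw, Prod.pow_snd, Prod.pow_fst] at h3 h4
  rw [← ofAdd_zsmul, ← ofAdd_zero, Multiplicative.ofAdd.apply_eq_iff_eq] at h3
  rw [smul_eq_mul] at h3
  have h5 : j = 0 := by
    rcases mul_eq_zero.1 h3 with h | h
    · exact h
    · omega
  rw [← h4, h5, zpow_zero]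

theorem tw_fg (h : G) (κ : ℕ) (hG : Group.FG G) : Group.FG (Tw G h κ) := by
  have h1 : Group.FG (Multiplicative ℤ) := by infer_instance
  have h2 : Group.FG (G × Multiplicative ℤ) := by infer_instance
  exact Group.fg_of_surjective (QuotientGroup.mk'_surjective _)

/-- the twist of a finite group is finite -/
theorem tw_finite [Finite G] (h : G) {κ : ℕ} (hκ : 1 ≤ κ) : Finite (Tw G h κ) := by
  have hsurj : Function.Surjective (fun p : G × Fin κ => twOf h κ p.1 * twZ h κ ^ (p.2 : ℕ)) := by
    intro x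
    obtain ⟨g, k, rfl⟩ := tw_surj h κ x
    have hk0 : (0 : ℤ) ≤ k % κ := Int.emod_nonneg _ (by omega)
    have hk1 : k % (κ : ℤ) < κ := Int.emod_lt_of_pos _ (by omega)
    refine ⟨(g * h ^ (k / (κ : ℤ)), ⟨(k % κ).toNat, by omega⟩), ?_⟩
    simp only
    rw [map_mul, map_zpow, ← tw_pow, ← zpow_natCast, ← zpow_natCast, ← zpow_mul, mul_assoc,
      ← zpow_add]
    congr 2
    rw [Int.toNat_of_nonneg hk0]
    exact Int.mul_ediv_add_emod k κ
  exact Finite.of_surjective _ hsurj

/-- the twist of a residually finite group is residually finite. Let `x = twOf g * twZ ^ k`.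
If `κ` does not divide `k`, use the map to `ℤ/κ`; otherwise `x = twOf g₁`, and one uses the twist
of a finite quotient of `G` in which `g₁` survives. -/
theorem tw_rf {h : G} (hh : h ∈ Subgroup.center G) {κ : ℕ} (hκ : 1 ≤ κ)
    (hG : Group.ResiduallyFinite G) : Group.ResiduallyFinite (Tw G h κ) := by
  refine Group.residuallyFinite_of_forall_exists_finite_monoidHom fun x hx => ?_
  obtain ⟨g, k, rfl⟩ := tw_surj h κ x
  by_cases hk : (κ : ℤ) ∣ k
  · obtain ⟨j, rfl⟩ := hk
    have e1 : twOf h κ g * twZ h κ ^ ((κ : ℤ) * j) = twOf h κ (g * h ^ j) := by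
      rw [zpow_mul, zpow_natCast, tw_pow, map_mul, map_zpow]
    rw [e1] at hx ⊢
    set g₁ := g * h ^ j with hg₁
    have hne : g₁ ≠ 1 := by
      intro h0
      rw [h0, map_one] at hx
      exact hx rfl
    obtain ⟨V, hV⟩ := Group.exists_finiteIndexNormalSubgroup_notMem g₁ hne
    let Q := G ⧸ V.toSubgroup
    let h' : Q := QuotientGroup.mk h
    have hh' : h' ∈ Subgroup.center Q := by
      rw [Subgroup.mem_center_iff] at hh ⊢
      intro y
      induction y using QuotientGroup.induction_on with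
      | H y =>
        change (QuotientGroup.mk y : Q) * QuotientGroup.mk h =
          QuotientGroup.mk h * QuotientGroup.mk y
        rw [← QuotientGroup.mk_mul, ← QuotientGroup.mk_mul, hh y]
    haveI : Finite Q := Subgroup.finite_quotient_of_finiteIndex
    obtain ⟨F, hF1, hF2⟩ := tw_lift h κ ((twOf h' κ).comp (QuotientGroup.mk' V.toSubgroup))
      (twZ h' κ) (fun g => tw_z_comm h' κ _) (by
        rw [tw_pow]
        rfl)
    refine ⟨Tw Q h' κ, inferInstance, tw_finite h' hκ, F, ?_⟩
    rw [hF1]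
    intro h0
    have h1 : (QuotientGroup.mk' V.toSubgroup) g₁ = 1 := by
      apply tw_inj hh' hκ
      rw [map_one]
      exact h0
    rw [QuotientGroup.mk'_apply, QuotientGroup.eq_one_iff] at h1
    exact hV h1
  · haveI : NeZero κ := ⟨by omega⟩
    obtain ⟨F, hF1, hF2⟩ := tw_lift (X := Multiplicative (ZMod κ)) h κ 1
      (Multiplicative.ofAdd 1) (fun g => by simp) (by
        rw [← ofAdd_nsmul]
        simp)
    refine ⟨Multiplicative (ZMod κ), inferInstance, inferInstance, F, ?_⟩
    rw [map_mul, map_zpow, hF1, hF2]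
    simp only [MonoidHom.one_apply, one_mul]
    rw [← ofAdd_zsmul, ← ofAdd_zero]
    intro h0
    rw [Multiplicative.ofAdd.apply_eq_iff_eq] at h0
    apply hk
    rw [← ZMod.intCast_zmod_eq_zero_iff_dvd]
    simpa using h0

end ProfArtin
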